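import Mathlib

/-!
# Block CP-AI: algebraically independent points are dense.

For a finite type `V`, `r : V → ℝ` and `η > 0` there is `r'` with `|r' v - r v| < η` for all `v` and `AlgebraicIndependent ℚ r'`.
Proof: for a nonzero `P : MvPolynomial V ℚ` the set `Z_P = {s : V → ℝ | aeval s P = 0}` is closed with empty interior (a real polynomial
vanishing on a product of infinite sets is zero: `MvPolynomial.funext_set` or similar; the coefficients are mapped injectively to `ℝ`).
There are countably many `P`, so by the Baire category theorem (`V → ℝ` is a complete metric space) the complement of the union of the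
`Z_P` is dense (`dense_iInter_of_isOpen` / `dense_sInter_of_isOpen`), so it meets the open ball. A point outside all `Z_P` is
algebraically independent (`algebraicIndependent_iff`).
(Alternative: induction on the number of coordinates, using that the algebraic closure of a countable field is countable.)
-/

namespace Pool.Agent.Helper37.CP

open MvPolynomial in
/-- the values of a rational polynomial are the values of the real polynomial -/
private theorem aeval_eq_eval_map {V : Type*} (P : MvPolynomial V ℚ) (s : V → ℝ) :
    aeval s P = eval s (map (algebraMap ℚ ℝ) P) := by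
  rw [eval_map, aeval_def]

open MvPolynomial in
/-- the complement of the zero set of a nonzero polynomial is open -/
private theorem isOpen_ne {V : Type*} (P : MvPolynomial V ℚ) : IsOpen {s : V → ℝ | aeval s P ≠ 0} := by
  have h1 : Continuous fun s : V → ℝ => aeval s P := by
    have h2 : (fun s : V → ℝ => aeval s P) = fun s => eval s (map (algebraMap ℚ ℝ) P) :=
      funext fun s => aeval_eq_eval_map P s
    rw [h2]
    exact MvPolynomial.continuous_eval _
  exact isOpen_ne_fun h1 continuous_const

open MvPolynomial in
/-- the complement of the zero set of a nonzero polynomial is dense -/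
private theorem dense_ne {V : Type*} [Fintype V] {P : MvPolynomial V ℚ} (hP : P ≠ 0) :
    Dense {s : V → ℝ | aeval s P ≠ 0} := by
  rw [Metric.dense_iff]
  intro x ε hε
  by_contra hcon
  rw [Set.not_nonempty_iff_eq_empty] at hcon
  apply hP
  apply MvPolynomial.map_injective (algebraMap ℚ ℝ) (algebraMap ℚ ℝ).injective
  rw [map_zero]
  apply MvPolynomial.funext_set (fun v => Set.Ioo (x v) (x v + ε))
  · intro v
    exact Set.Ioo_infinite (by linarith)
  · intro s hs
    rw [map_zero, ← aeval_eq_eval_map]
    by_contra hne
    have hmem : s ∈ Metric.ball x ε ∩ {s : V → ℝ | aeval s P ≠ 0} := by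
      refine ⟨?_, hne⟩
      rw [Metric.mem_ball, dist_pi_lt_iff hε]
      intro v
      have h1 := hs v (Set.mem_univ v)
      rw [Real.dist_eq, abs_lt]
      constructor <;> linarith [h1.1, h1.2]
    rw [hcon] at hmem
    exact hmem

theorem exists_algInd {V : Type*} [Fintype V] (r : V → ℝ) {η : ℝ} (hη : 0 < η) :
    ∃ r' : V → ℝ, (∀ v, |r' v - r v| < η) ∧ AlgebraicIndependent ℚ r' := by
  have hc : Countable (MvPolynomial V ℚ) := by
    rw [← Cardinal.mk_le_aleph0_iff]
    refine MvPolynomial.cardinalMk_le_max_lift.trans ?_
    rw [max_le_iff, max_le_iff]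
    refine ⟨⟨?_, ?_⟩, le_refl _⟩
    · rw [Cardinal.lift_le_aleph0]
      exact Cardinal.mk_le_aleph0
    · rw [Cardinal.lift_le_aleph0]
      exact Cardinal.mk_le_aleph0
  have hd : Dense (⋂ P : {P : MvPolynomial V ℚ // P ≠ 0}, {s : V → ℝ | MvPolynomial.aeval s P.1 ≠ 0}) :=
    dense_iInter_of_isOpen (fun P => isOpen_ne P.1) (fun P => dense_ne P.2)
  obtain ⟨s, hs, hsb⟩ := hd.exists_mem_open Metric.isOpen_ball ⟨r, Metric.mem_ball_self hη⟩
  refine ⟨s, fun v => ?_, ?_⟩
  · rw [Metric.mem_ball] at hsb
    have h1 := dist_le_pi_dist s r v
    rw [Real.dist_eq] at h1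
    exact lt_of_le_of_lt h1 hsb
  · rw [algebraicIndependent_iff]
    intro P hP
    by_contra hne
    exact Set.mem_iInter.1 hs ⟨P, hne⟩ hP

end Pool.Agent.Helper37.CP
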