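import Pool.Agent.Helper37.CP.Basic

/-!
# Block CP-LAM1: elementary consequences of the Laman count (darts: `dc = 2 * edges`).

`star_two`: `dc (VS \ {v}) = |DS| - 2 * deg v` (darts with an end at `v`: the star and its image under `al`, disjoint because
`loopless`), and `dc (VS \ {v}) + 6 ≤ 4 (n - 1)` (as `n - 1 ≥ 2`), `|DS| = 4 n - 6`; so `2 deg v ≥ 4`.
`star_ne`: for `n ≥ 3` from `star_two`; for `n = 2` there are two darts, a dart and its `al`, with the two vertices as tails.
`nx_ne`: if `nx d = d`, then by `star_ind` the star of `t d` is `{d}`, contradicting `star_two`.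
`conn`: let `S` be a proper nonempty subset of `VS` with no dart from `S` to `VS \ S` (hence none back, by `al`). Then
`|DS| = dc S + dc (VS \ S)`; each `dc` is `0` if the set has one element (`loopless`) and at most `4 |X| - 6` otherwise; the sum is
smaller than `4 n - 6`.
`small`: any `X ⊆ VS` with `2 ≤ |X|`... (`dc X ≤ 4 |X| - 6`) is `spa`; for `|X| ≤ 1`, `dc X = 0`.
`faces`: from `euler` and `tot`.
-/

set_option linter.unusedSectionVars false

namespace Pool.Agent.Helper37.CP

variable {V D F : Type*} [DecidableEq V] [DecidableEq D] [DecidableEq F] {M : CM V D F}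

theorem CM.Ok.dc_small (h : M.Ok) {X : Finset V} (hX : X.card ≤ 1) : M.dc X = 0 := by
  unfold CM.dc
  rw [Finset.card_eq_zero, Finset.filter_eq_empty_iff]
  rintro d hd ⟨h1, h2⟩
  exact h.loopless d hd (Finset.card_le_one.1 hX _ h2 _ h1)

private theorem card_split_h54 (h : M.Ok) (v : V) :
    M.DS.card ≤ M.dc (M.VS.erase v) + 2 * (M.star v).card := by
  have h1 : M.DS ⊆ (M.DS.filter (fun d => M.t d ∈ M.VS.erase v ∧ M.t (M.al d) ∈ M.VS.erase v)) ∪
      (M.star v ∪ (M.star v).image M.al) := by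
    intro d hd
    rw [Finset.mem_union, Finset.mem_union, Finset.mem_filter, Finset.mem_image]
    by_cases h2 : M.t d = v
    · right; left
      exact mem_star.2 ⟨hd, h2⟩
    · by_cases h3 : M.t (M.al d) = v
      · right; right
        exact ⟨M.al d, mem_star.2 ⟨h.al_mem d hd, h3⟩, h.al_al d hd⟩
      · left
        exact ⟨hd, Finset.mem_erase.2 ⟨h2, h.t_mem d hd⟩, Finset.mem_erase.2 ⟨h3, h.h_mem hd⟩⟩
  have h2 := Finset.card_le_card h1
  have h3 := Finset.card_union_le (M.DS.filter (fun d => M.t d ∈ M.VS.erase v ∧ M.t (M.al d) ∈ M.VS.erase v))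
    (M.star v ∪ (M.star v).image M.al)
  have h4 := Finset.card_union_le (M.star v) ((M.star v).image M.al)
  have h5 : ((M.star v).image M.al).card ≤ (M.star v).card := Finset.card_image_le
  unfold CM.dc
  omega

theorem CM.Lam.star_two (hl : M.Lam) (h : M.Ok) (h3 : 3 ≤ M.VS.card) {v : V} (hv : v ∈ M.VS) :
    2 ≤ (M.star v).card := by
  have h1 := card_split_h54 h v
  have h2 : (M.VS.erase v).card = M.VS.card - 1 := Finset.card_erase_of_mem hv
  have h4 := hl.spa (M.VS.erase v) (Finset.erase_subset _ _) (by omega)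
  have h5 := hl.tot
  omega

theorem CM.Lam.star_ne (hl : M.Lam) (h : M.Ok) {v : V} (hv : v ∈ M.VS) : (M.star v).Nonempty := by
  rw [← Finset.card_pos]
  by_cases h3 : 3 ≤ M.VS.card
  · have := hl.star_two h h3 hv
    omega
  · have h1 := card_split_h54 h v
    have h2 : (M.VS.erase v).card = M.VS.card - 1 := Finset.card_erase_of_mem hv
    have h4 := hl.two
    have h5 := hl.tot
    have h6 : M.dc (M.VS.erase v) = 0 := h.dc_small (by omega)
    omega

private theorem nx_ne_aux_h54 (hl : M.Lam) (h : M.Ok) (h3 : 3 ≤ M.VS.card) {d : D} (hd : d ∈ M.DS) :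
    M.nx d ≠ d := by
  intro h1
  have h2 : ∀ e ∈ M.DS, M.t e = M.t d → e = d := by
    apply h.star_ind hd (fun e => e = d) rfl
    intro e _ _ he
    rw [he, h1]
  have h4 := hl.star_two h h3 (h.t_mem d hd)
  have h5 : (M.star (M.t d)).card ≤ 1 := by
    rw [Finset.card_le_one]
    intro a ha b hb
    rw [mem_star] at ha hb
    rw [h2 a ha.1 ha.2, h2 b hb.1 hb.2]
  omega

theorem CM.Lam.nx_ne (hl : M.Lam) (h : M.Ok) (h3 : 3 ≤ M.VS.card) {d : D} (hd : d ∈ M.DS) : M.nx d ≠ d :=
  nx_ne_aux_h54 hl h h3 hd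

theorem CM.Lam.pv_ne (hl : M.Lam) (h : M.Ok) (h3 : 3 ≤ M.VS.card) {d : D} (hd : d ∈ M.DS) : M.pv d ≠ d := by
  intro h1
  apply hl.nx_ne h h3 hd
  have := h.nx_pv d hd
  rw [h1] at this
  exact this

private theorem dc_le_h54 (hl : M.Lam) (h : M.Ok) {X : Finset V} (hX : X ⊆ M.VS) (hne : X.Nonempty) :
    M.dc X + 4 ≤ 4 * X.card := by
  have h0 := Finset.card_pos.2 hne
  by_cases h1 : 2 ≤ X.card
  · have := hl.spa X hX h1
    omega
  · have := h.dc_small (X := X) (by omega)
    omega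

theorem CM.Lam.conn (hl : M.Lam) (h : M.Ok) : M.Conn M.VS := by
  intro S hS hne hneq
  by_contra hcon
  push Not at hcon
  have h1 : M.DS ⊆ (M.DS.filter (fun d => M.t d ∈ S ∧ M.t (M.al d) ∈ S)) ∪
      (M.DS.filter (fun d => M.t d ∈ M.VS \ S ∧ M.t (M.al d) ∈ M.VS \ S)) := by
    intro d hd
    rw [Finset.mem_union, Finset.mem_filter, Finset.mem_filter]
    have h2 := h.t_mem d hd
    have h3 := h.h_mem hd
    have h4 := hcon d hd
    have h5 := hcon (M.al d) (h.al_mem d hd)
    rw [h.al_al d hd] at h5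
    by_cases h6 : M.t d ∈ S
    · left
      refine ⟨hd, h6, ?_⟩
      by_contra h7
      exact h4 h6 (Finset.mem_sdiff.2 ⟨h3, h7⟩)
    · right
      refine ⟨hd, Finset.mem_sdiff.2 ⟨h2, h6⟩, Finset.mem_sdiff.2 ⟨h3, ?_⟩⟩
      intro h7
      exact h5 h7 (Finset.mem_sdiff.2 ⟨h2, h6⟩)
  have h2 := Finset.card_le_card h1
  have h3 := Finset.card_union_le (M.DS.filter (fun d => M.t d ∈ S ∧ M.t (M.al d) ∈ S))
      (M.DS.filter (fun d => M.t d ∈ M.VS \ S ∧ M.t (M.al d) ∈ M.VS \ S))
  have h4 := dc_le_h54 hl h hS hne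
  have hne2 : (M.VS \ S).Nonempty := by
    rw [Finset.sdiff_nonempty]
    intro h5
    exact hneq (Finset.Subset.antisymm hS h5)
  have h5 := dc_le_h54 hl h (X := M.VS \ S) Finset.sdiff_subset hne2
  have h6 : (M.VS \ S).card + S.card = M.VS.card := Finset.card_sdiff_add_card_eq_card hS
  have h7 := hl.tot
  unfold CM.dc at h4 h5
  omega

theorem CM.Lam.faces (hl : M.Lam) (h : M.Ok) : M.FS.card + 1 = M.VS.card := by
  have h1 := hl.tot
  have h2 := h.euler
  omega

end Pool.Agent.Helper37.CP
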