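import Pool.Agent.Helper37.CP.Ts
import Pool.Agent.Helper37.CP.Lam1

/-!
# Block CP-BASE: two vertices.

`n = 2`: `|DS| = 2`, so `DS = {d, al d}` for a dart `d`, `VS = {t d, t (al d)}`, every star has one element and `nx d = d` there (`nx d` is in the
star). Put `p (t d) = 0`, `p v = 2` for the others, `r = 1`. Tangency: `‖0 - 2‖ = 2`. `ts` at a vertex is `turn z z = 2 π` (`turn_self`). `SF`: the
equation at `t d` is `ω d * (0 - 2) = 0`. `Ori`: `len ≤ |DS| = 2`, so there is no face of length 3.
-/

set_option linter.unusedSectionVars false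

namespace Pool.Agent.Helper37.CP

variable {V D F : Type*} [DecidableEq V] [DecidableEq D] [DecidableEq F] {M : CM V D F}

theorem CM.good_two (h : M.Ok) (hl : M.Lam) (h2 : M.VS.card = 2) (sp : Finset F) : M.Good sp := by
  have hc : M.DS.card = 2 := by
    have := hl.tot
    omega
  obtain ⟨d, hd⟩ : M.DS.Nonempty := by
    rw [← Finset.card_pos]
    omega
  have had := h.al_mem d hd
  have hne := h.al_ne hd
  have hloop := h.loopless d hd
  have hDS : M.DS = {d, M.al d} := by
    symm
    apply Finset.eq_of_subset_of_card_le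
    · intro x hx
      rw [Finset.mem_insert, Finset.mem_singleton] at hx
      rcases hx with rfl | rfl
      · exact hd
      · exact had
    · rw [hc, Finset.card_pair hne.symm]
  have hVS : M.VS = {M.t d, M.t (M.al d)} := by
    symm
    apply Finset.eq_of_subset_of_card_le
    · intro x hx
      rw [Finset.mem_insert, Finset.mem_singleton] at hx
      rcases hx with rfl | rfl
      · exact h.t_mem d hd
      · exact h.h_mem hd
    · rw [h2, Finset.card_pair hloop.symm]
  have hcase : ∀ x ∈ M.DS, x = d ∨ x = M.al d := by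
    intro x hx
    rw [hDS, Finset.mem_insert, Finset.mem_singleton] at hx
    exact hx
  have huniq : ∀ e ∈ M.DS, ∀ x ∈ M.DS, M.t x = M.t e → x = e := by
    intro e he x hx hxe
    rcases hcase e he with rfl | rfl <;> rcases hcase x hx with rfl | rfl
    · rfl
    · exact absurd hxe hloop
    · exact absurd hxe.symm hloop
    · rfl
  have hnx : ∀ e ∈ M.DS, M.nx e = e := fun e he => huniq e he _ (h.nx_mem e he) (h.t_nx e he)
  have hstar : ∀ e ∈ M.DS, M.star (M.t e) = {e} := by
    intro e he
    ext x
    rw [mem_star, Finset.mem_singleton]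
    constructor
    · rintro ⟨h3, h4⟩
      exact huniq e he x h3 h4
    · rintro rfl
      exact ⟨he, rfl⟩
  obtain ⟨p, hp⟩ : ∃ p : V → ℂ, p = fun v => if v = M.t d then 0 else 2 := ⟨_, rfl⟩
  have hp1 : p (M.t d) = 0 := by rw [hp]; simp
  have hp2 : p (M.t (M.al d)) = 2 := by rw [hp]; simp [hloop]
  have hdiff : ∀ e ∈ M.DS, ‖p (M.t e) - p (M.t (M.al e))‖ = 2 := by
    intro e he
    rcases hcase e he with rfl | rfl
    · rw [hp1, hp2]
      simp
    · rw [h.al_al d hd, hp1, hp2]
      simp
  have hdiff0 : ∀ e ∈ M.DS, p (M.t e) - p (M.t (M.al e)) ≠ 0 := by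
    intro e he h3
    have h4 := hdiff e he
    rw [h3, norm_zero] at h4
    norm_num at h4
  refine ⟨p, fun _ => 1, ⟨fun _ _ => one_pos, ?_, ?_⟩, ?_, ?_⟩
  · intro e he
    rw [hdiff e he]
    norm_num
  · have hcyc : ∀ e ∈ M.DS, M.ts p (M.t e) = 2 * Real.pi := by
      intro e he
      unfold CM.ts
      rw [hstar e he, Finset.sum_singleton, hnx e he]
      apply turn_self
      intro h3
      apply hdiff0 e he
      rw [← neg_sub, h3, neg_zero]
    intro v hv
    rw [hVS, Finset.mem_insert, Finset.mem_singleton] at hv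
    rcases hv with rfl | rfl
    · exact hcyc d hd
    · exact hcyc (M.al d) had
  · intro ω _ h4 e he
    have h5 := h4 (M.t e) (h.t_mem e he)
    rw [hstar e he, Finset.sum_singleton] at h5
    rcases mul_eq_zero.1 h5 with h6 | h6
    · exact_mod_cast h6
    · exact absurd h6 (hdiff0 e he)
  · intro e _ _ h4
    exfalso
    have h5 : M.len (M.fc e) ≤ M.DS.card := by
      unfold CM.len
      exact Finset.card_filter_le _ _
    omega

end Pool.Agent.Helper37.CP
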