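import Pool.Agent.Helper37.CP.Defs

/-!
# Project CP: elementary facts about combinatorial maps.
-/

set_option linter.unusedSectionVars false

namespace Pool.Agent.Helper37.CP

variable {V D F : Type*} [DecidableEq V] [DecidableEq D] [DecidableEq F] {M : CM V D F}

theorem mem_star {v : V} {d : D} : d ∈ M.star v ↔ d ∈ M.DS ∧ M.t d = v := by
  unfold CM.star
  rw [Finset.mem_filter]

theorem CM.Ok.t_al_al (h : M.Ok) {d : D} (hd : d ∈ M.DS) : M.t (M.al (M.al d)) = M.t d := by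
  rw [h.al_al d hd]

theorem CM.Ok.h_mem (h : M.Ok) {d : D} (hd : d ∈ M.DS) : M.t (M.al d) ∈ M.VS :=
  h.t_mem _ (h.al_mem d hd)

theorem CM.Ok.t_pv (h : M.Ok) {d : D} (hd : d ∈ M.DS) : M.t (M.pv d) = M.t d := by
  have := h.t_nx (M.pv d) (h.pv_mem d hd)
  rw [h.nx_pv d hd] at this
  exact this.symm

theorem CM.Ok.ph_mem (h : M.Ok) {d : D} (hd : d ∈ M.DS) : M.pv (M.al d) ∈ M.DS :=
  h.pv_mem _ (h.al_mem d hd)

theorem CM.Ok.t_ph (h : M.Ok) {d : D} (hd : d ∈ M.DS) : M.t (M.pv (M.al d)) = M.t (M.al d) :=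
  h.t_pv (h.al_mem d hd)

theorem CM.Ok.al_inj (h : M.Ok) {d e : D} (hd : d ∈ M.DS) (he : e ∈ M.DS) (h1 : M.al d = M.al e) : d = e := by
  rw [← h.al_al d hd, h1, h.al_al e he]

theorem CM.Ok.nx_inj (h : M.Ok) {d e : D} (hd : d ∈ M.DS) (he : e ∈ M.DS) (h1 : M.nx d = M.nx e) : d = e := by
  rw [← h.pv_nx d hd, h1, h.pv_nx e he]

theorem CM.Ok.pv_inj (h : M.Ok) {d e : D} (hd : d ∈ M.DS) (he : e ∈ M.DS) (h1 : M.pv d = M.pv e) : d = e := by
  rw [← h.nx_pv d hd, h1, h.nx_pv e he]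

theorem CM.Ok.al_ne (h : M.Ok) {d : D} (hd : d ∈ M.DS) : M.al d ≠ d := by
  intro h1
  apply h.loopless d hd
  rw [h1]

theorem CM.Ok.al_eq_iff (h : M.Ok) {d e : D} (hd : d ∈ M.DS) (he : e ∈ M.DS) : M.al d = e ↔ d = M.al e := by
  constructor
  · intro h1
    rw [← h1, h.al_al d hd]
  · intro h1
    rw [h1, h.al_al e he]

theorem CM.Ok.nx_eq_iff (h : M.Ok) {d e : D} (hd : d ∈ M.DS) (he : e ∈ M.DS) : M.nx d = e ↔ d = M.pv e := by
  constructor
  · intro h1
    rw [← h1, h.pv_nx d hd]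
  · intro h1
    rw [h1, h.nx_pv e he]

theorem CM.Ok.nx_star (h : M.Ok) {v : V} {d : D} (hd : d ∈ M.star v) : M.nx d ∈ M.star v := by
  rw [mem_star] at hd ⊢
  exact ⟨h.nx_mem d hd.1, by rw [h.t_nx d hd.1, hd.2]⟩

theorem CM.Ok.pv_star (h : M.Ok) {v : V} {d : D} (hd : d ∈ M.star v) : M.pv d ∈ M.star v := by
  rw [mem_star] at hd ⊢
  exact ⟨h.pv_mem d hd.1, by rw [h.t_pv hd.1, hd.2]⟩

/-- induction along the darts at a vertex, in counterclockwise direction -/
theorem CM.Ok.star_ind (h : M.Ok) {d0 : D} (hd0 : d0 ∈ M.DS) (P : D → Prop) (h0 : P d0)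
    (hs : ∀ d ∈ M.DS, M.t d = M.t d0 → P d → P (M.nx d)) : ∀ e ∈ M.DS, M.t e = M.t d0 → P e := by
  intro e he hte
  obtain ⟨k, hk⟩ := h.orb d0 hd0 e he hte.symm
  have key : ∀ j : ℕ, M.nx^[j] d0 ∈ M.DS ∧ M.t (M.nx^[j] d0) = M.t d0 ∧ P (M.nx^[j] d0) := by
    intro j
    induction j with
    | zero => exact ⟨hd0, rfl, h0⟩
    | succ j ih =>
      rw [Function.iterate_succ_apply']
      exact ⟨h.nx_mem _ ih.1, by rw [h.t_nx _ ih.1, ih.2.1], hs _ ih.1 ih.2.1 ih.2.2⟩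
  rw [← hk]
  exact (key k).2.2

/-- the neighbours at a vertex: sums over the star are invariant under `nx` -/
theorem CM.Ok.sum_nx {β : Type*} [AddCommMonoid β] (h : M.Ok) (v : V) (g : D → β) :
    ∑ d ∈ M.star v, g (M.nx d) = ∑ d ∈ M.star v, g d := by
  apply Finset.sum_nbij' M.nx M.pv
  · intro d hd
    exact h.nx_star hd
  · intro d hd
    exact h.pv_star hd
  · intro d hd
    exact h.pv_nx d (mem_star.1 hd).1
  · intro d hd
    exact h.nx_pv d (mem_star.1 hd).1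
  · intro d hd
    rfl

theorem CM.Ok.prod_nx {β : Type*} [CommMonoid β] (h : M.Ok) (v : V) (g : D → β) :
    ∏ d ∈ M.star v, g (M.nx d) = ∏ d ∈ M.star v, g d := by
  apply Finset.prod_nbij' M.nx M.pv
  · intro d hd
    exact h.nx_star hd
  · intro d hd
    exact h.pv_star hd
  · intro d hd
    exact h.pv_nx d (mem_star.1 hd).1
  · intro d hd
    exact h.nx_pv d (mem_star.1 hd).1
  · intro d hd
    rfl

/-- sums over all darts are invariant under `al` -/
theorem CM.Ok.sum_al {β : Type*} [AddCommMonoid β] (h : M.Ok) (g : D → β) :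
    ∑ d ∈ M.DS, g (M.al d) = ∑ d ∈ M.DS, g d := by
  apply Finset.sum_nbij' M.al M.al
  · intro d hd
    exact h.al_mem d hd
  · intro d hd
    exact h.al_mem d hd
  · intro d hd
    exact h.al_al d hd
  · intro d hd
    exact h.al_al d hd
  · intro d hd
    rfl

/-- the darts are partitioned into the stars -/
theorem CM.Ok.sum_star {β : Type*} [AddCommMonoid β] (h : M.Ok) (g : D → β) :
    ∑ v ∈ M.VS, ∑ d ∈ M.star v, g d = ∑ d ∈ M.DS, g d := by
  unfold CM.star
  exact Finset.sum_fiberwise_of_maps_to (fun d hd => h.t_mem d hd) g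

theorem CM.Ok.card_star (h : M.Ok) : ∑ v ∈ M.VS, (M.star v).card = M.DS.card := by
  unfold CM.star
  exact (Finset.card_eq_sum_card_fiberwise (fun d hd => h.t_mem d hd)).symm

theorem CM.Ok.card_len (h : M.Ok) : ∑ f ∈ M.FS, M.len f = M.DS.card := by
  unfold CM.len
  exact (Finset.card_eq_sum_card_fiberwise (fun d hd => h.fc_mem d hd)).symm

theorem CM.dc_univ (h : M.Ok) : M.dc M.VS = M.DS.card := by
  unfold CM.dc
  congr 1
  apply Finset.filter_true_of_mem
  intro d hd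
  exact ⟨h.t_mem d hd, h.h_mem hd⟩

theorem CM.dc_mono {X Y : Finset V} (h : X ⊆ Y) : M.dc X ≤ M.dc Y := by
  unfold CM.dc
  apply Finset.card_le_card
  intro d hd
  rw [Finset.mem_filter] at hd ⊢
  exact ⟨hd.1, h hd.2.1, h hd.2.2⟩

/-- supermodularity of `dc`; the third term counts the darts running between `X \ Y` and `Y \ X` -/
theorem CM.dc_super (X Y : Finset V) :
    M.dc X + M.dc Y + (M.DS.filter (fun d => (M.t d ∈ X \ Y ∧ M.t (M.al d) ∈ Y \ X) ∨
      (M.t d ∈ Y \ X ∧ M.t (M.al d) ∈ X \ Y))).card ≤ M.dc (X ∪ Y) + M.dc (X ∩ Y) := by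
  unfold CM.dc
  simp only [Finset.card_filter]
  rw [← Finset.sum_add_distrib, ← Finset.sum_add_distrib, ← Finset.sum_add_distrib]
  apply Finset.sum_le_sum
  intro d _
  simp only [Finset.mem_union, Finset.mem_inter, Finset.mem_sdiff]
  by_cases h1 : M.t d ∈ X <;> by_cases h2 : M.t d ∈ Y <;> by_cases h3 : M.t (M.al d) ∈ X <;>
    by_cases h4 : M.t (M.al d) ∈ Y <;> simp [h1, h2, h3, h4]

/-- a fixed point free involution: the number of darts inside a set is even -/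
theorem CM.Ok.dc_even (h : M.Ok) (X : Finset V) : Even (M.dc X) := by
  unfold CM.dc
  rw [← ZMod.natCast_eq_zero_iff_even, Finset.card_eq_sum_ones, Nat.cast_sum]
  apply Finset.sum_involution (fun d _ => M.al d)
  · intro d hd
    decide
  · intro d hd _
    rw [Finset.mem_filter] at hd
    exact h.al_ne hd.1
  · intro d hd
    rw [Finset.mem_filter] at hd ⊢
    refine ⟨h.al_mem d hd.1, hd.2.2, ?_⟩
    rw [h.al_al d hd.1]
    exact hd.2.1
  · intro d hd
    rw [Finset.mem_filter] at hd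
    exact h.al_al d hd.1

end Pool.Agent.Helper37.CP
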