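import Mathlib

/-!
# Project CP (MP_abe552_co): circle packings of plane Laman graphs with generic radii. Definitions.

A combinatorial map `M : CM V D F` lives in fixed ambient types; the living vertices, darts and faces are the finsets
`VS`, `DS`, `FS`. A dart `d` runs from `t d` to `t (al d)`; `nx d` is the next dart counterclockwise at the same vertex,
`pv` the previous one, `fc d` the face to the left of `d`, and `pv (al d)` is the next dart along this face.
`dc X` = number of darts inside `X` (twice the number of edges), `len f` = number of darts of the face `f`.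
Special faces (`sp`) are those which may be long or inverted; all other triangular faces are positively oriented.
-/

namespace Pool.Agent.Helper37.CP

noncomputable section

/-- combinatorial map on ambient types -/
structure CM (V D F : Type*) where
  VS : Finset V
  DS : Finset D
  FS : Finset F
  t : D → V
  al : D → D
  nx : D → D
  pv : D → D
  fc : D → F

variable {V D F : Type*} [DecidableEq V] [DecidableEq D] [DecidableEq F]

/-- axioms of a plane simple map (no isolated condition is imposed) -/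
structure CM.Ok (M : CM V D F) : Prop where
  t_mem : ∀ d ∈ M.DS, M.t d ∈ M.VS
  al_mem : ∀ d ∈ M.DS, M.al d ∈ M.DS
  al_al : ∀ d ∈ M.DS, M.al (M.al d) = d
  loopless : ∀ d ∈ M.DS, M.t (M.al d) ≠ M.t d
  simple : ∀ d ∈ M.DS, ∀ e ∈ M.DS, M.t d = M.t e → M.t (M.al d) = M.t (M.al e) → d = e
  nx_mem : ∀ d ∈ M.DS, M.nx d ∈ M.DS
  pv_mem : ∀ d ∈ M.DS, M.pv d ∈ M.DS
  pv_nx : ∀ d ∈ M.DS, M.pv (M.nx d) = d
  nx_pv : ∀ d ∈ M.DS, M.nx (M.pv d) = d
  t_nx : ∀ d ∈ M.DS, M.t (M.nx d) = M.t d
  orb : ∀ d ∈ M.DS, ∀ e ∈ M.DS, M.t d = M.t e → ∃ k : ℕ, M.nx^[k] d = e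
  fc_mem : ∀ d ∈ M.DS, M.fc d ∈ M.FS
  fc_ph : ∀ d ∈ M.DS, M.fc (M.pv (M.al d)) = M.fc d
  fc_surj : ∀ f ∈ M.FS, ∃ d ∈ M.DS, M.fc d = f
  euler : 2 * M.VS.card + 2 * M.FS.card = M.DS.card + 4

/-- number of darts with both ends in `X` -/
def CM.dc (M : CM V D F) (X : Finset V) : ℕ :=
  (M.DS.filter (fun d => M.t d ∈ X ∧ M.t (M.al d) ∈ X)).card

/-- Laman condition, counted in darts -/
structure CM.Lam (M : CM V D F) : Prop where
  two : 2 ≤ M.VS.card
  tot : M.DS.card + 6 = 4 * M.VS.card
  spa : ∀ X ⊆ M.VS, 2 ≤ X.card → M.dc X + 6 ≤ 4 * X.card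

/-- darts at a vertex -/
def CM.star (M : CM V D F) (v : V) : Finset D := M.DS.filter (fun d => M.t d = v)

/-- number of darts of a face -/
def CM.len (M : CM V D F) (f : F) : ℕ := (M.DS.filter (fun d => M.fc d = f)).card

/-- admissible map: plane, Laman, one or two special faces, all other faces have length at most 4 -/
structure CM.Adm (M : CM V D F) (sp : Finset F) : Prop where
  ok : M.Ok
  lam : M.Lam
  sp_sub : sp ⊆ M.FS
  sp_ne : sp.Nonempty
  sp_card : sp.card ≤ 2
  len4 : ∀ f ∈ M.FS, f ∉ sp → M.len f ≤ 4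

/-- `P` is connected in `M` (every cut is crossed) -/
def CM.Conn (M : CM V D F) (P : Finset V) : Prop :=
  ∀ S ⊆ P, S.Nonempty → S ≠ P → ∃ d ∈ M.DS, M.t d ∈ S ∧ M.t (M.al d) ∈ P \ S

/-! ### the three reductions -/

/-- a face of length four with darts `d1 : A → B`, `d2 : B → C`, `d3 : C → E`, `d4 : E → A` -/
structure CM.Quad (M : CM V D F) (d1 d2 d3 d4 : D) : Prop where
  m1 : d1 ∈ M.DS
  m2 : d2 ∈ M.DS
  m3 : d3 ∈ M.DS
  m4 : d4 ∈ M.DS
  e1 : M.pv (M.al d1) = d2
  e2 : M.pv (M.al d2) = d3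
  e3 : M.pv (M.al d3) = d4
  e4 : M.pv (M.al d4) = d1
  len : M.len (M.fc d1) = 4

/-- no obstruction to the identification of `a` and `c` across a 4-face `a b c e` -/
def CM.Free (M : CM V D F) (a b c e : V) : Prop :=
  ∀ X ⊆ M.VS, a ∈ X → c ∈ X → 3 ≤ X.card → M.dc X + 10 ≤ 4 * X.card + 2 * (X ∩ {b, e}).card

/-- fold a 4-face: identify the vertex `C = t d3` with `A = t d1` -/
def CM.fold (M : CM V D F) (d1 d2 d3 d4 : D) : CM V D F where
  VS := M.VS.erase (M.t d3)
  DS := M.DS \ {d1, d2, d3, d4}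
  FS := M.FS.erase (M.fc d1)
  t := fun d => if M.t d = M.t d3 then M.t d1 else M.t d
  al := fun d => if d = M.al d1 then M.al d2 else if d = M.al d2 then M.al d1
    else if d = M.al d3 then M.al d4 else if d = M.al d4 then M.al d3 else M.al d
  nx := fun d => if M.nx d = d1 then M.nx d3 else if M.nx d = d2 then M.nx d2
    else if M.nx d = d3 then M.nx d1 else if M.nx d = d4 then M.nx d4 else M.nx d
  pv := fun d => if d = M.al d2 then M.pv d1 else if d = M.al d1 then M.pv d2
    else if d = M.al d4 then M.pv d3 else if d = M.al d3 then M.pv d4 else M.pv d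
  fc := M.fc

/-- a vertex `v = t z` of degree two in a triangular face with darts `x : a → b`, `y : b → v`, `z : v → a` -/
structure CM.Ear (M : CM V D F) (x y z : D) : Prop where
  mx : x ∈ M.DS
  my : y ∈ M.DS
  mz : z ∈ M.DS
  e1 : M.pv (M.al x) = y
  e2 : M.pv (M.al y) = z
  e3 : M.pv (M.al z) = x
  n1 : M.nx z = M.al y
  n2 : M.nx (M.al y) = z
  len : M.len (M.fc x) = 3

/-- remove the ear vertex `t z` -/
def CM.ear (M : CM V D F) (x y z : D) : CM V D F where
  VS := M.VS.erase (M.t z)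
  DS := M.DS \ {y, z, M.al y, M.al z}
  FS := M.FS.erase (M.fc x)
  t := M.t
  al := M.al
  nx := fun d => if M.nx d = M.al z then M.nx (M.al z) else if M.nx d = y then M.nx y else M.nx d
  pv := fun d => if d = M.nx (M.al z) then M.pv (M.al z) else if d = M.nx y then M.pv y else M.pv d
  fc := Function.update M.fc x (M.fc (M.al z))

/-- a vertex `v` of degree three with darts `ea : v → a`, `eb : v → b`, `ec : v → c` (counterclockwise) and two
triangular faces: `x : a → b`, `al eb`, `ea` and `y : b → c`, `al ec`, `eb` -/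
structure CM.Tri (M : CM V D F) (x y ea eb ec : D) : Prop where
  mx : x ∈ M.DS
  my : y ∈ M.DS
  ma : ea ∈ M.DS
  mb : eb ∈ M.DS
  mc : ec ∈ M.DS
  x1 : M.pv (M.al x) = M.al eb
  x2 : M.pv eb = ea
  x3 : M.pv (M.al ea) = x
  y1 : M.pv (M.al y) = M.al ec
  y2 : M.pv ec = eb
  y3 : M.pv (M.al eb) = y
  g1 : M.pv ea = ec
  lenx : M.len (M.fc x) = 3
  leny : M.len (M.fc y) = 3

/-- remove the vertex `v` and add the edge `a c`; the darts `al ea` and `al ec` become `a → c` and `c → a` -/
def CM.tri (M : CM V D F) (x y ea eb ec : D) : CM V D F where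
  VS := M.VS.erase (M.t ea)
  DS := M.DS \ {ea, eb, ec, M.al eb}
  FS := M.FS.erase (M.fc y)
  t := M.t
  al := fun d => if d = M.al ea then M.al ec else if d = M.al ec then M.al ea else M.al d
  nx := fun d => if M.nx d = M.al eb then M.nx (M.al eb) else M.nx d
  pv := fun d => if d = M.nx (M.al eb) then M.pv (M.al eb) else M.pv d
  fc := fun d => if d = y then M.fc x else if d = M.al ec then M.fc x else M.fc d

/-! ### geometry -/

/-- the determinant of two plane vectors -/
def cross (z w : ℂ) : ℝ := z.re * w.im - z.im * w.re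

/-- the counterclockwise angle from `z` to `w`, in `(0, 2π]` -/
def turn (z w : ℂ) : ℝ := if 0 < (w / z).arg then (w / z).arg else (w / z).arg + 2 * Real.pi

/-- sum of the angles between consecutive neighbours of `v` -/
def CM.ts (M : CM V D F) (p : V → ℂ) (v : V) : ℝ :=
  ∑ d ∈ M.star v, turn (p (M.t (M.al d)) - p v) (p (M.t (M.al (M.nx d))) - p v)

/-- circle packing of the map: positive radii, tangency, cyclic orders -/
structure CM.Pk (M : CM V D F) (p : V → ℂ) (r : V → ℝ) : Prop where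
  pos : ∀ v ∈ M.VS, 0 < r v
  tan : ∀ d ∈ M.DS, ‖p (M.t d) - p (M.t (M.al d))‖ = r (M.t d) + r (M.t (M.al d))
  cyc : ∀ v ∈ M.VS, M.ts p v = 2 * Real.pi

/-- the framework of the centres has no nonzero self-stress -/
def CM.SF (M : CM V D F) (p : V → ℂ) : Prop :=
  ∀ ω : D → ℝ, (∀ d ∈ M.DS, ω (M.al d) = ω d) →
    (∀ v ∈ M.VS, ∑ d ∈ M.star v, (ω d : ℂ) * (p v - p (M.t (M.al d))) = 0) → ∀ d ∈ M.DS, ω d = 0

/-- all triangular faces which are not special are positively oriented -/
def CM.Ori (M : CM V D F) (sp : Finset F) (p : V → ℂ) : Prop :=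
  ∀ d ∈ M.DS, M.fc d ∉ sp → M.len (M.fc d) = 3 →
    0 < cross (p (M.t (M.al d)) - p (M.t d)) (p (M.t (M.al (M.pv (M.al d)))) - p (M.t d))

/-- existence of a stress-free packing -/
def CM.Good (M : CM V D F) (sp : Finset F) : Prop := ∃ p r, M.Pk p r ∧ M.SF p ∧ M.Ori sp p

end

end Pool.Agent.Helper37.CP
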