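import Pool.Agent.Helper37.CP.Len

/-!
# Block CP-EAR: removing an ear (a vertex of degree two in a triangular face).

`e : M.Ear x y z`, `x : a → b`, `y : b → v`, `z : v → a` (`a = t x`, `b = t y`, `v = t z`); the star of `v` is `{z, al y}` (`n1`, `n2`
and `orb`); `al z : a → v`, `pv (al z) = x`, so `nx x = al z`; `pv (al x) = y`, so `nx y = al x`; `pv (al y) = z`.
`a, b, v` are distinct (`loopless`; `a = b` would be the loop `x`). `M' = M.ear x y z`: the darts `y, z, al y, al z` (four distinct darts)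
disappear, `nx'` jumps over `al z` (at `a`) and over `y` (at `b`), `fc' x = fc (al z)`.
* facts: `ear_star`: a dart with tail `v` is `z` or `al y`; a dart with head `v` is `al z` or `y`.
* `Ok`: `t_mem` (a dart of `M'` has tail `≠ v`), `al_mem`, `loopless`, `simple` are inherited. `nx'`, `pv'` are inverse to each other and stay
  in `DS'`: `nx (al z) ≠ al z` and `nx y ≠ y` by `nx_ne` (this needs degree `≥ 2` in `M`, `hl`, `h3`), tails tell `al z` and `y` apart.
  `orb`: at `a` and `b` a dart is jumped over, as in FoldOrb (predicate: `d ≠ al z → R d0 d` and `d = al z → R d0 x`).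
  `fc_mem`: `fc' d ≠ fc x`: the face `fc x` consists of `x, y, z` (`mem3` of Len), `fc (al z) ≠ fc x` (`al z` is none of `x, y, z`: `al z` has
  head `v`, tail `a`). `fc_ph`: `pv' (al x) = pv' (nx y) = pv y`, `fc (pv y) = fc (al y)` (fc_ph for `al y`),
  `fc (al y) = fc (pv z)`... : `pv z = al y` (`n2`), and `fc (pv z) = fc (al z)` (fc_ph for `al z`), so both are `fc (al z)`;
  if `pv (al d) = al z` in `M`, i.e. `al d = nx (al z)`, then `pv' (al d) = pv (al z) = x`, `fc' x = fc (al z) = fc d`.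
  `fc_surj`: the face `fc (al z)` has the dart `x` in `M'`; other faces keep their darts. `euler`: `-1, -1, -4`.
* `Lam`: `|DS'| = |DS| - 4`; `dc' X = dc X` for `X ⊆ VS \ {v}` (or `≤`).
* `len'`: `len' (fc (al z)) + 1 = len (fc (al z))` (it loses `al z, al y` and wins `x`), other faces: unchanged.
* `Adm`: special faces of `M'`: `sp.erase (fc x)`, assumed nonempty.
* `exists_ear`: if `z` is a dart whose vertex has degree 2 and `len (fc z) = 3`, then `x = pv (al z)`, `y = pv (al x)` form an ear: with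
  `ph = pv ∘ al`: `x = ph z`, `y = ph x`, `ph y = z` (`ph3`). `pv (al y) = z`; as the star of `v` has two elements and `pv` has no fixed
  point (`pv_ne`), `pv z = al y` and `nx (al y) = z`, `nx z = al y`.
-/

set_option linter.unusedSectionVars false

namespace Pool.Agent.Helper37.CP

variable {V D F : Type*} [DecidableEq V] [DecidableEq D] [DecidableEq F] {M : CM V D F} {x y z : D}

private structure EF56 (M : CM V D F) (x y z : D) : Prop where
  max : M.al x ∈ M.DS
  may : M.al y ∈ M.DS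
  maz : M.al z ∈ M.DS
  tx : M.t (M.al z) = M.t x
  ty : M.t (M.al x) = M.t y
  tz : M.t (M.al y) = M.t z
  ab : M.t x ≠ M.t y
  bv : M.t y ≠ M.t z
  va : M.t z ≠ M.t x
  nxx : M.nx x = M.al z
  nxy : M.nx y = M.al x
  pvz : M.pv z = M.al y
  x_az : x ≠ M.al z
  y_ax : y ≠ M.al x
  z_ay : z ≠ M.al y
  fy : M.fc y = M.fc x
  fz : M.fc z = M.fc x
  fay : M.fc (M.al y) = M.fc (M.al z)

private theorem ef56 (e : M.Ear x y z) (h : M.Ok) : EF56 M x y z := by
  have max := h.al_mem x e.mx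
  have may := h.al_mem y e.my
  have maz := h.al_mem z e.mz
  have ty : M.t (M.al x) = M.t y := by rw [← e.e1]; exact (h.t_pv max).symm
  have tz : M.t (M.al y) = M.t z := by rw [← e.e2]; exact (h.t_pv may).symm
  have tx : M.t (M.al z) = M.t x := by rw [← e.e3]; exact (h.t_pv maz).symm
  have ab : M.t x ≠ M.t y := by rw [← ty]; exact (h.loopless x e.mx).symm
  have bv : M.t y ≠ M.t z := by rw [← tz]; exact (h.loopless y e.my).symm
  have va : M.t z ≠ M.t x := by rw [← tx]; exact (h.loopless z e.mz).symm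
  have pvz : M.pv z = M.al y := by rw [← e.n2]; exact h.pv_nx _ may
  refine ⟨max, may, maz, tx, ty, tz, ab, bv, va, ?_, ?_, pvz, ?_, ?_, ?_, ?_, ?_, ?_⟩
  · rw [← e.e3]; exact h.nx_pv _ maz
  · rw [← e.e1]; exact h.nx_pv _ max
  · intro h1
    have h2 := congrArg M.al h1
    rw [h.al_al z e.mz] at h2
    exact bv (by rw [← ty, h2])
  · intro h1
    have h2 := congrArg M.al h1
    rw [h.al_al x e.mx] at h2
    exact va (by rw [← tz, h2])
  · intro h1
    have h2 := congrArg M.al h1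
    rw [h.al_al y e.my] at h2
    exact ab (by rw [← tx, h2])
  · have := h.fc_ph x e.mx
    rw [e.e1] at this
    exact this
  · have h1 := h.fc_ph x e.mx
    rw [e.e1] at h1
    have h2 := h.fc_ph y e.my
    rw [e.e2] at h2
    rw [h2, h1]
  · have h1 := h.fc_ph _ maz
    rw [h.al_al z e.mz, pvz] at h1
    exact h1

theorem CM.Ear.star (e : M.Ear x y z) (h : M.Ok) {d : D} (hd : d ∈ M.DS) (ht : M.t d = M.t z) : d = z ∨ d = M.al y := by
  refine h.star_ind e.mz (fun d => d = z ∨ d = M.al y) (Or.inl rfl) ?_ d hd ht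
  rintro d' _ _ (rfl | rfl)
  · exact Or.inr e.n1
  · exact Or.inl e.n2

private theorem mem56 {d : D} : d ∈ (M.ear x y z).DS ↔
    d ∈ M.DS ∧ d ≠ y ∧ d ≠ z ∧ d ≠ M.al y ∧ d ≠ M.al z := by
  unfold CM.ear
  simp only [Finset.mem_sdiff, Finset.mem_insert, Finset.mem_singleton, not_or]

private theorem tail56 (e : M.Ear x y z) (h : M.Ok) {d : D} (hd : d ∈ (M.ear x y z).DS) : M.t d ≠ M.t z := by
  intro h1
  rw [mem56] at hd
  rcases e.star h hd.1 h1 with h2 | h2
  · exact hd.2.2.1 h2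
  · exact hd.2.2.2.1 h2

private theorem in56 (e : M.Ear x y z) (h : M.Ok) {d : D} (hd : d ∈ M.DS) (h1 : M.t d ≠ M.t z) (h2 : d ≠ y)
    (h3 : d ≠ M.al z) : d ∈ (M.ear x y z).DS := by
  have E := ef56 e h
  rw [mem56]
  refine ⟨hd, h2, ?_, ?_, h3⟩
  · rintro rfl
    exact h1 rfl
  · rintro rfl
    exact h1 E.tz

private theorem xin56 (e : M.Ear x y z) (h : M.Ok) : x ∈ (M.ear x y z).DS := by
  have E := ef56 e h
  exact in56 e h e.mx E.va.symm (fun h1 => E.ab (by rw [h1])) E.x_az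

private theorem dcard56 (e : M.Ear x y z) (h : M.Ok) : (M.ear x y z).DS.card + 4 = M.DS.card := by
  have E := ef56 e h
  have h1 : ({y, z, M.al y, M.al z} : Finset D) ⊆ M.DS := by
    intro d hd
    simp only [Finset.mem_insert, Finset.mem_singleton] at hd
    rcases hd with rfl | rfl | rfl | rfl
    · exact e.my
    · exact e.mz
    · exact E.may
    · exact E.maz
  have h2 : ({y, z, M.al y, M.al z} : Finset D).card = 4 := by
    have a1 : y ≠ z := fun h1 => E.bv (by rw [h1])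
    have a2 : y ≠ M.al y := fun h1 => E.bv (by rw [← E.tz, ← h1])
    have a3 : y ≠ M.al z := fun h1 => E.ab (by rw [← E.tx, ← h1])
    have a4 : z ≠ M.al z := fun h1 => E.va (by rw [← E.tx, ← h1])
    have a5 : M.al y ≠ M.al z := fun h1 => E.va (by rw [← E.tx, ← h1, E.tz])
    rw [Finset.card_insert_of_notMem, Finset.card_insert_of_notMem, Finset.card_insert_of_notMem,
      Finset.card_singleton]
    · rw [Finset.mem_singleton]; exact a5
    · simp only [Finset.mem_insert, Finset.mem_singleton, not_or]; exact ⟨E.z_ay, a4⟩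
    · simp only [Finset.mem_insert, Finset.mem_singleton, not_or]; exact ⟨a1, a2, a3⟩
  have h3 : (M.ear x y z).DS = M.DS \ {y, z, M.al y, M.al z} := rfl
  rw [h3, Finset.card_sdiff_of_subset h1, h2]
  have h4 := Finset.card_le_card h1
  omega

private theorem nx1_56 {d : D} (h1 : M.nx d = M.al z) : (M.ear x y z).nx d = M.nx (M.al z) := by
  unfold CM.ear
  simp only [h1, if_true]

private theorem nx2_56 (e : M.Ear x y z) (h : M.Ok) {d : D} (h1 : M.nx d = y) :
    (M.ear x y z).nx d = M.nx y := by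
  have E := ef56 e h
  have a3 : y ≠ M.al z := fun h1 => E.ab (by rw [← E.tx, ← h1])
  unfold CM.ear
  simp only [h1, if_neg a3, if_true]

private theorem nx3_56 {d : D} (h1 : M.nx d ≠ M.al z) (h2 : M.nx d ≠ y) :
    (M.ear x y z).nx d = M.nx d := by
  unfold CM.ear
  simp only [if_neg h1, if_neg h2]

private theorem pv1_56 (e : M.Ear x y z) {d : D} (h1 : d = M.nx (M.al z)) : (M.ear x y z).pv d = x := by
  unfold CM.ear
  simp only [h1, if_true]
  exact e.e3

private theorem pv2_56 (e : M.Ear x y z) (h : M.Ok) {d : D} (h1 : d = M.nx y) :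
    (M.ear x y z).pv d = M.pv y := by
  have E := ef56 e h
  have a3 : M.nx y ≠ M.nx (M.al z) := by
    intro h1
    have h2 := h.nx_inj e.my E.maz h1
    exact E.ab (by rw [← E.tx, ← h2])
  unfold CM.ear
  simp only [h1, if_neg a3, if_true]

private theorem pv3_56 {d : D} (h1 : d ≠ M.nx (M.al z)) (h2 : d ≠ M.nx y) :
    (M.ear x y z).pv d = M.pv d := by
  unfold CM.ear
  simp only [if_neg h1, if_neg h2]

private theorem fc1_56 : (M.ear x y z).fc x = M.fc (M.al z) := by
  unfold CM.ear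
  simp

private theorem fc2_56 {d : D} (h1 : d ≠ x) : (M.ear x y z).fc d = M.fc d := by
  unfold CM.ear
  simp [Function.update_of_ne h1]

private theorem fne56 (e : M.Ear x y z) (h : M.Ok) (hl : M.Lam) (h3 : 3 ≤ M.VS.card) {d : D} (hd : d ∈ M.DS)
    (h1 : d ≠ x) (h2 : d ≠ y) (h4 : d ≠ z) : M.fc d ≠ M.fc x := by
  intro h5
  rcases hl.mem3 h h3 e.mx e.len hd h5 with h6 | h6 | h6
  · exact h1 h6
  · rw [e.e1] at h6
    exact h2 h6
  · rw [e.e1, e.e2] at h6
    exact h4 h6

private theorem fg56 (e : M.Ear x y z) (h : M.Ok) (hl : M.Lam) (h3 : 3 ≤ M.VS.card) :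
    M.fc (M.al z) ≠ M.fc x := by
  have E := ef56 e h
  exact fne56 e h hl h3 E.maz E.x_az.symm (fun h1 => E.ab (by rw [← E.tx, h1]))
    (fun h1 => E.va (by rw [← E.tx, h1]))

theorem CM.Ear.ok (e : M.Ear x y z) (h : M.Ok) (hl : M.Lam) (h3 : 3 ≤ M.VS.card) : (M.ear x y z).Ok := by
  have E := ef56 e h
  have hD : ∀ {d}, d ∈ (M.ear x y z).DS → d ∈ M.DS := fun hd => (mem56.1 hd).1
  have hnz : M.nx (M.al z) ∈ (M.ear x y z).DS := by
    have ht : M.t (M.nx (M.al z)) = M.t x := by rw [h.t_nx _ E.maz, E.tx]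
    refine in56 e h (h.nx_mem _ E.maz) (by rw [ht]; exact E.va.symm) ?_ (hl.nx_ne h h3 E.maz)
    intro h1
    exact E.ab (by rw [← ht, h1])
  have hny : M.nx y ∈ (M.ear x y z).DS := by
    have ht : M.t (M.nx y) = M.t y := h.t_nx _ e.my
    refine in56 e h (h.nx_mem _ e.my) (by rw [ht]; exact E.bv) (hl.nx_ne h h3 e.my) ?_
    intro h1
    exact E.ab (by rw [← E.tx, ← h1, ht])
  have hpy : M.pv y ∈ (M.ear x y z).DS := by
    have ht : M.t (M.pv y) = M.t y := h.t_pv e.my
    refine in56 e h (h.pv_mem _ e.my) (by rw [ht]; exact E.bv) (hl.pv_ne h h3 e.my) ?_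
    intro h1
    exact E.ab (by rw [← E.tx, ← h1, ht])
  have hnx : ∀ {d}, d ∈ (M.ear x y z).DS → M.nx d ≠ M.al z → M.nx d ≠ y → M.nx d ∈ (M.ear x y z).DS := by
    intro d hd h1 h2
    exact in56 e h (h.nx_mem _ (hD hd)) (by rw [h.t_nx _ (hD hd)]; exact tail56 e h hd) h2 h1
  have hal : ∀ {d}, d ∈ (M.ear x y z).DS → M.al d ∈ (M.ear x y z).DS := by
    intro d hd
    have hd' := mem56.1 hd
    rw [mem56]
    refine ⟨h.al_mem _ hd'.1, ?_, ?_, ?_, ?_⟩
    · intro h1
      exact hd'.2.2.2.1 ((h.al_eq_iff hd'.1 e.my).1 h1)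
    · intro h1
      exact hd'.2.2.2.2 ((h.al_eq_iff hd'.1 e.mz).1 h1)
    · intro h1
      exact hd'.2.1 (h.al_inj hd'.1 e.my h1)
    · intro h1
      exact hd'.2.2.1 (h.al_inj hd'.1 e.mz h1)
  have hpn : ∀ d ∈ (M.ear x y z).DS, (M.ear x y z).pv ((M.ear x y z).nx d) = d := by
    intro d hd
    by_cases h1 : M.nx d = M.al z
    · rw [nx1_56 h1, pv1_56 e rfl, ← e.e3, ← h1, h.pv_nx _ (hD hd)]
    by_cases h2 : M.nx d = y
    · rw [nx2_56 e h h2, pv2_56 e h rfl]
      nth_rw 1 [← h2]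
      exact h.pv_nx _ (hD hd)
    · rw [nx3_56 h1 h2, pv3_56, h.pv_nx _ (hD hd)]
      · intro h4
        exact (mem56.1 hd).2.2.2.2 (h.nx_inj (hD hd) E.maz h4)
      · intro h4
        exact (mem56.1 hd).2.1 (h.nx_inj (hD hd) e.my h4)
  have hnp : ∀ d ∈ (M.ear x y z).DS, (M.ear x y z).nx ((M.ear x y z).pv d) = d := by
    intro d hd
    by_cases h1 : d = M.nx (M.al z)
    · rw [pv1_56 e h1, nx1_56 E.nxx, h1]
    by_cases h2 : d = M.nx y
    · rw [pv2_56 e h h2, nx2_56 e h (h.nx_pv _ e.my), h2]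
    · rw [pv3_56 h1 h2]
      have h4 := h.nx_pv _ (hD hd)
      rw [nx3_56 (by rw [h4]; exact (mem56.1 hd).2.2.2.2) (by rw [h4]; exact (mem56.1 hd).2.1), h4]
  have htn : ∀ d ∈ (M.ear x y z).DS, M.t ((M.ear x y z).nx d) = M.t d := by
    intro d hd
    by_cases h1 : M.nx d = M.al z
    · rw [nx1_56 h1, h.t_nx _ E.maz, ← h1, h.t_nx _ (hD hd)]
    by_cases h2 : M.nx d = y
    · rw [nx2_56 e h h2, h.t_nx _ e.my]
      nth_rw 1 [← h2]
      exact h.t_nx _ (hD hd)
    · rw [nx3_56 h1 h2, h.t_nx _ (hD hd)]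
  refine ⟨?_, ?_, ?_, ?_, ?_, ?_, ?_, hpn, hnp, htn, ?_, ?_, ?_, ?_, ?_⟩
  · intro d hd
    exact Finset.mem_erase.2 ⟨tail56 e h hd, h.t_mem _ (hD hd)⟩
  · intro d hd
    exact hal hd
  · intro d hd
    exact h.al_al d (hD hd)
  · intro d hd
    exact h.loopless d (hD hd)
  · intro d hd e' he'
    exact h.simple d (hD hd) e' (hD he')
  · intro d hd
    by_cases h1 : M.nx d = M.al z
    · rw [nx1_56 h1]
      exact hnz
    by_cases h2 : M.nx d = y
    · rw [nx2_56 e h h2]
      exact hny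
    · rw [nx3_56 h1 h2]
      exact hnx hd h1 h2
  · intro d hd
    by_cases h1 : d = M.nx (M.al z)
    · rw [pv1_56 e h1]
      exact xin56 e h
    by_cases h2 : d = M.nx y
    · rw [pv2_56 e h h2]
      exact hpy
    · rw [pv3_56 h1 h2]
      refine in56 e h (h.pv_mem _ (hD hd)) (by rw [h.t_pv (hD hd)]; exact tail56 e h hd) ?_ ?_
      · intro h4
        exact h2 (by rw [← h4, h.nx_pv _ (hD hd)])
      · intro h4
        exact h1 (by rw [← h4, h.nx_pv _ (hD hd)])
  · intro d hd e' he' ht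
    have hstep : ∀ {u w : D}, (∃ k : ℕ, (M.ear x y z).nx^[k] d = u) → (M.ear x y z).nx u = w →
        ∃ k : ℕ, (M.ear x y z).nx^[k] d = w := by
      rintro u w ⟨k, hk⟩ hw
      exact ⟨k + 1, by rw [Function.iterate_succ_apply', hk, hw]⟩
    have key := h.star_ind (hD hd) (fun u => (u ∈ (M.ear x y z).DS → ∃ k : ℕ, (M.ear x y z).nx^[k] d = u) ∧
      (u = M.al z → ∃ k : ℕ, (M.ear x y z).nx^[k] d = x) ∧
      (u = y → ∃ k : ℕ, (M.ear x y z).nx^[k] d = M.pv y))
      ⟨fun _ => ⟨0, rfl⟩, fun h1 => absurd h1 (mem56.1 hd).2.2.2.2, fun h1 => absurd h1 (mem56.1 hd).2.1⟩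
      (by
        rintro u hu htu ⟨p1, p2, p3⟩
        by_cases h1 : u = M.al z
        · have h4 := hstep (p2 h1) (nx1_56 (y := y) E.nxx)
          rw [← h1] at h4
          refine ⟨fun _ => h4, fun h5 => ?_, fun h5 => ?_⟩
          · exact absurd (by rw [h5, h1]) (hl.nx_ne h h3 hu)
          · exact absurd (by rw [← E.tx, ← h1, ← h.t_nx _ hu, h5]) E.ab
        by_cases h2 : u = y
        · have h4 : ∃ k : ℕ, (M.ear x y z).nx^[k] d = M.nx u := by
            rw [h2]
            exact hstep (p3 h2) (nx2_56 e h (h.nx_pv _ e.my))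
          refine ⟨fun _ => h4, fun h5 => ?_, fun h5 => ?_⟩
          · exact absurd (by rw [← E.tx, ← h5, h.t_nx _ hu, h2]) E.ab
          · exact absurd (by rw [h5, h2]) (hl.nx_ne h h3 hu)
        · have hu' : u ∈ (M.ear x y z).DS := in56 e h hu (by rw [htu]; exact tail56 e h hd) h2 h1
          have h4 := p1 hu'
          refine ⟨fun h5 => ?_, fun h5 => ?_, fun h5 => ?_⟩
          · exact hstep h4 (nx3_56 (mem56.1 h5).2.2.2.2 (mem56.1 h5).2.1)
          · have h6 : u = x := by rw [← e.e3, ← h5, h.pv_nx _ hu]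
            rw [← h6]
            exact h4
          · have h6 : u = M.pv y := by rw [← h5, h.pv_nx _ hu]
            rw [← h6]
            exact h4) e' (hD he') ht.symm
    exact key.1 he'
  · intro d hd
    by_cases h1 : d = x
    · rw [h1, fc1_56]
      exact Finset.mem_erase.2 ⟨fg56 e h hl h3, h.fc_mem _ E.maz⟩
    · rw [fc2_56 h1]
      exact Finset.mem_erase.2 ⟨fne56 e h hl h3 (hD hd) h1 (mem56.1 hd).2.1 (mem56.1 hd).2.2.1,
        h.fc_mem _ (hD hd)⟩
  · intro d hd
    have hal' : (M.ear x y z).al d = M.al d := rfl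
    rw [hal']
    by_cases h1 : M.al d = M.nx (M.al z)
    · have h4 : d ≠ x := by
        rintro rfl
        exact E.ab (by rw [← E.ty, h1, h.t_nx _ E.maz, E.tx])
      rw [pv1_56 e h1, fc1_56, fc2_56 h4, ← h.fc_ph d (hD hd), h1, h.pv_nx _ E.maz]
    by_cases h2 : M.al d = M.nx y
    · have h4 : d = x := h.al_inj (hD hd) e.mx (by rw [h2, E.nxy])
      have h5 : M.pv y ≠ x := fun h6 => E.ab (by rw [← h6, h.t_pv e.my])
      rw [pv2_56 e h h2, fc2_56 h5, h4, fc1_56, ← E.fay]
      have h6 := h.fc_ph _ E.may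
      rw [h.al_al y e.my] at h6
      exact h6
    · have h4 : d ≠ x := by
        rintro rfl
        exact h2 E.nxy.symm
      have h5 : M.pv (M.al d) ≠ x := by
        intro h6
        have h7 : M.al d = M.al z := by rw [← E.nxx, ← h6, h.nx_pv _ (h.al_mem _ (hD hd))]
        exact (mem56.1 hd).2.2.1 (h.al_inj (hD hd) e.mz h7)
      rw [pv3_56 h1 h2, fc2_56 h5, fc2_56 h4, h.fc_ph d (hD hd)]
  · intro f hf
    have hf' := Finset.mem_erase.1 hf
    obtain ⟨d, hd, hdf⟩ := h.fc_surj f hf'.2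
    by_cases h1 : f = M.fc (M.al z)
    · exact ⟨x, xin56 e h, by rw [fc1_56, h1]⟩
    · have h4 : d ≠ x := by
        rintro rfl
        exact hf'.1 hdf.symm
      refine ⟨d, ?_, by rw [fc2_56 h4, hdf]⟩
      rw [mem56]
      refine ⟨hd, ?_, ?_, ?_, ?_⟩
      · rintro rfl
        exact hf'.1 (by rw [← hdf, E.fy])
      · rintro rfl
        exact hf'.1 (by rw [← hdf, E.fz])
      · rintro rfl
        exact h1 (by rw [← hdf, E.fay])
      · rintro rfl
        exact h1 hdf.symm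
  · have c1 := dcard56 e h
    have c2 : (M.VS.erase (M.t z)).card + 1 = M.VS.card := Finset.card_erase_add_one (h.t_mem _ e.mz)
    have c3 : (M.FS.erase (M.fc x)).card + 1 = M.FS.card := Finset.card_erase_add_one (h.fc_mem _ e.mx)
    have c4 := h.euler
    change 2 * (M.VS.erase (M.t z)).card + 2 * (M.FS.erase (M.fc x)).card = (M.ear x y z).DS.card + 4
    omega

theorem CM.Ear.card (e : M.Ear x y z) (h : M.Ok) : (M.ear x y z).VS.card + 1 = M.VS.card :=
  Finset.card_erase_add_one (h.t_mem _ e.mz)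

theorem CM.Ear.lam (e : M.Ear x y z) (h : M.Ok) (hl : M.Lam) (h3 : 3 ≤ M.VS.card) : (M.ear x y z).Lam := by
  have c1 := dcard56 e h
  have c2 := e.card h
  have c3 := hl.tot
  refine ⟨by omega, by omega, ?_⟩
  intro X hX h2
  have h4 : (M.ear x y z).dc X ≤ M.dc X := by
    unfold CM.dc
    apply Finset.card_le_card
    intro d hd
    rw [Finset.mem_filter] at hd ⊢
    exact ⟨(mem56.1 hd.1).1, hd.2⟩
  have h5 := hl.spa X (fun v hv => Finset.mem_of_mem_erase (hX hv)) h2
  omega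

theorem CM.Ear.len_g (e : M.Ear x y z) (h : M.Ok) (hl : M.Lam) (h3 : 3 ≤ M.VS.card) :
    (M.ear x y z).len (M.fc (M.al z)) + 1 = M.len (M.fc (M.al z)) := by
  have E := ef56 e h
  have hg := fg56 e h hl h3
  have h1 : (M.ear x y z).DS.filter (fun d => (M.ear x y z).fc d = M.fc (M.al z)) =
      insert x (((M.DS.filter (fun d => M.fc d = M.fc (M.al z))).erase (M.al z)).erase (M.al y)) := by
    ext d
    simp only [Finset.mem_filter, Finset.mem_insert, Finset.mem_erase]
    constructor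
    · rintro ⟨hd, hf⟩
      by_cases h4 : d = x
      · exact Or.inl h4
      · rw [fc2_56 h4] at hf
        have hd' := mem56.1 hd
        exact Or.inr ⟨hd'.2.2.2.1, hd'.2.2.2.2, hd'.1, hf⟩
    · rintro (rfl | ⟨h4, h5, h6, h7⟩)
      · exact ⟨xin56 e h, fc1_56⟩
      · have h8 : d ≠ x := by
          rintro rfl
          exact hg h7.symm
        refine ⟨mem56.2 ⟨h6, ?_, ?_, h4, h5⟩, by rw [fc2_56 h8, h7]⟩
        · rintro rfl
          exact hg (by rw [← h7, E.fy])
        · rintro rfl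
          exact hg (by rw [← h7, E.fz])
  have a5 : M.al y ≠ M.al z := fun h1 => E.va (by rw [← E.tx, ← h1, E.tz])
  have m1 : M.al z ∈ M.DS.filter (fun d => M.fc d = M.fc (M.al z)) := Finset.mem_filter.2 ⟨E.maz, rfl⟩
  have m2 : M.al y ∈ (M.DS.filter (fun d => M.fc d = M.fc (M.al z))).erase (M.al z) :=
    Finset.mem_erase.2 ⟨a5, Finset.mem_filter.2 ⟨E.may, E.fay⟩⟩
  have m3 : x ∉ ((M.DS.filter (fun d => M.fc d = M.fc (M.al z))).erase (M.al z)).erase (M.al y) := by
    intro hx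
    exact hg (Finset.mem_filter.1 (Finset.mem_of_mem_erase (Finset.mem_of_mem_erase hx))).2.symm
  have c1 := Finset.card_erase_add_one m1
  have c2 := Finset.card_erase_add_one m2
  have c3 := Finset.card_insert_of_notMem m3
  unfold CM.len
  rw [h1]
  omega

theorem CM.Ear.len_o (e : M.Ear x y z) (h : M.Ok) (hl : M.Lam) (h3 : 3 ≤ M.VS.card) {f : F} (hf : f ≠ M.fc x)
    (hg : f ≠ M.fc (M.al z)) : (M.ear x y z).len f = M.len f := by
  have E := ef56 e h
  unfold CM.len
  congr 1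
  ext d
  simp only [Finset.mem_filter]
  constructor
  · rintro ⟨hd, hfd⟩
    have h4 : d ≠ x := by
      rintro rfl
      rw [fc1_56] at hfd
      exact hg hfd.symm
    rw [fc2_56 h4] at hfd
    exact ⟨(mem56.1 hd).1, hfd⟩
  · rintro ⟨hd, hfd⟩
    have h4 : d ≠ x := by
      rintro rfl
      exact hf hfd.symm
    refine ⟨mem56.2 ⟨hd, ?_, ?_, ?_, ?_⟩, by rw [fc2_56 h4, hfd]⟩
    · rintro rfl
      exact hf (by rw [← hfd, E.fy])
    · rintro rfl
      exact hf (by rw [← hfd, E.fz])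
    · rintro rfl
      exact hg (by rw [← hfd, E.fay])
    · rintro rfl
      exact hg hfd.symm

theorem CM.Ear.adm (e : M.Ear x y z) {sp : Finset F} (ha : M.Adm sp) (h3 : 3 ≤ M.VS.card)
    (hsp : (sp.erase (M.fc x)).Nonempty) : (M.ear x y z).Adm (sp.erase (M.fc x)) := by
  refine ⟨e.ok ha.ok ha.lam h3, e.lam ha.ok ha.lam h3, ?_, hsp, ?_, ?_⟩
  · intro f hf
    have hf' := Finset.mem_erase.1 hf
    exact Finset.mem_erase.2 ⟨hf'.1, ha.sp_sub hf'.2⟩
  · exact (Finset.card_le_card (Finset.erase_subset _ _)).trans ha.sp_card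
  · intro f hf hfs
    have hf' := Finset.mem_erase.1 hf
    have h1 : f ∉ sp := fun h2 => hfs (Finset.mem_erase.2 ⟨hf'.1, h2⟩)
    have h2 := ha.len4 f hf'.2 h1
    by_cases h4 : f = M.fc (M.al z)
    · have h5 := e.len_g ha.ok ha.lam h3
      rw [h4] at h2 ⊢
      omega
    · rw [e.len_o ha.ok ha.lam h3 hf'.1 h4]
      exact h2

theorem CM.exists_ear (h : M.Ok) (hl : M.Lam) (h3 : 3 ≤ M.VS.card) (hz : z ∈ M.DS)
    (h2 : (M.star (M.t z)).card = 2) (hf : M.len (M.fc z) = 3) :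
    M.Ear (M.pv (M.al z)) (M.pv (M.al (M.pv (M.al z)))) z := by
  have m1 := h.ph_mem hz
  have m2 := h.ph_mem m1
  have e2 := hl.ph3 h h3 hz hf
  obtain ⟨y', hy'⟩ : ∃ y', y' = M.pv (M.al (M.pv (M.al z))) := ⟨_, rfl⟩
  rw [← hy'] at m2 e2 ⊢
  have may := h.al_mem _ m2
  have n1 : M.nx z = M.al y' := by
    rw [← e2]
    exact h.nx_pv _ may
  have hne : z ≠ M.al y' := by
    intro h4
    exact hl.nx_ne h h3 hz (by rw [n1, ← h4])
  have tz : M.t (M.al y') = M.t z := by rw [← n1, h.t_nx _ hz]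
  have hst : M.star (M.t z) = {z, M.al y'} := by
    symm
    apply Finset.eq_of_subset_of_card_le
    · intro d hd
      rw [Finset.mem_insert, Finset.mem_singleton] at hd
      rw [mem_star]
      rcases hd with rfl | rfl
      · exact ⟨hz, rfl⟩
      · exact ⟨may, tz⟩
    · rw [h2, Finset.card_pair hne]
  have n2 : M.nx (M.al y') = z := by
    have h4 : M.nx (M.al y') ∈ M.star (M.t z) := by
      rw [mem_star]
      exact ⟨h.nx_mem _ may, by rw [h.t_nx _ may, tz]⟩
    rw [hst, Finset.mem_insert, Finset.mem_singleton] at h4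
    rcases h4 with h4 | h4
    · exact h4
    · exact absurd h4 (hl.nx_ne h h3 may)
  exact ⟨m1, m2, hz, hy'.symm, e2, rfl, n1, n2, by rw [h.fc_ph _ hz]; exact hf⟩

end Pool.Agent.Helper37.CP
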