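import Pool.Agent.Helper37.CP.Turn

/-!
# Block CP-GAP: a tiny circle in the gap between two tangent circles.

`A ≠ B` are centres of tangent circles with radii `ra, rb`, `L = ra + rb`, `e = (B - A) / L` (a unit vector). For `s > 0` let
`X = ((ra + s)^2 - (rb + s)^2 + L^2) / (2 L)`, `Y = sqrt ((ra + s)^2 - X^2)`, `z = A + e * (X + i Y)`. Then
`(ra + s)^2 - X^2 = 4 s ra rb (L + s) / L^2 > 0` (identity), `‖z - A‖ = ra + s`, `‖z - B‖ = rb + s` (since `(X - L)^2 + Y^2 = (rb + s)^2`),
`cross (B - A) (z - A) = L Y > 0`. As `s → 0`: `X → ra`, `Y → 0+`, so `(z - A) / (B - A) = (X + i Y) / L` tends to the positive real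
`ra / L` from above and its argument, the turn, tends to `0`. The same at `B`: `(A - B) / (z - B) = (-L) / (X - L + i Y)`
`= L / (L - X - i Y)`, which tends to the positive real `L / rb`, with positive imaginary part, so its argument (the turn) is positive and tends
to `0`. So for small `s` both turns are `< η`.
-/

set_option linter.unusedSectionVars false

namespace Pool.Agent.Helper37.CP

private theorem arg_pos_of_im {z : ℂ} (h : 0 < z.im) : 0 < z.arg := by
  have h1 : 0 ≤ z.arg := Complex.arg_nonneg_iff.2 h.le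
  rcases h1.lt_or_eq with h2 | h2
  · exact h2
  · exfalso
    have := (Complex.arg_eq_zero_iff.1 h2.symm).2
    exact h.ne' this

theorem gap_circle {A B : ℂ} {ra rb η : ℝ} (ha : 0 < ra) (hb : 0 < rb) (hAB : ‖A - B‖ = ra + rb) (hη : 0 < η) :
    ∃ (s : ℝ) (z : ℂ), 0 < s ∧ ‖z - A‖ = ra + s ∧ ‖z - B‖ = rb + s ∧ 0 < cross (B - A) (z - A) ∧
      turn (B - A) (z - A) < η ∧ turn (z - B) (A - B) < η := by
  obtain ⟨L, hL⟩ : ∃ L : ℝ, L = ra + rb := ⟨_, rfl⟩
  have hL0 : 0 < L := by rw [hL]; exact add_pos ha hb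
  have hn : ‖B - A‖ = L := by rw [norm_sub_rev, hAB, hL]
  have hv : B - A ≠ 0 := by
    intro h
    rw [h, norm_zero] at hn
    exact hL0.ne hn
  obtain ⟨X, hX⟩ : ∃ X : ℝ → ℝ, ∀ s, X s = ra + (ra - rb) * s / L := ⟨_, fun _ => rfl⟩
  obtain ⟨Y, hY⟩ : ∃ Y : ℝ → ℝ, ∀ s, Y s = Real.sqrt ((ra + s) ^ 2 - X s ^ 2) := ⟨_, fun _ => rfl⟩
  have cX : Continuous X := by
    have : X = fun s => ra + (ra - rb) * s / L := funext hX
    rw [this]
    fun_prop
  have cY : Continuous Y := by
    have : Y = fun s => Real.sqrt ((ra + s) ^ 2 - X s ^ 2) := funext hY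
    rw [this]
    fun_prop
  have X0 : X 0 = ra := by rw [hX, mul_zero, zero_div, add_zero]
  have Y0 : Y 0 = 0 := by rw [hY, X0, add_zero, sub_self, Real.sqrt_zero]
  have hLc : (L : ℂ) ≠ 0 := Complex.ofReal_ne_zero.2 hL0.ne'
  have c1 : ContinuousAt (fun s : ℝ => (((X s : ℂ) + (Y s : ℂ) * Complex.I) / (L : ℂ)).arg) 0 := by
    apply ContinuousAt.comp (g := Complex.arg) (f := fun s : ℝ => ((X s : ℂ) + (Y s : ℂ) * Complex.I) / (L : ℂ))
    · apply Complex.continuousAt_arg
      left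
      rw [X0, Y0]
      have : ((ra : ℂ) + ((0 : ℝ) : ℂ) * Complex.I) / (L : ℂ) = ((ra / L : ℝ) : ℂ) := by push_cast; ring
      rw [this, Complex.ofReal_re]
      exact div_pos ha hL0
    · apply Continuous.continuousAt
      exact ((Complex.continuous_ofReal.comp cX).add
        ((Complex.continuous_ofReal.comp cY).mul continuous_const)).div_const _
  have c2 : ContinuousAt (fun s : ℝ => ((L : ℂ) / (((L - X s : ℝ) : ℂ) - (Y s : ℂ) * Complex.I)).arg) 0 := by
    apply ContinuousAt.comp (g := Complex.arg)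
      (f := fun s : ℝ => (L : ℂ) / (((L - X s : ℝ) : ℂ) - (Y s : ℂ) * Complex.I))
    · apply Complex.continuousAt_arg
      left
      rw [X0, Y0]
      have : (L : ℂ) / (((L - ra : ℝ) : ℂ) - ((0 : ℝ) : ℂ) * Complex.I) = ((L / rb : ℝ) : ℂ) := by
        rw [hL]; push_cast; ring
      rw [this, Complex.ofReal_re]
      exact div_pos hL0 hb
    · apply ContinuousAt.div continuousAt_const
      · apply Continuous.continuousAt
        exact (Complex.continuous_ofReal.comp (continuous_const.sub cX)).sub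
          ((Complex.continuous_ofReal.comp cY).mul continuous_const)
      · rw [X0, Y0]
        have : (((L - ra : ℝ) : ℂ) - ((0 : ℝ) : ℂ) * Complex.I) = ((rb : ℝ) : ℂ) := by
          rw [hL]; push_cast; ring
        rw [this]
        exact Complex.ofReal_ne_zero.2 hb.ne'
  have e1 : ∀ᶠ s in nhds (0 : ℝ), (((X s : ℂ) + (Y s : ℂ) * Complex.I) / (L : ℂ)).arg < η := by
    apply c1.eventually_lt continuousAt_const
    simp only [X0, Y0]
    have : ((ra : ℂ) + ((0 : ℝ) : ℂ) * Complex.I) / (L : ℂ) = ((ra / L : ℝ) : ℂ) := by push_cast; ring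
    rw [this, Complex.arg_ofReal_of_nonneg (div_pos ha hL0).le]
    exact hη
  have e2 : ∀ᶠ s in nhds (0 : ℝ), ((L : ℂ) / (((L - X s : ℝ) : ℂ) - (Y s : ℂ) * Complex.I)).arg < η := by
    apply c2.eventually_lt continuousAt_const
    simp only [X0, Y0]
    have : (L : ℂ) / (((L - ra : ℝ) : ℂ) - ((0 : ℝ) : ℂ) * Complex.I) = ((L / rb : ℝ) : ℂ) := by
      rw [hL]; push_cast; ring
    rw [this, Complex.arg_ofReal_of_nonneg (div_pos hL0 hb).le]
    exact hη
  have e3 : ∀ᶠ s in nhdsWithin (0 : ℝ) (Set.Ioi 0), 0 < s := eventually_mem_nhdsWithin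
  obtain ⟨s, hs1, hs2, hs⟩ :=
    ((e1.filter_mono nhdsWithin_le_nhds).and ((e2.filter_mono nhdsWithin_le_nhds).and e3)).exists
  have hD : (ra + s) ^ 2 - X s ^ 2 = 4 * s * ra * rb * (L + s) / L ^ 2 := by
    rw [hX, hL]
    have : ra + rb ≠ 0 := by rw [← hL]; exact hL0.ne'
    field_simp
    ring
  have hD0 : 0 < (ra + s) ^ 2 - X s ^ 2 := by rw [hD]; positivity
  have hYp : 0 < Y s := by rw [hY]; exact Real.sqrt_pos.2 hD0
  have hY2 : Y s ^ 2 = (ra + s) ^ 2 - X s ^ 2 := by rw [hY, Real.sq_sqrt hD0.le]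
  have hXL : L * X s = L * ra + (ra - rb) * s := by
    rw [hX]; field_simp
  have hn2 : (B - A).re ^ 2 + (B - A).im ^ 2 = L ^ 2 := by
    have h := Complex.sq_norm (B - A)
    rw [hn, Complex.normSq_apply] at h
    rw [h]; ring
  obtain ⟨v, hvd⟩ : ∃ v : ℂ, v = B - A := ⟨_, rfl⟩
  rw [← hvd] at hn hv hn2
  obtain ⟨u, hu⟩ : ∃ u : ℂ, u = ((X s : ℂ) + (Y s : ℂ) * Complex.I) / (L : ℂ) := ⟨_, rfl⟩
  have hure : u.re = X s / L := by
    rw [hu, Complex.div_ofReal_re]; simp
  have huim : u.im = Y s / L := by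
    rw [hu, Complex.div_ofReal_im]; simp
  have hnv : Complex.normSq v = L ^ 2 := by
    rw [Complex.normSq_apply, ← hn2]; ring
  have huL : u = (L : ℂ)⁻¹ * ((X s : ℂ) + (Y s : ℂ) * Complex.I) := by
    rw [hu, div_eq_inv_mul]
  have hyu : 0 < u.im := by rw [huim]; exact div_pos hYp hL0
  have hu1 : u - 1 ≠ 0 := by
    intro h
    have := congrArg Complex.im h
    rw [Complex.sub_im, Complex.one_im, sub_zero, Complex.zero_im] at this
    exact hyu.ne' this
  have key1 : ‖v * u‖ = ra + s := by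
    have h1 : ‖v * u‖ ^ 2 = (ra + s) ^ 2 := by
      rw [Complex.sq_norm, Complex.normSq_mul, hnv, Complex.normSq_apply, hure, huim]
      field_simp
      nlinarith [hY2]
    exact (sq_eq_sq₀ (norm_nonneg _) (by positivity)).1 h1
  have key2 : ‖v * (u - 1)‖ = rb + s := by
    have h1 : ‖v * (u - 1)‖ ^ 2 = (rb + s) ^ 2 := by
      rw [Complex.sq_norm, Complex.normSq_mul, hnv, Complex.normSq_apply, Complex.sub_re, Complex.sub_im,
        Complex.one_re, Complex.one_im, hure, huim]
      have h2 : L ^ 2 * ((X s / L - 1) * (X s / L - 1) + (Y s / L - 0) * (Y s / L - 0)) =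
          X s ^ 2 + Y s ^ 2 - 2 * (L * X s) + L ^ 2 := by
        field_simp
        ring
      rw [h2, hY2, hXL, hL]
      ring
    exact (sq_eq_sq₀ (norm_nonneg _) (by positivity)).1 h1
  have e5 : A + v * u - B = v * (u - 1) := by rw [hvd]; ring
  refine ⟨s, A + v * u, hs, ?_, ?_, ?_, ?_, ?_⟩
  · rw [add_sub_cancel_left, key1]
  · rw [e5, key2]
  · rw [add_sub_cancel_left, ← hvd]
    have : cross v (v * u) = (v.re ^ 2 + v.im ^ 2) * u.im := by
      unfold cross
      rw [Complex.mul_re, Complex.mul_im]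
      ring
    rw [this, hn2]
    positivity
  · rw [add_sub_cancel_left, ← hvd]
    have h1 : v * u / v = u := by field_simp
    unfold turn
    rw [h1, if_pos]
    · rw [hu]; exact hs1
    · exact arg_pos_of_im hyu
  · rw [e5]
    have h1 : (A - B) / (v * (u - 1)) = (L : ℂ) / (((L - X s : ℝ) : ℂ) - (Y s : ℂ) * Complex.I) := by
      have h2 : A - B = - v := by rw [hvd]; ring
      have h3 : (((L - X s : ℝ) : ℂ) - (Y s : ℂ) * Complex.I) = - ((L : ℂ) * (u - 1)) := by
        rw [hu]; push_cast; field_simp; ring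
      rw [h2, h3]
      field_simp
    unfold turn
    rw [h1, if_pos]
    · exact hs2
    · rw [← h1]
      have h4 : (A - B) / (v * (u - 1)) = (1 - u)⁻¹ := by
        have h2 : A - B = - v := by rw [hvd]; ring
        have h6 : (1 - u) ≠ 0 := fun h => hu1 (by rw [← neg_sub, h, neg_zero])
        rw [h2]
        field_simp
        ring
      rw [h4]
      apply arg_pos_of_im
      rw [Complex.inv_im, Complex.sub_im, Complex.one_im, zero_sub, neg_neg]
      apply div_pos hyu
      rw [Complex.normSq_pos]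
      exact fun h => hu1 (by rw [← neg_sub, h, neg_zero])

end Pool.Agent.Helper37.CP
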