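import Pool.Agent.Helper37.CP.Turn

/-!
# Block CP-TS: the sum of the turns at a vertex.

* `ts_int`: with `u d = (p (head d) - p v) / ‖..‖` (`≠ 0`), `exp (i ts) = ∏ (u (nx d) / u d) = 1` over the star (`exp_turn`, `prod_nx`), so
  `ts` is an integer multiple of `2 π` (`Complex.exp_eq_one_iff`).
* `ts_eq`: `ts > 0` (a nonempty sum of positive terms), a multiple of `2 π` and `< 4 π`.
* `turn_lt_of_ts`: two terms at least, all positive, with sum `2 π`.
* `turn_near`: each summand is continuous at the given configuration (`turn_continuousAt`); take `ε` for the finitely many summands.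
* `ts_open`: if the star has one element `d`, `nx d = d` and `ts` is `turn z z = 2 π` as long as `z ≠ 0`. Otherwise all turns are
  `< 2 π` (`turn_lt_of_ts`), so by `turn_near` (`η = π`) the sum changes by less than `π`; nearby the heads stay different from `p v`,
  and `ts_eq` applies.
* `dir_inj`: suppose `d ≠ e` in the star have the same direction, `p (head e) - p v = c (p (head d) - p v)` with `c > 0`. Let `k ≥ 1` be
  minimal with `nx^[k] d = e`. The darts `nx^[j] d` (`j < k`) are distinct and different from `e`. The sum of their turns is positive,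
  `< ts = 2 π` (the dart `e` is missing), and `exp (i ·)` of it is `u e / u d = 1`: contradiction.
-/

set_option linter.unusedSectionVars false

namespace Pool.Agent.Helper37.CP

variable {V D F : Type*} [DecidableEq V] [DecidableEq D] [DecidableEq F] {M : CM V D F}

private theorem unit_ne_h54 {z : ℂ} (hz : z ≠ 0) : z / (‖z‖ : ℂ) ≠ 0 := by
  apply div_ne_zero hz
  exact_mod_cast norm_ne_zero_iff.2 hz

private theorem eq_of_exp_h54 {x : ℝ} (h : Complex.exp ((x : ℂ) * Complex.I) = 1) :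
    ∃ k : ℤ, x = k * (2 * Real.pi) := by
  rw [Complex.exp_eq_one_iff] at h
  obtain ⟨n, hn⟩ := h
  refine ⟨n, ?_⟩
  have h1 : (x : ℂ) * Complex.I = ((n * (2 * Real.pi) : ℝ) : ℂ) * Complex.I := by
    rw [hn]
    push_cast
    ring
  exact_mod_cast mul_right_cancel₀ Complex.I_ne_zero h1

theorem CM.Ok.ts_int (h : M.Ok) {p : V → ℂ} {v : V} (hp : ∀ d ∈ M.star v, p (M.t (M.al d)) ≠ p v) :
    ∃ k : ℤ, M.ts p v = k * (2 * Real.pi) := by
  have hz : ∀ d ∈ M.star v, p (M.t (M.al d)) - p v ≠ 0 := fun d hd => sub_ne_zero.2 (hp d hd)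
  apply eq_of_exp_h54
  unfold CM.ts
  rw [Complex.ofReal_sum, Finset.sum_mul, Complex.exp_sum]
  have h1 : ∀ d ∈ M.star v, Complex.exp
      ((turn (p (M.t (M.al d)) - p v) (p (M.t (M.al (M.nx d))) - p v) : ℂ) * Complex.I) =
      (fun d => (p (M.t (M.al d)) - p v) / (‖p (M.t (M.al d)) - p v‖ : ℂ)) (M.nx d) /
      (fun d => (p (M.t (M.al d)) - p v) / (‖p (M.t (M.al d)) - p v‖ : ℂ)) d := by
    intro d hd
    exact exp_turn (hz d hd) (hz _ (h.nx_star hd))
  rw [Finset.prod_congr rfl h1, Finset.prod_div_distrib,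
    h.prod_nx v (fun d => (p (M.t (M.al d)) - p v) / (‖p (M.t (M.al d)) - p v‖ : ℂ))]
  apply div_self
  apply Finset.prod_ne_zero_iff.2
  intro d hd
  exact unit_ne_h54 (hz d hd)

private theorem ts_pos_h54 {p : V → ℂ} {v : V} (hne : (M.star v).Nonempty) : 0 < M.ts p v := by
  unfold CM.ts
  exact Finset.sum_pos (fun d _ => turn_pos _ _) hne

theorem CM.Ok.ts_eq (h : M.Ok) {p : V → ℂ} {v : V} (hp : ∀ d ∈ M.star v, p (M.t (M.al d)) ≠ p v)
    (hne : (M.star v).Nonempty) (hlt : M.ts p v < 4 * Real.pi) : M.ts p v = 2 * Real.pi := by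
  obtain ⟨k, hk⟩ := h.ts_int hp
  have h0 : 0 < M.ts p v := ts_pos_h54 hne
  have hpi := Real.pi_pos
  rw [hk] at h0 hlt ⊢
  have h1 : (0 : ℝ) < k := by
    by_contra hcon
    push Not at hcon
    nlinarith
  have h2 : (k : ℝ) < 2 := by
    by_contra hcon
    push Not at hcon
    nlinarith
  have h3 : 0 < k := by exact_mod_cast h1
  have h4 : k < 2 := by exact_mod_cast h2
  have h5 : k = 1 := by omega
  rw [h5]
  push_cast
  ring

theorem CM.Ok.turn_lt_of_ts (h : M.Ok) {p : V → ℂ} {v : V} (h2 : 2 ≤ (M.star v).card)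
    (hts : M.ts p v = 2 * Real.pi) :
    ∀ d ∈ M.star v, turn (p (M.t (M.al d)) - p v) (p (M.t (M.al (M.nx d))) - p v) < 2 * Real.pi := by
  intro d hd
  rw [← hts]
  unfold CM.ts
  rw [← Finset.add_sum_erase _ _ hd]
  have h1 : ((M.star v).erase d).Nonempty := by
    rw [← Finset.card_pos, Finset.card_erase_of_mem hd]
    omega
  have h3 := Finset.sum_pos (fun e (_ : e ∈ (M.star v).erase d) =>
    turn_pos (p (M.t (M.al e)) - p v) (p (M.t (M.al (M.nx e))) - p v)) h1
  linarith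

theorem turn_near {ι : Type*} (S : Finset ι) (a b c : ι → V) (U : Finset V) (p : V → ℂ)
    (hU : ∀ i ∈ S, a i ∈ U ∧ b i ∈ U ∧ c i ∈ U)
    (h : ∀ i ∈ S, p (a i) ≠ p (c i) ∧ p (b i) ≠ p (c i) ∧ turn (p (a i) - p (c i)) (p (b i) - p (c i)) < 2 * Real.pi)
    {η : ℝ} (hη : 0 < η) :
    ∃ ε > 0, ∀ p' : V → ℂ, (∀ u ∈ U, ‖p' u - p u‖ < ε) →
      |∑ i ∈ S, turn (p' (a i) - p' (c i)) (p' (b i) - p' (c i)) -
        ∑ i ∈ S, turn (p (a i) - p (c i)) (p (b i) - p (c i))| < η := by
  classical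
  induction S using Finset.induction_on generalizing η with
  | empty => exact ⟨1, one_pos, fun p' _ => by simpa using hη⟩
  | insert i S hi ih =>
    obtain ⟨ε1, hε1, h1⟩ := ih (fun j hj => hU j (Finset.mem_insert_of_mem hj))
      (fun j hj => h j (Finset.mem_insert_of_mem hj)) (half_pos hη)
    obtain ⟨ha, hb, hc⟩ := h i (Finset.mem_insert_self i S)
    obtain ⟨ua, ub, uc⟩ := hU i (Finset.mem_insert_self i S)
    have h2 := turn_continuousAt (sub_ne_zero.2 ha) (sub_ne_zero.2 hb) hc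
    rw [Metric.continuousAt_iff] at h2
    obtain ⟨δ, hδ, h2⟩ := h2 (η / 2) (half_pos hη)
    refine ⟨min ε1 (δ / 2), lt_min hε1 (half_pos hδ), ?_⟩
    intro p' hp'
    have h3 := h1 p' (fun u hu => (hp' u hu).trans_le (min_le_left _ _))
    have h4 : ∀ u ∈ U, ‖p' u - p u‖ < δ / 2 := fun u hu => (hp' u hu).trans_le (min_le_right _ _)
    have h5 : ∀ u ∈ U, ∀ w ∈ U, ‖(p' u - p' w) - (p u - p w)‖ < δ := by
      intro u hu w hw
      calc ‖(p' u - p' w) - (p u - p w)‖ = ‖(p' u - p u) - (p' w - p w)‖ := by congr 1; ring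
        _ ≤ ‖p' u - p u‖ + ‖p' w - p w‖ := norm_sub_le _ _
        _ < δ := by linarith [h4 u hu, h4 w hw]
    have h6 := @h2 (p' (a i) - p' (c i), p' (b i) - p' (c i)) (by
      rw [Prod.dist_eq, max_lt_iff, dist_eq_norm, dist_eq_norm]
      exact ⟨h5 _ ua _ uc, h5 _ ub _ uc⟩)
    rw [Real.dist_eq] at h6
    rw [Finset.sum_insert hi, Finset.sum_insert hi]
    rw [abs_lt] at h3 h6 ⊢
    dsimp only at h6
    constructor <;> linarith [h3.1, h3.2, h6.1, h6.2]

private theorem min_pos_h54 {ι : Type*} (S : Finset ι) (r : ι → ℝ) (hr : ∀ i ∈ S, 0 < r i) :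
    ∃ ε > 0, ∀ i ∈ S, ε ≤ r i := by
  classical
  induction S using Finset.induction_on with
  | empty => exact ⟨1, one_pos, fun i hi => absurd hi (Finset.notMem_empty i)⟩
  | insert i S hi ih =>
    obtain ⟨ε, hε, h1⟩ := ih (fun j hj => hr j (Finset.mem_insert_of_mem hj))
    refine ⟨min ε (r i), lt_min hε (hr i (Finset.mem_insert_self i S)), ?_⟩
    intro j hj
    rcases Finset.mem_insert.1 hj with rfl | hj
    · exact min_le_right _ _
    · exact (min_le_left _ _).trans (h1 j hj)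

private theorem heads_open_h54 (h : M.Ok) {p : V → ℂ} {v : V} (hv : v ∈ M.VS)
    (hp : ∀ d ∈ M.star v, p (M.t (M.al d)) ≠ p v) :
    ∃ ε > 0, ∀ p' : V → ℂ, (∀ u ∈ M.VS, ‖p' u - p u‖ < ε) → ∀ d ∈ M.star v, p' (M.t (M.al d)) ≠ p' v := by
  obtain ⟨ε, hε, h1⟩ := min_pos_h54 (M.star v) (fun d => ‖p (M.t (M.al d)) - p v‖ / 2)
    (fun d hd => half_pos (norm_pos_iff.2 (sub_ne_zero.2 (hp d hd))))
  refine ⟨ε, hε, ?_⟩
  intro p' hp' d hd h2
  have h3 := hp' v hv
  have h4 := hp' _ (h.h_mem (mem_star.1 hd).1)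
  have h5 := h1 d hd
  have h6 : ‖p (M.t (M.al d)) - p v‖ ≤ ‖p' v - p v‖ + ‖p' (M.t (M.al d)) - p (M.t (M.al d))‖ := by
    calc ‖p (M.t (M.al d)) - p v‖ = ‖(p' v - p v) - (p' (M.t (M.al d)) - p (M.t (M.al d)))‖ := by
          rw [h2]; congr 1; ring
      _ ≤ _ := norm_sub_le _ _
  linarith

theorem CM.Ok.ts_open (h : M.Ok) {p : V → ℂ} {v : V} (hv : v ∈ M.VS)
    (hp : ∀ d ∈ M.star v, p (M.t (M.al d)) ≠ p v) (hts : M.ts p v = 2 * Real.pi) :
    ∃ ε > 0, ∀ p' : V → ℂ, (∀ u ∈ M.VS, ‖p' u - p u‖ < ε) → M.ts p' v = 2 * Real.pi := by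
  obtain ⟨ε1, hε1, h1⟩ := heads_open_h54 h hv hp
  have hpi := Real.pi_pos
  have hne : (M.star v).Nonempty := by
    by_contra hcon
    rw [Finset.not_nonempty_iff_eq_empty] at hcon
    unfold CM.ts at hts
    rw [hcon, Finset.sum_empty] at hts
    linarith
  by_cases h2 : 2 ≤ (M.star v).card
  · have h3 := h.turn_lt_of_ts h2 hts
    obtain ⟨ε2, hε2, h4⟩ := turn_near (M.star v) (fun d => M.t (M.al d)) (fun d => M.t (M.al (M.nx d)))
      (fun _ => v) M.VS p (fun d hd => ⟨h.h_mem (mem_star.1 hd).1,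
        h.h_mem (h.nx_mem d (mem_star.1 hd).1), hv⟩)
      (fun d hd => ⟨hp d hd, hp _ (h.nx_star hd), h3 d hd⟩) hpi
    refine ⟨min ε1 ε2, lt_min hε1 hε2, ?_⟩
    intro p' hp'
    have h5 := h1 p' (fun u hu => (hp' u hu).trans_le (min_le_left _ _))
    have h6 := h4 p' (fun u hu => (hp' u hu).trans_le (min_le_right _ _))
    have h7 : |M.ts p' v - M.ts p v| < Real.pi := h6
    rw [hts, abs_lt] at h7
    exact h.ts_eq h5 hne (by linarith [h7.2])
  · refine ⟨ε1, hε1, ?_⟩
    intro p' hp'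
    have h5 := h1 p' hp'
    obtain ⟨d, hd⟩ := hne
    have h6 : M.star v = {d} := by
      apply Finset.eq_singleton_iff_unique_mem.2
      refine ⟨hd, fun e he => ?_⟩
      exact Finset.card_le_one.1 (by omega) e he d hd
    have h7 : M.nx d = d := by
      have := h.nx_star hd
      rw [h6] at this
      exact Finset.mem_singleton.1 this
    unfold CM.ts
    rw [h6, Finset.sum_singleton, h7]
    exact turn_self (sub_ne_zero.2 (h5 d hd))

theorem CM.Ok.dir_inj (h : M.Ok) {p : V → ℂ} {v : V} (hp : ∀ d ∈ M.star v, p (M.t (M.al d)) ≠ p v)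
    (hts : M.ts p v = 2 * Real.pi) {d e : D} (hd : d ∈ M.star v) (he : e ∈ M.star v) (hne : d ≠ e) {c : ℝ}
    (hc : 0 < c) : p (M.t (M.al e)) - p v ≠ (c : ℂ) * (p (M.t (M.al d)) - p v) := by
  intro hcon
  have hz : ∀ d ∈ M.star v, p (M.t (M.al d)) - p v ≠ 0 := fun d hd => sub_ne_zero.2 (hp d hd)
  have hex : ∃ k : ℕ, M.nx^[k] d = e := by
    rw [mem_star] at hd he
    exact h.orb d hd.1 e he.1 (hd.2.trans he.2.symm)
  classical
  let k := Nat.find hex
  have hk : M.nx^[k] d = e := Nat.find_spec hex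
  have hmin : ∀ j < k, M.nx^[j] d ≠ e := fun j hj => Nat.find_min hex hj
  have hk0 : 0 < k := by
    rcases Nat.eq_zero_or_pos k with h0 | h0
    · exfalso
      rw [h0] at hk
      exact hne hk
    · exact h0
  have hst : ∀ j : ℕ, M.nx^[j] d ∈ M.star v := by
    intro j
    induction j with
    | zero => exact hd
    | succ j ih =>
      rw [Function.iterate_succ_apply']
      exact h.nx_star ih
  let g : D → ℝ := fun x => turn (p (M.t (M.al x)) - p v) (p (M.t (M.al (M.nx x))) - p v)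
  let w : D → ℂ := fun x => (p (M.t (M.al x)) - p v) / (‖p (M.t (M.al x)) - p v‖ : ℂ)
  have hexp : ∀ j : ℕ, Complex.exp (((∑ i ∈ Finset.range j, g (M.nx^[i] d) : ℝ) : ℂ) * Complex.I) =
      w (M.nx^[j] d) / w d := by
    intro j
    induction j with
    | zero =>
      rw [Finset.sum_range_zero, Complex.ofReal_zero, zero_mul, Complex.exp_zero]
      exact (div_self (unit_ne_h54 (hz d hd))).symm
    | succ j ih =>
      rw [Finset.sum_range_succ, Complex.ofReal_add, add_mul, Complex.exp_add, ih]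
      have h1 : Complex.exp ((g (M.nx^[j] d) : ℂ) * Complex.I) = w (M.nx (M.nx^[j] d)) / w (M.nx^[j] d) :=
        exp_turn (hz _ (hst j)) (hz _ (h.nx_star (hst j)))
      rw [h1, ← Function.iterate_succ_apply' M.nx j d, mul_comm]
      exact div_mul_div_cancel₀ (unit_ne_h54 (hz _ (hst j)))
  have h1 := hexp k
  have h2 : w e = w d := by
    show (p (M.t (M.al e)) - p v) / (‖p (M.t (M.al e)) - p v‖ : ℂ) =
      (p (M.t (M.al d)) - p v) / (‖p (M.t (M.al d)) - p v‖ : ℂ)
    rw [hcon, norm_mul, Complex.norm_real, Real.norm_of_nonneg hc.le, Complex.ofReal_mul]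
    exact mul_div_mul_left _ _ (by exact_mod_cast hc.ne')
  rw [hk, h2, div_self (unit_ne_h54 (hz d hd))] at h1
  obtain ⟨n, hn⟩ := eq_of_exp_h54 h1
  have hpi := Real.pi_pos
  have h3 : 0 < ∑ i ∈ Finset.range k, g (M.nx^[i] d) := by
    apply Finset.sum_pos (fun i _ => turn_pos _ _)
    rw [Finset.nonempty_range_iff]
    omega
  have hinj : Set.InjOn (fun i => M.nx^[i] d) (Finset.range k : Set ℕ) := by
    have key : ∀ i j : ℕ, i < j → j < k → M.nx^[i] d ≠ M.nx^[j] d := by
      intro i j hij hjk heq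
      apply hmin (k - j + i) (by omega)
      rw [Function.iterate_add_apply, heq, ← Function.iterate_add_apply]
      have : k - j + j = k := by omega
      rw [this, hk]
    intro i hi j hj hij
    rw [Finset.mem_coe, Finset.mem_range] at hi hj
    rcases lt_trichotomy i j with h4 | h4 | h4
    · exact absurd hij (key i j h4 hj)
    · exact h4
    · exact absurd hij.symm (key j i h4 hi)
  have h4 : ∑ i ∈ Finset.range k, g (M.nx^[i] d) ≤ ∑ x ∈ (M.star v).erase e, g x := by
    rw [← Finset.sum_image hinj (f := g)]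
    apply Finset.sum_le_sum_of_subset_of_nonneg
    · intro x hx
      obtain ⟨i, hi, rfl⟩ := Finset.mem_image.1 hx
      exact Finset.mem_erase.2 ⟨hmin i (Finset.mem_range.1 hi), hst i⟩
    · intro x _ _
      exact (turn_pos _ _).le
  have h5 : g e + ∑ x ∈ (M.star v).erase e, g x = 2 * Real.pi := by
    rw [Finset.add_sum_erase _ _ he, ← hts]
    rfl
  have h6 : 0 < g e := turn_pos _ _
  rw [hn] at h3 h4
  have h7 : (0 : ℝ) < n := by
    by_contra hc7
    push Not at hc7
    nlinarith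
  have h8 : (n : ℝ) < 1 := by
    by_contra hc8
    push Not at hc8
    nlinarith
  have h9 : 0 < n := by exact_mod_cast h7
  have h10 : n < 1 := by exact_mod_cast h8
  omega

end Pool.Agent.Helper37.CP
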