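import Pool.Agent.Helper37.CP.EarAdm
import Pool.Agent.Helper37.CP.Ts
import Pool.Agent.Helper37.CP.Gap

/-!
# Block CP-EG: adding an ear to a good packing.

`e : M.Ear x y z`, `x : a → b`, `y : b → v`, `z : v → a`; `M' = M.ear x y z`; `p, r` a good packing of `M'` (special faces
`sp.erase (fc x)`). The darts `x`, `al x` are darts of `M'`, so `‖p a - p b‖ = r a + r b`. Let `w1 = nx (al z)` (the dart of `M` after
`al z : a → v` at `a`; in `M'`: `nx' x = w1`, while in `M`: `nx x = al z`) and `w2 = pv y` (in `M`: `nx w2 = y : b → v`, `nx y = al x`; in `M'`: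
`nx' w2 = al x`). Take `η` = the minimum of the (positive) turns in `M'` from `x` to `w1` at `a` and from `w2` to `al x` at `b`; let `s`, `c` be
the radius and centre from `gap_circle` (`A = p a`, `B = p b`) and put `v` at `c` with radius `s` (`Function.update`).
* tangency: for `x`, `al x` and the old darts unchanged, for `y, z, al y, al z` by `gap_circle`.
* angle sum at `u ≠ a, b, v`: same star, same heads (`v` is adjacent to `a, b` only: `Ear.star` and `simple`/`al`).
* at `a`: star of `M` = star of `M'` and `al z`. `ts = ts' - turn (x, w1) + turn (x, v) + turn (v, w1)`, with `turn (x, v) < η ≤ turn (x, w1)`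
  and `turn (v, w1) ≤ 2 π`; so `ts < 4 π` and `ts_eq` applies. At `b`: `ts = ts' - turn (w2, a) + turn (w2, v) + turn (v, a)`, same.
  (If `M'` has degree 1 at `a`, then `w1 = x`, which is covered by the same computation.)
* at `v`: the star is `{z, al y}`, `nx z = al y`, `nx (al y) = z`; both turns are `< 2 π` because
  `cross (p a - c) (p b - c) ≠ 0` (`turn_lt_of_cross`), so `ts_eq` applies.
* `SF`: a self-stress `ω` of `M`: at `v`: `ω z (c - p a) + ω (al y) (c - p b) = 0`, so `ω z = ω (al y) = 0` (`cross_indep`), hence also on `al z`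
  and `y`; the restriction to `M'` is a self-stress of `M'`, so it is zero.
* `Ori`: the face `fc x = {x, y, z}` is positively oriented: `cross (p b - p a) (c - p a) > 0` and its cyclic versions (the determinant of
  a triangle is invariant under cyclic rotation). Let `d` be a dart of another face, not special, of length 3. By `hg` the face is not
  `fc (al z)`; so it consists of darts of `M'`, with the same face and length in `M'` (`len_o`), `pv' (al d) = pv (al d)` (these are
  not `al z`, `y`, and `al d ≠ w1, nx y`, because `pv (al d) = al z` or `y` would put `fc d` equal to `fc (al z)` or `fc y = fc x`), and none of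
  its vertices is `v`.
-/

set_option linter.unusedSectionVars false

namespace Pool.Agent.Helper37.CP

variable {V D F : Type*} [DecidableEq V] [DecidableEq D] [DecidableEq F] {M : CM V D F} {x y z : D}

private structure EG69 (M : CM V D F) (x y z : D) : Prop where
  max : M.al x ∈ M.DS
  may : M.al y ∈ M.DS
  maz : M.al z ∈ M.DS
  tx : M.t (M.al z) = M.t x
  ty : M.t (M.al x) = M.t y
  tz : M.t (M.al y) = M.t z
  ab : M.t x ≠ M.t y
  bv : M.t y ≠ M.t z
  va : M.t z ≠ M.t x
  nxx : M.nx x = M.al z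
  nxy : M.nx y = M.al x
  x_az : x ≠ M.al z
  z_ay : z ≠ M.al y
  fay : M.fc (M.al y) = M.fc (M.al z)

private theorem eg69 (e : M.Ear x y z) (h : M.Ok) : EG69 M x y z := by
  have max := h.al_mem x e.mx
  have may := h.al_mem y e.my
  have maz := h.al_mem z e.mz
  have ty : M.t (M.al x) = M.t y := by rw [← e.e1]; exact (h.t_pv max).symm
  have tz : M.t (M.al y) = M.t z := by rw [← e.e2]; exact (h.t_pv may).symm
  have tx : M.t (M.al z) = M.t x := by rw [← e.e3]; exact (h.t_pv maz).symm
  have ab : M.t x ≠ M.t y := by rw [← ty]; exact (h.loopless x e.mx).symm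
  have bv : M.t y ≠ M.t z := by rw [← tz]; exact (h.loopless y e.my).symm
  have va : M.t z ≠ M.t x := by rw [← tx]; exact (h.loopless z e.mz).symm
  have pvz : M.pv z = M.al y := by rw [← e.n2]; exact h.pv_nx _ may
  refine ⟨max, may, maz, tx, ty, tz, ab, bv, va, ?_, ?_, ?_, ?_, ?_⟩
  · rw [← e.e3]; exact h.nx_pv _ maz
  · rw [← e.e1]; exact h.nx_pv _ max
  · intro h1
    have h2 := congrArg M.al h1
    rw [h.al_al z e.mz] at h2
    exact bv (by rw [← ty, h2])
  · intro h1
    have h2 := congrArg M.al h1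
    rw [h.al_al y e.my] at h2
    exact ab (by rw [← tx, h2])
  · have h1 := h.fc_ph _ maz
    rw [h.al_al z e.mz, pvz] at h1
    exact h1

private theorem mem69 {d : D} : d ∈ (M.ear x y z).DS ↔
    d ∈ M.DS ∧ d ≠ y ∧ d ≠ z ∧ d ≠ M.al y ∧ d ≠ M.al z := by
  unfold CM.ear
  simp only [Finset.mem_sdiff, Finset.mem_insert, Finset.mem_singleton, not_or]

private theorem tail69 (e : M.Ear x y z) (h : M.Ok) {d : D} (hd : d ∈ (M.ear x y z).DS) : M.t d ≠ M.t z := by
  intro h1
  rw [mem69] at hd
  rcases e.star h hd.1 h1 with h2 | h2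
  · exact hd.2.2.1 h2
  · exact hd.2.2.2.1 h2

private theorem al69 (h : M.Ok) (e : M.Ear x y z) {d : D} (hd : d ∈ (M.ear x y z).DS) :
    M.al d ∈ (M.ear x y z).DS := by
  have hd' := mem69.1 hd
  rw [mem69]
  refine ⟨h.al_mem _ hd'.1, ?_, ?_, ?_, ?_⟩
  · intro h1
    exact hd'.2.2.2.1 ((h.al_eq_iff hd'.1 e.my).1 h1)
  · intro h1
    exact hd'.2.2.2.2 ((h.al_eq_iff hd'.1 e.mz).1 h1)
  · intro h1
    exact hd'.2.1 (h.al_inj hd'.1 e.my h1)
  · intro h1
    exact hd'.2.2.1 (h.al_inj hd'.1 e.mz h1)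

private theorem head69 (e : M.Ear x y z) (h : M.Ok) {d : D} (hd : d ∈ (M.ear x y z).DS) :
    M.t (M.al d) ≠ M.t z := tail69 e h (al69 h e hd)

private theorem in69 (e : M.Ear x y z) (h : M.Ok) {d : D} (hd : d ∈ M.DS) (h1 : M.t d ≠ M.t z) (h2 : d ≠ y)
    (h3 : d ≠ M.al z) : d ∈ (M.ear x y z).DS := by
  have E := eg69 e h
  rw [mem69]
  refine ⟨hd, h2, ?_, ?_, h3⟩
  · rintro rfl
    exact h1 rfl
  · rintro rfl
    exact h1 E.tz

private theorem xin69 (e : M.Ear x y z) (h : M.Ok) : x ∈ (M.ear x y z).DS := by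
  have E := eg69 e h
  exact in69 e h e.mx E.va.symm (fun h1 => E.ab (by rw [h1])) E.x_az

private theorem nx1_69 {d : D} (h1 : M.nx d = M.al z) : (M.ear x y z).nx d = M.nx (M.al z) := by
  unfold CM.ear
  simp only [h1, if_true]

private theorem nx2_69 (e : M.Ear x y z) (h : M.Ok) {d : D} (h1 : M.nx d = y) :
    (M.ear x y z).nx d = M.nx y := by
  have E := eg69 e h
  have a3 : y ≠ M.al z := fun h1 => E.ab (by rw [← E.tx, ← h1])
  unfold CM.ear
  simp only [h1, if_neg a3, if_true]

private theorem nx3_69 {d : D} (h1 : M.nx d ≠ M.al z) (h2 : M.nx d ≠ y) :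
    (M.ear x y z).nx d = M.nx d := by
  unfold CM.ear
  simp only [if_neg h1, if_neg h2]

private theorem pv3_69 {d : D} (h1 : d ≠ M.nx (M.al z)) (h2 : d ≠ M.nx y) :
    (M.ear x y z).pv d = M.pv d := by
  unfold CM.ear
  simp only [if_neg h1, if_neg h2]

private theorem fc2_69 {d : D} (h1 : d ≠ x) : (M.ear x y z).fc d = M.fc d := by
  unfold CM.ear
  simp [Function.update_of_ne h1]

private theorem upd69 {p : V → ℂ} {c : ℂ} {u v : V} (h : u ≠ v) : Function.update p v c u = p u :=
  Function.update_of_ne h c p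

/-- the star away from the ear -/
private theorem star_o69 (e : M.Ear x y z) (h : M.Ok) {u : V} (hv : u ≠ M.t z) (ha : u ≠ M.t x)
    (hb : u ≠ M.t y) : M.star u = (M.ear x y z).star u := by
  have E := eg69 e h
  ext d
  rw [mem_star, mem_star]
  constructor
  · rintro ⟨hd, ht⟩
    refine ⟨in69 e h hd (by rw [ht]; exact hv) ?_ ?_, ht⟩
    · rintro rfl
      exact hb ht.symm
    · rintro rfl
      exact ha (by rw [← ht, E.tx])
  · rintro ⟨hd, ht⟩
    exact ⟨(mem69.1 hd).1, ht⟩

private theorem star_a69 (e : M.Ear x y z) (h : M.Ok) :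
    M.star (M.t x) = insert (M.al z) ((M.ear x y z).star (M.t x)) := by
  have E := eg69 e h
  ext d
  rw [Finset.mem_insert, mem_star, mem_star]
  constructor
  · rintro ⟨hd, ht⟩
    by_cases h1 : d = M.al z
    · exact Or.inl h1
    · refine Or.inr ⟨in69 e h hd (by rw [ht]; exact E.va.symm) ?_ h1, ht⟩
      rintro rfl
      exact E.ab ht.symm
  · rintro (rfl | ⟨hd, ht⟩)
    · exact ⟨E.maz, E.tx⟩
    · exact ⟨(mem69.1 hd).1, ht⟩

private theorem star_b69 (e : M.Ear x y z) (h : M.Ok) :
    M.star (M.t y) = insert y ((M.ear x y z).star (M.t y)) := by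
  have E := eg69 e h
  ext d
  rw [Finset.mem_insert, mem_star, mem_star]
  constructor
  · rintro ⟨hd, ht⟩
    by_cases h1 : d = y
    · exact Or.inl h1
    · refine Or.inr ⟨in69 e h hd (by rw [ht]; exact E.bv) h1 ?_, ht⟩
      rintro rfl
      exact E.ab (by rw [← ht, E.tx])
  · rintro (rfl | ⟨hd, ht⟩)
    · exact ⟨e.my, rfl⟩
    · exact ⟨(mem69.1 hd).1, ht⟩

private theorem star_v69 (e : M.Ear x y z) (h : M.Ok) : M.star (M.t z) = {z, M.al y} := by
  have E := eg69 e h
  ext d
  rw [Finset.mem_insert, Finset.mem_singleton, mem_star]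
  constructor
  · rintro ⟨hd, ht⟩
    exact e.star h hd ht
  · rintro (rfl | rfl)
    · exact ⟨e.mz, rfl⟩
    · exact ⟨E.may, E.tz⟩

/-- the next dart in the reduced map -/
private theorem nxin69 (e : M.Ear x y z) (h : M.Ok) {d : D} (hd : d ∈ (M.ear x y z).DS)
    (h1 : M.nx d ≠ M.al z) (h2 : M.nx d ≠ y) : M.nx d ∈ (M.ear x y z).DS :=
  in69 e h (h.nx_mem _ (mem69.1 hd).1) (by rw [h.t_nx _ (mem69.1 hd).1]; exact tail69 e h hd) h2 h1

/-- the terms of the angle sums which do not change -/
private theorem term69 (e : M.Ear x y z) (h : M.Ok) (p : V → ℂ) (c : ℂ) {u : V} (hu : u ≠ M.t z) {d : D}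
    (hd : d ∈ (M.ear x y z).star u) (h1 : M.nx d ≠ M.al z) (h2 : M.nx d ≠ y) :
    turn (Function.update p (M.t z) c (M.t (M.al d)) - Function.update p (M.t z) c u)
      (Function.update p (M.t z) c (M.t (M.al (M.nx d))) - Function.update p (M.t z) c u) =
    turn (p ((M.ear x y z).t ((M.ear x y z).al d)) - p u)
      (p ((M.ear x y z).t ((M.ear x y z).al ((M.ear x y z).nx d))) - p u) := by
  rw [mem_star] at hd
  rw [nx3_69 h1 h2, upd69 hu, upd69 (head69 e h hd.1), upd69 (head69 e h (nxin69 e h hd.1 h1 h2))]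
  rfl

private theorem ts_o69 (e : M.Ear x y z) (h : M.Ok) (p : V → ℂ) (c : ℂ) {u : V} (hv : u ≠ M.t z)
    (ha : u ≠ M.t x) (hb : u ≠ M.t y) :
    M.ts (Function.update p (M.t z) c) u = (M.ear x y z).ts p u := by
  have E := eg69 e h
  unfold CM.ts
  rw [star_o69 e h hv ha hb]
  refine Finset.sum_congr rfl fun d hd => ?_
  have hd' := mem_star.1 hd
  have hdM := (mem69.1 hd'.1).1
  have htn : M.t (M.nx d) = u := by rw [h.t_nx _ hdM]; exact hd'.2
  refine term69 e h p c hv hd ?_ ?_
  · intro h1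
    rw [h1, E.tx] at htn
    exact ha htn.symm
  · intro h1
    rw [h1] at htn
    exact hb htn.symm

private theorem ts_a69 (e : M.Ear x y z) (h : M.Ok) (p : V → ℂ) (c : ℂ) :
    M.ts (Function.update p (M.t z) c) (M.t x) =
      turn (c - p (M.t x)) (Function.update p (M.t z) c (M.t (M.al (M.nx (M.al z)))) - p (M.t x)) +
      turn (p (M.t y) - p (M.t x)) (c - p (M.t x)) +
      ((M.ear x y z).ts p (M.t x) -
        turn (p (M.t y) - p (M.t x)) (p (M.t (M.al (M.nx (M.al z)))) - p (M.t x))) := by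
  have E := eg69 e h
  have hxs : x ∈ (M.ear x y z).star (M.t x) := mem_star.2 ⟨xin69 e h, rfl⟩
  have hnot : M.al z ∉ (M.ear x y z).star (M.t x) := by
    rw [mem_star]
    intro h1
    exact (mem69.1 h1.1).2.2.2.2 rfl
  unfold CM.ts
  rw [star_a69 e h, Finset.sum_insert hnot, ← Finset.add_sum_erase _ _ hxs,
    ← Finset.add_sum_erase ((M.ear x y z).star (M.t x))
      (fun d => turn (p ((M.ear x y z).t ((M.ear x y z).al d)) - p (M.t x))
        (p ((M.ear x y z).t ((M.ear x y z).al ((M.ear x y z).nx d))) - p (M.t x))) hxs]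
  have hsum : ∑ d ∈ ((M.ear x y z).star (M.t x)).erase x,
      turn (Function.update p (M.t z) c (M.t (M.al d)) - Function.update p (M.t z) c (M.t x))
        (Function.update p (M.t z) c (M.t (M.al (M.nx d))) - Function.update p (M.t z) c (M.t x)) =
      ∑ d ∈ ((M.ear x y z).star (M.t x)).erase x,
        turn (p ((M.ear x y z).t ((M.ear x y z).al d)) - p (M.t x))
          (p ((M.ear x y z).t ((M.ear x y z).al ((M.ear x y z).nx d))) - p (M.t x)) := by
    refine Finset.sum_congr rfl fun d hd => ?_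
    rw [Finset.mem_erase] at hd
    have hd' := mem_star.1 hd.2
    have hdM := (mem69.1 hd'.1).1
    have htn : M.t (M.nx d) = M.t x := by rw [h.t_nx _ hdM]; exact hd'.2
    refine term69 e h p c E.va.symm hd.2 ?_ ?_
    · intro h1
      exact hd.1 (h.nx_inj hdM e.mx (by rw [h1, E.nxx]))
    · intro h1
      rw [h1] at htn
      exact E.ab htn.symm
  rw [hsum]
  have a1 : Function.update p (M.t z) c (M.t x) = p (M.t x) := upd69 E.va.symm
  have a2 : Function.update p (M.t z) c (M.t (M.al (M.al z))) = c := by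
    rw [h.al_al z e.mz, Function.update_self]
  have a3 : Function.update p (M.t z) c (M.t (M.al x)) = p (M.t y) := by
    rw [E.ty]; exact upd69 E.bv
  have a4 : (M.ear x y z).nx x = M.nx (M.al z) := nx1_69 E.nxx
  have a5 : p ((M.ear x y z).t ((M.ear x y z).al x)) = p (M.t y) := by
    show p (M.t (M.al x)) = _
    rw [E.ty]
  simp only [a1, a2, a3, a4, a5, E.nxx]
  have a6 : p ((M.ear x y z).t ((M.ear x y z).al (M.nx (M.al z)))) = p (M.t (M.al (M.nx (M.al z)))) := rfl
  rw [a6]
  ring

private theorem ts_b69 (e : M.Ear x y z) (h : M.Ok) (hl : M.Lam) (h3 : 3 ≤ M.VS.card) (p : V → ℂ) (c : ℂ) :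
    M.ts (Function.update p (M.t z) c) (M.t y) =
      turn (c - p (M.t y)) (p (M.t x) - p (M.t y)) +
      turn (p (M.t (M.al (M.pv y))) - p (M.t y)) (c - p (M.t y)) +
      ((M.ear x y z).ts p (M.t y) -
        turn (p (M.t (M.al (M.pv y))) - p (M.t y)) (p (M.t x) - p (M.t y))) := by
  have E := eg69 e h
  have hw : M.pv y ∈ (M.ear x y z).DS := by
    have ht : M.t (M.pv y) = M.t y := h.t_pv e.my
    refine in69 e h (h.pv_mem _ e.my) (by rw [ht]; exact E.bv) (hl.pv_ne h h3 e.my) ?_
    intro h1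
    exact E.ab (by rw [← E.tx, ← h1, ht])
  have hxs : M.pv y ∈ (M.ear x y z).star (M.t y) := mem_star.2 ⟨hw, h.t_pv e.my⟩
  have hnot : y ∉ (M.ear x y z).star (M.t y) := by
    rw [mem_star]
    intro h1
    exact (mem69.1 h1.1).2.1 rfl
  unfold CM.ts
  rw [star_b69 e h, Finset.sum_insert hnot, ← Finset.add_sum_erase _ _ hxs,
    ← Finset.add_sum_erase ((M.ear x y z).star (M.t y))
      (fun d => turn (p ((M.ear x y z).t ((M.ear x y z).al d)) - p (M.t y))
        (p ((M.ear x y z).t ((M.ear x y z).al ((M.ear x y z).nx d))) - p (M.t y))) hxs]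
  have hsum : ∑ d ∈ ((M.ear x y z).star (M.t y)).erase (M.pv y),
      turn (Function.update p (M.t z) c (M.t (M.al d)) - Function.update p (M.t z) c (M.t y))
        (Function.update p (M.t z) c (M.t (M.al (M.nx d))) - Function.update p (M.t z) c (M.t y)) =
      ∑ d ∈ ((M.ear x y z).star (M.t y)).erase (M.pv y),
        turn (p ((M.ear x y z).t ((M.ear x y z).al d)) - p (M.t y))
          (p ((M.ear x y z).t ((M.ear x y z).al ((M.ear x y z).nx d))) - p (M.t y)) := by
    refine Finset.sum_congr rfl fun d hd => ?_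
    rw [Finset.mem_erase] at hd
    have hd' := mem_star.1 hd.2
    have hdM := (mem69.1 hd'.1).1
    have htn : M.t (M.nx d) = M.t y := by rw [h.t_nx _ hdM]; exact hd'.2
    refine term69 e h p c E.bv hd.2 ?_ ?_
    · intro h1
      rw [h1, E.tx] at htn
      exact E.ab htn
    · intro h1
      exact hd.1 ((h.nx_eq_iff hdM e.my).1 h1)
  rw [hsum]
  have a1 : Function.update p (M.t z) c (M.t y) = p (M.t y) := upd69 E.bv
  have a2 : Function.update p (M.t z) c (M.t (M.al y)) = c := by
    rw [E.tz, Function.update_self]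
  have a0 : M.nx (M.pv y) = y := h.nx_pv _ e.my
  have a3 : Function.update p (M.t z) c (M.t (M.al (M.nx y))) = p (M.t x) := by
    rw [E.nxy, h.al_al x e.mx]; exact upd69 E.va.symm
  have a4 : (M.ear x y z).nx (M.pv y) = M.al x := by
    rw [nx2_69 e h a0, E.nxy]
  have a5 : p ((M.ear x y z).t ((M.ear x y z).al (M.al x))) = p (M.t x) := by
    show p (M.t (M.al (M.al x))) = _
    rw [h.al_al x e.mx]
  have a6 : Function.update p (M.t z) c (M.t (M.al (M.pv y))) = p (M.t (M.al (M.pv y))) :=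
    upd69 (head69 e h hw)
  have a7 : p ((M.ear x y z).t ((M.ear x y z).al (M.pv y))) = p (M.t (M.al (M.pv y))) := rfl
  simp only [a1, a2, a0, a3, a4, a5, a6, a7]
  ring

private theorem rot69 {A B c : ℂ} (h : 0 < cross (B - A) (c - A)) : 0 < cross (c - B) (A - B) := by
  unfold cross at h ⊢
  simp only [Complex.sub_re, Complex.sub_im] at h ⊢
  linarith

private theorem neg69 {A B c : ℂ} (h : 0 < cross (B - A) (c - A)) : cross (A - c) (B - c) ≠ 0 ∧
    cross (B - c) (A - c) ≠ 0 ∧ cross (c - A) (c - B) ≠ 0 := by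
  unfold cross at h ⊢
  simp only [Complex.sub_re, Complex.sub_im] at h ⊢
  refine ⟨fun h1 => ?_, fun h1 => ?_, fun h1 => ?_⟩ <;> linarith

theorem CM.Ear.good (e : M.Ear x y z) (h : M.Ok) (hl : M.Lam) (h3 : 3 ≤ M.VS.card) {sp : Finset F}
    (hg : M.len (M.fc (M.al z)) = 3 → M.fc (M.al z) ∈ sp)
    (hgood : (M.ear x y z).Good (sp.erase (M.fc x))) : M.Good sp := by
  have E := eg69 e h
  have h' := e.ok h hl h3
  obtain ⟨p, r, hp, hs, ho⟩ := hgood
  have hVS : ∀ u ∈ M.VS, u ≠ M.t z → u ∈ (M.ear x y z).VS := fun u hu hne =>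
    Finset.mem_erase.2 ⟨hne, hu⟩
  have hra : 0 < r (M.t x) := hp.pos _ (hVS _ (h.t_mem _ e.mx) E.va.symm)
  have hrb : 0 < r (M.t y) := hp.pos _ (hVS _ (h.t_mem _ e.my) E.bv)
  have hAB : ‖p (M.t x) - p (M.t y)‖ = r (M.t x) + r (M.t y) := by
    have h1 := hp.tan x (xin69 e h)
    change ‖p (M.t x) - p (M.t (M.al x))‖ = r (M.t x) + r (M.t (M.al x)) at h1
    rwa [E.ty] at h1
  obtain ⟨η, hη, hη1, hη2⟩ : ∃ η : ℝ, 0 < η ∧
      η ≤ turn (p (M.t y) - p (M.t x)) (p (M.t (M.al (M.nx (M.al z)))) - p (M.t x)) ∧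
      η ≤ turn (p (M.t (M.al (M.pv y))) - p (M.t y)) (p (M.t x) - p (M.t y)) :=
    ⟨min _ _, lt_min (turn_pos _ _) (turn_pos _ _), min_le_left _ _, min_le_right _ _⟩
  obtain ⟨s, c, hs0, hcA, hcB, hcr, ht1, ht2⟩ := gap_circle hra hrb hAB hη
  set p1 := Function.update p (M.t z) c with hp1
  set r1 := Function.update r (M.t z) s with hr1
  have p1v : p1 (M.t z) = c := Function.update_self _ _ _
  have p1o : ∀ {u : V}, u ≠ M.t z → p1 u = p u := fun hu => upd69 hu
  have r1v : r1 (M.t z) = s := Function.update_self _ _ _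
  have r1o : ∀ {u : V}, u ≠ M.t z → r1 u = r u := fun hu => Function.update_of_ne hu s r
  have hpos : ∀ u ∈ M.VS, 0 < r1 u := by
    intro u hu
    by_cases hv : u = M.t z
    · rw [hv, r1v]; exact hs0
    · rw [r1o hv]; exact hp.pos u (hVS u hu hv)
  have htan : ∀ d ∈ M.DS, ‖p1 (M.t d) - p1 (M.t (M.al d))‖ = r1 (M.t d) + r1 (M.t (M.al d)) := by
    intro d hd
    by_cases hd' : d ∈ (M.ear x y z).DS
    · rw [p1o (tail69 e h hd'), p1o (head69 e h hd'), r1o (tail69 e h hd'), r1o (head69 e h hd')]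
      exact hp.tan d hd'
    · have hd2 : d = y ∨ d = z ∨ d = M.al y ∨ d = M.al z := by
        by_contra hc
        push Not at hc
        exact hd' (mem69.2 ⟨hd, hc.1, hc.2.1, hc.2.2.1, hc.2.2.2⟩)
      rcases hd2 with rfl | rfl | rfl | rfl
      · rw [E.tz, p1v, r1v, p1o E.bv, r1o E.bv, norm_sub_rev]; exact hcB
      · rw [E.tx, p1v, r1v, p1o E.va.symm, r1o E.va.symm, hcA]; ring
      · rw [E.tz, h.al_al y e.my, p1v, r1v, p1o E.bv, r1o E.bv, hcB]; ring
      · rw [E.tx, h.al_al z e.mz, p1v, r1v, p1o E.va.symm, r1o E.va.symm, norm_sub_rev]; exact hcA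
  have hne : ∀ u, ∀ d ∈ M.star u, p1 (M.t (M.al d)) ≠ p1 u := by
    intro u d hd h1
    rw [mem_star] at hd
    have h2 := htan d hd.1
    rw [h1, hd.2, sub_self, norm_zero] at h2
    have h4 := hpos u (by rw [← hd.2]; exact h.t_mem d hd.1)
    have h5 := hpos (M.t (M.al d)) (h.h_mem hd.1)
    linarith
  have hcyc : ∀ u ∈ M.VS, M.ts p1 u = 2 * Real.pi := by
    intro u hu
    by_cases hv : u = M.t z
    · rw [hv]
      apply h.ts_eq (hne _) ⟨z, mem_star.2 ⟨e.mz, rfl⟩⟩
      unfold CM.ts
      rw [star_v69 e h, Finset.sum_pair E.z_ay, e.n1, e.n2, E.tx, h.al_al y e.my, p1v, p1o E.va.symm,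
        p1o E.bv]
      have b1 := turn_lt_of_cross (neg69 hcr).1
      have b2 := turn_lt_of_cross (neg69 hcr).2.1
      linarith
    by_cases ha : u = M.t x
    · rw [ha]
      apply h.ts_eq (hne _) ⟨x, mem_star.2 ⟨e.mx, rfl⟩⟩
      rw [hp1, ts_a69 e h p c, hp.cyc _ (hVS _ (h.t_mem _ e.mx) E.va.symm)]
      have b1 := turn_le (c - p (M.t x))
        (Function.update p (M.t z) c (M.t (M.al (M.nx (M.al z)))) - p (M.t x))
      linarith
    by_cases hb : u = M.t y
    · rw [hb]
      apply h.ts_eq (hne _) ⟨y, mem_star.2 ⟨e.my, rfl⟩⟩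
      rw [hp1, ts_b69 e h hl h3 p c, hp.cyc _ (hVS _ (h.t_mem _ e.my) E.bv)]
      have b1 := turn_le (p (M.t (M.al (M.pv y))) - p (M.t y)) (c - p (M.t y))
      linarith
    · rw [hp1, ts_o69 e h p c hv ha hb]
      exact hp.cyc u (hVS u hu hv)
  refine ⟨p1, r1, ⟨hpos, htan, hcyc⟩, ?_, ?_⟩
  · -- no self-stress
    intro ω hsym heq
    have hv := heq (M.t z) (h.t_mem _ e.mz)
    rw [star_v69 e h, Finset.sum_pair E.z_ay, E.tx, h.al_al y e.my, p1v, p1o E.va.symm, p1o E.bv] at hv
    obtain ⟨w1, w2⟩ := cross_indep (neg69 hcr).2.2 hv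
    have w3 : ω (M.al z) = 0 := by rw [hsym z e.mz]; exact w1
    have w4 : ω y = 0 := by rw [← hsym y e.my]; exact w2
    have hω := hs ω (fun d hd => hsym d (mem69.1 hd).1) (by
      intro u hu
      have hu' := Finset.mem_erase.1 hu
      rw [← heq u hu'.2]
      have hsub : (M.ear x y z).star u ⊆ M.star u := by
        intro d hd
        rw [mem_star] at hd ⊢
        exact ⟨(mem69.1 hd.1).1, hd.2⟩
      rw [← Finset.sum_subset hsub (f := fun d => (ω d : ℂ) * (p1 u - p1 (M.t (M.al d))))]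
      · refine Finset.sum_congr rfl fun d hd => ?_
        rw [mem_star] at hd
        rw [p1o hu'.1, p1o (head69 e h hd.1)]
        rfl
      · intro d hd hnd
        rw [mem_star] at hd hnd
        have h5 : d = y ∨ d = M.al z := by
          by_contra hc
          push Not at hc
          exact hnd ⟨in69 e h hd.1 (by rw [hd.2]; exact hu'.1) hc.1 hc.2, hd.2⟩
        rcases h5 with rfl | rfl
        · rw [w4]; simp
        · rw [w3]; simp)
    intro d hd
    by_cases hd' : d ∈ (M.ear x y z).DS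
    · exact hω d hd'
    · have hd2 : d = y ∨ d = z ∨ d = M.al y ∨ d = M.al z := by
        by_contra hc
        push Not at hc
        exact hd' (mem69.2 ⟨hd, hc.1, hc.2.1, hc.2.2.1, hc.2.2.2⟩)
      rcases hd2 with rfl | rfl | rfl | rfl
      · exact w4
      · exact w1
      · exact w2
      · exact w3
  · -- orientation
    intro d hd hsp hlen
    by_cases hx : d = x
    · rw [hx, e.e1, E.ty, E.tz, p1v, p1o E.bv, p1o E.va.symm]
      exact hcr
    by_cases hy : d = y
    · rw [hy, e.e2, E.tz, E.tx, p1v, p1o E.bv, p1o E.va.symm]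
      exact rot69 hcr
    by_cases hz : d = z
    · rw [hz, e.e3, E.tx, E.ty, p1v, p1o E.bv, p1o E.va.symm]
      exact rot69 (rot69 hcr)
    have f1 : M.fc d ≠ M.fc x := by
      intro h5
      rcases hl.mem3 h h3 e.mx e.len hd h5 with h6 | h6 | h6
      · exact hx h6
      · rw [e.e1] at h6
        exact hy h6
      · rw [e.e1, e.e2] at h6
        exact hz h6
    have f2 : M.fc d ≠ M.fc (M.al z) := by
      intro h5
      rw [h5] at hlen hsp
      exact hsp (hg hlen)
    have key : ∀ d' ∈ M.DS, M.fc d' = M.fc d → d' ∈ (M.ear x y z).DS := by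
      intro d' hd' hf
      have fy : M.fc y = M.fc x := by
        have := h.fc_ph x e.mx
        rwa [e.e1] at this
      have fz : M.fc z = M.fc x := by
        have h2 := h.fc_ph y e.my
        rw [e.e2] at h2
        rw [h2, fy]
      rw [mem69]
      refine ⟨hd', ?_, ?_, ?_, ?_⟩
      · rintro rfl
        exact f1 (by rw [← hf, fy])
      · rintro rfl
        exact f1 (by rw [← hf, fz])
      · rintro rfl
        exact f2 (by rw [← hf, E.fay])
      · rintro rfl
        exact f2 hf.symm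
    have hd' := key d hd rfl
    have hq := h.ph_mem hd
    have hq' := key _ hq (h.fc_ph d hd)
    have g1 : (M.ear x y z).fc d = M.fc d := fc2_69 hx
    have g2 : (M.ear x y z).pv (M.al d) = M.pv (M.al d) := by
      apply pv3_69
      · intro h5
        apply f2
        rw [← h.fc_ph d hd, h5, h.pv_nx _ E.maz]
      · intro h5
        rw [E.nxy] at h5
        exact hx (h.al_inj hd e.mx h5)
    have h6 := ho d hd' (by
      rw [g1]
      intro h7
      exact hsp (Finset.mem_of_mem_erase h7)) (by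
      rw [g1, e.len_o h hl h3 f1 f2]
      exact hlen)
    have g3 : (M.ear x y z).pv ((M.ear x y z).al d) = M.pv (M.al d) := g2
    rw [g3] at h6
    rw [p1o (tail69 e h hd'), p1o (head69 e h hd'), p1o (head69 e h hq')]
    exact h6

end Pool.Agent.Helper37.CP
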