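import Pool.Agent.Helper37.CP.Persist

/-!
# Block CP-MOB: small Moebius transformations of a packing.

For `w : ℂ` and a circle with centre `p` and radius `r` put `s = ‖p‖^2 - r^2`, `N = 1 - 2 Re (w p) + ‖w‖^2 s`,
`p' = (p - conj w * s) / N`, `r' = r / N`.
* `mob_tan`: if `‖p - q‖ = r + r'`, then the images are tangent again: `‖p' - q'‖^2 - r_1'^2 - r_2'^2 = (‖p - q‖^2 - r_1^2 - r_2^2) / (N_1 N_2)`
  (identity of rational functions in real coordinates: `field_simp; ring`), so with `‖p - q‖^2 = (r_1 + r_2)^2` the left side squared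
  distance is `(r_1' + r_2')^2`; both sides are nonnegative when `N_1, N_2 > 0`.
* `mob_near`: `N → 1`, `p' → p` for `w → 0`.
* `mob_cross`: for `p_0 = 0`, radii `r0, r1, r2 > 0`, `p_1 = l1 e`, `p_2 = - l2 e`, `‖e‖ = 1`, `l1 = r0 + r1`, `l2 = r0 + r2` and
  `w` with `conj w = i t e` (`t` real): `Re (w p_i) = 0`, `N_i = 1 + t^2 s_i`, `p_i' = e (λ_i - i t s_i) / N_i` (`λ_0 = 0`, `λ_1 = l1`,
  `λ_2 = - l2`, `s_0 = - r0^2`, `s_i = l_i^2 - r_i^2`), and
  `cross (p_1' - p_0') (p_2' - p_0') * (N_0 N_1 N_2) = - t * (λ_1 (s_2 - s_0) - λ_2 (s_1 - s_0)) = - t * 4 r0 l1 l2` (up to the sign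
  convention of `cross`; only `≠ 0` matters), since `s_i - s_0 = 2 r0 l_i`. Nonzero for `t ≠ 0` as long as the `N_i` are nonzero.
* `noncollinear`: given darts `d ≠ e` at the same vertex `v`. If the determinant is nonzero, nothing is to do. Otherwise the directions
  are parallel, not equal (`dir_inj`), so opposite: `p (head d) - p v = l1 e`, `p (head e) - p v = - l2 e` with `l1 = r v + r (head d)`,
  `l2 = r v + r (head e)` (tangency). Use the placement `u ↦ p v + mob (p u - p v)` with `w` as above and small `t > 0`: tangency by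
  `mob_tan`, the other conditions by `persist`, the determinant by `mob_cross`.
-/

set_option linter.unusedSectionVars false

namespace Pool.Agent.Helper37.CP

noncomputable section

/-- the denominator -/
def mN (w p : ℂ) (r : ℝ) : ℝ := 1 - 2 * (w * p).re + ‖w‖ ^ 2 * (‖p‖ ^ 2 - r ^ 2)

/-- the new centre -/
def mp (w p : ℂ) (r : ℝ) : ℂ := (p - (starRingEnd ℂ) w * ((‖p‖ ^ 2 - r ^ 2 : ℝ) : ℂ)) / (mN w p r : ℂ)

/-- the new radius -/
def mr (w p : ℂ) (r : ℝ) : ℝ := r / mN w p r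

private theorem key_h30 (a b c d x y r s S1 S2 N1 N2 : ℝ) (hS1 : S1 = a ^ 2 + b ^ 2 - r ^ 2)
    (hS2 : S2 = c ^ 2 + d ^ 2 - s ^ 2) (hN1 : N1 = 1 - 2 * (x * a - y * b) + (x ^ 2 + y ^ 2) * S1)
    (hN2 : N2 = 1 - 2 * (x * c - y * d) + (x ^ 2 + y ^ 2) * S2) :
    ((a - x * S1) * N2 - (c - x * S2) * N1) ^ 2 + ((b + y * S1) * N2 - (d + y * S2) * N1) ^ 2 =
      r ^ 2 * N2 ^ 2 + s ^ 2 * N1 ^ 2 + N1 * N2 * ((a - c) ^ 2 + (b - d) ^ 2 - r ^ 2 - s ^ 2) := by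
  subst hS1 hS2 hN1 hN2
  ring

private theorem normSq_h30 (z : ℂ) : ‖z‖ ^ 2 = z.re ^ 2 + z.im ^ 2 := by
  rw [Complex.sq_norm, Complex.normSq_apply]
  ring

private theorem mp_re_h30 (w p : ℂ) (r : ℝ) :
    (mp w p r).re = (p.re - w.re * (‖p‖ ^ 2 - r ^ 2)) / mN w p r := by
  unfold mp
  rw [Complex.div_ofReal_re]
  congr 1
  rw [Complex.sub_re, Complex.re_mul_ofReal, Complex.conj_re]

private theorem mp_im_h30 (w p : ℂ) (r : ℝ) :
    (mp w p r).im = (p.im + w.im * (‖p‖ ^ 2 - r ^ 2)) / mN w p r := by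
  unfold mp
  rw [Complex.div_ofReal_im]
  congr 1
  rw [Complex.sub_im, Complex.im_mul_ofReal, Complex.conj_im]
  ring

theorem mob_tan {w p q : ℂ} {r s : ℝ} (hr : 0 < r) (hs : 0 < s) (h : ‖p - q‖ = r + s) (h1 : 0 < mN w p r)
    (h2 : 0 < mN w q s) : ‖mp w p r - mp w q s‖ = mr w p r + mr w q s := by
  have hn1 : mN w p r = 1 - 2 * (w.re * p.re - w.im * p.im) + (w.re ^ 2 + w.im ^ 2) * (p.re ^ 2 + p.im ^ 2 - r ^ 2) := by
    unfold mN
    rw [normSq_h30 w, normSq_h30 p, Complex.mul_re]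
  have hn2 : mN w q s = 1 - 2 * (w.re * q.re - w.im * q.im) + (w.re ^ 2 + w.im ^ 2) * (q.re ^ 2 + q.im ^ 2 - s ^ 2) := by
    unfold mN
    rw [normSq_h30 w, normSq_h30 q, Complex.mul_re]
  have hk := key_h30 p.re p.im q.re q.im w.re w.im r s _ _ _ _ rfl rfl hn1 hn2
  have hd : (p.re - q.re) ^ 2 + (p.im - q.im) ^ 2 = (r + s) ^ 2 := by
    rw [← h, normSq_h30, Complex.sub_re, Complex.sub_im]
  have hpos : 0 ≤ mr w p r + mr w q s := by
    unfold mr
    positivity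
  have hsq : ‖mp w p r - mp w q s‖ ^ 2 = (mr w p r + mr w q s) ^ 2 := by
    rw [normSq_h30, Complex.sub_re, Complex.sub_im, mp_re_h30, mp_re_h30, mp_im_h30, mp_im_h30, normSq_h30 p,
      normSq_h30 q]
    unfold mr
    have e1 : mN w p r ≠ 0 := h1.ne'
    have e2 : mN w q s ≠ 0 := h2.ne'
    rw [div_sub_div _ _ e1 e2, div_sub_div _ _ e1 e2, div_add_div _ _ e1 e2, div_pow, div_pow, div_pow, ← add_div]
    congr 1
    have e3 : ((p.re - w.re * (p.re ^ 2 + p.im ^ 2 - r ^ 2)) * mN w q s -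
        mN w p r * (q.re - w.re * (q.re ^ 2 + q.im ^ 2 - s ^ 2))) ^ 2 +
        ((p.im + w.im * (p.re ^ 2 + p.im ^ 2 - r ^ 2)) * mN w q s -
          mN w p r * (q.im + w.im * (q.re ^ 2 + q.im ^ 2 - s ^ 2))) ^ 2 =
        r ^ 2 * mN w q s ^ 2 + s ^ 2 * mN w p r ^ 2 +
          mN w p r * mN w q s * ((p.re - q.re) ^ 2 + (p.im - q.im) ^ 2 - r ^ 2 - s ^ 2) := by
      rw [← hk]
      ring
    rw [e3, hd]
    ring
  exact (pow_left_inj₀ (norm_nonneg _) hpos two_ne_zero).mp hsq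

theorem mob_near (p : ℂ) (r : ℝ) {ε : ℝ} (hε : 0 < ε) :
    ∃ η > 0, ∀ w : ℂ, ‖w‖ < η → 0 < mN w p r ∧ ‖mp w p r - p‖ < ε := by
  have hcN : Continuous fun w : ℂ => mN w p r := by
    unfold mN
    have h1 : Continuous fun w : ℂ => (w * p).re :=
      Complex.continuous_re.comp (continuous_id.mul continuous_const)
    exact (continuous_const.sub (continuous_const.mul h1)).add
      ((continuous_norm.pow 2).mul continuous_const)
  have hN0 : mN 0 p r = 1 := by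
    unfold mN
    simp
  have hp0 : mp 0 p r = p := by
    unfold mp
    rw [hN0]
    simp
  have hcp : ContinuousAt (fun w : ℂ => mp w p r) 0 := by
    unfold mp
    refine ContinuousAt.div ?_ ?_ ?_
    · have h1 : Continuous fun w : ℂ => (starRingEnd ℂ) w := Complex.continuous_conj
      exact (continuous_const.sub (h1.mul continuous_const)).continuousAt
    · exact (Complex.continuous_ofReal.comp hcN).continuousAt
    · rw [hN0]
      simp
  have h1 : ∀ᶠ w in nhds (0 : ℂ), 0 < mN w p r := by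
    refine (hcN.continuousAt (x := 0)).eventually (lt_mem_nhds ?_)
    show 0 < mN 0 p r
    rw [hN0]
    exact one_pos
  have h2 : ∀ᶠ w in nhds (0 : ℂ), ‖mp w p r - p‖ < ε := by
    have h3 := Metric.continuousAt_iff'.mp hcp ε hε
    rw [hp0] at h3
    filter_upwards [h3] with w hw
    rwa [dist_eq_norm] at hw
  obtain ⟨η, hη, h3⟩ := Metric.eventually_nhds_iff.mp (h1.and h2)
  refine ⟨η, hη, fun w hw => h3 ?_⟩
  rwa [dist_zero_right]

private theorem cross_h30 (A0 B0 A1 B1 A2 B2 : ℝ) {N0 N1 N2 : ℝ} (h0 : N0 ≠ 0) (h1 : N1 ≠ 0) (h2 : N2 ≠ 0) :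
    ((A1 / N1 - A0 / N0) * (B2 / N2 - B0 / N0) - (B1 / N1 - B0 / N0) * (A2 / N2 - A0 / N0)) * (N0 * N1 * N2) =
      N0 * (A1 * B2 - B1 * A2) - N2 * (A1 * B0 - B1 * A0) - N1 * (A0 * B2 - B0 * A2) := by
  field_simp
  ring

theorem mob_cross {e : ℂ} {r0 r1 r2 t : ℝ} (he : ‖e‖ = 1) (h0 : 0 < r0) (h1 : 0 < r1) (h2 : 0 < r2) (ht : t ≠ 0)
    (w : ℂ) (hw : w = -(Complex.I * t * (starRingEnd ℂ) e))
    (n0 : 0 < mN w 0 r0) (n1 : 0 < mN w (((r0 + r1 : ℝ) : ℂ) * e) r1)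
    (n2 : 0 < mN w (-(((r0 + r2 : ℝ) : ℂ) * e)) r2) :
    cross (mp w (((r0 + r1 : ℝ) : ℂ) * e) r1 - mp w 0 r0) (mp w (-(((r0 + r2 : ℝ) : ℂ) * e)) r2 - mp w 0 r0) ≠ 0 := by
  have hee : e.re ^ 2 + e.im ^ 2 = 1 := by rw [← normSq_h30, he]; norm_num
  have hwre : w.re = -(t * e.im) := by
    rw [hw]
    simp
  have hwim : w.im = -(t * e.re) := by
    rw [hw]
    simp
  have hwn : ‖w‖ ^ 2 = t ^ 2 := by
    rw [normSq_h30, hwre, hwim]
    linear_combination t ^ 2 * hee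
  have hp1 : ‖((r0 + r1 : ℝ) : ℂ) * e‖ ^ 2 = (r0 + r1) ^ 2 := by
    rw [norm_mul, he, mul_one, Complex.norm_real, Real.norm_eq_abs, sq_abs]
  have hp2 : ‖-(((r0 + r2 : ℝ) : ℂ) * e)‖ ^ 2 = (r0 + r2) ^ 2 := by
    rw [norm_neg, norm_mul, he, mul_one, Complex.norm_real, Real.norm_eq_abs, sq_abs]
  have hN0 : mN w 0 r0 = 1 - t ^ 2 * r0 ^ 2 := by
    unfold mN
    rw [hwn]
    simp
    ring
  have hN1 : mN w (((r0 + r1 : ℝ) : ℂ) * e) r1 = 1 + t ^ 2 * ((r0 + r1) ^ 2 - r1 ^ 2) := by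
    unfold mN
    rw [hwn, hp1, Complex.mul_re, Complex.re_ofReal_mul, Complex.im_ofReal_mul, hwre, hwim]
    ring
  have hN2 : mN w (-(((r0 + r2 : ℝ) : ℂ) * e)) r2 = 1 + t ^ 2 * ((r0 + r2) ^ 2 - r2 ^ 2) := by
    unfold mN
    rw [hwn, hp2, Complex.mul_re, Complex.neg_re, Complex.neg_im, Complex.re_ofReal_mul, Complex.im_ofReal_mul,
      hwre, hwim]
    ring
  have key : cross (mp w (((r0 + r1 : ℝ) : ℂ) * e) r1 - mp w 0 r0) (mp w (-(((r0 + r2 : ℝ) : ℂ) * e)) r2 - mp w 0 r0) *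
      (mN w 0 r0 * mN w (((r0 + r1 : ℝ) : ℂ) * e) r1 * mN w (-(((r0 + r2 : ℝ) : ℂ) * e)) r2) =
      -(4 * t * r0 * (r0 + r1) * (r0 + r2)) := by
    unfold cross
    simp only [Complex.sub_re, Complex.sub_im, mp_re_h30, mp_im_h30]
    rw [cross_h30 _ _ _ _ _ _ n0.ne' n1.ne' n2.ne', hN0, hN1, hN2, hp1, hp2, norm_zero, Complex.neg_re,
      Complex.neg_im, Complex.re_ofReal_mul, Complex.im_ofReal_mul, Complex.re_ofReal_mul, Complex.im_ofReal_mul,
      hwre, hwim, Complex.zero_re, Complex.zero_im]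
    linear_combination (-(4 * t * r0 * (r0 + r1) * (r0 + r2))) * hee
  intro h3
  rw [h3, zero_mul] at key
  have h4 : 4 * t * r0 * (r0 + r1) * (r0 + r2) ≠ 0 := by
    have : (r0 + r1) ≠ 0 := by positivity
    have : (r0 + r2) ≠ 0 := by positivity
    have := h0.ne'
    positivity
  exact h4 (by linarith)

variable {V D F : Type*} [DecidableEq V] [DecidableEq D] [DecidableEq F] {M : CM V D F}

private theorem near_all_h30 (S : Finset V) (q : V → ℂ) (r : V → ℝ) {ε : ℝ} (hε : 0 < ε) :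
    ∃ η > 0, ∀ w : ℂ, ‖w‖ < η → ∀ u ∈ S, 0 < mN w (q u) (r u) ∧ ‖mp w (q u) (r u) - q u‖ < ε := by
  induction S using Finset.induction_on with
  | empty => exact ⟨1, one_pos, fun w _ u hu => absurd hu (Finset.notMem_empty u)⟩
  | insert a S _ ih =>
    obtain ⟨η, hη, h1⟩ := ih
    obtain ⟨η', hη', h2⟩ := mob_near (q a) (r a) hε
    refine ⟨min η η', lt_min hη hη', fun w hw u hu => ?_⟩
    rcases Finset.mem_insert.mp hu with rfl | hu
    · exact h2 w (hw.trans_le (min_le_right _ _))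
    · exact h1 w (hw.trans_le (min_le_left _ _)) u hu

theorem CM.noncollinear (h : M.Ok) {sp : Finset F} {p : V → ℂ} {r : V → ℝ} (hp : M.Pk p r) (hs : M.SF p)
    (ho : M.Ori sp p) {d e : D} (hd : d ∈ M.DS) (he : e ∈ M.DS) (hne : d ≠ e) (ht : M.t d = M.t e) :
    ∃ p' : V → ℂ, ∃ r' : V → ℝ, M.Pk p' r' ∧ M.SF p' ∧ M.Ori sp p' ∧
      cross (p' (M.t (M.al d)) - p' (M.t d)) (p' (M.t (M.al e)) - p' (M.t d)) ≠ 0 := by
  by_cases hc : cross (p (M.t (M.al d)) - p (M.t d)) (p (M.t (M.al e)) - p (M.t d)) = 0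
  swap
  · exact ⟨p, r, hp, hs, ho, hc⟩
  have hh : ∀ d ∈ M.DS, p (M.t d) ≠ p (M.t (M.al d)) := fun d hd => hp.heads_ne h hd
  have hv : M.t d ∈ M.VS := h.t_mem d hd
  have hst : ∀ f ∈ M.star (M.t d), p (M.t (M.al f)) ≠ p (M.t d) := by
    intro f hf
    rw [mem_star] at hf
    have h1 := hh f hf.1
    rw [hf.2] at h1
    exact h1.symm
  have hz : p (M.t (M.al d)) - p (M.t d) ≠ 0 := sub_ne_zero.mpr (hh d hd).symm
  obtain ⟨c, hcz⟩ := cross_eq_zero hz hc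
  have hzn : 0 < ‖p (M.t (M.al d)) - p (M.t d)‖ := norm_pos_iff.mpr hz
  have hl1 : ‖p (M.t (M.al d)) - p (M.t d)‖ = r (M.t d) + r (M.t (M.al d)) := by
    rw [norm_sub_rev]
    exact hp.tan d hd
  have hl2 : ‖p (M.t (M.al e)) - p (M.t d)‖ = r (M.t d) + r (M.t (M.al e)) := by
    rw [norm_sub_rev, ht]
    exact hp.tan e he
  have hneg : c < 0 := by
    rcases lt_trichotomy c 0 with h1 | h1 | h1
    · exact h1
    · exfalso
      rw [h1, Complex.ofReal_zero, zero_mul] at hcz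
      exact hst e (mem_star.mpr ⟨he, ht.symm⟩) (sub_eq_zero.mp hcz)
    · exfalso
      exact h.dir_inj hst (hp.cyc _ hv) (mem_star.mpr ⟨hd, rfl⟩) (mem_star.mpr ⟨he, ht.symm⟩) hne h1 hcz
  obtain ⟨z, hzdef⟩ : ∃ z : ℂ, z = p (M.t (M.al d)) - p (M.t d) := ⟨_, rfl⟩
  rw [← hzdef] at hz hcz hzn hl1
  obtain ⟨u, hu⟩ : ∃ u : ℂ, u = z / (‖z‖ : ℂ) := ⟨_, rfl⟩
  have hun : ‖u‖ = 1 := by
    rw [hu, norm_div, Complex.norm_real, norm_norm, div_self hzn.ne']
  have hzu : z = ((r (M.t d) + r (M.t (M.al d)) : ℝ) : ℂ) * u := by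
    rw [← hl1, hu, mul_div_cancel₀]
    rw [Ne, Complex.ofReal_eq_zero]
    exact hzn.ne'
  have hz2 : p (M.t (M.al e)) - p (M.t d) = -(((r (M.t d) + r (M.t (M.al e)) : ℝ) : ℂ) * u) := by
    have h1 : r (M.t d) + r (M.t (M.al e)) = -c * (r (M.t d) + r (M.t (M.al d))) := by
      rw [← hl2, hcz, norm_mul, Complex.norm_real, Real.norm_eq_abs, abs_of_neg hneg, hl1]
    rw [hcz, h1, hzu]
    push_cast
    ring
  obtain ⟨ε, hε, hper⟩ := M.persist h hh hp.cyc hs ho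
  obtain ⟨η, hη, hnear⟩ := near_all_h30 M.VS (fun x => p x - p (M.t d)) r hε
  obtain ⟨w, hw⟩ : ∃ w : ℂ, w = -(Complex.I * ((η / 2 : ℝ) : ℂ) * (starRingEnd ℂ) u) := ⟨_, rfl⟩
  have hwn : ‖w‖ < η := by
    rw [hw, norm_neg, norm_mul, norm_mul, Complex.norm_I, Complex.norm_real, RCLike.norm_conj, hun, Real.norm_eq_abs,
      abs_of_pos (half_pos hη)]
    linarith
  have hN := hnear w hwn
  obtain ⟨h1, h2, h3⟩ := hper (fun x => p (M.t d) + mp w (p x - p (M.t d)) (r x)) (fun x hx => by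
    have h4 := (hN x hx).2
    have h5 : p (M.t d) + mp w (p x - p (M.t d)) (r x) - p x = mp w (p x - p (M.t d)) (r x) - (p x - p (M.t d)) := by
      ring
    rw [h5]
    exact h4)
  refine ⟨fun x => p (M.t d) + mp w (p x - p (M.t d)) (r x), fun x => mr w (p x - p (M.t d)) (r x), ⟨?_, ?_, h1⟩,
    h2, h3, ?_⟩
  · intro x hx
    exact div_pos (hp.pos x hx) (hN x hx).1
  · intro f hf
    have h4 := h.t_mem f hf
    have h5 := h.h_mem hf
    have h6 := hp.tan f hf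
    show ‖p (M.t d) + mp w (p (M.t f) - p (M.t d)) (r (M.t f)) -
      (p (M.t d) + mp w (p (M.t (M.al f)) - p (M.t d)) (r (M.t (M.al f))))‖ = _
    rw [add_sub_add_left_eq_sub]
    refine mob_tan (hp.pos _ h4) (hp.pos _ h5) ?_ (hN _ h4).1 (hN _ h5).1
    rw [sub_sub_sub_cancel_right]
    exact h6
  · have n0 := (hN _ hv).1
    have n1 := (hN _ (h.h_mem hd)).1
    have n2 := (hN _ (h.h_mem he)).1
    simp only [sub_self] at n0
    show cross (p (M.t d) + mp w (p (M.t (M.al d)) - p (M.t d)) (r (M.t (M.al d))) -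
        (p (M.t d) + mp w (p (M.t d) - p (M.t d)) (r (M.t d))))
      (p (M.t d) + mp w (p (M.t (M.al e)) - p (M.t d)) (r (M.t (M.al e))) -
        (p (M.t d) + mp w (p (M.t d) - p (M.t d)) (r (M.t d)))) ≠ 0
    rw [add_sub_add_left_eq_sub, add_sub_add_left_eq_sub, sub_self]
    rw [← hzdef, hzu] at n1 ⊢
    rw [hz2] at n2 ⊢
    exact mob_cross hun (hp.pos _ hv) (hp.pos _ (h.h_mem hd)) (hp.pos _ (h.h_mem he)) (half_pos hη).ne' w hw n0 n1 n2

end

end Pool.Agent.Helper37.CP
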