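import Pool.Agent.Helper37.CP.Turn

/-!
# Block CP-SGN: the sign computation for unfolding.

`a = A - B`, `b = A - E`, `δ = C - A` where the circles `A` and `C` are almost equal and both tangent to `B` and `E`; `ρ = r_C - r_A`.
Put `û = a / ‖a‖`, `v̂ = b / ‖b‖` (unit vectors), `X = cross û v̂` (so `x ≤ |X| ≤ 1`), `y = cross û δ`, `c = ⟪û, v̂⟫` (real inner product), and
`κ = ‖δ‖^2 - ρ^2`.
(1) `‖a + δ‖ = ‖a‖ + ρ` gives `|ρ| ≤ ‖δ‖`, so `κ ≥ 0`, and, squaring, `⟪û, δ⟫ = ρ - κ / (2 ‖a‖)`; in the same way `⟪v̂, δ⟫ = ρ - κ / (2 ‖b‖)`.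
(2) `‖δ‖^2 = ⟪û, δ⟫^2 + y^2`, hence `κ (1 + ρ / ‖a‖ - κ / (4 ‖a‖^2)) = y^2`; with `|ρ| ≤ ‖δ‖ ≤ l / 8`, `κ ≤ l^2 / 64` the factor is `≥ 1/2`,
  so `κ ≤ 2 y^2`.
(3) `X y = ⟪v̂, δ⟫ - c ⟪û, δ⟫ = ρ (1 - c) - κ (1 / (2 ‖b‖) - c / (2 ‖a‖))`, and the bracket is at most `1 / l` in absolute value.
  So `|X y - ρ (1 - c)| ≤ 2 y^2 / l ≤ |y| x / 4 ≤ |X y| / 4` (as `|y| ≤ ‖δ‖ ≤ x l / 8`).
(4) `c < 1` (since `X ≠ 0` and `c^2 + X^2 = 1`) and `ρ ≠ 0`, so `y ≠ 0` and `X y` has the sign of `ρ`; as `ρ X < 0`, `y < 0`.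
(5) Exchange the roles of `a` and `b`: `X' = cross v̂ û = - X`, so `cross v̂ δ > 0`.
-/

set_option linter.unusedSectionVars false

namespace Pool.Agent.Helper37.CP

private lemma fold_aux65 {a b δ : ℂ} {ρ l x : ℝ} (hl : 0 < l) (hx : 0 < x) (ha : l ≤ ‖a‖) (hb : l ≤ ‖b‖)
    (h1 : ‖a + δ‖ = ‖a‖ + ρ) (h2 : ‖b + δ‖ = ‖b‖ + ρ) (hX : x * (‖a‖ * ‖b‖) ≤ |cross a b|)
    (hδ : ‖δ‖ ≤ x * l / 8) (hρ : ρ * cross a b ≠ 0) : 0 < ρ * cross a b * cross a δ := by
  have hsq : ∀ z : ℂ, ‖z‖ ^ 2 = z.re ^ 2 + z.im ^ 2 := by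
    intro z
    rw [← Complex.normSq_eq_norm_sq, Complex.normSq_apply]
    ring
  have hA2 := hsq a
  have hB2 := hsq b
  have hD2 := hsq δ
  have hAd := hsq (a + δ)
  have hBd := hsq (b + δ)
  rw [h1] at hAd
  rw [h2] at hBd
  simp only [Complex.add_re, Complex.add_im] at hAd hBd
  have hDn : 0 ≤ ‖δ‖ := norm_nonneg δ
  have hA : 0 < ‖a‖ := lt_of_lt_of_le hl ha
  have hB : 0 < ‖b‖ := lt_of_lt_of_le hl hb
  have hρD : |ρ| ≤ ‖δ‖ := by
    rw [abs_le]
    constructor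
    · have h3 : ‖a‖ ≤ ‖a + δ‖ + ‖δ‖ := by
        have h4 := norm_sub_le (a + δ) δ
        simpa using h4
      rw [h1] at h3
      linarith
    · have h3 := norm_add_le a δ
      rw [h1] at h3
      linarith
  unfold cross at *
  generalize ‖a‖ = A at *
  generalize ‖b‖ = B at *
  generalize ‖δ‖ = D at *
  obtain ⟨a1, a2⟩ := a
  obtain ⟨b1, b2⟩ := b
  obtain ⟨d1, d2⟩ := δ
  simp only at *
  set X := a1 * b2 - a2 * b1 with hXdef
  set q := a1 * d2 - a2 * d1 with hqdef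
  obtain ⟨c, hc⟩ : ∃ c, c = a1 * b1 + a2 * b2 := ⟨_, rfl⟩
  obtain ⟨κ, hκ⟩ : ∃ κ, κ = D ^ 2 - ρ ^ 2 := ⟨_, rfl⟩
  have hpa : a1 * d1 + a2 * d2 = A * ρ - κ / 2 := by
    rw [hκ]; linear_combination (-1/2 : ℝ) * hAd + (1/2 : ℝ) * hA2 + (1/2 : ℝ) * hD2
  have hpb : b1 * d1 + b2 * d2 = B * ρ - κ / 2 := by
    rw [hκ]; linear_combination (-1/2 : ℝ) * hBd + (1/2 : ℝ) * hB2 + (1/2 : ℝ) * hD2
  have hcX : c ^ 2 + X ^ 2 = (A * B) ^ 2 := by
    rw [hc, hXdef, mul_pow, hA2, hB2]; ring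
  have hpq : (A * ρ - κ / 2) ^ 2 + q ^ 2 = A ^ 2 * D ^ 2 := by
    rw [← hpa, hqdef, hA2, hD2]; ring
  have hXq : X * q = ρ * (A * (A * B - c)) - κ / 2 * (A ^ 2 - c) := by
    have h5 : X * q = A ^ 2 * (b1 * d1 + b2 * d2) - c * (a1 * d1 + a2 * d2) := by
      rw [hXdef, hqdef, hA2, hc]; ring
    rw [h5, hpa, hpb]; ring
  have hκ0 : 0 ≤ κ := by
    rw [hκ]
    have := pow_le_pow_left₀ (abs_nonneg ρ) hρD 2
    rw [sq_abs] at this
    linarith
  have hX1 : |X| ≤ A * B := by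
    apply abs_le_of_sq_le_sq _ (by positivity)
    linarith [sq_nonneg c]
  have hx1 : x ≤ 1 := by
    have h6 : x * (A * B) ≤ 1 * (A * B) := by linarith
    exact le_of_mul_le_mul_right h6 (by positivity)
  have hDA : D ≤ A / 8 := by
    have : x * l ≤ 1 * A := mul_le_mul hx1 ha hl.le (by norm_num)
    linarith
  have hκA : κ ≤ A ^ 2 / 64 := by
    rw [hκ]
    have : D ^ 2 ≤ (A / 8) ^ 2 := pow_le_pow_left₀ hDn hDA 2
    have h6 : (A / 8) ^ 2 = A ^ 2 / 64 := by ring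
    linarith [sq_nonneg ρ]
  have hρA : -(A / 8) ≤ ρ := by
    have := (abs_le.mp hρD).1
    linarith
  have hq2 : q ^ 2 = κ * (A ^ 2 + A * ρ - κ / 4) := by
    have : D ^ 2 = κ + ρ ^ 2 := by rw [hκ]; ring
    rw [this] at hpq
    linear_combination hpq
  have hκq : κ * A ^ 2 ≤ 2 * q ^ 2 := by
    rw [hq2]
    have h7 : A ^ 2 ≤ 2 * (A ^ 2 + A * ρ - κ / 4) := by
      have h6 := mul_le_mul_of_nonneg_left hρA hA.le
      have h5 : A * -(A / 8) = - (A ^ 2 / 8) := by ring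
      have h4 := sq_nonneg A
      linarith
    have h8 := mul_le_mul_of_nonneg_left h7 hκ0
    linarith
  have hq1 : |q| ≤ A * D := by
    apply abs_le_of_sq_le_sq _ (by positivity)
    rw [mul_pow]
    linarith [sq_nonneg (A * ρ - κ / 2)]
  have hc1 : |c| ≤ A * B := by
    apply abs_le_of_sq_le_sq _ (by positivity)
    linarith [sq_nonneg X]
  have hcc := abs_le.mp hc1
  -- error bound
  have hE : |κ / 2 * (A ^ 2 - c)| ≤ |X * q| / 4 := by
    have h8 : |A ^ 2 - c| ≤ A * (A + B) := by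
      have h7 : A * (A + B) = A ^ 2 + A * B := by ring
      rw [abs_le, h7]
      constructor <;> linarith [sq_nonneg A]
    have h9 : |κ / 2 * (A ^ 2 - c)| * A ≤ q ^ 2 * (A + B) := by
      rw [abs_mul, abs_of_nonneg (by positivity : (0:ℝ) ≤ κ / 2)]
      have h10 : κ / 2 * |A ^ 2 - c| * A ≤ κ / 2 * (A * (A + B)) * A := by
        apply mul_le_mul_of_nonneg_right _ hA.le
        exact mul_le_mul_of_nonneg_left h8 (by positivity)
      have h11 : κ / 2 * (A * (A + B)) * A = (κ * A ^ 2) / 2 * (A + B) := by ring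
      have h12 : (κ * A ^ 2) / 2 * (A + B) ≤ q ^ 2 * (A + B) := by
        apply mul_le_mul_of_nonneg_right _ (by positivity)
        linarith
      linarith
    have h13 : q ^ 2 * (A + B) ≤ |X * q| / 4 * A := by
      have h14 : q ^ 2 = |q| * |q| := by rw [← sq, sq_abs]
      have h15 : |q| * |q| ≤ |q| * (A * (x * l / 8)) := by
        apply mul_le_mul_of_nonneg_left _ (abs_nonneg q)
        exact hq1.trans (mul_le_mul_of_nonneg_left hδ hA.le)
      have h16 : l * (A + B) ≤ 2 * (A * B) := by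
        have e1 := mul_le_mul_of_nonneg_right hb hA.le
        have e2 := mul_le_mul_of_nonneg_right ha hB.le
        linarith
      have h17 : |q| * (A * (x * l / 8)) * (A + B) ≤ |q| * (A * x) * (A * B) / 4 := by
        have h18 : |q| * (A * (x * l / 8)) * (A + B) = |q| * (A * x) / 8 * (l * (A + B)) := by ring
        have h19 : |q| * (A * x) / 8 * (l * (A + B)) ≤ |q| * (A * x) / 8 * (2 * (A * B)) :=
          mul_le_mul_of_nonneg_left h16 (by positivity)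
        linarith
      have h20 : |q| * (A * x) * (A * B) ≤ |X * q| * A := by
        rw [abs_mul]
        have h21 : |q| * A * (x * (A * B)) ≤ |q| * A * |X| :=
          mul_le_mul_of_nonneg_left hX (by positivity)
        linarith
      have h22 : |q| * |q| * (A + B) ≤ |q| * (A * (x * l / 8)) * (A + B) :=
        mul_le_mul_of_nonneg_right h15 (by positivity)
      rw [h14]
      linarith
    exact le_of_mul_le_mul_right (h9.trans h13) hA
  have hρ0 : ρ ≠ 0 := left_ne_zero_of_mul hρ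
  have hX0 : X ≠ 0 := right_ne_zero_of_mul hρ
  have hcAB : c < A * B := by
    rcases lt_or_eq_of_le hcc.2 with h | h
    · exact h
    · exfalso
      rw [← h] at hcX
      have : X ^ 2 = 0 := by linarith
      exact hX0 (pow_eq_zero_iff (two_ne_zero) |>.mp this)
  have hpos : 0 < ρ ^ 2 * (A * (A * B - c)) := by
    have h23 : 0 < ρ ^ 2 := by positivity
    have h24 : 0 < A * B - c := by linarith
    positivity
  have hρE : |ρ * (κ / 2 * (A ^ 2 - c))| ≤ |ρ * X * q| / 4 := by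
    rw [abs_mul, mul_assoc ρ X q, abs_mul ρ (X * q)]
    have := mul_le_mul_of_nonneg_left hE (abs_nonneg ρ)
    linarith
  have hmain : ρ * X * q = ρ ^ 2 * (A * (A * B - c)) - ρ * (κ / 2 * (A ^ 2 - c)) := by
    rw [mul_assoc, hXq]; ring
  by_contra hcon
  push Not at hcon
  rw [abs_of_nonpos hcon] at hρE
  have h25 := le_abs_self (ρ * (κ / 2 * (A ^ 2 - c)))
  linarith

theorem fold_sign {a b δ : ℂ} {ρ l x : ℝ} (hl : 0 < l) (hx : 0 < x) (ha : l ≤ ‖a‖) (hb : l ≤ ‖b‖)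
    (h1 : ‖a + δ‖ = ‖a‖ + ρ) (h2 : ‖b + δ‖ = ‖b‖ + ρ) (hX : x * (‖a‖ * ‖b‖) ≤ |cross a b|)
    (hδ : ‖δ‖ ≤ x * l / 8) (hρ : ρ * cross a b < 0) : cross a δ < 0 ∧ 0 < cross b δ := by
  have hsw : cross b a = - cross a b := by unfold cross; ring
  have ha1 := fold_aux65 hl hx ha hb h1 h2 hX hδ hρ.ne
  have hb1 := fold_aux65 (a := b) (b := a) hl hx hb ha h2 h1
    (by rw [hsw, abs_neg, mul_comm ‖b‖ ‖a‖]; exact hX) hδ (by rw [hsw]; intro h; apply hρ.ne; linarith)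
  rw [hsw] at hb1
  constructor
  · by_contra hcon
    push Not at hcon
    have := mul_nonpos_of_nonpos_of_nonneg hρ.le hcon
    linarith
  · by_contra hcon
    push Not at hcon
    have h3 : 0 ≤ ρ * cross a b * cross b δ := mul_nonneg_of_nonpos_of_nonpos hρ.le hcon
    have h4 : ρ * -cross a b * cross b δ = -(ρ * cross a b * cross b δ) := by ring
    linarith

end Pool.Agent.Helper37.CP
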