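import Pool.Agent.Helper37.CP.FoldTs
import Pool.Agent.Helper37.CP.Mob
import Pool.Agent.Helper37.CP.Sgn

/-!
# Block CP-FG: unfolding. A stress-free packing of the folded map gives one of the original map.

`M' = M.fold d1 d2 d3 d4` with `A = t d1`, `B = t d2`, `C = t d3`, `E = t d4`. Start with a good packing of `M'`. Its darts `al d2` (now from `A` to
`B`) and `al d4` (from `A` to `E`) are different darts at `A`; by `noncollinear` (for `M'`; `M'` is Ok by `fold_ok`) we may assume that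
`cross (p B - p A) (p E - p A) ≠ 0` (heads by `fold_h`). Put `P = unf p`, `R = unf r`.
(1) `P, R` satisfy tangency for `M` (`fold_dist`), `R > 0`; `SF P` (`fold_sf`); `Ori sp P` (a non-special triangular face of `M` is one of
  `M'` with the same darts and length, `fold_len`, and the same positions; `fc d1` has length 4). So the `Ori` condition, `SF` and the
  angle sums at `v ≠ B, E` (`fold_ts`) hold near `P` (`ts_open`, `sf_open`, continuity; or apply the pieces of `persist`).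
(2) near `P`, the sum of the turns at `B` over the darts `≠ d2` stays in `(2 π - 1, 2 π + 1)` (`fold_tsB` and `turn_near` with `η = 1`; each of
  these turns is `< 2 π` at `P` because the star of `B` in `M'` has at least two elements (`star_two` for `M'`, `fold_lam`, at least
  3 vertices by `card_four`), as in `turn_lt_of_ts`). Same at `E` without `d4`.
(3) Let `a = P A - P B`, `b = P A - P E`; `cross a b ≠ 0`. Choose `ε` so small that everything in (1), (2) holds for `‖P' u - P u‖ < ε`, and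
  that for `a' = P' A - P' B`, `b' = P' A - P' E`, `δ = P' C - P' A` the hypotheses of `fold_sign` hold with
  `l = min ‖a‖ ‖b‖ / 2`, `x = |cross a b| / (2 ‖a‖ ‖b‖)` or similar, and `cross a' b'` has the sign of `cross a b` (continuity; `‖δ‖ < 2 ε`
  since `P C = P A`).
(4) Take `η` from `open_map` for this `ε`. Let `R' = R` except `R' C = R C + ρ`, `0 < |ρ| < min η (R C)`, with `ρ * cross a b < 0`. The symmetric
  function `l d = R' (t d) + R' (head d)` is within `|ρ| < η` of the distances at `P` (a dart has at most one end at `C`). So there is `P'`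
  near `P` with tangency for `R'`.
(5) `‖P' C - P' B‖ = R' C + R' B = ‖a'‖ + ρ` (dart `d2`, and `al d1` for `‖a'‖ = R A + R B`; `R C = R A`), similarly
  `‖P' C - P' E‖ = ‖b'‖ + ρ`. By `fold_sign`: `cross a' δ < 0 < cross b' δ`. Turn at `B` from `d2 : B → C` to `nx d2 = al d1 : B → A`:
  `cross (P' C - P' B) (P' A - P' B) = cross (a' + δ) a' = - cross a' δ > 0`, so this turn is in `(0, π)` (`turn_lt_pi`), the whole sum at
  `B` is `< 2 π + 1 + π < 4 π`, and `ts_eq` gives `2 π`. At `E` from `d4 : E → A` to `nx d4 = al d3 : E → C`: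
  `cross b' (b' + δ) = cross b' δ > 0`, same conclusion.
-/

set_option linter.unusedSectionVars false

namespace Pool.Agent.Helper37.CP

variable {V D F : Type*} [DecidableEq V] [DecidableEq D] [DecidableEq F] {M : CM V D F} {d1 d2 d3 d4 : D}

private theorem near_and_h12 {V : Type*} {U : Finset V} {p : V → ℂ} {Q1 Q2 : (V → ℂ) → Prop}
    (h1 : ∃ ε > (0 : ℝ), ∀ p' : V → ℂ, (∀ u ∈ U, ‖p' u - p u‖ < ε) → Q1 p')
    (h2 : ∃ ε > (0 : ℝ), ∀ p' : V → ℂ, (∀ u ∈ U, ‖p' u - p u‖ < ε) → Q2 p') :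
    ∃ ε > (0 : ℝ), ∀ p' : V → ℂ, (∀ u ∈ U, ‖p' u - p u‖ < ε) → Q1 p' ∧ Q2 p' := by
  obtain ⟨ε1, k1, k1'⟩ := h1
  obtain ⟨ε2, k2, k2'⟩ := h2
  exact ⟨min ε1 ε2, lt_min k1 k2, fun p' hp' => ⟨k1' p' fun u hu => (hp' u hu).trans_le (min_le_left _ _),
    k2' p' fun u hu => (hp' u hu).trans_le (min_le_right _ _)⟩⟩

private theorem near_all_h12 {V ι : Type*} {U : Finset V} {p : V → ℂ} (S : Finset ι) (Q : ι → (V → ℂ) → Prop)
    (h : ∀ i ∈ S, ∃ ε > (0 : ℝ), ∀ p' : V → ℂ, (∀ u ∈ U, ‖p' u - p u‖ < ε) → Q i p') :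
    ∃ ε > (0 : ℝ), ∀ p' : V → ℂ, (∀ u ∈ U, ‖p' u - p u‖ < ε) → ∀ i ∈ S, Q i p' := by
  classical
  induction S using Finset.induction_on with
  | empty => exact ⟨1, one_pos, fun p' _ i hi => absurd hi (Finset.notMem_empty i)⟩
  | insert a S ha ih =>
    obtain ⟨ε1, h1, h1'⟩ := ih fun i hi => h i (Finset.mem_insert_of_mem hi)
    obtain ⟨ε2, h2, h2'⟩ := h a (Finset.mem_insert_self a S)
    refine ⟨min ε1 ε2, lt_min h1 h2, fun p' hp' i hi => ?_⟩
    rcases Finset.mem_insert.1 hi with rfl | hi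
    · exact h2' p' fun u hu => (hp' u hu).trans_le (min_le_right _ _)
    · exact h1' p' (fun u hu => (hp' u hu).trans_le (min_le_left _ _)) i hi

private theorem near_open_h12 {V : Type*} {U : Finset V} {p : V → ℂ} {a b c e : V} (ha : a ∈ U) (hb : b ∈ U)
    (hc : c ∈ U) (he : e ∈ U) {O : Set (ℂ × ℂ × ℂ × ℂ)} (hO : IsOpen O) (h : (p a, p b, p c, p e) ∈ O) :
    ∃ ε > (0 : ℝ), ∀ p' : V → ℂ, (∀ u ∈ U, ‖p' u - p u‖ < ε) → (p' a, p' b, p' c, p' e) ∈ O := by
  obtain ⟨ε, hε, hball⟩ := Metric.isOpen_iff.1 hO _ h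
  refine ⟨ε, hε, fun p' hp' => hball ?_⟩
  rw [Metric.mem_ball, Prod.dist_eq, Prod.dist_eq, Prod.dist_eq, dist_eq_norm, dist_eq_norm, dist_eq_norm,
    dist_eq_norm]
  exact max_lt (hp' a ha) (max_lt (hp' b hb) (max_lt (hp' c hc) (hp' e he)))

private theorem ph_eq_h12 (q : M.Quad d1 d2 d3 d4) (h : M.Ok) (hl : M.Lam) (h3 : 3 ≤ M.VS.card) {d : D}
    (hd : d ∈ (M.fold d1 d2 d3 d4).DS) :
    (M.fold d1 d2 d3 d4).pv ((M.fold d1 d2 d3 d4).al d) = M.pv (M.al d) := by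
  obtain ⟨t12, t13, t14, t23, t24, t34⟩ := q.distinct h hl h3
  obtain ⟨hd0, k1, k2, k3, k4⟩ := fold_mem.1 hd
  have ne12 : M.al d1 ≠ M.al d2 := fun e => t12 (by rw [h.al_inj q.m1 q.m2 e])
  have ne13 : M.al d1 ≠ M.al d3 := fun e => t13 (by rw [h.al_inj q.m1 q.m3 e])
  have ne14 : M.al d1 ≠ M.al d4 := fun e => t14 (by rw [h.al_inj q.m1 q.m4 e])
  have ne23 : M.al d2 ≠ M.al d3 := fun e => t23 (by rw [h.al_inj q.m2 q.m3 e])
  have ne24 : M.al d2 ≠ M.al d4 := fun e => t24 (by rw [h.al_inj q.m2 q.m4 e])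
  have ne34 : M.al d3 ≠ M.al d4 := fun e => t34 (by rw [h.al_inj q.m3 q.m4 e])
  have hal : (M.fold d1 d2 d3 d4).al d = if d = M.al d1 then M.al d2 else if d = M.al d2 then M.al d1
    else if d = M.al d3 then M.al d4 else if d = M.al d4 then M.al d3 else M.al d := rfl
  have hpv : ∀ e, (M.fold d1 d2 d3 d4).pv e = if e = M.al d2 then M.pv d1 else if e = M.al d1 then M.pv d2
    else if e = M.al d4 then M.pv d3 else if e = M.al d3 then M.pv d4 else M.pv e := fun e => rfl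
  rw [hal]
  split_ifs with e1 e2 e3 e4
  · rw [hpv, if_pos rfl, e1, h.al_al _ q.m1]
  · rw [hpv, if_neg ne12, if_pos rfl, e2, h.al_al _ q.m2]
  · rw [hpv, if_neg ne24.symm, if_neg ne14.symm, if_pos rfl, e3, h.al_al _ q.m3]
  · rw [hpv, if_neg ne23.symm, if_neg ne13.symm, if_neg ne34, if_pos rfl, e4, h.al_al _ q.m4]
  · rw [hpv, if_neg (fun e => k2 (h.al_inj hd0 q.m2 e)), if_neg (fun e => k1 (h.al_inj hd0 q.m1 e)),
      if_neg (fun e => k4 (h.al_inj hd0 q.m4 e)), if_neg (fun e => k3 (h.al_inj hd0 q.m3 e))]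

private theorem starB_h12 (q : M.Quad d1 d2 d3 d4) (h : M.Ok) (hl : M.Lam) (h3 : 3 ≤ M.VS.card) :
    (M.fold d1 d2 d3 d4).star (M.t d2) = (M.star (M.t d2)).erase d2 := by
  obtain ⟨t12, t13, t14, t23, t24, t34⟩ := q.distinct h hl h3
  ext d
  rw [mem_star, fold_mem, Finset.mem_erase, mem_star]
  change (d ∈ M.DS ∧ d ≠ d1 ∧ d ≠ d2 ∧ d ≠ d3 ∧ d ≠ d4) ∧ (if M.t d = M.t d3 then M.t d1 else M.t d) = M.t d2 ↔ _
  constructor
  · rintro ⟨⟨hd, k1, k2, k3, k4⟩, e⟩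
    split_ifs at e with e1
    · exact absurd e t12
    · exact ⟨k2, hd, e⟩
  · rintro ⟨k2, hd, e⟩
    refine ⟨⟨hd, fun x => t12 (by rw [← e, x]), k2, fun x => t23 (by rw [← e, x]),
      fun x => t24 (by rw [← e, x])⟩, ?_⟩
    rw [if_neg (by rw [e]; exact t23), e]

private theorem starE_h12 (q : M.Quad d1 d2 d3 d4) (h : M.Ok) (hl : M.Lam) (h3 : 3 ≤ M.VS.card) :
    (M.fold d1 d2 d3 d4).star (M.t d4) = (M.star (M.t d4)).erase d4 := by
  obtain ⟨t12, t13, t14, t23, t24, t34⟩ := q.distinct h hl h3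
  ext d
  rw [mem_star, fold_mem, Finset.mem_erase, mem_star]
  change (d ∈ M.DS ∧ d ≠ d1 ∧ d ≠ d2 ∧ d ≠ d3 ∧ d ≠ d4) ∧ (if M.t d = M.t d3 then M.t d1 else M.t d) = M.t d4 ↔ _
  constructor
  · rintro ⟨⟨hd, k1, k2, k3, k4⟩, e⟩
    split_ifs at e with e1
    · exact absurd e t14
    · exact ⟨k4, hd, e⟩
  · rintro ⟨k4, hd, e⟩
    refine ⟨⟨hd, fun x => t14 (by rw [← e, x]), fun x => t24 (by rw [← e, x]), fun x => t34 (by rw [← e, x]),
      k4⟩, ?_⟩
    rw [if_neg (by rw [e]; exact t34.symm), e]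

/-- the sum of the turns over a part of a star, near a placement -/
private theorem near_sum_h12 (h : M.Ok) {P : V → ℂ} (hne : ∀ d ∈ M.DS, P (M.t d) ≠ P (M.t (M.al d))) {v : V}
    (hv : v ∈ M.VS) {S : Finset D} (hS : S ⊆ M.star v) (hc : 2 ≤ S.card)
    (hsum : ∑ d ∈ S, turn (P (M.t (M.al d)) - P v) (P (M.t (M.al (M.nx d))) - P v) = 2 * Real.pi) :
    ∃ ε > (0 : ℝ), ∀ p' : V → ℂ, (∀ u ∈ M.VS, ‖p' u - P u‖ < ε) →
      ∑ d ∈ S, turn (p' (M.t (M.al d)) - p' v) (p' (M.t (M.al (M.nx d))) - p' v) < 2 * Real.pi + 1 := by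
  have hst : ∀ d ∈ M.star v, P (M.t (M.al d)) ≠ P v := by
    intro d hd
    rw [mem_star] at hd
    rw [← hd.2]
    exact (hne d hd.1).symm
  obtain ⟨ε, hε, hn⟩ := turn_near S (fun d => M.t (M.al d)) (fun d => M.t (M.al (M.nx d))) (fun _ => v) M.VS P
    (by
      intro d hd
      have hd' := mem_star.1 (hS hd)
      exact ⟨h.h_mem hd'.1, h.h_mem (h.nx_mem d hd'.1), hv⟩)
    (by
      intro d hd
      refine ⟨hst d (hS hd), hst _ (h.nx_star (hS hd)), ?_⟩
      show turn (P (M.t (M.al d)) - P v) (P (M.t (M.al (M.nx d))) - P v) < 2 * Real.pi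
      rw [← hsum, ← Finset.add_sum_erase S _ hd]
      have hpos : 0 < ∑ x ∈ S.erase d, turn (P (M.t (M.al x)) - P v) (P (M.t (M.al (M.nx x))) - P v) := by
        apply Finset.sum_pos (fun x _ => turn_pos _ _)
        rw [← Finset.card_pos, Finset.card_erase_of_mem hd]
        omega
      linarith)
    one_pos
  refine ⟨ε, hε, fun p' hp' => ?_⟩
  have h1 := abs_lt.1 (hn p' hp')
  have h2 := h1.2

  rw [hsum] at h2
  linarith

private theorem cross_add_self_h12 (a δ : ℂ) : cross (a + δ) a = - cross a δ := by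
  simp only [cross, Complex.add_re, Complex.add_im]
  ring

private theorem cross_self_add_h12 (b δ : ℂ) : cross b (b + δ) = cross b δ := by
  simp only [cross, Complex.add_re, Complex.add_im]
  ring

private theorem cross_neg_h12 (x y z : ℂ) : cross (x - y) (x - z) = cross (y - x) (z - x) := by
  simp only [cross, Complex.sub_re, Complex.sub_im]
  ring

theorem CM.Quad.fold_good (q : M.Quad d1 d2 d3 d4) {sp : Finset F} (ha : M.Adm sp) (h3 : 3 ≤ M.VS.card)
    (hf : M.Free (M.t d1) (M.t d2) (M.t d3) (M.t d4)) (hsp : M.fc d1 ∉ sp)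
    (hg : (M.fold d1 d2 d3 d4).Good sp) : M.Good sp := by
  have h := ha.ok
  have hl := ha.lam
  have h' : (M.fold d1 d2 d3 d4).Ok := q.fold_ok h hl h3 hf
  have hl' : (M.fold d1 d2 d3 d4).Lam := q.fold_lam h hl h3 hf
  have hc4 := q.card_four h hl h3
  have hcf := q.fold_card h
  have h3' : 3 ≤ (M.fold d1 d2 d3 d4).VS.card := by omega
  obtain ⟨t12, t13, t14, t23, t24, t34⟩ := q.distinct h hl h3
  have hal := q.al_not_mem h hl h3
  simp only [Finset.mem_insert, Finset.mem_singleton, not_or] at hal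
  have mA := h.t_mem _ q.m1
  have mB := h.t_mem _ q.m2
  have mC := h.t_mem _ q.m3
  have mE := h.t_mem _ q.m4
  have hm2 : M.al d2 ∈ (M.fold d1 d2 d3 d4).DS := fold_mem.2 ⟨h.al_mem _ q.m2, hal.2.1⟩
  have hm4 : M.al d4 ∈ (M.fold d1 d2 d3 d4).DS := fold_mem.2 ⟨h.al_mem _ q.m4, hal.2.2.2⟩
  have ht2 : (M.fold d1 d2 d3 d4).t (M.al d2) = M.t d1 := by
    show (if M.t (M.al d2) = M.t d3 then M.t d1 else M.t (M.al d2)) = M.t d1
    rw [if_pos (q.h2 h)]
  have ht4 : (M.fold d1 d2 d3 d4).t (M.al d4) = M.t d1 := by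
    show (if M.t (M.al d4) = M.t d3 then M.t d1 else M.t (M.al d4)) = M.t d1
    rw [q.h4 h, if_neg t13]
  have hh2 : (M.fold d1 d2 d3 d4).t ((M.fold d1 d2 d3 d4).al (M.al d2)) = M.t d2 := by
    rw [q.fold_h h hl h3 _ hm2, h.al_al _ q.m2, if_neg t23]
  have hh4 : (M.fold d1 d2 d3 d4).t ((M.fold d1 d2 d3 d4).al (M.al d4)) = M.t d4 := by
    rw [q.fold_h h hl h3 _ hm4, h.al_al _ q.m4, if_neg t34.symm]
  have hne24 : M.al d2 ≠ M.al d4 := fun e => t24 (by rw [h.al_inj q.m2 q.m4 e])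
  obtain ⟨p0, r0, hp0, hs0, ho0⟩ := hg
  obtain ⟨p, r, hp, hs, ho, hcr⟩ := CM.noncollinear h' hp0 hs0 ho0 hm2 hm4 hne24 (ht2.trans ht4.symm)
  rw [hh2, hh4, ht2] at hcr
  rw [← cross_neg_h12] at hcr
  -- the unfolded placement
  have hPC : unf M d1 d3 p (M.t d3) = p (M.t d1) := by unfold unf; rw [if_pos rfl]
  have hPA : unf M d1 d3 p (M.t d1) = p (M.t d1) := by unfold unf; rw [if_neg t13]
  have hPB : unf M d1 d3 p (M.t d2) = p (M.t d2) := by unfold unf; rw [if_neg t23]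
  have hPE : unf M d1 d3 p (M.t d4) = p (M.t d4) := by unfold unf; rw [if_neg t34.symm]
  have hRC : unf M d1 d3 r (M.t d3) = r (M.t d1) := by unfold unf; rw [if_pos rfl]
  have hRA : unf M d1 d3 r (M.t d1) = r (M.t d1) := by unfold unf; rw [if_neg t13]
  have hdist := q.fold_dist h hl h3 hp.tan
  have hRpos : ∀ v ∈ M.VS, 0 < unf M d1 d3 r v := by
    intro v hv
    unfold unf
    split_ifs with e
    · exact hp.pos _ (Finset.mem_erase.2 ⟨t13, mA⟩)
    · exact hp.pos _ (Finset.mem_erase.2 ⟨e, hv⟩)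
  have hsP : M.SF (unf M d1 d3 p) := q.fold_sf h hl h3 hs hcr
  have hneP : ∀ d ∈ M.DS, unf M d1 d3 p (M.t d) ≠ unf M d1 d3 p (M.t (M.al d)) := by
    intro d hd e
    have h1 := hdist d hd
    rw [e, sub_self, norm_zero] at h1
    have h2 := hRpos _ (h.t_mem d hd)
    have h4 := hRpos _ (h.h_mem hd)
    linarith
  have hoP : ∀ d ∈ M.DS, M.fc d ∉ sp → M.len (M.fc d) = 3 →
      0 < cross (unf M d1 d3 p (M.t (M.al d)) - unf M d1 d3 p (M.t d))
        (unf M d1 d3 p (M.t (M.al (M.pv (M.al d)))) - unf M d1 d3 p (M.t d)) := by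
    intro d hd hdsp hlen
    have hfc : M.fc d ≠ M.fc d1 := by
      intro e
      rw [e, q.len] at hlen
      omega
    have hd' : d ∈ (M.fold d1 d2 d3 d4).DS := by
      rw [fold_mem]
      refine ⟨hd, fun e => hfc (by rw [e]), fun e => hfc (by rw [e, q.f2 h]), fun e => hfc (by rw [e, q.f3 h]),
        fun e => hfc (by rw [e, q.f4 h])⟩
    have h1 := ho d hd' hdsp (by
      show (M.fold d1 d2 d3 d4).len (M.fc d) = 3
      rw [q.fold_len h hl h3 hfc]
      exact hlen)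
    rw [q.unf_h h hl h3 p hd', q.unf_t h hl h3 p d]
    have h2 := q.fold_pv_mem h hl h3 _ (q.fold_al_mem h hl h3 d hd')
    rw [ph_eq_h12 q h hl h3 hd'] at h1 h2
    rw [q.unf_h h hl h3 p h2]
    exact h1
  set P := unf M d1 d3 p with hPdef
  set R := unf M d1 d3 r with hRdef
  -- (i) the angle sums at the other vertices
  have n1 : ∃ ε > (0 : ℝ), ∀ p' : V → ℂ, (∀ u ∈ M.VS, ‖p' u - P u‖ < ε) →
      ∀ v ∈ M.VS, (v ≠ M.t d2 → v ≠ M.t d4 → M.ts p' v = 2 * Real.pi) := by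
    apply near_all_h12
    intro v hv
    by_cases hvb : v ≠ M.t d2 ∧ v ≠ M.t d4
    · obtain ⟨ε, hε, h1⟩ := h.ts_open (p := P) hv
        (by
          intro d hd
          rw [mem_star] at hd
          rw [← hd.2]
          exact (hneP d hd.1).symm)
        (q.fold_ts h hl h3 hf hneP hp.cyc v hv hvb.1 hvb.2)
      exact ⟨ε, hε, fun p' hp' _ _ => h1 p' hp'⟩
    · exact ⟨1, one_pos, fun p' _ k1 k2 => absurd ⟨k1, k2⟩ hvb⟩
  -- (ii) stresses
  have n2 := h.sf_open hsP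
  -- (iii) orientations
  have n3 : ∃ ε > (0 : ℝ), ∀ p' : V → ℂ, (∀ u ∈ M.VS, ‖p' u - P u‖ < ε) →
      ∀ d ∈ M.DS, (M.fc d ∉ sp → M.len (M.fc d) = 3 →
        0 < cross (p' (M.t (M.al d)) - p' (M.t d)) (p' (M.t (M.al (M.pv (M.al d)))) - p' (M.t d))) := by
    apply near_all_h12
    intro d hd
    by_cases hcase : M.fc d ∉ sp ∧ M.len (M.fc d) = 3
    · have hcont : Continuous (fun x : ℂ × ℂ × ℂ × ℂ => cross (x.1 - x.2.1) (x.2.2.1 - x.2.1)) := by
        unfold cross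
        fun_prop
      have hopen : IsOpen {x : ℂ × ℂ × ℂ × ℂ | 0 < cross (x.1 - x.2.1) (x.2.2.1 - x.2.1)} :=
        isOpen_lt continuous_const hcont
      obtain ⟨ε, hε, h1⟩ := near_open_h12 (p := P) (h.h_mem hd) (h.t_mem d hd)
        (h.h_mem (h.pv_mem _ (h.al_mem d hd))) (h.t_mem d hd) hopen (hoP d hd hcase.1 hcase.2)
      exact ⟨ε, hε, fun p' hp' _ _ => h1 p' hp'⟩
    · exact ⟨1, one_pos, fun p' _ k1 k2 => absurd ⟨k1, k2⟩ hcase⟩
  -- (iv), (v)
  have hB' : M.t d2 ∈ (M.fold d1 d2 d3 d4).VS := Finset.mem_erase.2 ⟨t23, mB⟩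
  have hE' : M.t d4 ∈ (M.fold d1 d2 d3 d4).VS := Finset.mem_erase.2 ⟨t34.symm, mE⟩
  have n4 := near_sum_h12 h hneP mB (Finset.erase_subset d2 (M.star (M.t d2)))
    (by
      rw [← starB_h12 q h hl h3]
      exact hl'.star_two h' h3' hB')
    (q.fold_tsB h hl h3 hf (hp.cyc _ hB'))
  have n5 := near_sum_h12 h hneP mE (Finset.erase_subset d4 (M.star (M.t d4)))
    (by
      rw [← starE_h12 q h hl h3]
      exact hl'.star_two h' h3' hE')
    (q.fold_tsE h hl h3 hf (hp.cyc _ hE'))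
  -- (vi)
  have hcr' : cross (P (M.t d1) - P (M.t d2)) (P (M.t d1) - P (M.t d4)) ≠ 0 := by
    rw [hPA, hPB, hPE]
    exact hcr
  set X := cross (P (M.t d1) - P (M.t d2)) (P (M.t d1) - P (M.t d4)) with hXdef
  have hXpos : 0 < |X| := abs_pos.2 hcr'
  have haP : 0 < ‖P (M.t d1) - P (M.t d2)‖ := by
    rw [norm_pos_iff, sub_ne_zero]
    have := hneP d1 q.m1
    rw [q.h1 h] at this
    exact this
  have hbP : 0 < ‖P (M.t d1) - P (M.t d4)‖ := by
    rw [norm_pos_iff, sub_ne_zero]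
    have := hneP d4 q.m4
    rw [q.h4 h] at this
    exact this.symm
  set l := min ‖P (M.t d1) - P (M.t d2)‖ ‖P (M.t d1) - P (M.t d4)‖ / 2 with hldef
  have hlpos : 0 < l := half_pos (lt_min haP hbP)
  have hl1 : l < ‖P (M.t d1) - P (M.t d2)‖ := by
    have := min_le_left ‖P (M.t d1) - P (M.t d2)‖ ‖P (M.t d1) - P (M.t d4)‖
    rw [hldef]
    linarith
  have hl2 : l < ‖P (M.t d1) - P (M.t d4)‖ := by
    have := min_le_right ‖P (M.t d1) - P (M.t d2)‖ ‖P (M.t d1) - P (M.t d4)‖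
    rw [hldef]
    linarith
  set x := |X| / (2 * (‖P (M.t d1) - P (M.t d2)‖ * ‖P (M.t d1) - P (M.t d4)‖)) with hxdef
  have hxpos : 0 < x := by positivity
  have hx1 : x * (‖P (M.t d1) - P (M.t d2)‖ * ‖P (M.t d1) - P (M.t d4)‖) < |X| := by
    rw [hxdef]
    have e : |X| / (2 * (‖P (M.t d1) - P (M.t d2)‖ * ‖P (M.t d1) - P (M.t d4)‖)) *
        (‖P (M.t d1) - P (M.t d2)‖ * ‖P (M.t d1) - P (M.t d4)‖) = |X| / 2 := by
      field_simp
    rw [e]
    linarith
  have n6 : ∃ ε > (0 : ℝ), ∀ p' : V → ℂ, (∀ u ∈ M.VS, ‖p' u - P u‖ < ε) →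
      (l < ‖p' (M.t d1) - p' (M.t d2)‖ ∧ l < ‖p' (M.t d1) - p' (M.t d4)‖) ∧
      (x * (‖p' (M.t d1) - p' (M.t d2)‖ * ‖p' (M.t d1) - p' (M.t d4)‖) <
        |cross (p' (M.t d1) - p' (M.t d2)) (p' (M.t d1) - p' (M.t d4))| ∧
      ‖p' (M.t d3) - p' (M.t d1)‖ < x * l / 8) ∧
      0 < X * cross (p' (M.t d1) - p' (M.t d2)) (p' (M.t d1) - p' (M.t d4)) := by
    have hcc : Continuous (fun y : ℂ × ℂ × ℂ × ℂ => cross (y.1 - y.2.1) (y.1 - y.2.2.2)) := by
      unfold cross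
      fun_prop
    have hopen : IsOpen {y : ℂ × ℂ × ℂ × ℂ | (l < ‖y.1 - y.2.1‖ ∧ l < ‖y.1 - y.2.2.2‖) ∧
        (x * (‖y.1 - y.2.1‖ * ‖y.1 - y.2.2.2‖) < |cross (y.1 - y.2.1) (y.1 - y.2.2.2)| ∧
        ‖y.2.2.1 - y.1‖ < x * l / 8) ∧ 0 < X * cross (y.1 - y.2.1) (y.1 - y.2.2.2)} := by
      refine IsOpen.and (IsOpen.and ?_ ?_) (IsOpen.and (IsOpen.and ?_ ?_) ?_)
      · exact isOpen_lt continuous_const (by fun_prop)
      · exact isOpen_lt continuous_const (by fun_prop)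
      · exact isOpen_lt (by fun_prop) hcc.abs
      · exact isOpen_lt (by fun_prop) continuous_const
      · exact isOpen_lt continuous_const (continuous_const.mul hcc)
    refine near_open_h12 (p := P) mA mB mC mE hopen ?_
    refine ⟨⟨hl1, hl2⟩, ⟨hx1, ?_⟩, ?_⟩
    · show ‖P (M.t d3) - P (M.t d1)‖ < x * l / 8
      rw [hPC, hPA, sub_self, norm_zero]
      positivity
    · show 0 < X * X
      exact mul_self_pos.2 hcr'
  obtain ⟨ε, hε, hnear⟩ := near_and_h12 n1 (near_and_h12 n2 (near_and_h12 n3 (near_and_h12 n4 (near_and_h12 n5 n6))))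
  obtain ⟨η, hη, hom⟩ := h.open_map hsP hneP ε hε
  -- the perturbed radius
  have hRC0 : 0 < R (M.t d3) := hRpos _ mC
  obtain ⟨ρ, hρ1, hρ2, hρ3⟩ : ∃ ρ : ℝ, |ρ| < η ∧ |ρ| < R (M.t d3) ∧ ρ * X < 0 := by
    have hm : 0 < min η (R (M.t d3)) / 2 := half_pos (lt_min hη hRC0)
    have hm1 : min η (R (M.t d3)) / 2 < η := by
      have := min_le_left η (R (M.t d3))
      linarith
    have hm2 : min η (R (M.t d3)) / 2 < R (M.t d3) := by
      have := min_le_right η (R (M.t d3))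
      linarith
    rcases lt_or_gt_of_ne hcr' with hX | hX
    · refine ⟨min η (R (M.t d3)) / 2, ?_, ?_, mul_neg_of_pos_of_neg hm hX⟩
      · rw [abs_of_pos hm]; exact hm1
      · rw [abs_of_pos hm]; exact hm2
    · refine ⟨-(min η (R (M.t d3)) / 2), ?_, ?_, mul_neg_of_neg_of_pos (neg_lt_zero.2 hm) hX⟩
      · rw [abs_neg, abs_of_pos hm]; exact hm1
      · rw [abs_neg, abs_of_pos hm]; exact hm2
  obtain ⟨hρ2a, hρ2b⟩ := abs_lt.1 hρ2
  obtain ⟨R', hR'⟩ : ∃ R' : V → ℝ, R' = fun v => if v = M.t d3 then R (M.t d3) + ρ else R v := ⟨_, rfl⟩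
  have hR'C : R' (M.t d3) = R (M.t d3) + ρ := by rw [hR']; exact if_pos rfl
  have hR'n : ∀ v, v ≠ M.t d3 → R' v = R v := by intro v hv; rw [hR']; exact if_neg hv
  have hR'pos : ∀ v ∈ M.VS, 0 < R' v := by
    intro v hv
    by_cases e : v = M.t d3
    · rw [e, hR'C]
      linarith
    · rw [hR'n v e]
      exact hRpos v hv
  have hη1 := abs_lt.1 hρ1
  obtain ⟨P', hP'near, hP'tan⟩ := hom (fun d => R' (M.t d) + R' (M.t (M.al d)))
    (by
      intro d hd
      show R' (M.t (M.al d)) + R' (M.t (M.al (M.al d))) = R' (M.t d) + R' (M.t (M.al d))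
      rw [h.al_al d hd, add_comm])
    (by
      intro d hd
      show |R' (M.t d) + R' (M.t (M.al d)) - ‖P (M.t d) - P (M.t (M.al d))‖| < η
      rw [hdist d hd]
      by_cases e1 : M.t d = M.t d3
      · have e2 : M.t (M.al d) ≠ M.t d3 := fun e => h.loopless d hd (e.trans e1.symm)
        rw [hR'n _ e2, e1, hR'C]
        have e3 : R (M.t d3) + ρ + R (M.t (M.al d)) - (R (M.t d3) + R (M.t (M.al d))) = ρ := by ring
        rw [e3]
        exact hρ1
      · by_cases e2 : M.t (M.al d) = M.t d3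
        · rw [hR'n _ e1, e2, hR'C]
          have e3 : R (M.t d) + (R (M.t d3) + ρ) - (R (M.t d) + R (M.t d3)) = ρ := by ring
          rw [e3]
          exact hρ1
        · rw [hR'n _ e1, hR'n _ e2, sub_self, abs_zero]
          exact hη)
  obtain ⟨c1, c2, c3, c4, c5, ⟨c6a, c6b⟩, ⟨c6c, c6d⟩, c6e⟩ := hnear P' hP'near
  have hneP' : ∀ d ∈ M.DS, P' (M.t d) ≠ P' (M.t (M.al d)) := by
    intro d hd e
    have k1 := hP'tan d hd
    rw [e, sub_self, norm_zero] at k1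
    have k2 := hR'pos _ (h.t_mem d hd)
    have k4 := hR'pos _ (h.h_mem hd)
    linarith
  have hstP' : ∀ v, ∀ d ∈ M.star v, P' (M.t (M.al d)) ≠ P' v := by
    intro v d hd
    rw [mem_star] at hd
    rw [← hd.2]
    exact (hneP' d hd.1).symm
  -- the sign computation
  have g1 := hP'tan d1 q.m1
  have g2 := hP'tan d2 q.m2
  have g3 := hP'tan d3 q.m3
  have g4 := hP'tan d4 q.m4

  rw [q.h1 h, hR'n _ t13, hR'n _ t23, hRA] at g1
  rw [q.h2 h, hR'C, hR'n _ t23, hRC, norm_sub_rev] at g2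
  rw [q.h3 h, hR'C, hR'n _ t34.symm, hRC] at g3
  rw [q.h4 h, hR'n _ t34.symm, hR'n _ t13, hRA, norm_sub_rev] at g4
  have hsign := fold_sign (a := P' (M.t d1) - P' (M.t d2)) (b := P' (M.t d1) - P' (M.t d4))
    (δ := P' (M.t d3) - P' (M.t d1)) (ρ := ρ) (l := l) (x := x) hlpos hxpos c6a.le c6b.le
    (by
      have e : P' (M.t d1) - P' (M.t d2) + (P' (M.t d3) - P' (M.t d1)) = P' (M.t d3) - P' (M.t d2) := by ring
      rw [e, g2, g1]
      ring)
    (by
      have e : P' (M.t d1) - P' (M.t d4) + (P' (M.t d3) - P' (M.t d1)) = P' (M.t d3) - P' (M.t d4) := by ring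
      rw [e, g3, g4]
      ring)
    c6c.le c6d.le
    (by
      set Y := cross (P' (M.t d1) - P' (M.t d2)) (P' (M.t d1) - P' (M.t d4)) with hY
      by_contra hcon
      push Not at hcon
      have k1 : 0 < (ρ * X) * (ρ * X) := mul_self_pos.2 hρ3.ne
      have k2 : (ρ * X) * (ρ * Y) = ρ ^ 2 * (X * Y) := by ring
      have k3 : 0 ≤ ρ ^ 2 := sq_nonneg ρ
      have hρ0 : ρ ≠ 0 := by
        intro e
        rw [e, zero_mul] at hρ3
        exact lt_irrefl _ hρ3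
      have k4 : 0 < ρ ^ 2 * (X * Y) := mul_pos (by positivity) c6e
      have k5 : (ρ * X) * (ρ * Y) ≤ 0 := mul_nonpos_of_nonpos_of_nonneg hρ3.le hcon
      rw [k2] at k5
      linarith)
  obtain ⟨sg1, sg2⟩ := hsign
  have hpi := Real.pi_gt_three
  have hd2 : d2 ∈ M.star (M.t d2) := mem_star.2 ⟨q.m2, rfl⟩
  have hd4 : d4 ∈ M.star (M.t d4) := mem_star.2 ⟨q.m4, rfl⟩
  have hcB : M.ts P' (M.t d2) = 2 * Real.pi := by
    refine h.ts_eq (hstP' _) ⟨d2, hd2⟩ ?_
    unfold CM.ts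
    rw [← Finset.add_sum_erase _ _ hd2]
    have k1 : turn (P' (M.t (M.al d2)) - P' (M.t d2)) (P' (M.t (M.al (M.nx d2))) - P' (M.t d2)) < Real.pi := by
      apply turn_lt_pi
      rw [q.h2 h, q.nx2 h, h.al_al _ q.m1]
      have e : P' (M.t d3) - P' (M.t d2) = P' (M.t d1) - P' (M.t d2) + (P' (M.t d3) - P' (M.t d1)) := by ring
      rw [e, cross_add_self_h12]
      linarith
    linarith
  have hcE : M.ts P' (M.t d4) = 2 * Real.pi := by
    refine h.ts_eq (hstP' _) ⟨d4, hd4⟩ ?_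
    unfold CM.ts
    rw [← Finset.add_sum_erase _ _ hd4]
    have k1 : turn (P' (M.t (M.al d4)) - P' (M.t d4)) (P' (M.t (M.al (M.nx d4))) - P' (M.t d4)) < Real.pi := by
      apply turn_lt_pi
      rw [q.h4 h, q.nx4 h, h.al_al _ q.m3]
      have e : P' (M.t d3) - P' (M.t d4) = P' (M.t d1) - P' (M.t d4) + (P' (M.t d3) - P' (M.t d1)) := by ring
      rw [e, cross_self_add_h12]
      exact sg2
    linarith
  refine ⟨P', R', ⟨hR'pos, hP'tan, ?_⟩, c2, c3⟩
  intro v hv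
  by_cases e1 : v = M.t d2
  · rw [e1]; exact hcB
  by_cases e2 : v = M.t d4
  · rw [e2]; exact hcE
  exact c1 v hv e1 e2

end Pool.Agent.Helper37.CP
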