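import Pool.Agent.Helper37.CP.Len

/-!
# Block CP-IRR: a map without foldable faces has a reducible vertex.

`n = |VS| ≥ 4`, every face not in `sp` has length exactly 3. Claim: there is a dart `z` with `fc z ∉ sp` such that the vertex `t z` has
degree 2, or it has degree 3 and also `fc (nx z) ∉ sp`.

Suppose not. `deg v = |star v| ≥ 2` (`star_two`). Let `b v` = number of darts `d` in `star v` with `fc d ∈ sp`.
(1) `|FS| = n - 1` (`faces`), `|DS| = 4 n - 6`, `∑_v deg v = |DS|` (`card_star`), `∑_v b v = ∑_{f ∈ sp} len f = |DS| - 3 (|FS| - |sp|)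
  = n - 3 + 3 |sp|` (`card_len`).
(2) `b v ≥ 1`. Otherwise all darts `d` at `v` have triangular faces, and `deg v ≥ 3` (degree 2 with a non-special face is excluded). For a
  dart `d` at `v`, the face is `d, ph d, ph (ph d)` (`ph = pv ∘ al`, `ph3`), `al (ph (ph d)) = nx d` (since `ph (ph (ph d)) = d`, i.e.
  `pv (al (ph (ph d))) = d`), so `ph d` runs from the head of `d` to the head of `nx d`. Let `X = {v} ∪ heads`; `|X| = deg v + 1`
  (`simple`, `loopless`). The darts inside `X`: `star v` and its `al` image, the darts `ph d` and the darts `al (ph d)` (`d ∈ star v`);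
  these are four disjoint families of `deg v` darts each: `ph d = al (ph e)` would give `head d = head (nx e)` and
  `head (nx d) = head e`, i.e. `d = nx e`, `nx d = e`, so `nx (nx e) = e`, which is impossible for `deg v ≥ 3` (the star would be
  `{e, nx e}` by `star_ind`). So `dc X ≥ 4 deg v > 4 (deg v + 1) - 6`, contradiction to `spa`.
(3) If `b v = 1`, then `deg v ≥ 4`: degree 2 has a non-special dart (excluded); degree 3 has two non-special darts, and of two different
  darts in a 3-element star one is `nx` of the other, excluded.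
(4) So `deg v + 2 * b v ≥ 6` for every `v`, i.e. `(deg v : ℤ) - 4 ≥ - 2 (b v - 1)`: clear for `b v = 1` and for `b v ≥ 2` (`deg v ≥ 2`).
  Sum over `v`: `4 n - 6 - 4 n ≥ - 2 (n - 3 + 3 |sp| - n) = - 6 (|sp| - 1)`; since `1 ≤ |sp| ≤ 2`, this forces `|sp| = 2` and equality
  for every `v`: `deg v + 2 * b v = 6`. With `b v ≤ deg v` we get: `b v = 1, deg v = 4` or `b v = 2, deg v = 2`, and
  `∑ (b v - 1) = 3`, so the set `U` of vertices with `b v = 2 = deg v` has exactly three elements.
(5) `U` is closed under adjacency: `e` a dart at `u ∈ U`, `a = t (al e)`. `fc (al e) = fc (pv e)` (`fc_ph` for `al e`), and `pv e` is a dart at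
  `u`, all of whose darts are special; so `al e` is special. `pv (al e)` is a dart at `a` with `fc (pv (al e)) = fc e` special, and
  `pv (al e) ≠ al e` (`pv_ne`). So `b a ≥ 2` and `a ∈ U`. By `conn`, `U = VS` and `n = 3`, contradiction.
-/

set_option linter.unusedSectionVars false

namespace Pool.Agent.Helper37.CP

variable {V D F : Type*} [DecidableEq V] [DecidableEq D] [DecidableEq F] {M : CM V D F}

private theorem CM.Ok.wheel94 (h : M.Ok) (hl : M.Lam) (h3 : 3 ≤ M.VS.card) {v : V} (hv : v ∈ M.VS)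
    (hd3 : 3 ≤ (M.star v).card) (htri : ∀ d ∈ M.star v, M.len (M.fc d) = 3) : False := by
  have mem : ∀ d ∈ M.star v, d ∈ M.DS := fun d hd => (mem_star.1 hd).1
  have tv : ∀ d ∈ M.star v, M.t d = v := fun d hd => (mem_star.1 hd).2
  have hne : ∀ d ∈ M.star v, M.t (M.al d) ≠ v := fun d hd hh => h.loopless d (mem d hd) (hh.trans (tv d hd).symm)
  have hinj : ∀ d ∈ M.star v, ∀ e ∈ M.star v, M.t (M.al d) = M.t (M.al e) → d = e := fun d hd e he hh =>
    h.simple d (mem d hd) e (mem e he) ((tv d hd).trans (tv e he).symm) hh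
  have key : ∀ d ∈ M.star v, M.t (M.al (M.pv (M.al d))) = M.t (M.al (M.nx d)) := by
    intro d hd
    have h1 := hl.ph3 h h3 (mem d hd) (htri d hd)
    have m1 := h.ph_mem (mem d hd)
    have m2 := h.ph_mem m1
    have h2 : M.al (M.pv (M.al (M.pv (M.al d)))) = M.nx d := by
      rw [← h.nx_pv _ (h.al_mem _ m2), h1]
    have h4 : M.pv (M.al (M.pv (M.al d))) = M.al (M.nx d) := by
      rw [← h2, h.al_al _ m2]
    rw [← h4, h.t_ph m1]
  have X_card : (insert v ((M.star v).image fun d => M.t (M.al d))).card = (M.star v).card + 1 := by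
    rw [Finset.card_insert_of_notMem, Finset.card_image_of_injOn]
    · intro d hd e he hh
      exact hinj d hd e he hh
    · intro hh
      obtain ⟨d, hd, hh⟩ := Finset.mem_image.1 hh
      exact hne d hd hh
  have X_sub : insert v ((M.star v).image fun d => M.t (M.al d)) ⊆ M.VS := by
    intro x hx
    rcases Finset.mem_insert.1 hx with rfl | hx
    · exact hv
    · obtain ⟨d, hd, rfl⟩ := Finset.mem_image.1 hx
      exact h.h_mem (mem d hd)
  have hspa := hl.spa _ X_sub (by rw [X_card]; omega)
  rw [X_card] at hspa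
  have ph_st : ∀ d ∈ M.star v, M.pv (M.al d) ∈ M.DS := fun d hd => h.ph_mem (mem d hd)
  have t_ph : ∀ d ∈ M.star v, M.t (M.pv (M.al d)) = M.t (M.al d) := fun d hd => h.t_ph (mem d hd)
  -- the four families
  have d12 : Disjoint (M.star v) ((M.star v).image M.al) := by
    rw [Finset.disjoint_left]
    intro x hx hx'
    obtain ⟨d, hd, rfl⟩ := Finset.mem_image.1 hx'
    exact hne d hd (tv _ hx)
  have d34 : Disjoint ((M.star v).image fun d => M.pv (M.al d)) ((M.star v).image fun d => M.al (M.pv (M.al d))) := by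
    rw [Finset.disjoint_left]
    intro x hx hx'
    obtain ⟨d, hd, rfl⟩ := Finset.mem_image.1 hx
    obtain ⟨e, he, hee⟩ := Finset.mem_image.1 hx'
    have h1 : M.t (M.al (M.nx e)) = M.t (M.al d) := by
      rw [← key e he, hee, t_ph d hd]
    have h2 : M.nx e = d := hinj _ (h.nx_star he) _ hd h1
    have h5 : M.t (M.al e) = M.t (M.al (M.nx d)) := by
      rw [← key d hd, ← hee, h.al_al _ (ph_st e he), t_ph e he]
    have h6 : e = M.nx d := hinj _ he _ (h.nx_star hd) h5
    have hsub : M.star v ⊆ {e, d} := by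
      intro y hy
      have := h.star_ind (mem e he) (fun y => y = e ∨ y = d) (Or.inl rfl) (fun y _ _ hy => by
        rcases hy with rfl | rfl
        · exact Or.inr h2
        · exact Or.inl h6.symm) y (mem y hy) ((tv y hy).trans (tv e he).symm)
      simpa using this
    have := Finset.card_le_card hsub
    have := Finset.card_le_two (a := e) (b := d)
    omega
  have d1234 : Disjoint (M.star v ∪ (M.star v).image M.al) (((M.star v).image fun d => M.pv (M.al d)) ∪
      ((M.star v).image fun d => M.al (M.pv (M.al d)))) := by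
    have hn : ∀ x ∈ ((M.star v).image fun d => M.pv (M.al d)) ∪ ((M.star v).image fun d => M.al (M.pv (M.al d))),
        M.t x ≠ v ∧ M.t (M.al x) ≠ v := by
      intro x hx
      rcases Finset.mem_union.1 hx with hx | hx
      · obtain ⟨d, hd, rfl⟩ := Finset.mem_image.1 hx
        exact ⟨by rw [t_ph d hd]; exact hne d hd, by rw [key d hd]; exact hne _ (h.nx_star hd)⟩
      · obtain ⟨d, hd, rfl⟩ := Finset.mem_image.1 hx
        exact ⟨by rw [key d hd]; exact hne _ (h.nx_star hd), by rw [h.al_al _ (ph_st d hd), t_ph d hd]; exact hne d hd⟩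
    rw [Finset.disjoint_left]
    intro x hx hx'
    rcases Finset.mem_union.1 hx with hx | hx
    · exact (hn x hx').1 (tv x hx)
    · obtain ⟨d, hd, rfl⟩ := Finset.mem_image.1 hx
      exact (hn _ hx').2 (by rw [h.al_al d (mem d hd)]; exact tv d hd)
  have c2 : ((M.star v).image M.al).card = (M.star v).card := Finset.card_image_of_injOn fun d hd e he hh =>
    h.al_inj (mem d hd) (mem e he) hh
  have c3 : ((M.star v).image fun d => M.pv (M.al d)).card = (M.star v).card := Finset.card_image_of_injOn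
    fun d hd e he hh => h.al_inj (mem d hd) (mem e he) (h.pv_inj (h.al_mem _ (mem d hd)) (h.al_mem _ (mem e he)) hh)
  have c4 : ((M.star v).image fun d => M.al (M.pv (M.al d))).card = (M.star v).card := Finset.card_image_of_injOn
    fun d hd e he hh => h.al_inj (mem d hd) (mem e he) (h.pv_inj (h.al_mem _ (mem d hd)) (h.al_mem _ (mem e he))
      (h.al_inj (ph_st d hd) (ph_st e he) hh))
  have hle : ((M.star v ∪ (M.star v).image M.al) ∪ (((M.star v).image fun d => M.pv (M.al d)) ∪
      ((M.star v).image fun d => M.al (M.pv (M.al d))))).card ≤ M.dc (insert v ((M.star v).image fun d => M.t (M.al d))) := by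
    have hX : ∀ d ∈ M.star v, M.t (M.al d) ∈ insert v ((M.star v).image fun d => M.t (M.al d)) := fun d hd =>
      Finset.mem_insert_of_mem (Finset.mem_image_of_mem _ hd)
    have hXv : v ∈ insert v ((M.star v).image fun d => M.t (M.al d)) := Finset.mem_insert_self _ _
    refine Finset.card_le_card fun x hx => ?_
    rw [Finset.mem_filter]
    rcases Finset.mem_union.1 hx with hx | hx
    · rcases Finset.mem_union.1 hx with hx | hx
      · refine ⟨mem x hx, ?_, hX x hx⟩
        rw [tv x hx]
        exact hXv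
      · obtain ⟨d, hd, rfl⟩ := Finset.mem_image.1 hx
        refine ⟨h.al_mem d (mem d hd), hX d hd, ?_⟩
        rw [h.al_al d (mem d hd), tv d hd]
        exact hXv
    · rcases Finset.mem_union.1 hx with hx | hx
      · obtain ⟨d, hd, rfl⟩ := Finset.mem_image.1 hx
        refine ⟨ph_st d hd, ?_, ?_⟩
        · rw [t_ph d hd]
          exact hX d hd
        · rw [key d hd]
          exact hX _ (h.nx_star hd)
      · obtain ⟨d, hd, rfl⟩ := Finset.mem_image.1 hx
        refine ⟨h.al_mem _ (ph_st d hd), ?_, ?_⟩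
        · rw [key d hd]
          exact hX _ (h.nx_star hd)
        · rw [h.al_al _ (ph_st d hd), t_ph d hd]
          exact hX d hd
  rw [Finset.card_union_of_disjoint d1234, Finset.card_union_of_disjoint d12, Finset.card_union_of_disjoint d34, c2, c3,
    c4] at hle
  omega

private theorem CM.Ok.adj94 (h : M.Ok) (hl : M.Lam) (h3 : 3 ≤ M.VS.card) {v : V} (hd3 : (M.star v).card = 3) {z z' : D}
    (hz : z ∈ M.star v) (hz' : z' ∈ M.star v) (hne : z ≠ z') : M.nx z = z' ∨ M.nx z' = z := by
  by_contra hc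
  push Not at hc
  have m := (mem_star.1 hz).1
  have m' := (mem_star.1 hz').1
  have h1 : M.nx z ≠ z := hl.nx_ne h h3 m
  have h2 : M.nx z' ≠ z' := hl.nx_ne h h3 m'
  have h4 : M.nx z ≠ M.nx z' := fun hh => hne (h.nx_inj m m' hh)
  have hsub : ({z, z', M.nx z, M.nx z'} : Finset D) ⊆ M.star v := by
    intro x hx
    simp only [Finset.mem_insert, Finset.mem_singleton] at hx
    rcases hx with rfl | rfl | rfl | rfl
    · exact hz
    · exact hz'
    · exact h.nx_star hz
    · exact h.nx_star hz'
  have hcard := Finset.card_le_card hsub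
  rw [Finset.card_insert_of_notMem, Finset.card_insert_of_notMem, Finset.card_insert_of_notMem, Finset.card_singleton,
    hd3] at hcard
  · omega
  · simpa using h4
  · simp only [Finset.mem_insert, Finset.mem_singleton, not_or]
    exact ⟨fun hh => hc.1 hh.symm, fun hh => h2 hh.symm⟩
  · simp only [Finset.mem_insert, Finset.mem_singleton, not_or]
    exact ⟨hne, fun hh => h1 hh.symm, fun hh => hc.2 hh.symm⟩

theorem CM.Adm.reducible {sp : Finset F} (ha : M.Adm sp) (h4 : 4 ≤ M.VS.card)
    (hlen : ∀ f ∈ M.FS, f ∉ sp → M.len f = 3) :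
    ∃ z ∈ M.DS, M.fc z ∉ sp ∧ ((M.star (M.t z)).card = 2 ∨ ((M.star (M.t z)).card = 3 ∧ M.fc (M.nx z) ∉ sp)) := by
  by_contra hcon
  push Not at hcon
  have h := ha.ok
  have hl := ha.lam
  have h3 : 3 ≤ M.VS.card := by omega
  obtain ⟨b, hb⟩ : ∃ b : V → ℕ, ∀ v, b v = ((M.star v).filter fun d => M.fc d ∈ sp).card := ⟨_, fun _ => rfl⟩
  have hdeg : ∀ v ∈ M.VS, 2 ≤ (M.star v).card := fun v hv => hl.star_two h h3 hv
  have hble : ∀ v, b v ≤ (M.star v).card := fun v => by rw [hb]; exact Finset.card_filter_le _ _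
  have hno2 : ∀ v, ∀ z ∈ M.star v, M.fc z ∉ sp → (M.star v).card ≠ 2 := by
    intro v z hz hfz
    obtain ⟨hz1, hz2⟩ := mem_star.1 hz
    rw [← hz2]
    exact (hcon z hz1 hfz).1
  have hnon : ∀ v, b v < (M.star v).card → ∃ z ∈ M.star v, M.fc z ∉ sp := by
    intro v hv
    by_contra hh
    push Not at hh
    rw [hb, Finset.filter_true_of_mem hh] at hv
    omega
  have hbpos : ∀ v ∈ M.VS, 1 ≤ b v := by
    intro v hv
    by_contra h0
    have h0' : b v = 0 := by omega
    have h1 : ∀ d ∈ M.star v, M.fc d ∉ sp := by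
      rw [hb, Finset.card_eq_zero, Finset.filter_eq_empty_iff] at h0'
      exact fun d hd => h0' hd
    have h2 := hdeg v hv
    have h5 : (M.star v).card ≠ 2 := by
      obtain ⟨z, hz⟩ := Finset.card_pos.1 (show 0 < (M.star v).card by omega)
      exact hno2 v z hz (h1 z hz)
    exact h.wheel94 hl h3 hv (by omega) fun d hd => hlen _ (h.fc_mem d (mem_star.1 hd).1) (h1 d hd)
  have hb1 : ∀ v ∈ M.VS, b v = 1 → 4 ≤ (M.star v).card := by
    intro v hv h1
    have h2 := hdeg v hv
    obtain ⟨z, hz, hfz⟩ := hnon v (by omega)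
    have h5 := hno2 v z hz hfz
    by_contra h6
    have h7 : (M.star v).card = 3 := by omega
    have h8 : ((M.star v).filter fun d => M.fc d ∉ sp).card = 2 := by
      have h9 := Finset.card_filter_add_card_filter_not (s := M.star v) (fun d => M.fc d ∈ sp)
      rw [← hb] at h9
      omega
    obtain ⟨x, y, hxy, hxye⟩ := Finset.card_eq_two.1 h8
    have hx : x ∈ (M.star v).filter fun d => M.fc d ∉ sp := by rw [hxye]; simp
    have hy : y ∈ (M.star v).filter fun d => M.fc d ∉ sp := by rw [hxye]; simp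
    rw [Finset.mem_filter] at hx hy
    rcases h.adj94 hl h3 h7 hx.1 hy.1 hxy with he | he
    · obtain ⟨hx1, hx2⟩ := mem_star.1 hx.1
      have := (hcon x hx1 hx.2).2 (by rw [hx2]; exact h7)
      rw [he] at this
      exact hy.2 this
    · obtain ⟨hx1, hx2⟩ := mem_star.1 hy.1
      have := (hcon y hx1 hy.2).2 (by rw [hx2]; exact h7)
      rw [he] at this
      exact hx.2 this
  have hsix : ∀ v ∈ M.VS, 6 ≤ (M.star v).card + 2 * b v := by
    intro v hv
    have h1 := hbpos v hv
    have h2 := hdeg v hv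
    rcases Nat.lt_or_ge (b v) 2 with h5 | h5
    · have := hb1 v hv (by omega)
      omega
    · omega
  -- the sum of the `b v`
  have hsumb : ∑ v ∈ M.VS, b v + 3 = M.VS.card + 3 * sp.card := by
    have e1 : ∑ v ∈ M.VS, b v = ∑ f ∈ sp, M.len f := by
      have e2 : ∑ v ∈ M.VS, b v = ∑ v ∈ M.VS, ∑ d ∈ M.star v, if M.fc d ∈ sp then 1 else 0 := by
        refine Finset.sum_congr rfl fun v _ => ?_
        rw [hb, Finset.card_filter]
      rw [e2, h.sum_star (fun d => if M.fc d ∈ sp then 1 else 0), ← Finset.card_filter]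
      unfold CM.len
      rw [Finset.card_eq_sum_card_fiberwise (s := M.DS.filter fun d => M.fc d ∈ sp) (f := M.fc) (t := sp)
        (fun d hd => (Finset.mem_filter.1 hd).2)]
      refine Finset.sum_congr rfl fun f hf => ?_
      congr 1
      ext d
      simp only [Finset.mem_filter]
      exact ⟨fun hh => ⟨hh.1.1, hh.2⟩, fun hh => ⟨⟨hh.1, by rw [hh.2]; exact hf⟩, hh.2⟩⟩
    have e3 := h.card_len
    rw [← Finset.sum_sdiff ha.sp_sub] at e3
    have e4 : ∑ f ∈ M.FS \ sp, M.len f = 3 * (M.FS.card - sp.card) := by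
      rw [Finset.sum_congr rfl (fun f hf => hlen f (Finset.mem_sdiff.1 hf).1 (Finset.mem_sdiff.1 hf).2), Finset.sum_const,
        Finset.card_sdiff_of_subset ha.sp_sub, smul_eq_mul, mul_comm]
    have e5 := hl.faces h
    have e6 := hl.tot
    have e7 := Finset.card_le_card ha.sp_sub
    rw [e1]
    omega
  have hsum : ∑ v ∈ M.VS, ((M.star v).card + 2 * b v) + 12 = 6 * M.VS.card + 6 * sp.card := by
    rw [Finset.sum_add_distrib, ← Finset.mul_sum, h.card_star]
    have e6 := hl.tot
    omega
  have hsum6 : ∑ v ∈ M.VS, 6 = 6 * M.VS.card := by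
    rw [Finset.sum_const, smul_eq_mul, mul_comm]
  have hle6 : ∑ v ∈ M.VS, 6 ≤ ∑ v ∈ M.VS, ((M.star v).card + 2 * b v) := Finset.sum_le_sum hsix
  have hsp := ha.sp_card
  have hsp2 : sp.card = 2 := by omega
  have heq : ∀ v ∈ M.VS, 6 = (M.star v).card + 2 * b v :=
    (Finset.sum_eq_sum_iff_of_le hsix).1 (by omega)
  have hb12 : ∀ v ∈ M.VS, b v = 1 ∨ (b v = 2 ∧ (M.star v).card = 2) := by
    intro v hv
    have h1 := heq v hv
    have h2 := hdeg v hv
    have h5 := hbpos v hv
    omega
  have hU : (M.VS.filter fun v => b v = 2).card = 3 := by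
    have e1 : ∑ v ∈ M.VS, b v = ∑ v ∈ M.VS, (1 + if b v = 2 then 1 else 0) := by
      refine Finset.sum_congr rfl fun v hv => ?_
      rcases hb12 v hv with h1 | h1
      · rw [h1]
        norm_num
      · rw [if_pos h1.1, h1.1]
    rw [Finset.sum_add_distrib, ← Finset.card_filter, Finset.sum_const, smul_eq_mul, mul_one] at e1
    omega
  obtain ⟨e, he, he1, he2⟩ := hl.conn h (M.VS.filter fun v => b v = 2) (Finset.filter_subset _ _)
    (Finset.card_pos.1 (by omega)) (fun hh => by rw [hh] at hU; omega)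
  rw [Finset.mem_filter] at he1
  rw [Finset.mem_sdiff, Finset.mem_filter] at he2
  have hall : ∀ d ∈ M.star (M.t e), M.fc d ∈ sp := by
    by_contra hh
    push Not at hh
    obtain ⟨z, hz, hfz⟩ := hh
    have h1 := hno2 _ z hz hfz
    have h2 := heq _ he1.1
    omega
  have hse : e ∈ M.star (M.t e) := mem_star.2 ⟨he, rfl⟩
  have hf1 : M.fc (M.al e) ∈ sp := by
    have h1 := h.fc_ph (M.al e) (h.al_mem e he)
    rw [h.al_al e he] at h1
    rw [← h1]
    exact hall _ (h.pv_star hse)
  have hf2 : M.fc (M.pv (M.al e)) ∈ sp := by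
    rw [h.fc_ph e he]
    exact hall _ hse
  have hsa : M.al e ∈ M.star (M.t (M.al e)) := mem_star.2 ⟨h.al_mem e he, rfl⟩
  have h2b : 2 ≤ b (M.t (M.al e)) := by
    rw [hb]
    refine Finset.one_lt_card.2 ⟨M.al e, Finset.mem_filter.2 ⟨hsa, hf1⟩, M.pv (M.al e),
      Finset.mem_filter.2 ⟨h.pv_star hsa, hf2⟩, ?_⟩
    exact fun hh => hl.pv_ne h h3 (h.al_mem e he) hh.symm
  rcases hb12 _ he2.1 with h1 | h1
  · omega
  · exact he2.2 ⟨he2.1, h1.1⟩

/-- three vertices: two faces, of length three, every vertex has degree two -/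
theorem CM.Adm.three {sp : Finset F} (ha : M.Adm sp) (h4 : M.VS.card = 3) :
    (∀ f ∈ M.FS, M.len f = 3) ∧ (∀ v ∈ M.VS, (M.star v).card = 2) ∧ M.FS.card = 2 := by
  have h := ha.ok
  have hl := ha.lam
  have h3 : 3 ≤ M.VS.card := by omega
  have e5 := hl.faces h
  have e6 := hl.tot
  have hF : M.FS.card = 2 := by omega
  have s1 : ∑ f ∈ M.FS, 3 = 3 * M.FS.card := by
    rw [Finset.sum_const, smul_eq_mul, mul_comm]
  have s2 : ∑ v ∈ M.VS, 2 = 2 * M.VS.card := by
    rw [Finset.sum_const, smul_eq_mul, mul_comm]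
  have h1 := (Finset.sum_eq_sum_iff_of_le (s := M.FS) (f := fun _ => 3) (g := fun f => M.len f)
    (fun f hf => hl.len_ge h h3 hf)).1 (by rw [h.card_len, s1]; omega)
  have h2 := (Finset.sum_eq_sum_iff_of_le (s := M.VS) (f := fun _ => 2) (g := fun v => (M.star v).card)
    (fun v hv => hl.star_two h h3 hv)).1 (by rw [h.card_star, s2]; omega)
  exact ⟨fun f hf => (h1 f hf).symm, fun v hv => (h2 v hv).symm, hF⟩

end Pool.Agent.Helper37.CP
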