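import Pool.Agent.Helper37.CP.Turn

/-!
# Block CP-SODDY: the circle inscribed between three mutually tangent circles.

Radii `a, b, c > 0`, centres `A, B, C` with `‖A - B‖ = a + b`, `‖B - C‖ = b + c`, `‖C - A‖ = c + a`, positively oriented. Let
`Δ = sqrt (a b c (a + b + c))` (so `cross (B - A) (C - A) = 2 Δ`, by Heron; only positivity is needed),
`wa = (b + c) + Δ / a`, `wb = (c + a) + Δ / b`, `wc = (a + b) + Δ / c` (all positive), `W = wa + wb + wc`,
`z = (wa A + wb B + wc C) / W` and `s = a b c / (a b + b c + c a + 2 Δ)`. Then `‖z - A‖ = a + s` etc.: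
`z - A = (wb (B - A) + wc (C - A)) / W`, so
`‖z - A‖^2 = (wb^2 (a + b)^2 + wc^2 (a + c)^2 + wb wc ((a + b)^2 + (a + c)^2 - (b + c)^2)) / W^2`, and this equals `(a + s)^2`: clear denominators
and use `Δ^2 = a b c (a + b + c)`. (Check: `W = (2 Δ (a b + b c + c a + 2 Δ)) / (2 a b c) * ...`; e.g. `W s = 2 Δ ... ` can be simplified by
`W = ((a b + b c + c a) Δ + 2 a b c (a + b + c)) / (a b c) = Δ (a b + b c + c a + 2 Δ) / (a b c) = Δ / s`. So `W = Δ / s`, which makes the
identity `wb^2 (a + b)^2 + ... = (Δ / s)^2 (a + s)^2 = Δ^2 (a / s + 1)^2` a polynomial identity in `a, b, c, Δ` modulo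
`Δ^2 = a b c (a + b + c)`.)
The point `z` is a strict convex combination, so `cross (B - A) (z - A) = (wc / W) cross (B - A) (C - A) > 0`, and cyclically.
-/

set_option linter.unusedSectionVars false

namespace Pool.Agent.Helper37.CP

private theorem nsq63 {v : ℂ} {r : ℝ} (h : ‖v‖ = r) : v.re ^ 2 + v.im ^ 2 = r ^ 2 := by
  rw [← h, Complex.sq_norm, Complex.normSq_apply]
  ring

private theorem ident63 {a b c e : ℝ} (ha : a ≠ 0) (hb : b ≠ 0) (hc : c ≠ 0) :
    ((c + a) + e / b) ^ 2 * (a + b) ^ 2 + ((a + b) + e / c) ^ 2 * (c + a) ^ 2 +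
      ((c + a) + e / b) * ((a + b) + e / c) * ((a + b) ^ 2 + (c + a) ^ 2 - (b + c) ^ 2) -
      (((b + c) + e / a + ((c + a) + e / b) + ((a + b) + e / c)) * a + e) ^ 2 +
      4 * (e ^ 2 - a * b * c * (a + b + c)) = 0 := by
  field_simp
  ring

private theorem core63 {A B C : ℂ} {a b c e : ℝ} (ha : 0 < a) (hb : 0 < b) (hc : 0 < c) (he : 0 < e)
    (hee : e ^ 2 = a * b * c * (a + b + c)) (hAB : ‖A - B‖ = a + b)
    (hBC : ‖B - C‖ = b + c) (hCA : ‖C - A‖ = c + a) (ho : 0 < cross (B - A) (C - A))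
    {z : ℂ} {s W wb wc : ℝ} (hwb : wb = (c + a) + e / b) (hwc : wc = (a + b) + e / c)
    (hW : W = (b + c) + e / a + ((c + a) + e / b) + ((a + b) + e / c)) (hs : 0 < s) (hWs : W * s = e)
    (hre : W * (z - A).re = wb * (B - A).re + wc * (C - A).re)
    (him : W * (z - A).im = wb * (B - A).im + wc * (C - A).im) :
    ‖z - A‖ = a + s ∧ 0 < cross (B - A) (z - A) := by
  have hwc0 : 0 < wc := by rw [hwc]; positivity
  have hW0 : 0 < W := by rw [hW]; positivity
  have h1 := nsq63 hAB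
  have h2 := nsq63 hBC
  have h3 := nsq63 hCA
  simp only [Complex.sub_re, Complex.sub_im] at h1 h2 h3 hre him
  have hid := ident63 (e := e) ha.ne' hb.ne' hc.ne'
  rw [← hwb, ← hwc] at hid
  constructor
  · have key : (W * ‖z - A‖) ^ 2 = (W * (a + s)) ^ 2 := by
      have hR : W * (a + s) = W * a + e := by rw [mul_add, hWs]
      rw [hR, mul_pow, Complex.sq_norm, Complex.normSq_apply]
      simp only [Complex.sub_re, Complex.sub_im]
      have e1 : W ^ 2 * ((z.re - A.re) * (z.re - A.re) + (z.im - A.im) * (z.im - A.im)) =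
          (wb * (B.re - A.re) + wc * (C.re - A.re)) ^ 2 + (wb * (B.im - A.im) + wc * (C.im - A.im)) ^ 2 := by
        rw [← hre, ← him]
        ring
      rw [e1]
      have hW2 : W = (b + c) + e / a + wb + wc := by rw [hW, hwb, hwc]
      rw [← hW2] at hid
      linear_combination (wb ^ 2 + wb * wc) * h1 + (wc ^ 2 + wb * wc) * h3 - wb * wc * h2 + hid - 4 * hee
    have h4 : W * ‖z - A‖ = W * (a + s) :=
      (pow_left_inj₀ (by positivity) (by positivity) two_ne_zero).1 key
    exact mul_left_cancel₀ hW0.ne' h4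
  · have h5 : W * cross (B - A) (z - A) = wc * cross (B - A) (C - A) := by
      unfold cross
      simp only [Complex.sub_re, Complex.sub_im]
      linear_combination (B.re - A.re) * him - (B.im - A.im) * hre
    have h6 : 0 < W * cross (B - A) (z - A) := by rw [h5]; positivity
    exact (mul_pos_iff_of_pos_left hW0).1 h6

theorem soddy {A B C : ℂ} {a b c : ℝ} (ha : 0 < a) (hb : 0 < b) (hc : 0 < c) (hAB : ‖A - B‖ = a + b)
    (hBC : ‖B - C‖ = b + c) (hCA : ‖C - A‖ = c + a) (ho : 0 < cross (B - A) (C - A)) :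
    ∃ (s : ℝ) (z : ℂ), 0 < s ∧ ‖z - A‖ = a + s ∧ ‖z - B‖ = b + s ∧ ‖z - C‖ = c + s ∧
      0 < cross (B - A) (z - A) ∧ 0 < cross (C - B) (z - B) ∧ 0 < cross (A - C) (z - C) := by
  have hpos : 0 < a * b * c * (a + b + c) := by positivity
  obtain ⟨e, he, hee⟩ : ∃ e : ℝ, 0 < e ∧ e ^ 2 = a * b * c * (a + b + c) :=
    ⟨Real.sqrt (a * b * c * (a + b + c)), Real.sqrt_pos.2 hpos, Real.sq_sqrt hpos.le⟩
  obtain ⟨wa, hwa⟩ : ∃ wa : ℝ, wa = (b + c) + e / a := ⟨_, rfl⟩
  obtain ⟨wb, hwb⟩ : ∃ wb : ℝ, wb = (c + a) + e / b := ⟨_, rfl⟩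
  obtain ⟨wc, hwc⟩ : ∃ wc : ℝ, wc = (a + b) + e / c := ⟨_, rfl⟩
  obtain ⟨W, hW⟩ : ∃ W : ℝ, W = wa + wb + wc := ⟨_, rfl⟩
  have hwa0 : 0 < wa := by rw [hwa]; positivity
  have hwb0 : 0 < wb := by rw [hwb]; positivity
  have hwc0 : 0 < wc := by rw [hwc]; positivity
  have hW0 : 0 < W := by rw [hW]; positivity
  have hs : 0 < e / W := by positivity
  have hWs : W * (e / W) = e := by field_simp
  obtain ⟨z, hzre, hzim⟩ : ∃ z : ℂ, W * z.re = wa * A.re + wb * B.re + wc * C.re ∧
      W * z.im = wa * A.im + wb * B.im + wc * C.im :=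
    ⟨⟨(wa * A.re + wb * B.re + wc * C.re) / W, (wa * A.im + wb * B.im + wc * C.im) / W⟩,
      mul_div_cancel₀ _ hW0.ne', mul_div_cancel₀ _ hW0.ne'⟩
  have ho2 : 0 < cross (C - B) (A - B) := by
    have : cross (C - B) (A - B) = cross (B - A) (C - A) := by
      unfold cross; simp only [Complex.sub_re, Complex.sub_im]; ring
    rwa [this]
  have ho3 : 0 < cross (A - C) (B - C) := by
    have : cross (A - C) (B - C) = cross (B - A) (C - A) := by
      unfold cross; simp only [Complex.sub_re, Complex.sub_im]; ring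
    rwa [this]
  obtain ⟨n1, c1⟩ := core63 (z := z) (W := W) ha hb hc he hee hAB hBC hCA ho hwb hwc
    (by rw [hW, hwa, hwb, hwc]) hs hWs
    (by simp only [Complex.sub_re]; linear_combination hzre - A.re * hW)
    (by simp only [Complex.sub_im]; linear_combination hzim - A.im * hW)
  obtain ⟨n2, c2⟩ := core63 (z := z) (W := W) hb hc ha he (by rw [hee]; ring) hBC hCA hAB ho2 hwc hwa
    (by rw [hW, hwa, hwb, hwc]; ring) hs hWs
    (by simp only [Complex.sub_re]; linear_combination hzre - B.re * hW)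
    (by simp only [Complex.sub_im]; linear_combination hzim - B.im * hW)
  obtain ⟨n3, c3⟩ := core63 (z := z) (W := W) hc ha hb he (by rw [hee]; ring) hCA hAB hBC ho3 hwa hwb
    (by rw [hW, hwa, hwb, hwc]; ring) hs hWs
    (by simp only [Complex.sub_re]; linear_combination hzre - C.re * hW)
    (by simp only [Complex.sub_im]; linear_combination hzim - C.im * hW)
  exact ⟨e / W, z, hs, n1, n2, n3, c1, c2, c3⟩

end Pool.Agent.Helper37.CP
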