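import Pool.Agent.Helper37.CP.TriAdm
import Pool.Agent.Helper37.CP.Ts
import Pool.Agent.Helper37.CP.Soddy

/-!
# Block CP-TG: inserting a vertex of degree three into a positively oriented triangular face and deleting one edge.

`e : M.Tri x y ea eb ec`, `v = t ea`, `x : a → b`, `y : b → c`, `M' = M.tri x y ea eb ec` (`al ea`, `al ec` are the darts `a → c`, `c → a` of `M'`).
The face `fc x` of `M'` is the triangle `x, y, al ec` (`len_x`), not special, so `cross (p b - p a) (p c - p a) > 0` by `Ori` for the dart `x`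
(`pv' (al' x) = y`, whose head is `c`). The three circles are mutually tangent (darts `x, y, al ec` of `M'`). Put `v` at the centre
`z` of `soddy` with the radius `s`.
* tangency: old darts of `M` other than those at `v` are darts of `M'` (their heads did not change); the six darts at `v` by `soddy`.
* angle sums at `u ≠ a, b, c, v`: unchanged.
* at `a`: the star of `M` is the star of `M'` (`al ea` is now directed to `v` instead of `c`); `nx x = al ea`; with `w = nx (al ea)`:
  `ts = ts' - turn (b, c) - turn (c, w) + turn (b, v) + turn (v, w)`; `turn (b, v) < turn (b, c)` (`turn_between`: `v` lies strictly between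
  the directions `b` and `c`, `cross (p b - p a) (z - p a) > 0` and `cross (z - p a) (p c - p a) > 0`), `turn (v, w) ≤ 2 π`. So
  `ts < 4 π`, `ts_eq`. (If the star of `a` has two elements, `w = x`; same computation.)
* at `c`: the star is the same, `nx (al ec) = al y`, and with `w = pv (al ec)`: `ts = ts' - turn (w, a) - turn (a, b) + turn (w, v) +
  turn (v, b)`, `turn (v, b) < turn (a, b)`; same argument.
* at `b`: star of `M` = star of `M'` and `al eb`; `nx y = al eb`, `nx (al eb) = al x`; in `M'`: `nx' y = al x`: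
  `ts = ts' - turn (c, a) + turn (c, v) + turn (v, a)` and both new turns are `< π` (`turn_lt_pi`), so `ts < 4 π`, `ts_eq`.
* at `v`: the star is `{ea, eb, ec}`, `nx ea = eb`, `nx eb = ec`, `nx ec = ea`, the three turns are `< π`, `ts_eq`.
* `SF`: let `ω` be a self-stress of `M`. Let `K` be the self-stress of the complete graph on `a, b, c, v` at the given positions: with the
  (positive) areas `α = cross (p b - z) (p c - z)`, `β = cross (p c - z) (p a - z)`, `γ = cross (p a - z) (p b - z)`, `σ = α + β + γ` one has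
  `α p a + β p b + γ p c = σ z`; the weights `K_ab = α β`, `K_bc = β γ`, `K_ca = γ α`, `K_va = - σ α`, `K_vb = - σ β`, `K_vc = - σ γ` are balanced.
  At `v`, `ω ea (z - p a) + ω eb (z - p b) + ω ec (z - p c) = 0`; the solution space of this equation is one-dimensional
  (`cross_indep`), so `(ω ea, ω eb, ω ec) = μ (α, β, γ)` for a real `μ`. Adding `(μ / σ) K` to `ω` kills the three weights at `v`; the sum is
  a self-stress of `M'`, where the edge `a c` (darts `al ea`, `al ec`) has weight `(μ / σ) γ α` (`ω` has no weight there). As `M'` is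
  stress-free, this is `0`, so `μ = 0`, `ω` vanishes at `v`, and the rest of `ω` is the self-stress of `M'`, so it is zero. (For
  explicit balancing at `a`: `K_ab (p a - p b) + K_ca (p a - p c) + K_va (p a - z) = 0`, i.e.
  `α (β (p a - p b) + γ (p a - p c) - σ (p a - z)) = 0`.)
* `Ori`: the faces `fc x = {x, al eb, ea}` and `fc y = {y, al ec, eb}` of `M` are positively oriented (`soddy`); other non-special faces of
  length 3 are not `fc ec` (`len_ne`), so they consist of darts of `M'` with the same heads (not at `v`), face, length (`len_o`) and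
  `pv' (al' d) = pv (al d)`.
-/

set_option linter.unusedSectionVars false

namespace Pool.Agent.Helper37.CP

variable {V D F : Type*} [DecidableEq V] [DecidableEq D] [DecidableEq F] {M : CM V D F} {x y ea eb ec : D}

private theorem ne56 (e : M.Tri x y ea eb ec) (h : M.Ok) (hl : M.Lam) (h3 : 3 ≤ M.VS.card) :
    (x ≠ M.al ea ∧ x ≠ M.al ec ∧ x ≠ M.al eb) ∧ (M.al x ≠ M.al ea ∧ M.al x ≠ M.al ec ∧ M.al x ≠ M.al eb) ∧
    (y ≠ M.al ea ∧ y ≠ M.al ec ∧ y ≠ M.al eb) ∧ (M.al y ≠ M.al ea ∧ M.al y ≠ M.al ec ∧ M.al y ≠ M.al eb) ∧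
    (y ≠ x ∧ y ≠ M.al x ∧ M.al y ≠ x ∧ M.al y ≠ M.al x) ∧
    (M.al ec ≠ M.al ea ∧ M.al eb ≠ M.al ea ∧ M.al eb ≠ M.al ec) ∧ (ea ≠ eb ∧ ea ≠ ec ∧ eb ≠ ec) := by
  obtain ⟨r1, r2, r3, r4, r5, r6, r7, r8, r9, r10, r11, r12, r13, -⟩ := e.rel h
  obtain ⟨d1, d2, d3, d4, d5, d6⟩ := e.distinct h hl h3
  have a1 := h.al_al _ e.ma
  have a2 := h.al_al _ e.mb
  have a3 := h.al_al _ e.mc
  have a4 := h.al_al _ e.mx
  have a5 := h.al_al _ e.my
  refine ⟨⟨?_, ?_, ?_⟩, ⟨?_, ?_, ?_⟩, ⟨?_, ?_, ?_⟩, ⟨?_, ?_, ?_⟩, ⟨?_, ?_, ?_, ?_⟩, ⟨?_, ?_, ?_⟩, ⟨?_, ?_, ?_⟩⟩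
  all_goals
    intro hh
    have h1 := congrArg M.t hh
    have h2 := congrArg (fun d => M.t (M.al d)) hh
    simp only [a1, a2, a3, a4, a5, r4, r5, r10, r11, r12, r13] at h1 h2
    first
      | exact d1 h1 | exact d1 h1.symm | exact d2 h1 | exact d2 h1.symm | exact d3 h1 | exact d3 h1.symm
      | exact d4 h1 | exact d4 h1.symm | exact d5 h1 | exact d5 h1.symm | exact d6 h1 | exact d6 h1.symm
      | exact d1 h2 | exact d1 h2.symm | exact d2 h2 | exact d2 h2.symm | exact d3 h2 | exact d3 h2.symm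
      | exact d4 h2 | exact d4 h2.symm | exact d5 h2 | exact d5 h2.symm | exact d6 h2 | exact d6 h2.symm

private theorem mem56 {d : D} : d ∈ (M.tri x y ea eb ec).DS ↔
    d ∈ M.DS ∧ d ≠ ea ∧ d ≠ eb ∧ d ≠ ec ∧ d ≠ M.al eb := by
  unfold CM.tri
  simp only [Finset.mem_sdiff, Finset.mem_insert, Finset.mem_singleton, not_or]

private theorem al56 {d : D} (h1 : d ≠ M.al ea) (h2 : d ≠ M.al ec) :
    (M.tri x y ea eb ec).al d = M.al d := by
  unfold CM.tri
  simp only [if_neg h1, if_neg h2]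

private theorem al_a56 : (M.tri x y ea eb ec).al (M.al ea) = M.al ec := by
  unfold CM.tri
  simp only [if_true]

private theorem al_c56 (h : M.al ec ≠ M.al ea) : (M.tri x y ea eb ec).al (M.al ec) = M.al ea := by
  unfold CM.tri
  simp only [if_neg h, if_true]

private theorem nx56 {d : D} (h1 : M.nx d ≠ M.al eb) : (M.tri x y ea eb ec).nx d = M.nx d := by
  unfold CM.tri
  simp only [if_neg h1]

private theorem nx'56 {d : D} (h1 : M.nx d = M.al eb) : (M.tri x y ea eb ec).nx d = M.nx (M.al eb) := by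
  unfold CM.tri
  simp only [if_pos h1]

private theorem pv56 {d : D} (h1 : d ≠ M.nx (M.al eb)) : (M.tri x y ea eb ec).pv d = M.pv d := by
  unfold CM.tri
  simp only [if_neg h1]

private theorem pv'56 {d : D} (h1 : d = M.nx (M.al eb)) : (M.tri x y ea eb ec).pv d = M.pv (M.al eb) := by
  unfold CM.tri
  simp only [if_pos h1]

private theorem fc56 {d : D} (h1 : d ≠ y) (h2 : d ≠ M.al ec) :
    (M.tri x y ea eb ec).fc d = M.fc d := by
  unfold CM.tri
  simp only [if_neg h1, if_neg h2]

/-- darts with head `v` -/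
private theorem head56 (e : M.Tri x y ea eb ec) (h : M.Ok) {d : D} (hd : d ∈ M.DS) (h1 : d ≠ M.al ea)
    (h2 : d ≠ M.al eb) (h3 : d ≠ M.al ec) : M.t (M.al d) ≠ M.t ea := by
  intro h4
  rcases e.star h (h.al_mem _ hd) h4 with h5 | h5 | h5
  · exact h1 ((h.al_eq_iff hd e.ma).1 h5)
  · exact h2 ((h.al_eq_iff hd e.mb).1 h5)
  · exact h3 ((h.al_eq_iff hd e.mc).1 h5)

private theorem tail56 (e : M.Tri x y ea eb ec) (h : M.Ok) {d : D}
    (hd : d ∈ (M.tri x y ea eb ec).DS) : M.t d ≠ M.t ea := by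
  intro ht
  obtain ⟨k0, k1, k2, k3, k4⟩ := mem56.1 hd
  rcases e.star h k0 ht with hh | hh | hh
  · exact k1 hh
  · exact k2 hh
  · exact k3 hh

private theorem star_v56 (e : M.Tri x y ea eb ec) (h : M.Ok) : M.star (M.t ea) = {ea, eb, ec} := by
  obtain ⟨r1, r2, r3, r4, r5, -⟩ := e.rel h
  ext d
  simp only [mem_star, Finset.mem_insert, Finset.mem_singleton]
  constructor
  · rintro ⟨hd, ht⟩
    exact e.star h hd ht
  · rintro (rfl | rfl | rfl)
    · exact ⟨e.ma, rfl⟩
    · exact ⟨e.mb, r4⟩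
    · exact ⟨e.mc, r5⟩

/-- the star of `M'` away from `b` and `v` -/
private theorem star'56 (e : M.Tri x y ea eb ec) (h : M.Ok) {u : V} (hu : u ≠ M.t ea) (hb : u ≠ M.t y) :
    (M.tri x y ea eb ec).star u = M.star u := by
  obtain ⟨r1, r2, r3, r4, r5, r6, r7, r8, r9, r10, r11, r12, r13, -⟩ := e.rel h
  ext d
  rw [mem_star, mem_star, mem56]
  constructor
  · rintro ⟨h1, h2⟩
    exact ⟨h1.1, h2⟩
  · rintro ⟨h1, h2⟩
    refine ⟨⟨h1, ?_, ?_, ?_, ?_⟩, h2⟩
    · rintro rfl
      exact hu h2.symm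
    · rintro rfl
      exact hu (by rw [← h2, r4])
    · rintro rfl
      exact hu (by rw [← h2, r5])
    · rintro rfl
      exact hb (by rw [← h2, r12])

private theorem star_b56 (e : M.Tri x y ea eb ec) (h : M.Ok) (hb : M.t ea ≠ M.t y) :
    (M.tri x y ea eb ec).star (M.t y) = (M.star (M.t y)).erase (M.al eb) := by
  obtain ⟨r1, r2, r3, r4, r5, r6, r7, r8, r9, r10, r11, r12, r13, -⟩ := e.rel h
  ext d
  rw [Finset.mem_erase, mem_star, mem_star, mem56]
  constructor
  · rintro ⟨h1, h2⟩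
    exact ⟨h1.2.2.2.2, h1.1, h2⟩
  · rintro ⟨h0, h1, h2⟩
    refine ⟨⟨h1, ?_, ?_, ?_, h0⟩, h2⟩
    · rintro rfl
      exact hb h2
    · rintro rfl
      exact hb (by rw [← h2, r4])
    · rintro rfl
      exact hb (by rw [← h2, r5])

private theorem cr_id56 (a b c z : ℂ) : (cross (b - z) (c - z) : ℂ) * (a - z) +
    (cross (c - z) (a - z) : ℂ) * (b - z) + (cross (a - z) (b - z) : ℂ) * (c - z) = 0 := by
  apply Complex.ext
  · simp [cross]
    ring
  · simp [cross]
    ring

/-- stresses: if the map `M'` is stress-free at `p` then so is `M` with `v` strictly inside the triangle -/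
theorem CM.Tri.sf (e : M.Tri x y ea eb ec) (h : M.Ok) (hl : M.Lam) (h3 : 3 ≤ M.VS.card) {p : V → ℂ} {z : ℂ}
    (hs : (M.tri x y ea eb ec).SF p)
    (h1 : 0 < cross (p (M.t y) - p (M.t x)) (z - p (M.t x)))
    (h2 : 0 < cross (p (M.t (M.al ec)) - p (M.t y)) (z - p (M.t y)))
    (h3' : 0 < cross (p (M.t x) - p (M.t (M.al ec))) (z - p (M.t (M.al ec)))) :
    M.SF (Function.update p (M.t ea) z) := by
  obtain ⟨r1, r2, r3, r4, r5, r6, r7, r8, r9, r10, r11, r12, r13, -⟩ := e.rel h
  obtain ⟨d1, d2, d3, d4, d5, d6⟩ := e.distinct h hl h3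
  obtain ⟨⟨n1, n2, n3⟩, ⟨n4, n5, n6⟩, ⟨n7, n8, n9⟩, ⟨n10, n11, n12⟩, ⟨n13, n14, n15, n16⟩, ⟨n17, n18, n19⟩,
    ⟨n20, n21, n22⟩⟩ := ne56 e h hl h3
  have a1 := h.al_al _ e.ma
  have a2 := h.al_al _ e.mb
  have a3 := h.al_al _ e.mc
  have a4 := h.al_al _ e.mx
  have a5 := h.al_al _ e.my
  intro ω hω hb
  obtain ⟨P, hP⟩ : ∃ P, P = Function.update p (M.t ea) z := ⟨_, rfl⟩
  rw [← hP] at hb
  have Pu : ∀ u, u ≠ M.t ea → P u = p u := fun u hu => by rw [hP]; exact Function.update_of_ne hu _ _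
  have Pv : P (M.t ea) = z := by rw [hP]; exact Function.update_self _ _ _
  obtain ⟨A, hA⟩ : ∃ A, A = p (M.t x) := ⟨_, rfl⟩
  obtain ⟨B, hB⟩ : ∃ B, B = p (M.t y) := ⟨_, rfl⟩
  obtain ⟨C, hC⟩ : ∃ C, C = p (M.t (M.al ec)) := ⟨_, rfl⟩
  have PA : P (M.t x) = A := by rw [Pu _ d4.symm, hA]
  have PB : P (M.t y) = B := by rw [Pu _ d5.symm, hB]
  have PC : P (M.t (M.al ec)) = C := by rw [Pu _ d6.symm, hC]
  rw [← hA, ← hB] at h1
  rw [← hB, ← hC] at h2
  rw [← hA, ← hC] at h3'
  obtain ⟨α, hα⟩ : ∃ α, α = cross (B - z) (C - z) := ⟨_, rfl⟩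
  obtain ⟨β, hβ⟩ : ∃ β, β = cross (C - z) (A - z) := ⟨_, rfl⟩
  obtain ⟨γ, hγ⟩ : ∃ γ, γ = cross (A - z) (B - z) := ⟨_, rfl⟩
  have α0 : 0 < α := by
    have : α = cross (C - B) (z - B) := by rw [hα]; simp [cross]; ring
    rw [this]; exact h2
  have β0 : 0 < β := by
    have : β = cross (A - C) (z - C) := by rw [hβ]; simp [cross]; ring
    rw [this]; exact h3'
  have γ0 : 0 < γ := by
    have : γ = cross (B - A) (z - A) := by rw [hγ]; simp [cross]; ring
    rw [this]; exact h1
  have hid : (α : ℂ) * (A - z) + (β : ℂ) * (B - z) + (γ : ℂ) * (C - z) = 0 := by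
    rw [hα, hβ, hγ]
    exact cr_id56 A B C z
  -- balance at `v`
  have hv := hb (M.t ea) (h.t_mem _ e.ma)
  rw [star_v56 e h, Finset.sum_insert (by simp [n20, n21]), Finset.sum_insert (by simp [n22]),
    Finset.sum_singleton, Pv, r10, PA, r12, PB, PC] at hv
  obtain ⟨μ, hμ⟩ : ∃ μ, μ = ω ec / γ := ⟨_, rfl⟩
  have hc : ω ec = μ * γ := by rw [hμ]; field_simp
  have hab : ω ea - μ * α = 0 ∧ ω eb - μ * β = 0 := by
    have hcr : cross (z - A) (z - B) ≠ 0 := by
      have : cross (z - A) (z - B) = γ := by rw [hγ]; simp [cross]; ring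
      rw [this]; exact γ0.ne'
    apply cross_indep hcr
    push_cast
    rw [hc] at hv
    push_cast at hv
    linear_combination hv + (μ : ℂ) * hid
  have hea : ω ea = μ * α := by linarith [hab.1]
  have heb : ω eb = μ * β := by linarith [hab.2]
  obtain ⟨σ, hσ⟩ : ∃ σ, σ = α + β + γ := ⟨_, rfl⟩
  have σ0 : 0 < σ := by rw [hσ]; positivity
  obtain ⟨κ, hκ⟩ : ∃ κ, κ = μ / σ := ⟨_, rfl⟩
  have hμ' : μ = κ * σ := by rw [hκ]; field_simp
  obtain ⟨w, hw⟩ : ∃ w : D → ℝ, w = fun d => if d = M.al ea ∨ d = M.al ec then κ * (γ * α)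
      else if d = x ∨ d = M.al x then ω d + κ * (α * β)
      else if d = y ∨ d = M.al y then ω d + κ * (β * γ) else ω d := ⟨_, rfl⟩
  have w1 : w (M.al ea) = κ * (γ * α) := by rw [hw]; simp
  have w2 : w (M.al ec) = κ * (γ * α) := by rw [hw]; simp
  have w3 : w x = ω x + κ * (α * β) := by rw [hw]; simp [n1, n2]
  have w4 : w (M.al x) = ω (M.al x) + κ * (α * β) := by rw [hw]; simp [n4, n5]
  have w5 : w y = ω y + κ * (β * γ) := by rw [hw]; simp [n7, n8, n13, n14]
  have w6 : w (M.al y) = ω (M.al y) + κ * (β * γ) := by rw [hw]; simp [n10, n11, n15, n16]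
  have w7 : ∀ d, d ≠ M.al ea → d ≠ M.al ec → d ≠ x → d ≠ M.al x → d ≠ y → d ≠ M.al y → w d = ω d := by
    intro d g1 g2 g3 g4 g5 g6
    rw [hw]
    simp [g1, g2, g3, g4, g5, g6]
  have fin := hs w ?_ ?_
  · have hk : κ = 0 := by
      have g := fin (M.al ea) (mem56.2 ⟨h.al_mem _ e.ma, fun g => d4 (by rw [← g, r10]),
        fun g => d4 (by rw [← r4, ← g, r10]), fun g => d4 (by rw [← r5, ← g, r10]), n18.symm⟩)
      rw [w1] at g
      have g2 : γ * α ≠ 0 := by positivity
      exact (mul_eq_zero.1 g).resolve_right g2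
    have hm : μ = 0 := by rw [hμ', hk, zero_mul]
    have z1 : ω ea = 0 := by rw [hea, hm, zero_mul]
    have z2 : ω eb = 0 := by rw [heb, hm, zero_mul]
    have z3 : ω ec = 0 := by rw [hc, hm, zero_mul]
    have z4 : ω (M.al ea) = 0 := by rw [hω _ e.ma, z1]
    have z5 : ω (M.al eb) = 0 := by rw [hω _ e.mb, z2]
    have z6 : ω (M.al ec) = 0 := by rw [hω _ e.mc, z3]
    intro d hd
    by_cases g1 : d = ea
    · rw [g1, z1]
    by_cases g2 : d = eb
    · rw [g2, z2]
    by_cases g3 : d = ec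
    · rw [g3, z3]
    by_cases g4 : d = M.al eb
    · rw [g4, z5]
    by_cases g5 : d = M.al ea
    · rw [g5, z4]
    by_cases g6 : d = M.al ec
    · rw [g6, z6]
    have g := fin d (mem56.2 ⟨hd, g1, g2, g3, g4⟩)
    by_cases g7 : d = x
    · rw [g7] at g ⊢
      rw [w3, hk, zero_mul, add_zero] at g
      exact g
    by_cases g8 : d = M.al x
    · rw [g8] at g ⊢
      rw [w4, hk, zero_mul, add_zero] at g
      exact g
    by_cases g9 : d = y
    · rw [g9] at g ⊢
      rw [w5, hk, zero_mul, add_zero] at g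
      exact g
    by_cases g10 : d = M.al y
    · rw [g10] at g ⊢
      rw [w6, hk, zero_mul, add_zero] at g
      exact g
    rw [w7 d g5 g6 g7 g8 g9 g10] at g
    exact g
  · intro d hd
    have hd0 := (mem56.1 hd).1
    by_cases g5 : d = M.al ea
    · rw [g5, al_a56, w1, w2]
    by_cases g6 : d = M.al ec
    · rw [g6, al_c56 n17, w1, w2]
    rw [al56 g5 g6]
    by_cases g7 : d = x
    · rw [g7, w4, w3, hω _ e.mx]
    by_cases g8 : d = M.al x
    · rw [g8, a4, w4, w3, hω _ e.mx]
    by_cases g9 : d = y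
    · rw [g9, w6, w5, hω _ e.my]
    by_cases g10 : d = M.al y
    · rw [g10, a5, w6, w5, hω _ e.my]
    have hk := mem56.1 hd
    rw [w7 d g5 g6 g7 g8 g9 g10, w7, hω _ hd0]
    · intro g
      exact hk.2.1 (h.al_inj hd0 e.ma g)
    · intro g
      exact hk.2.2.2.1 (h.al_inj hd0 e.mc g)
    · intro g
      exact g8 ((h.al_eq_iff hd0 e.mx).1 g)
    · intro g
      exact g7 (h.al_inj hd0 e.mx g)
    · intro g
      exact g10 ((h.al_eq_iff hd0 e.my).1 g)
    · intro g
      exact g9 (h.al_inj hd0 e.my g)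
  · -- balance
    intro u hu
    have huv : u ≠ M.t ea := (Finset.mem_erase.1 hu).1
    have hu' : u ∈ M.VS := (Finset.mem_erase.1 hu).2
    have hbu := hb u hu'
    rw [Pu u huv] at hbu
    have gen : ∀ d ∈ M.star u, d ≠ M.al ea → d ≠ M.al eb → d ≠ M.al ec → d ≠ x → d ≠ M.al x → d ≠ y →
        d ≠ M.al y → (w d : ℂ) * (p u - p ((M.tri x y ea eb ec).t ((M.tri x y ea eb ec).al d))) =
          (ω d : ℂ) * (p u - P (M.t (M.al d))) := by
      intro d hd g1 g2 g3 g4 g5 g6 g7
      rw [w7 d g1 g3 g4 g5 g6 g7, al56 g1 g3, Pu _ (head56 e h (mem_star.1 hd).1 g1 g2 g3)]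
      rfl
    by_cases ua : u = M.t x
    · subst ua
      rw [star'56 e h huv d1]
      have m1 : x ∈ M.star (M.t x) := mem_star.2 ⟨e.mx, rfl⟩
      have m2 : M.al ea ∈ (M.star (M.t x)).erase x :=
        Finset.mem_erase.2 ⟨n1.symm, mem_star.2 ⟨h.al_mem _ e.ma, r10⟩⟩
      rw [← Finset.add_sum_erase _ _ m1, ← Finset.add_sum_erase _ _ m2] at hbu ⊢
      have hR : ∑ d ∈ ((M.star (M.t x)).erase x).erase (M.al ea),
          (w d : ℂ) * (p (M.t x) - p ((M.tri x y ea eb ec).t ((M.tri x y ea eb ec).al d))) =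
          ∑ d ∈ ((M.star (M.t x)).erase x).erase (M.al ea), (ω d : ℂ) * (p (M.t x) - P (M.t (M.al d))) := by
        refine Finset.sum_congr rfl fun d hd => ?_
        have k1 := Finset.mem_erase.1 hd
        have k2 := Finset.mem_erase.1 k1.2
        have k3 := mem_star.1 k2.2
        refine gen d k2.2 k1.1 ?_ ?_ k2.1 ?_ ?_ ?_
        · rintro rfl
          exact d1 (by rw [← k3.2, r12])
        · rintro rfl
          exact d2 (by rw [← k3.2])
        · rintro rfl
          exact d1 (by rw [← k3.2, r11])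
        · rintro rfl
          exact d1 (by rw [← k3.2])
        · rintro rfl
          exact d2 (by rw [← k3.2, r13])
      rw [hR, w3, w1, al56 n1 n2, al_a56]
      change (_ : ℂ) * (p (M.t x) - p (M.t (M.al x))) + (_ * (p (M.t x) - p (M.t (M.al ec))) + _) = 0
      rw [a1, Pv, hω _ e.ma, r11, PB, hea, hμ'] at hbu
      rw [r11, ← hA, ← hB, ← hC]
      rw [← hA] at hbu
      push_cast at hbu ⊢
      have hσ' : (σ : ℂ) = α + β + γ := by rw [hσ]; push_cast; ring
      rw [hσ'] at hbu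
      linear_combination hbu - (κ : ℂ) * α * hid
    by_cases uc : u = M.t (M.al ec)
    · subst uc
      rw [star'56 e h huv d3.symm]
      have m1 : M.al y ∈ M.star (M.t (M.al ec)) := mem_star.2 ⟨h.al_mem _ e.my, r13⟩
      have m2 : M.al ec ∈ (M.star (M.t (M.al ec))).erase (M.al y) :=
        Finset.mem_erase.2 ⟨n11.symm, mem_star.2 ⟨h.al_mem _ e.mc, rfl⟩⟩
      rw [← Finset.add_sum_erase _ _ m1, ← Finset.add_sum_erase _ _ m2] at hbu ⊢
      have hR : ∑ d ∈ ((M.star (M.t (M.al ec))).erase (M.al y)).erase (M.al ec),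
          (w d : ℂ) * (p (M.t (M.al ec)) - p ((M.tri x y ea eb ec).t ((M.tri x y ea eb ec).al d))) =
          ∑ d ∈ ((M.star (M.t (M.al ec))).erase (M.al y)).erase (M.al ec),
            (ω d : ℂ) * (p (M.t (M.al ec)) - P (M.t (M.al d))) := by
        refine Finset.sum_congr rfl fun d hd => ?_
        have k1 := Finset.mem_erase.1 hd
        have k2 := Finset.mem_erase.1 k1.2
        have k3 := mem_star.1 k2.2
        refine gen d k2.2 ?_ ?_ k1.1 ?_ ?_ ?_ k2.1
        · rintro rfl
          exact d2 (by rw [← k3.2, r10])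
        · rintro rfl
          exact d3 (by rw [← k3.2, r12])
        · rintro rfl
          exact d2 (by rw [← k3.2])
        · rintro rfl
          exact d3 (by rw [← k3.2, r11])
        · rintro rfl
          exact d3 (by rw [← k3.2])
      rw [hR, w6, w2, al56 n10 n11, al_c56 n17]
      change (_ : ℂ) * (p (M.t (M.al ec)) - p (M.t (M.al (M.al y)))) +
        (_ * (p (M.t (M.al ec)) - p (M.t (M.al ea))) + _) = 0
      rw [a3, r5, Pv, hω _ e.mc, a5, PB, hc, hμ'] at hbu
      rw [a5, r10, ← hA, ← hB, ← hC]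
      rw [← hC] at hbu
      push_cast at hbu ⊢
      have hσ' : (σ : ℂ) = α + β + γ := by rw [hσ]; push_cast; ring
      rw [hσ'] at hbu
      linear_combination hbu - (κ : ℂ) * γ * hid
    by_cases ub : u = M.t y
    · subst ub
      rw [star_b56 e h d5]
      have m0 : M.al eb ∈ M.star (M.t y) := mem_star.2 ⟨h.al_mem _ e.mb, r12⟩
      have m1 : M.al x ∈ (M.star (M.t y)).erase (M.al eb) :=
        Finset.mem_erase.2 ⟨n6, mem_star.2 ⟨h.al_mem _ e.mx, r11⟩⟩
      have m2 : y ∈ ((M.star (M.t y)).erase (M.al eb)).erase (M.al x) :=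
        Finset.mem_erase.2 ⟨n14, Finset.mem_erase.2 ⟨n9, mem_star.2 ⟨e.my, rfl⟩⟩⟩
      rw [← Finset.add_sum_erase _ _ m0, ← Finset.add_sum_erase _ _ m1, ← Finset.add_sum_erase _ _ m2] at hbu
      rw [← Finset.add_sum_erase _ _ m1, ← Finset.add_sum_erase _ _ m2]
      have hR : ∑ d ∈ (((M.star (M.t y)).erase (M.al eb)).erase (M.al x)).erase y,
          (w d : ℂ) * (p (M.t y) - p ((M.tri x y ea eb ec).t ((M.tri x y ea eb ec).al d))) =
          ∑ d ∈ (((M.star (M.t y)).erase (M.al eb)).erase (M.al x)).erase y,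
            (ω d : ℂ) * (p (M.t y) - P (M.t (M.al d))) := by
        refine Finset.sum_congr rfl fun d hd => ?_
        have k0 := Finset.mem_erase.1 hd
        have k1 := Finset.mem_erase.1 k0.2
        have k2 := Finset.mem_erase.1 k1.2
        have k3 := mem_star.1 k2.2
        refine gen d k2.2 ?_ k2.1 ?_ ?_ k1.1 k0.1 ?_
        · rintro rfl
          exact d1 (by rw [← k3.2, r10])
        · rintro rfl
          exact d3 (by rw [← k3.2])
        · rintro rfl
          exact d1 (by rw [← k3.2])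
        · rintro rfl
          exact d3 (by rw [← k3.2, r13])
      rw [hR, w4, w5, al56 n4 n5, al56 n7 n8]
      change (_ : ℂ) * (p (M.t y) - p (M.t (M.al (M.al x)))) +
        (_ * (p (M.t y) - p (M.t (M.al y))) + _) = 0
      rw [a2, r4, Pv, hω _ e.mb, a4, PA, r13, PC, heb, hμ'] at hbu
      rw [a4, r13, ← hA, ← hB, ← hC]
      rw [← hB] at hbu
      push_cast at hbu ⊢
      have hσ' : (σ : ℂ) = α + β + γ := by rw [hσ]; push_cast; ring
      rw [hσ'] at hbu
      linear_combination hbu - (κ : ℂ) * β * hid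
    · rw [star'56 e h huv ub, ← hbu]
      refine Finset.sum_congr rfl fun d hd => ?_
      have k3 := mem_star.1 hd
      refine gen d hd ?_ ?_ ?_ ?_ ?_ ?_ ?_
      · rintro rfl
        exact ua (by rw [← k3.2, r10])
      · rintro rfl
        exact ub (by rw [← k3.2, r12])
      · rintro rfl
        exact uc (by rw [← k3.2])
      · rintro rfl
        exact ua (by rw [← k3.2])
      · rintro rfl
        exact ub (by rw [← k3.2, r11])
      · rintro rfl
        exact ub (by rw [← k3.2])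
      · rintro rfl
        exact uc (by rw [← k3.2, r13])

theorem CM.Tri.good (e : M.Tri x y ea eb ec) (h : M.Ok) (hl : M.Lam) (h3 : 3 ≤ M.VS.card) {sp : Finset F}
    (hx : M.fc x ∉ sp) (hy : M.fc y ∉ sp) (hgood : (M.tri x y ea eb ec).Good sp) : M.Good sp := by
  obtain ⟨p, r, hPk, hSF, hOri⟩ := hgood
  obtain ⟨r1, r2, r3, r4, r5, r6, r7, r8, r9, r10, r11, r12, r13, f1, f2, f3, f4, f5⟩ := e.rel h
  obtain ⟨d1, d2, d3, d4, d5, d6⟩ := e.distinct h hl h3
  obtain ⟨⟨n1, n2, n3⟩, ⟨n4, n5, n6⟩, ⟨n7, n8, n9⟩, ⟨n10, n11, n12⟩, ⟨n13, n14, n15, n16⟩, ⟨n17, n18, n19⟩,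
    ⟨n20, n21, n22⟩⟩ := ne56 e h hl h3
  have a1 := h.al_al _ e.ma
  have a2 := h.al_al _ e.mb
  have a3 := h.al_al _ e.mc
  have a4 := h.al_al _ e.mx
  have a5 := h.al_al _ e.my
  have mx' : x ∈ (M.tri x y ea eb ec).DS := mem56.2 ⟨e.mx, fun g => d4 (by rw [g]), fun g => d4 (by rw [← r4, g]),
    fun g => d4 (by rw [← r5, g]), n3⟩
  have my' : y ∈ (M.tri x y ea eb ec).DS := mem56.2 ⟨e.my, fun g => d5 (by rw [g]), fun g => d5 (by rw [← r4, g]),
    fun g => d5 (by rw [← r5, g]), n9⟩
  have mc' : M.al ec ∈ (M.tri x y ea eb ec).DS := mem56.2 ⟨h.al_mem _ e.mc, fun g => d6 (by rw [g]),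
    fun g => d6 (by rw [g, r4]), fun g => d6 (by rw [g, r5]), n19.symm⟩
  have ho := hOri x mx' (by rw [fc56 n13.symm n2]; exact hx) (by rw [fc56 n13.symm n2]; exact e.len_x h hl h3)
  rw [al56 n1 n2, pv'56 r7.symm, e.y3, al56 n7 n8] at ho
  change 0 < cross (p (M.t (M.al x)) - p (M.t x)) (p (M.t (M.al y)) - p (M.t x)) at ho
  rw [r11, r13] at ho
  have tx := hPk.tan x mx'
  rw [al56 n1 n2] at tx
  change ‖p (M.t x) - p (M.t (M.al x))‖ = r (M.t x) + r (M.t (M.al x)) at tx
  rw [r11] at tx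
  have ty := hPk.tan y my'
  rw [al56 n7 n8] at ty
  change ‖p (M.t y) - p (M.t (M.al y))‖ = r (M.t y) + r (M.t (M.al y)) at ty
  rw [r13] at ty
  have tc := hPk.tan (M.al ec) mc'
  rw [al_c56 n17] at tc
  change ‖p (M.t (M.al ec)) - p (M.t (M.al ea))‖ = r (M.t (M.al ec)) + r (M.t (M.al ea)) at tc
  rw [r10] at tc
  have mVS : ∀ u ∈ M.VS, u ≠ M.t ea → u ∈ (M.tri x y ea eb ec).VS := fun u hu hn =>
    Finset.mem_erase.2 ⟨hn, hu⟩
  have ra := hPk.pos _ (mVS _ (h.t_mem _ e.mx) d4.symm)
  have rb := hPk.pos _ (mVS _ (h.t_mem _ e.my) d5.symm)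
  have rc := hPk.pos _ (mVS _ (h.h_mem e.mc) d6.symm)
  obtain ⟨s, z, s0, zA, zB, zC, cA, cB, cC⟩ := soddy ra rb rc tx ty tc ho
  obtain ⟨A, hA⟩ : ∃ A, A = p (M.t x) := ⟨_, rfl⟩
  obtain ⟨B, hB⟩ : ∃ B, B = p (M.t y) := ⟨_, rfl⟩
  obtain ⟨C, hC⟩ : ∃ C, C = p (M.t (M.al ec)) := ⟨_, rfl⟩
  have hsf := e.sf h hl h3 hSF cA cB cC
  obtain ⟨P, hP⟩ : ∃ P, P = Function.update p (M.t ea) z := ⟨_, rfl⟩
  obtain ⟨R, hR⟩ : ∃ R, R = Function.update r (M.t ea) s := ⟨_, rfl⟩
  rw [← hP] at hsf
  have Pu : ∀ u, u ≠ M.t ea → P u = p u := fun u hu => by rw [hP]; exact Function.update_of_ne hu _ _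
  have Pv : P (M.t ea) = z := by rw [hP]; exact Function.update_self _ _ _
  have Ru : ∀ u, u ≠ M.t ea → R u = r u := fun u hu => by rw [hR]; exact Function.update_of_ne hu _ _
  have Rv : R (M.t ea) = s := by rw [hR]; exact Function.update_self _ _ _
  have PA : P (M.t x) = A := by rw [Pu _ d4.symm, hA]
  have PB : P (M.t y) = B := by rw [Pu _ d5.symm, hB]
  have PC : P (M.t (M.al ec)) = C := by rw [Pu _ d6.symm, hC]
  rw [← hA, ← hB] at cA
  rw [← hB, ← hC] at cB
  rw [← hA, ← hC] at cC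
  rw [← hA, ← hB, ← hC] at ho
  rw [← hA] at zA
  rw [← hB] at zB
  rw [← hC] at zC
  have cA1 : 0 < cross (z - B) (A - B) := by
    have : cross (z - B) (A - B) = cross (B - A) (z - A) := by simp [cross]; ring
    rw [this]; exact cA
  have cA2 : 0 < cross (A - z) (B - z) := by
    have : cross (A - z) (B - z) = cross (B - A) (z - A) := by simp [cross]; ring
    rw [this]; exact cA
  have cB1 : 0 < cross (z - C) (B - C) := by
    have : cross (z - C) (B - C) = cross (C - B) (z - B) := by simp [cross]; ring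
    rw [this]; exact cB
  have cB2 : 0 < cross (B - z) (C - z) := by
    have : cross (B - z) (C - z) = cross (C - B) (z - B) := by simp [cross]; ring
    rw [this]; exact cB
  have cC1 : 0 < cross (z - A) (C - A) := by
    have : cross (z - A) (C - A) = cross (A - C) (z - C) := by simp [cross]; ring
    rw [this]; exact cC
  have cC2 : 0 < cross (C - z) (A - z) := by
    have : cross (C - z) (A - z) = cross (A - C) (z - C) := by simp [cross]; ring
    rw [this]; exact cC
  have ho1 : 0 < cross (C - B) (A - B) := by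
    have : cross (C - B) (A - B) = cross (B - A) (C - A) := by simp [cross]; ring
    rw [this]; exact ho
  have ho2 : 0 < cross (A - C) (B - C) := by
    have : cross (A - C) (B - C) = cross (B - A) (C - A) := by simp [cross]; ring
    rw [this]; exact ho
  have posR : ∀ u ∈ M.VS, 0 < R u := by
    intro u hu
    by_cases huv : u = M.t ea
    · rw [huv, Rv]; exact s0
    · rw [Ru u huv]; exact hPk.pos u (mVS u hu huv)
  -- tangency
  have ta : ‖P (M.t ea) - P (M.t (M.al ea))‖ = R (M.t ea) + R (M.t (M.al ea)) := by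
    rw [r10, Pv, PA, Rv, Ru _ d4.symm, zA, add_comm]
  have tb : ‖P (M.t eb) - P (M.t (M.al eb))‖ = R (M.t eb) + R (M.t (M.al eb)) := by
    rw [r4, r12, Pv, PB, Rv, Ru _ d5.symm, zB, add_comm]
  have tc : ‖P (M.t ec) - P (M.t (M.al ec))‖ = R (M.t ec) + R (M.t (M.al ec)) := by
    rw [r5, Pv, PC, Rv, Ru _ d6.symm, zC, add_comm]
  have rev : ∀ d ∈ M.DS, ‖P (M.t d) - P (M.t (M.al d))‖ = R (M.t d) + R (M.t (M.al d)) →
      ‖P (M.t (M.al d)) - P (M.t (M.al (M.al d)))‖ = R (M.t (M.al d)) + R (M.t (M.al (M.al d))) := by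
    intro d hd g
    rw [h.al_al d hd, norm_sub_rev, add_comm, g]
  have tanP : ∀ d ∈ M.DS, ‖P (M.t d) - P (M.t (M.al d))‖ = R (M.t d) + R (M.t (M.al d)) := by
    intro d hd
    by_cases g1 : d = ea
    · rw [g1]; exact ta
    by_cases g2 : d = eb
    · rw [g2]; exact tb
    by_cases g3 : d = ec
    · rw [g3]; exact tc
    by_cases g4 : d = M.al ea
    · rw [g4]; exact rev _ e.ma ta
    by_cases g5 : d = M.al eb
    · rw [g5]; exact rev _ e.mb tb
    by_cases g6 : d = M.al ec
    · rw [g6]; exact rev _ e.mc tc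
    have m : d ∈ (M.tri x y ea eb ec).DS := mem56.2 ⟨hd, g1, g2, g3, g5⟩
    have g := hPk.tan d m
    rw [al56 g4 g6] at g
    rw [Pu _ (tail56 e h m), Pu _ (head56 e h hd g4 g5 g6), Ru _ (tail56 e h m), Ru _ (head56 e h hd g4 g5 g6)]
    exact g
  have hne : ∀ d ∈ M.DS, P (M.t (M.al d)) ≠ P (M.t d) := by
    intro d hd heq
    have g := tanP d hd
    rw [heq, sub_self, norm_zero] at g
    have g1 := posR _ (h.t_mem d hd)
    have g2 := posR _ (h.h_mem hd)
    linarith
  -- same heads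
  have hd' : ∀ d ∈ M.DS, d ≠ M.al ea → d ≠ M.al eb → d ≠ M.al ec →
      p ((M.tri x y ea eb ec).t ((M.tri x y ea eb ec).al d)) = P (M.t (M.al d)) := by
    intro d hd g1 g2 g3
    rw [al56 g1 g3, Pu _ (head56 e h hd g1 g2 g3)]
    rfl
  have Pa : p ((M.tri x y ea eb ec).t ((M.tri x y ea eb ec).al (M.al ea))) = C := by
    rw [al_a56, hC]; rfl
  have Pc : p ((M.tri x y ea eb ec).t ((M.tri x y ea eb ec).al (M.al ec))) = A := by
    rw [al_c56 n17]
    change p (M.t (M.al ea)) = A
    rw [r10, hA]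
  have hcyc : ∀ u ∈ M.VS, M.ts P u < 4 * Real.pi := by
    intro u hu
    have hpi := Real.pi_pos
    by_cases uv : u = M.t ea
    · subst uv
      unfold CM.ts
      rw [star_v56 e h, Finset.sum_insert (by simp [n20, n21]), Finset.sum_insert (by simp [n22]),
        Finset.sum_singleton, r1, r2, r3, r10, r12, Pv, PA, PB, PC]
      have g1 := turn_lt_pi cA2
      have g2 := turn_lt_pi cB2
      have g3 := turn_lt_pi cC2
      linarith
    have hts := hPk.cyc u (mVS u hu uv)
    by_cases ua : u = M.t x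
    · subst ua
      unfold CM.ts at hts ⊢
      rw [star'56 e h uv d1] at hts
      have m1 : x ∈ M.star (M.t x) := mem_star.2 ⟨e.mx, rfl⟩
      have m2 : M.al ea ∈ (M.star (M.t x)).erase x :=
        Finset.mem_erase.2 ⟨n1.symm, mem_star.2 ⟨h.al_mem _ e.ma, r10⟩⟩
      rw [← Finset.add_sum_erase _ _ m1, ← Finset.add_sum_erase _ _ m2] at hts ⊢
      have hS : ∑ d ∈ ((M.star (M.t x)).erase x).erase (M.al ea),
          turn (P (M.t (M.al d)) - P (M.t x)) (P (M.t (M.al (M.nx d))) - P (M.t x)) =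
          ∑ d ∈ ((M.star (M.t x)).erase x).erase (M.al ea),
            turn (p ((M.tri x y ea eb ec).t ((M.tri x y ea eb ec).al d)) - p (M.t x))
              (p ((M.tri x y ea eb ec).t ((M.tri x y ea eb ec).al ((M.tri x y ea eb ec).nx d))) - p (M.t x)) := by
        refine Finset.sum_congr rfl fun d hd => ?_
        have k1 := Finset.mem_erase.1 hd
        have k2 := Finset.mem_erase.1 k1.2
        have k3 := mem_star.1 k2.2
        have k4 := mem_star.1 (h.nx_star k2.2)
        rw [nx56, hd' d k3.1 k1.1, hd' (M.nx d) k4.1, PA, hA]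
        · intro g
          rw [← r6] at g
          exact k2.1 (h.nx_inj k3.1 e.mx g)
        · intro g
          exact d1 (by rw [← k4.2, g, r12])
        · intro g
          exact d2 (by rw [← k4.2, g])
        · intro g
          exact d1 (by rw [← k3.2, g, r12])
        · intro g
          exact d2 (by rw [← k3.2, g])
        · intro g
          exact d1 (by rw [← k4.2, g, r12])
      rw [hS]
      have q1 : (M.tri x y ea eb ec).nx x = M.al ea := by
        rw [nx56 (by rw [r6]; exact n18.symm), r6]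
      rw [q1, Pa, hd' x e.mx n1 n3 n2, r11, PB, ← hA] at hts
      rw [r6, a1, r11, PB, PA, Pv, ← hA]
      have g1 := turn_between cA cC1 ho
      have g2 := turn_pos (z - A) (C - A)
      have g3 := turn_pos (C - A) (p ((M.tri x y ea eb ec).t ((M.tri x y ea eb ec).al
        ((M.tri x y ea eb ec).nx (M.al ea)))) - A)
      have g4 := turn_le (z - A) (P (M.t (M.al (M.nx (M.al ea)))) - A)
      linarith
    by_cases uc : u = M.t (M.al ec)
    · subst uc
      unfold CM.ts at hts ⊢
      rw [star'56 e h uv d3.symm] at hts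
      have m1 : M.al ec ∈ M.star (M.t (M.al ec)) := mem_star.2 ⟨h.al_mem _ e.mc, rfl⟩
      have hw : M.nx (M.pv (M.al ec)) = M.al ec := h.nx_pv _ (h.al_mem _ e.mc)
      have mw : M.pv (M.al ec) ∈ M.DS := h.ph_mem e.mc
      have m2 : M.pv (M.al ec) ∈ (M.star (M.t (M.al ec))).erase (M.al ec) :=
        Finset.mem_erase.2 ⟨hl.pv_ne h h3 (h.al_mem _ e.mc), mem_star.2 ⟨mw, h.t_ph e.mc⟩⟩
      rw [← Finset.add_sum_erase _ _ m1, ← Finset.add_sum_erase _ _ m2] at hts ⊢
      have hS : ∑ d ∈ ((M.star (M.t (M.al ec))).erase (M.al ec)).erase (M.pv (M.al ec)),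
          turn (P (M.t (M.al d)) - P (M.t (M.al ec))) (P (M.t (M.al (M.nx d))) - P (M.t (M.al ec))) =
          ∑ d ∈ ((M.star (M.t (M.al ec))).erase (M.al ec)).erase (M.pv (M.al ec)),
            turn (p ((M.tri x y ea eb ec).t ((M.tri x y ea eb ec).al d)) - p (M.t (M.al ec)))
              (p ((M.tri x y ea eb ec).t ((M.tri x y ea eb ec).al ((M.tri x y ea eb ec).nx d))) -
                p (M.t (M.al ec))) := by
        refine Finset.sum_congr rfl fun d hd => ?_
        have k1 := Finset.mem_erase.1 hd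
        have k2 := Finset.mem_erase.1 k1.2
        have k3 := mem_star.1 k2.2
        have k4 := mem_star.1 (h.nx_star k2.2)
        rw [nx56, hd' d k3.1, hd' (M.nx d) k4.1, PC, hC]
        · intro g
          exact d2 (by rw [← k4.2, g, r10])
        · intro g
          exact d3 (by rw [← k4.2, g, r12])
        · intro g
          rw [← hw] at g
          exact k1.1 (h.nx_inj k3.1 mw g)
        · intro g
          exact d2 (by rw [← k3.2, g, r10])
        · intro g
          exact d3 (by rw [← k3.2, g, r12])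
        · exact k2.1
        · intro g
          exact d3 (by rw [← k4.2, g, r12])
      rw [hS]
      have q1 : (M.tri x y ea eb ec).nx (M.al ec) = M.al y := by
        rw [nx56 (by rw [r9]; exact n12), r9]
      have q2 : (M.tri x y ea eb ec).nx (M.pv (M.al ec)) = M.al ec := by
        rw [nx56 (by rw [hw]; exact n19.symm), hw]
      rw [q1, q2, Pc, hd' (M.al y) (h.al_mem _ e.my) n10 n12 n11, a5, PB, ← hC] at hts
      rw [r9, hw, a3, a5, r5, PB, PC, Pv, ← hC]
      have g1 := turn_between cC cB1 ho2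
      have g2 := turn_pos (A - C) (z - C)
      have g3 := turn_pos (p ((M.tri x y ea eb ec).t ((M.tri x y ea eb ec).al (M.pv (M.al ec)))) - C) (A - C)
      have g4 := turn_le (P (M.t (M.al (M.pv (M.al ec)))) - C) (z - C)
      linarith
    by_cases ub : u = M.t y
    · subst ub
      unfold CM.ts at hts ⊢
      rw [star_b56 e h d5] at hts
      have m0 : M.al eb ∈ M.star (M.t y) := mem_star.2 ⟨h.al_mem _ e.mb, r12⟩
      have m1 : y ∈ (M.star (M.t y)).erase (M.al eb) := Finset.mem_erase.2 ⟨n9, mem_star.2 ⟨e.my, rfl⟩⟩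
      rw [← Finset.add_sum_erase _ _ m1] at hts
      rw [← Finset.add_sum_erase _ _ m0, ← Finset.add_sum_erase _ _ m1]
      have hS : ∑ d ∈ ((M.star (M.t y)).erase (M.al eb)).erase y,
          turn (P (M.t (M.al d)) - P (M.t y)) (P (M.t (M.al (M.nx d))) - P (M.t y)) =
          ∑ d ∈ ((M.star (M.t y)).erase (M.al eb)).erase y,
            turn (p ((M.tri x y ea eb ec).t ((M.tri x y ea eb ec).al d)) - p (M.t y))
              (p ((M.tri x y ea eb ec).t ((M.tri x y ea eb ec).al ((M.tri x y ea eb ec).nx d))) - p (M.t y)) := by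
        refine Finset.sum_congr rfl fun d hd => ?_
        have k1 := Finset.mem_erase.1 hd
        have k2 := Finset.mem_erase.1 k1.2
        have k3 := mem_star.1 k2.2
        have k4 := mem_star.1 (h.nx_star k2.2)
        have k5 : M.nx d ≠ M.al eb := by
          intro g
          rw [← r8] at g
          exact k1.1 (h.nx_inj k3.1 e.my g)
        rw [nx56 k5, hd' d k3.1, hd' (M.nx d) k4.1, PB, hB]
        · intro g
          exact d1 (by rw [← k4.2, g, r10])
        · exact k5
        · intro g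
          exact d3 (by rw [← k4.2, g])
        · intro g
          exact d1 (by rw [← k3.2, g, r10])
        · exact k2.1
        · intro g
          exact d3 (by rw [← k3.2, g])
      rw [hS]
      have q1 : (M.tri x y ea eb ec).nx y = M.al x := by
        rw [nx'56 r8, r7]
      rw [q1, hd' (M.al x) (h.al_mem _ e.mx) n4 n6 n5, hd' y e.my n7 n9 n8, a4, PA, r13, PC, ← hB] at hts
      rw [r7, r8, a2, a4, r4, r13, PA, PB, PC, Pv, ← hB]
      have g1 := turn_between cB cA1 ho1
      linarith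
    · have hS : M.ts P u = (M.tri x y ea eb ec).ts p u := by
        unfold CM.ts
        rw [star'56 e h uv ub]
        refine Finset.sum_congr rfl fun d hd => ?_
        have k3 := mem_star.1 hd
        have k4 := mem_star.1 (h.nx_star hd)
        rw [nx56, hd' d k3.1, hd' (M.nx d) k4.1, Pu u uv]
        · intro g
          exact ua (by rw [← k4.2, g, r10])
        · intro g
          exact ub (by rw [← k4.2, g, r12])
        · intro g
          exact uc (by rw [← k4.2, g])
        · intro g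
          exact ua (by rw [← k3.2, g, r10])
        · intro g
          exact ub (by rw [← k3.2, g, r12])
        · intro g
          exact uc (by rw [← k3.2, g])
        · intro g
          exact ub (by rw [← k4.2, g, r12])
      rw [hS, hts]
      linarith
  refine ⟨P, R, ⟨posR, tanP, ?_⟩, hsf, ?_⟩
  · intro u hu
    refine h.ts_eq ?_ (hl.star_ne h hu) (hcyc u hu)
    intro d hd
    have k3 := mem_star.1 hd
    have g := hne d k3.1
    rw [k3.2] at g
    exact g
  · intro d hd hsp hlen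
    by_cases g1 : M.fc d = M.fc x
    · rcases hl.mem3 h h3 e.mx e.lenx hd g1 with g | g | g
      · rw [g, e.x1, a2, r11, r4, PA, PB, Pv]
        exact cA
      · rw [e.x1] at g
        rw [g, a2, e.x2, r12, r4, r10, PA, PB, Pv]
        exact cA1
      · rw [e.x1, a2, e.x2] at g
        rw [g, e.x3, r10, r11, PA, PB, Pv]
        exact cA2
    by_cases g2 : M.fc d = M.fc y
    · rcases hl.mem3 h h3 e.my e.leny hd g2 with g | g | g
      · rw [g, e.y1, a3, r13, r5, PB, PC, Pv]
        exact cB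
      · rw [e.y1] at g
        rw [g, a3, e.y2, r12, r5, PC, PB, Pv]
        exact cB1
      · rw [e.y1, a3, e.y2] at g
        rw [g, e.y3, r12, r13, r4, PB, PC, Pv]
        exact cB2
    have g3 : M.fc d ≠ M.fc ec := by
      intro g
      exact e.len_ne h hl h3 (by rw [← g]; exact hlen)
    have key : ∀ c ∈ M.DS, M.fc c = M.fc d → c ≠ ea ∧ c ≠ eb ∧ c ≠ ec ∧ c ≠ M.al ea ∧ c ≠ M.al eb ∧ c ≠ M.al ec ∧
        c ≠ x ∧ c ≠ y := by
      intro c hc hf
      refine ⟨?_, ?_, ?_, ?_, ?_, ?_, ?_, ?_⟩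
      · intro g
        exact g1 (by rw [← hf, g, f2])
      · intro g
        exact g2 (by rw [← hf, g, f4])
      · intro g
        exact g3 (by rw [← hf, g])
      · intro g
        exact g3 (by rw [← hf, g, f5])
      · intro g
        exact g1 (by rw [← hf, g, f1])
      · intro g
        exact g2 (by rw [← hf, g, f3])
      · intro g
        exact g1 (by rw [← hf, g])
      · intro g
        exact g2 (by rw [← hf, g])
    obtain ⟨k1, k2, k3, k4, k5, k6, k7, k8⟩ := key d hd rfl
    have m : d ∈ (M.tri x y ea eb ec).DS := mem56.2 ⟨hd, k1, k2, k3, k5⟩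
    have mg := h.ph_mem hd
    obtain ⟨j1, j2, j3, j4, j5, j6, j7, j8⟩ := key _ mg (h.fc_ph d hd)
    have hf := fc56 (M := M) (x := x) (ea := ea) (eb := eb) k8 k6
    have g := hOri d m (by rw [hf]; exact hsp) (by rw [hf, e.len_o h hl h3 g1 g2 g3]; exact hlen)
    have hal : M.al d ≠ M.nx (M.al eb) := by
      rw [r7]
      intro q
      exact k7 (h.al_inj hd e.mx q)
    have q1 : (M.tri x y ea eb ec).pv ((M.tri x y ea eb ec).al d) = M.pv (M.al d) := by
      rw [al56 k4 k6, pv56 hal]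
    rw [q1, hd' d hd k4 k5 k6, hd' _ mg j4 j5 j6] at g
    rw [Pu (M.t d) (tail56 e h m)]
    exact g

end Pool.Agent.Helper37.CP
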