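import Pool.Agent.Helper37.CP.Unc
import Pool.Agent.Helper37.CP.Irr
import Pool.Agent.Helper37.CP.FoldGood
import Pool.Agent.Helper37.CP.EarGood
import Pool.Agent.Helper37.CP.TriGood
import Pool.Agent.Helper37.CP.BaseTwo

/-!
# Project CP: the induction.
-/

set_option linter.unusedSectionVars false

namespace Pool.Agent.Helper37.CP

variable {V D F : Type*} [DecidableEq V] [DecidableEq D] [DecidableEq F]

theorem main_induction (n : ℕ) : ∀ (M : CM V D F) (sp : Finset F), M.Adm sp → M.VS.card = n → M.Good sp := by
  induction n using Nat.strong_induction_on with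
  | _ n ih =>
    intro M sp ha hn
    have h := ha.ok
    have hl := ha.lam
    have h2 := hl.two
    rcases Nat.lt_or_ge n 3 with h3 | h3
    · exact CM.good_two h hl (by omega) sp
    have h3' : 3 ≤ M.VS.card := by omega
    rcases Nat.lt_or_ge n 4 with h4 | h4
    · -- three vertices
      have hn3 : M.VS.card = 3 := by omega
      obtain ⟨hlen, hdeg, hF⟩ := ha.three hn3
      obtain ⟨o, ho⟩ := ha.sp_ne
      have hoF := ha.sp_sub ho
      have hex : ∃ f ∈ M.FS, f ≠ o := by
        by_contra hcon
        push Not at hcon
        have : M.FS ⊆ {o} := by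
          intro f hf
          rw [Finset.mem_singleton]
          exact hcon f hf
        have := Finset.card_le_card this
        rw [Finset.card_singleton] at this
        omega
      obtain ⟨f, hf, hfo⟩ := hex
      obtain ⟨z, hz, hfz⟩ := h.fc_surj f hf
      have e := CM.exists_ear h hl h3' hz (hdeg _ (h.t_mem z hz)) (by rw [hfz]; exact hlen f hf)
      have hx : M.fc (M.pv (M.al z)) = f := by rw [h.fc_ph z hz, hfz]
      have hne : (sp.erase (M.fc (M.pv (M.al z)))).Nonempty := by
        refine ⟨o, ?_⟩
        rw [Finset.mem_erase, hx]
        exact ⟨fun h5 => hfo h5.symm, ho⟩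
      have hadm := e.adm ha h3' hne
      have hcard := e.card h
      have hg := ih (n - 1) (by omega) _ _ hadm (by omega)
      refine e.good h hl h3' ?_ hg
      intro _
      -- the face of `al z` is not `f`, so it is `o`
      have hg2 := e.len_g h hl h3'
      have hne2 : M.fc (M.al z) ≠ f := by
        intro h6
        have hmem := e.ok h hl h3'
        have h7 : M.fc (M.al z) ∈ (M.ear (M.pv (M.al z)) (M.pv (M.al (M.pv (M.al z)))) z).FS := by
          have h8 : 0 < (M.ear (M.pv (M.al z)) (M.pv (M.al (M.pv (M.al z)))) z).len (M.fc (M.al z)) := by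
            have h9 := hlen _ (h.fc_mem _ (h.al_mem z hz))
            omega
          unfold CM.len at h8
          rw [Finset.card_pos] at h8
          obtain ⟨d, hd⟩ := h8
          rw [Finset.mem_filter] at hd
          rw [← hd.2]
          exact hmem.fc_mem d hd.1
        have h10 : M.fc (M.al z) ∉ (M.ear (M.pv (M.al z)) (M.pv (M.al (M.pv (M.al z)))) z).FS := by
          rw [h6]
          unfold CM.ear
          rw [hx]
          exact Finset.notMem_erase f M.FS
        exact h10 h7
      by_contra hcon
      have hsub : ({f, M.fc (M.al z), o} : Finset F) ⊆ M.FS := by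
        intro g hg'
        simp only [Finset.mem_insert, Finset.mem_singleton] at hg'
        rcases hg' with rfl | rfl | rfl
        · exact hf
        · exact h.fc_mem _ (h.al_mem z hz)
        · exact hoF
      have hc3 : ({f, M.fc (M.al z), o} : Finset F).card = 3 := by
        rw [Finset.card_eq_three]
        refine ⟨f, M.fc (M.al z), o, fun h11 => hne2 h11.symm, hfo, ?_, rfl⟩
        intro h11
        rw [h11] at hcon
        exact hcon ho
      have := Finset.card_le_card hsub
      omega
    · by_cases hq : ∃ f ∈ M.FS, f ∉ sp ∧ M.len f = 4
      · obtain ⟨f, hf, hfs, hf4⟩ := hq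
        obtain ⟨d, hd, hfd⟩ := h.fc_surj f hf
        have q := hl.quad h h3' hd (by rw [hfd]; exact hf4)
        rcases q.free h hl h3' with hfree | hfree
        · have hsp : M.fc d ∉ sp := by rw [hfd]; exact hfs
          have hadm := q.fold_adm ha h3' hsp hfree
          have hcard := q.fold_card h
          exact q.fold_good ha h3' hfree hsp (ih (n - 1) (by omega) _ _ hadm (by omega))
        · have q' := q.rot h
          have hsp : M.fc (M.pv (M.al d)) ∉ sp := by rw [h.fc_ph d hd, hfd]; exact hfs
          have hadm := q'.fold_adm ha h3' hsp hfree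
          have hcard := q'.fold_card h
          exact q'.fold_good ha h3' hfree hsp (ih (n - 1) (by omega) _ _ hadm (by omega))
      · push Not at hq
        have hlen : ∀ f ∈ M.FS, f ∉ sp → M.len f = 3 := by
          intro f hf hfs
          have h5 := hl.len_ge h h3' hf
          have h6 := ha.len4 f hf hfs
          have h7 := hq f hf hfs
          omega
        obtain ⟨z, hz, hzs, hred⟩ := ha.reducible (by omega) hlen
        have hz3 : M.len (M.fc z) = 3 := hlen _ (h.fc_mem z hz) hzs
        rcases hred with hdeg | ⟨hdeg, hns⟩
        · have e := CM.exists_ear h hl h3' hz hdeg hz3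
          have hx : M.fc (M.pv (M.al z)) = M.fc z := h.fc_ph z hz
          have her : sp.erase (M.fc (M.pv (M.al z))) = sp := by
            rw [hx]
            exact Finset.erase_eq_of_notMem hzs
          have hadm := e.adm ha h3' (by rw [her]; exact ha.sp_ne)
          have hcard := e.card h
          refine e.good h hl h3' ?_ (ih (n - 1) (by omega) _ _ hadm (by omega))
          intro h8
          exfalso
          have h9 := e.len_g h hl h3'
          have hok := e.ok h hl h3'
          have hlam := e.lam h hl h3'
          have hmem : M.fc (M.al z) ∈ (M.ear (M.pv (M.al z)) (M.pv (M.al (M.pv (M.al z)))) z).FS := by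
            have h8' : 0 < (M.ear (M.pv (M.al z)) (M.pv (M.al (M.pv (M.al z)))) z).len (M.fc (M.al z)) := by omega
            unfold CM.len at h8'
            rw [Finset.card_pos] at h8'
            obtain ⟨d, hd⟩ := h8'
            rw [Finset.mem_filter] at hd
            rw [← hd.2]
            exact hok.fc_mem d hd.1
          have h10 := hlam.len_ge hok (by omega) hmem
          omega
        · have hg3 : M.len (M.fc (M.nx z)) = 3 := hlen _ (h.fc_mem _ (h.nx_mem z hz)) hns
          have e := CM.exists_tri h hl h3' hz hdeg hz3 hg3
          have hx : M.fc (M.pv (M.al z)) ∉ sp := by rw [h.fc_ph z hz]; exact hzs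
          have hy : M.fc (M.pv (M.al (M.nx z))) ∉ sp := by rw [h.fc_ph _ (h.nx_mem z hz)]; exact hns
          have hadm := e.adm ha h3' hx hy
          have hcard := e.card h
          exact e.good h hl h3' hx hy (ih (n - 1) (by omega) _ _ hadm (by omega))

end Pool.Agent.Helper37.CP
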