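import Mathlib

/-!
# Block CP-RIG: a minimally rigid graph is Laman-sparse (the easy direction of Laman's theorem).

`q : V → ℂ` is a placement of `G` at which every infinitesimal flex `u` (`⟪q i - q j, u i - u j⟫ = 0` for all edges) is trivial
(`u i = a + i b (q i)`, `a` complex, `b` real), and `m + 3 = 2 n`. Claim (in darts): `dc X + 6 ≤ 4 |X|` for `|X| ≥ 2`, where
`dc X` is the number of darts inside `X` (twice the number of edges).

Proof. Let `E` be the set of edges (finite type `G.edgeSet`) and `R : (V → ℂ) →ₗ[ℝ] (E → ℝ)` the rigidity map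
`u ↦ (ij ↦ ⟪q i - q j, u i - u j⟫)` (well defined on unordered pairs by `Sym2.lift`). Its kernel consists of trivial motions, so it has dimension
at most 3 (it is contained in the range of `ℂ × ℝ → (V → ℂ)`); so `finrank (range R) ≥ 2 n - 3 = m` and `R` is surjective.
Let `E_X` be the set of edges inside `X`. The map `R_X : (X → ℂ) → (E_X → ℝ)` given by the same formula is surjective: given
`s : E_X → ℝ`, extend it by 0 to `E`, take `u` with `R u` equal to it and restrict `u` to `X`. If `E_X` is empty the claim is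
`6 ≤ 4 |X|`. Otherwise there is an edge `ij` in `X` with `q i ≠ q j` (the coordinate `ij` of the surjective `R_X` is not identically 0), and
`ℂ × ℝ → (X → ℂ)`, `(a, b) ↦ (k ↦ a + i b q k)` is injective with image in `ker R_X`; so `|E_X| = finrank (range R_X) ≤ 2 |X| - 3`. Finally the
number of darts inside `X` is `2 |E_X|` (each edge gives two darts; e.g. the map dart ↦ edge is two-to-one, compare
`SimpleGraph.dart_card_eq_twice_card_edges`, possibly applied to the induced graph).
(You may work with any set of representatives of the darts instead of `Sym2`.)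
-/

namespace Pool.Agent.Helper37.CP

/-- the rigid motions -/
private noncomputable def motion {W : Type*} (q : W → ℂ) : (ℂ × ℝ) →ₗ[ℝ] (W → ℂ) where
  toFun p := fun i => p.1 + (p.2 : ℂ) * Complex.I * q i
  map_add' p p' := by
    funext i
    simp only [Prod.fst_add, Prod.snd_add, Pi.add_apply, Complex.ofReal_add]
    ring
  map_smul' c p := by
    funext i
    simp only [Prod.smul_fst, Prod.smul_snd, Pi.smul_apply, RingHom.id_apply, Complex.real_smul, smul_eq_mul,
      Complex.ofReal_mul]
    ring

/-- the rigidity map for a family of pairs -/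
private noncomputable def rmap {W E : Type*} (q : W → ℂ) (a b : E → W) : (W → ℂ) →ₗ[ℝ] (E → ℝ) where
  toFun u := fun e => ((q (a e) - q (b e)) * (starRingEnd ℂ) (u (a e) - u (b e))).re
  map_add' u v := by
    funext e
    simp only [Pi.add_apply]
    rw [← Complex.add_re]
    congr 1
    rw [← mul_add, ← map_add]
    congr 2
    ring
  map_smul' c u := by
    funext e
    simp only [Pi.smul_apply, RingHom.id_apply, smul_eq_mul, Complex.real_smul]
    rw [← mul_sub, map_mul, Complex.conj_ofReal]
    rw [show (q (a e) - q (b e)) * ((c : ℂ) * (starRingEnd ℂ) (u (a e) - u (b e))) =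
      (c : ℂ) * ((q (a e) - q (b e)) * (starRingEnd ℂ) (u (a e) - u (b e))) by ring, Complex.re_ofReal_mul]

private theorem rmap_motion {W E : Type*} (q : W → ℂ) (a b : E → W) (p : ℂ × ℝ) : rmap q a b (motion q p) = 0 := by
  funext e
  show ((q (a e) - q (b e)) * (starRingEnd ℂ)
    ((p.1 + (p.2 : ℂ) * Complex.I * q (a e)) - (p.1 + (p.2 : ℂ) * Complex.I * q (b e)))).re = 0
  have h1 : (p.1 + (p.2 : ℂ) * Complex.I * q (a e)) - (p.1 + (p.2 : ℂ) * Complex.I * q (b e)) =
      (p.2 : ℂ) * Complex.I * (q (a e) - q (b e)) := by ring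
  rw [h1, map_mul, map_mul, Complex.conj_ofReal, Complex.conj_I]
  have h2 : (q (a e) - q (b e)) * ((p.2 : ℂ) * -Complex.I * (starRingEnd ℂ) (q (a e) - q (b e))) =
      (p.2 : ℂ) * -Complex.I * ((q (a e) - q (b e)) * (starRingEnd ℂ) (q (a e) - q (b e))) := by ring
  rw [h2, Complex.mul_conj]
  simp

theorem laman_of_rigid {V : Type*} [Fintype V] [DecidableEq V] (G : SimpleGraph V) (q : V → ℂ)
    (hq : ∀ u : V → ℂ, (∀ i j, G.Adj i j → ((q i - q j) * (starRingEnd ℂ) (u i - u j)).re = 0) →
      ∃ (a : ℂ) (b : ℝ), ∀ i, u i = a + (b : ℂ) * Complex.I * q i)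
    (hm : Nat.card G.edgeSet + 3 = 2 * Fintype.card V) (X : Finset V) (hX : 2 ≤ X.card) :
    Nat.card {d : G.Dart // d.fst ∈ X ∧ d.snd ∈ X} + 6 ≤ 4 * X.card := by
  classical
  -- representatives of the edges
  have hrep : ∀ e : G.edgeSet, ∃ p : V × V, s(p.1, p.2) = (e : Sym2 V) := by
    rintro ⟨e, he⟩
    induction e with
    | _ a b => exact ⟨(a, b), rfl⟩
  choose r hr using hrep
  have hadj : ∀ e : G.edgeSet, G.Adj (r e).1 (r e).2 := by
    intro e
    have h1 := e.2
    rw [← hr e] at h1
    exact h1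
  let R := rmap (E := G.edgeSet) q (fun e => (r e).1) (fun e => (r e).2)
  -- the kernel
  have hker : LinearMap.ker R ≤ LinearMap.range (motion q) := by
    intro u hu
    rw [LinearMap.mem_ker] at hu
    obtain ⟨a, b, hab⟩ := hq u (by
      intro i j hij
      have h1 := congrFun hu ⟨s(i, j), hij⟩
      have h2 := hr ⟨s(i, j), hij⟩
      have h3 : ((q (r ⟨s(i, j), hij⟩).1 - q (r ⟨s(i, j), hij⟩).2) *
        (starRingEnd ℂ) (u (r ⟨s(i, j), hij⟩).1 - u (r ⟨s(i, j), hij⟩).2)).re = 0 := h1
      rcases Sym2.eq_iff.1 h2 with ⟨h4, h5⟩ | ⟨h4, h5⟩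
      · rw [h4, h5] at h3
        exact h3
      · rw [h4, h5] at h3
        rw [← h3]
        congr 1
        rw [← neg_sub (q j) (q i), ← neg_sub (u j) (u i), map_neg, neg_mul_neg])
    exact ⟨(a, b), funext fun i => (hab i).symm⟩
  have hfin3 : Module.finrank ℝ (LinearMap.range (motion q)) ≤ 3 := by
    refine (LinearMap.finrank_range_le _).trans ?_
    rw [Module.finrank_prod, Complex.finrank_real_complex, Module.finrank_self]
  have hker3 : Module.finrank ℝ (LinearMap.ker R) ≤ 3 := (Submodule.finrank_mono hker).trans hfin3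
  have hdimV : Module.finrank ℝ (V → ℂ) = 2 * Fintype.card V := by
    rw [Module.finrank_pi_fintype, Finset.sum_const, Complex.finrank_real_complex, Finset.card_univ, smul_eq_mul, mul_comm]
  have hrank := LinearMap.finrank_range_add_finrank_ker R
  rw [hdimV] at hrank
  have hsurj : Function.Surjective R := by
    rw [← LinearMap.range_eq_top]
    apply Submodule.eq_top_of_finrank_eq
    have h1 : Module.finrank ℝ (G.edgeSet → ℝ) = Fintype.card G.edgeSet := Module.finrank_fintype_fun_eq_card ℝ
    have h2 : Module.finrank ℝ (LinearMap.range R) ≤ Module.finrank ℝ (G.edgeSet → ℝ) := Submodule.finrank_le _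
    rw [Nat.card_eq_fintype_card] at hm
    omega
  -- the edges inside `X`
  let EX := {e : G.edgeSet // (r e).1 ∈ X ∧ (r e).2 ∈ X}
  let RX := rmap (W := X) (E := EX) (fun i => q i) (fun e => ⟨(r e.1).1, e.2.1⟩) (fun e => ⟨(r e.1).2, e.2.2⟩)
  have hRX : Function.Surjective RX := by
    intro s
    obtain ⟨u, hu⟩ := hsurj (fun e => if h : (r e).1 ∈ X ∧ (r e).2 ∈ X then s ⟨e, h⟩ else 0)
    refine ⟨fun i => u i, funext fun e => ?_⟩
    have h1 := congrFun hu e.1
    rw [dif_pos e.2] at h1
    exact h1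
  -- the darts
  have hdart : Nat.card {d : G.Dart // d.fst ∈ X ∧ d.snd ∈ X} ≤ 2 * Fintype.card EX := by
    rw [Nat.card_eq_fintype_card]
    have hin : ∀ d : {d : G.Dart // d.fst ∈ X ∧ d.snd ∈ X}, ∃ e : G.edgeSet, ((e : Sym2 V) = s(d.1.fst, d.1.snd)) := fun d =>
      ⟨⟨s(d.1.fst, d.1.snd), d.1.adj⟩, rfl⟩
    choose ed hed using hin
    have hcase : ∀ d : {d : G.Dart // d.fst ∈ X ∧ d.snd ∈ X}, ((r (ed d)).1 = d.1.fst ∧ (r (ed d)).2 = d.1.snd) ∨
        ((r (ed d)).1 = d.1.snd ∧ (r (ed d)).2 = d.1.fst) := by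
      intro d
      have h1 := hr (ed d)
      rw [hed d] at h1
      exact Sym2.eq_iff.1 h1
    have hmem : ∀ d : {d : G.Dart // d.fst ∈ X ∧ d.snd ∈ X}, (r (ed d)).1 ∈ X ∧ (r (ed d)).2 ∈ X := by
      intro d
      rcases hcase d with ⟨h1, h2⟩ | ⟨h1, h2⟩
      · rw [h1, h2]; exact d.2
      · rw [h1, h2]; exact ⟨d.2.2, d.2.1⟩
    let φ : {d : G.Dart // d.fst ∈ X ∧ d.snd ∈ X} → EX × Bool := fun d =>
      (⟨ed d, hmem d⟩, decide ((r (ed d)).1 = d.1.fst))
    have hφ : Function.Injective φ := by
      intro d d' h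
      have h1 : ed d = ed d' := congrArg Subtype.val (congrArg Prod.fst h)
      have h2 : decide ((r (ed d)).1 = d.1.fst) = decide ((r (ed d')).1 = d'.1.fst) := congrArg Prod.snd h
      have h3 : ((r (ed d)).1 = d.1.fst) ↔ ((r (ed d')).1 = d'.1.fst) := decide_eq_decide.1 h2
      have hd : d.1.fst ≠ d.1.snd := d.1.adj.ne
      have hd' : d'.1.fst ≠ d'.1.snd := d'.1.adj.ne
      have h4 := hcase d
      have h5 := hcase d'
      rw [← h1] at h3 h5
      apply Subtype.ext
      have hfs : d.1.fst = d'.1.fst ∧ d.1.snd = d'.1.snd := by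
        rcases h4 with ⟨a1, a2⟩ | ⟨a1, a2⟩ <;> rcases h5 with ⟨b1, b2⟩ | ⟨b1, b2⟩
        · exact ⟨a1.symm.trans b1, a2.symm.trans b2⟩
        · exfalso
          have := h3.1 a1
          exact hd' (this.symm.trans b1)
        · exfalso
          have := h3.2 b1
          exact hd (this.symm.trans a1)
        · exact ⟨a2.symm.trans b2, a1.symm.trans b1⟩
      exact SimpleGraph.Dart.ext _ _ (Prod.ext hfs.1 hfs.2)
    have h6 := Fintype.card_le_of_injective φ hφ
    rw [Fintype.card_prod, Fintype.card_bool] at h6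
    omega
  -- the dimension count in `X`
  by_cases hE : IsEmpty EX
  · have h0 : Fintype.card EX = 0 := Fintype.card_eq_zero
    omega
  · rw [not_isEmpty_iff] at hE
    obtain ⟨e⟩ := hE
    have hne : q (r e.1).1 ≠ q (r e.1).2 := by
      intro h1
      obtain ⟨u, hu⟩ := hRX (fun _ => 1)
      have h2 := congrFun hu e
      have h3 : ((q (r e.1).1 - q (r e.1).2) * (starRingEnd ℂ) (u ⟨(r e.1).1, e.2.1⟩ - u ⟨(r e.1).2, e.2.2⟩)).re = 1 := h2
      rw [h1, sub_self, zero_mul, Complex.zero_re] at h3
      exact zero_ne_one h3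
    have hTinj : Function.Injective (motion (fun i : X => q i)) := by
      rw [injective_iff_map_eq_zero]
      rintro ⟨a, b⟩ h1
      have h2 : a + (b : ℂ) * Complex.I * q (r e.1).1 = 0 := congrFun h1 ⟨(r e.1).1, e.2.1⟩
      have h3 : a + (b : ℂ) * Complex.I * q (r e.1).2 = 0 := congrFun h1 ⟨(r e.1).2, e.2.2⟩
      have h4 : (b : ℂ) * (Complex.I * (q (r e.1).1 - q (r e.1).2)) = 0 := by linear_combination h2 - h3
      rcases mul_eq_zero.1 h4 with h5 | h5
      · have h6 : b = 0 := Complex.ofReal_eq_zero.1 h5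
        rw [h5] at h2
        simp only [zero_mul, add_zero] at h2
        rw [h2, h6]
        rfl
      · exfalso
        rcases mul_eq_zero.1 h5 with h6 | h6
        · exact Complex.I_ne_zero h6
        · exact hne (sub_eq_zero.1 h6)
    have hT3 : Module.finrank ℝ (LinearMap.range (motion (fun i : X => q i))) = 3 := by
      rw [LinearMap.finrank_range_of_inj hTinj, Module.finrank_prod, Complex.finrank_real_complex, Module.finrank_self]
    have hle : LinearMap.range (motion (fun i : X => q i)) ≤ LinearMap.ker RX := by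
      rintro _ ⟨p, rfl⟩
      rw [LinearMap.mem_ker]
      exact rmap_motion _ _ _ p
    have h7 := Submodule.finrank_mono hle
    have h8 := LinearMap.finrank_range_add_finrank_ker RX
    have h9 : Module.finrank ℝ (X → ℂ) = 2 * X.card := by
      rw [Module.finrank_pi_fintype, Finset.sum_const, Complex.finrank_real_complex, Finset.card_univ, smul_eq_mul,
        Fintype.card_coe, mul_comm]
    have h10 : Module.finrank ℝ (LinearMap.range RX) = Fintype.card EX := by
      rw [LinearMap.range_eq_top.2 hRX, finrank_top]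
      exact Module.finrank_fintype_fun_eq_card ℝ
    omega

end Pool.Agent.Helper37.CP
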