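import Pool.Agent.Helper37.CP.Graph
import Pool.Agent.Helper37.CP.Main
import Pool.Agent.Helper37.CP.AlgInd
import Pool.Agent.Helper37.CP.Rigid

/-!
# Project CP: translation from graphs with rotation systems to combinatorial maps, final theorem.
-/

set_option linter.unusedSectionVars false

namespace Pool.Agent.Helper37.CP

open CPG

noncomputable section

open Classical in
/-- the combinatorial map of a rotation system -/
def toCM {V : Type*} [Fintype V] {G : SimpleGraph V} (R : Rotation G) :
    CM V G.Dart (Quotient (Equiv.Perm.SameCycle.setoid R.face)) where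
  VS := Finset.univ
  DS := Finset.univ
  FS := Finset.univ
  t := fun d => d.fst
  al := fun d => d.symm
  nx := fun d => ⟨(d.fst, (R.next d.fst ⟨d.snd, d.adj⟩ : V)), (R.next d.fst ⟨d.snd, d.adj⟩).2⟩
  pv := fun d => ⟨(d.fst, ((R.next d.fst).symm ⟨d.snd, d.adj⟩ : V)), ((R.next d.fst).symm ⟨d.snd, d.adj⟩).2⟩
  fc := fun d => Quotient.mk _ d

variable {V : Type*} [Fintype V] {G : SimpleGraph V} (R : Rotation G)

theorem iterate_nx (d : G.Dart) (k : ℕ) :
    ((toCM R).nx^[k] d).fst = d.fst ∧
      ∀ (h : G.Adj d.fst ((toCM R).nx^[k] d).snd),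
        (⟨((toCM R).nx^[k] d).snd, h⟩ : G.neighborSet d.fst) = (⇑(R.next d.fst))^[k] ⟨d.snd, d.adj⟩ := by
  induction k with
  | zero => exact ⟨rfl, fun h => rfl⟩
  | succ k ih =>
    obtain ⟨h1, h2⟩ := ih
    rw [Function.iterate_succ_apply', Function.iterate_succ_apply']
    generalize hy : (toCM R).nx^[k] d = y at h1 h2
    obtain ⟨⟨y1, y2⟩, hadj⟩ := y
    simp only at h1 h2 hadj
    subst h1
    refine ⟨rfl, ?_⟩
    intro h
    rw [← h2 hadj]
    rfl

theorem toCM_ok (hR : R.IsPlane) [DecidableEq V] : (toCM R).Ok := by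
  classical
  constructor
  · intro d _
    exact Finset.mem_univ _
  · intro d _
    exact Finset.mem_univ _
  · intro d _
    exact SimpleGraph.Dart.symm_symm d
  · intro d _
    exact d.adj.ne'
  · intro d _ e _ h1 h2
    ext
    · exact h1
    · exact h2
  · intro d _
    exact Finset.mem_univ _
  · intro d _
    exact Finset.mem_univ _
  · intro d _
    ext
    · rfl
    · exact congrArg Subtype.val ((R.next d.fst).symm_apply_apply ⟨d.snd, d.adj⟩)
  · intro d _
    ext
    · rfl
    · exact congrArg Subtype.val ((R.next d.fst).apply_symm_apply ⟨d.snd, d.adj⟩)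
  · intro d _
    rfl
  · intro d _ e _ h
    obtain ⟨⟨e1, e2⟩, hadj⟩ := e
    simp only [toCM] at h
    simp only at hadj
    subst h
    obtain ⟨k, hk⟩ := R.single d.fst ⟨d.snd, d.adj⟩ ⟨e2, hadj⟩
    refine ⟨k, ?_⟩
    obtain ⟨h1, h2⟩ := iterate_nx R d k
    have h3 : G.Adj d.fst ((toCM R).nx^[k] d).snd := by
      have := ((toCM R).nx^[k] d).adj
      rwa [h1] at this
    have h4 := h2 h3
    rw [hk] at h4
    ext
    · exact h1
    · exact congrArg Subtype.val h4
  · intro d _
    exact Finset.mem_univ _
  · intro d _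
    have : (toCM R).pv ((toCM R).al d) = R.face d := rfl
    rw [this]
    apply Quotient.sound
    show R.face.SameCycle (R.face d) d
    exact Equiv.Perm.sameCycle_apply_left.2 (Equiv.Perm.SameCycle.refl _ _)
  · intro f _
    induction f using Quotient.inductionOn with
    | _ d => exact ⟨d, Finset.mem_univ _, rfl⟩
  · have h1 := hR.2
    unfold Rotation.numFaces at h1
    rw [Nat.card_eq_fintype_card, Nat.card_eq_fintype_card, Nat.card_eq_fintype_card] at h1
    have h2 := G.dart_card_eq_twice_card_edges
    have h3 : Fintype.card G.edgeSet = G.edgeFinset.card := (SimpleGraph.edgeFinset_card).symm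
    simp only [toCM, Finset.card_univ]
    rw [h3] at h1
    have h4 : Fintype.card G.Dart = 2 * G.edgeFinset.card := by
      convert h2
    rw [h4]
    have h5 : (Finset.univ : Finset (Quotient (Equiv.Perm.SameCycle.setoid R.face))).card =
        Fintype.card (Quotient (Equiv.Perm.SameCycle.setoid R.face)) := Finset.card_univ
    omega

theorem toCM_len [DecidableEq V] [DecidableEq G.Dart]
    [DecidableEq (Quotient (Equiv.Perm.SameCycle.setoid R.face))] (d : G.Dart) :
    (toCM R).len ((toCM R).fc d) = R.faceLength d := by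
  classical
  unfold CM.len Rotation.faceLength
  rw [Nat.card_eq_fintype_card, Fintype.card_subtype]
  apply congrArg Finset.card
  ext e
  have hiff : (toCM R).fc e = (toCM R).fc d ↔ R.face.SameCycle d e := by
    constructor
    · intro h
      exact (Quotient.exact h).symm
    · intro h
      exact Quotient.sound (s := Equiv.Perm.SameCycle.setoid R.face) h.symm
  rw [Finset.mem_filter, Finset.mem_filter, hiff]
  simp [toCM]

theorem toCM_lam [DecidableEq V] (hr : GenericallyRigid G)
    (hm : Nat.card G.edgeSet + 3 = 2 * Fintype.card V) : (toCM R).Lam := by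
  classical
  obtain ⟨q, hq⟩ := hr
  constructor
  · show 2 ≤ (Finset.univ : Finset V).card
    rw [Finset.card_univ]
    omega
  · have h2 := G.dart_card_eq_twice_card_edges
    have h3 : Fintype.card G.edgeSet = G.edgeFinset.card := (SimpleGraph.edgeFinset_card).symm
    rw [Nat.card_eq_fintype_card, h3] at hm
    simp only [toCM, Finset.card_univ]
    have h4 : Fintype.card G.Dart = 2 * G.edgeFinset.card := by
      convert h2
    rw [h4]
    omega
  · intro X _ hX
    have h1 := laman_of_rigid G q hq hm X hX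
    have h2 : (toCM R).dc X = Nat.card {d : G.Dart // d.fst ∈ X ∧ d.snd ∈ X} := by
      unfold CM.dc
      rw [Nat.card_eq_fintype_card, Fintype.card_subtype]
      rfl
    rw [h2]
    exact h1

theorem toCM_adm [DecidableEq V] [DecidableEq G.Dart]
    [DecidableEq (Quotient (Equiv.Perm.SameCycle.setoid R.face))] (hR : R.IsPlane) (hr : GenericallyRigid G)
    (hm : Nat.card G.edgeSet + 3 = 2 * Fintype.card V)
    (d1 d2 : G.Dart) (hd : ∀ d, 4 < R.faceLength d → R.face.SameCycle d1 d ∨ R.face.SameCycle d2 d) :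
    (toCM R).Adm {(toCM R).fc d1, (toCM R).fc d2} := by
  classical
  refine ⟨toCM_ok R hR, toCM_lam R hr hm, ?_, ?_, ?_, ?_⟩
  · intro f _
    exact Finset.mem_univ _
  · exact ⟨_, Finset.mem_insert_self _ _⟩
  · exact Finset.card_le_two
  · intro f _ hf
    induction f using Quotient.inductionOn with
    | _ d =>
      by_contra hcon
      have h1 : 4 < R.faceLength d := by
        rw [← toCM_len R d]
        push Not at hcon
        exact hcon
      rw [Finset.mem_insert, Finset.mem_singleton] at hf
      push Not at hf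
      rcases hd d h1 with h2 | h2
      · exact hf.1 (Quotient.sound h2.symm)
      · exact hf.2 (Quotient.sound h2.symm)

theorem toCM_ts [DecidableEq V] (p : V → ℂ) (v : V) :
    (toCM R).ts p v = ∑ᶠ x : G.neighborSet v, ccwAngle (p x - p v) (p (R.next v x) - p v) := by
  classical
  rw [finsum_eq_sum_of_fintype]
  unfold CM.ts
  symm
  refine Finset.sum_bij (fun x _ => (⟨(v, (x : V)), x.2⟩ : G.Dart)) ?_ ?_ ?_ ?_
  · intro x _
    unfold CM.star
    rw [Finset.mem_filter]
    exact ⟨Finset.mem_univ _, rfl⟩
  · intro x _ y _ hxy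
    have := congrArg (fun d : G.Dart => d.snd) hxy
    exact Subtype.ext this
  · intro d hd
    unfold CM.star at hd
    rw [Finset.mem_filter] at hd
    obtain ⟨⟨d1, d2⟩, hadj⟩ := d
    have h1 : d1 = v := hd.2
    subst h1
    exact ⟨⟨d2, hadj⟩, Finset.mem_univ _, rfl⟩
  · intro x _
    rfl

/-- **Generic radii for plane Laman graphs with at most two long faces.** -/
theorem generic_packing (hR : R.IsPlane) (hr : GenericallyRigid G)
    (hm : Nat.card G.edgeSet + 3 = 2 * Fintype.card V)
    (hd : ∃ d1 d2 : G.Dart, ∀ d, 4 < R.faceLength d → R.face.SameCycle d1 d ∨ R.face.SameCycle d2 d) :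
    ∃ (p : V → ℂ) (r : V → ℝ), IsPacking R p r ∧ AlgebraicIndependent ℚ r := by
  classical
  obtain ⟨d1, d2, hd⟩ := hd
  have ha := toCM_adm R hR hr hm d1 d2 hd
  obtain ⟨p, r, hp, hs, ho⟩ := main_induction _ (toCM R) _ ha rfl
  obtain ⟨η, hη, hnear⟩ := CM.near_radii ha.ok hp hs ho
  obtain ⟨r', hr', hai⟩ := exists_algInd r hη
  obtain ⟨p', hp', -, -⟩ := hnear r' (fun v _ => hr' v)
  refine ⟨p', r', ⟨?_, ?_, ?_⟩, hai⟩
  · intro v
    exact hp'.pos v (Finset.mem_univ _)
  · intro i j hij
    have := hp'.tan (⟨(i, j), hij⟩ : G.Dart) (Finset.mem_univ _)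
    have h2 : ‖p' i - p' j‖ = r' i + r' j := this
    rw [h2]
  · intro v
    rw [← toCM_ts]
    exact hp'.cyc v (Finset.mem_univ _)

end

end Pool.Agent.Helper37.CP
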