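import Pool.Agent.Helper37.CP.FoldOrb

/-!
# Block CP-FA: the folded map is admissible.

`M' = M.fold d1 d2 d3 d4`, `Free` holds for `A B C E`, the face `fc d1` is not special.
* `fold_ok`: collect FoldF and FoldOrb. `t_mem`: images of living vertices other than `C`. `loopless`: the head of `d` in `M'` is the
  image of the head (`fold_h`); equality with the image of the tail would give a dart from `A` to `C` or from `C` to `A` (`not_adj`,
  use `al`). `simple`: two darts of `M'` with the same image of tails and heads: if tails and heads agree in `M`, `simple`; if the tails are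
  `A` and `C` (heads then agree, since a dart at `A` does not have head `A` or `C`, same at `C`), `common` shows that the head is `B` or
  `E`; then, by `simple`, the dart `A → B` is `d1`, or the dart `C → E` is `d3`: both are not in `M'`. If the heads are `A` and `C`
  (tails agree), apply the same to the `al`'s: `B → C` is `d2`, `E → A` is `d4`. `fc_mem`: `mem4`. `fc_surj`: a face other than `fc d1`
  keeps its darts. `euler`: `VS` and `FS` lose one element, `DS` loses four (distinct) darts.
* `fold_len`: the darts of a face `f ≠ fc d1` are the same in `M'` (`mem4`).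
* `fold_lam`: `X ⊆ VS \ {C}`. If `A ∉ X`: the darts of `M'` inside `X` are darts of `M` inside `X`. If `A ∈ X`, put `X' = X ∪ {C}`:
  `dc' X = dc X' - (number of di with both ends in X') = dc X' - 2 |X' ∩ {B, E}|` (`d1, d2` if `B ∈ X`, `d3, d4` if `E ∈ X`), so the
  claim is `Free` for `X'`. `VS.card` goes down by one: `n ≥ 4` since `A, B, C, E` are distinct.
-/

set_option linter.unusedSectionVars false

namespace Pool.Agent.Helper37.CP

variable {V D F : Type*} [DecidableEq V] [DecidableEq D] [DecidableEq F] {M : CM V D F} {d1 d2 d3 d4 : D}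

/-- the identification map -/
private def gg (a c v : V) : V := if v = c then a else v

private theorem gg_eq {a c v w : V} (h : gg a c v = gg a c w) : v = w ∨ (v = c ∧ w = a) ∨ (v = a ∧ w = c) := by
  unfold gg at h
  by_cases h1 : v = c
  · by_cases h2 : w = c
    · left; rw [h1, h2]
    · rw [if_pos h1, if_neg h2] at h
      right; left; exact ⟨h1, h.symm⟩
  · by_cases h2 : w = c
    · rw [if_neg h1, if_pos h2] at h
      right; right; exact ⟨h, h2⟩
    · rw [if_neg h1, if_neg h2] at h
      left; exact h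

private theorem t_gg (d : D) : (M.fold d1 d2 d3 d4).t d = gg (M.t d1) (M.t d3) (M.t d) := rfl

private theorem h_gg (q : M.Quad d1 d2 d3 d4) (h : M.Ok) (hl : M.Lam) (h3 : 3 ≤ M.VS.card) {d : D}
    (hd : d ∈ (M.fold d1 d2 d3 d4).DS) : (M.fold d1 d2 d3 d4).t ((M.fold d1 d2 d3 d4).al d) =
      gg (M.t d1) (M.t d3) (M.t (M.al d)) := q.fold_h h hl h3 d hd

private theorem ac_free (q : M.Quad d1 d2 d3 d4) (h : M.Ok) (hl : M.Lam) (h3 : 3 ≤ M.VS.card)
    (hf : M.Free (M.t d1) (M.t d2) (M.t d3) (M.t d4)) {d : D} (hd : d ∈ M.DS)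
    (h1 : M.t d = M.t d1 ∨ M.t d = M.t d3) (h2 : M.t (M.al d) = M.t d1 ∨ M.t (M.al d) = M.t d3) : False := by
  rcases h1 with h1 | h1 <;> rcases h2 with h2 | h2
  · exact h.loopless d hd (h2.trans h1.symm)
  · exact hf.not_adj q h hl h3 d hd h1 h2
  · exact hf.not_adj q h hl h3 (M.al d) (h.al_mem d hd) h2 (by rw [h.t_al_al hd, h1])
  · exact h.loopless d hd (h2.trans h1.symm)

private theorem tails (q : M.Quad d1 d2 d3 d4) (h : M.Ok) (hl : M.Lam) (h3 : 3 ≤ M.VS.card)
    (hf : M.Free (M.t d1) (M.t d2) (M.t d3) (M.t d4)) {d e : D} (hd : d ∈ (M.fold d1 d2 d3 d4).DS)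
    (he : e ∈ (M.fold d1 d2 d3 d4).DS) (h1 : M.t d = M.t d1) (h2 : M.t e = M.t d3)
    (h4 : M.t (M.al d) = M.t (M.al e)) : False := by
  rw [fold_mem] at hd he
  rcases hf.common q h hl h3 d hd.1 e he.1 h1 h2 h4 with h5 | h5
  · exact hd.2.1 (h.simple d hd.1 d1 q.m1 h1 (by rw [h5, q.h1 h]))
  · exact he.2.2.2.1 (h.simple e he.1 d3 q.m3 h2 (by rw [← h4, h5, q.h3 h]))

private theorem heads (q : M.Quad d1 d2 d3 d4) (h : M.Ok) (hl : M.Lam) (h3 : 3 ≤ M.VS.card)
    (hf : M.Free (M.t d1) (M.t d2) (M.t d3) (M.t d4)) {d e : D} (hd : d ∈ (M.fold d1 d2 d3 d4).DS)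
    (he : e ∈ (M.fold d1 d2 d3 d4).DS) (h1 : M.t (M.al d) = M.t d1) (h2 : M.t (M.al e) = M.t d3)
    (h4 : M.t d = M.t e) : False := by
  rw [fold_mem] at hd he
  rcases hf.common q h hl h3 (M.al d) (h.al_mem d hd.1) (M.al e) (h.al_mem e he.1) h1 h2
    (by rw [h.t_al_al hd.1, h.t_al_al he.1, h4]) with h5 | h5
  · rw [h.t_al_al hd.1] at h5
    exact he.2.2.1 (h.simple e he.1 d2 q.m2 (by rw [← h4, h5]) (by rw [h2, q.h2 h]))
  · rw [h.t_al_al hd.1] at h5
    exact hd.2.2.2.2 (h.simple d hd.1 d4 q.m4 h5 (by rw [h1, q.h4 h]))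

private theorem card_ds (q : M.Quad d1 d2 d3 d4) (h : M.Ok) (hl : M.Lam) (h3 : 3 ≤ M.VS.card) :
    (M.fold d1 d2 d3 d4).DS.card + 4 = M.DS.card := by
  obtain ⟨ab, ac, ae, bc, be, ce⟩ := q.distinct h hl h3
  have hne : ∀ {x y : D}, M.t x ≠ M.t y → x ≠ y := fun {x y} hxy e => hxy (by rw [e])
  have hc : ({d1, d2, d3, d4} : Finset D).card = 4 := by
    rw [Finset.card_insert_of_notMem, Finset.card_insert_of_notMem, Finset.card_insert_of_notMem,
      Finset.card_singleton]
    · simp only [Finset.mem_singleton]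
      exact hne ce
    · simp only [Finset.mem_insert, Finset.mem_singleton, not_or]
      exact ⟨hne bc, hne be⟩
    · simp only [Finset.mem_insert, Finset.mem_singleton, not_or]
      exact ⟨hne ab, hne ac, hne ae⟩
  have hs : ({d1, d2, d3, d4} : Finset D) ⊆ M.DS := by
    intro x hx
    simp only [Finset.mem_insert, Finset.mem_singleton] at hx
    rcases hx with rfl | rfl | rfl | rfl
    · exact q.m1
    · exact q.m2
    · exact q.m3
    · exact q.m4
  have h1 := Finset.card_sdiff_add_card_eq_card hs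
  rw [hc] at h1
  exact h1

theorem CM.Quad.fold_card (q : M.Quad d1 d2 d3 d4) (h : M.Ok) :
    (M.fold d1 d2 d3 d4).VS.card + 1 = M.VS.card := by
  have h1 : (M.fold d1 d2 d3 d4).VS = M.VS.erase (M.t d3) := rfl
  rw [h1]
  exact Finset.card_erase_add_one (h.t_mem _ q.m3)

theorem CM.Quad.card_four (q : M.Quad d1 d2 d3 d4) (h : M.Ok) (hl : M.Lam) (h3 : 3 ≤ M.VS.card) : 4 ≤ M.VS.card := by
  obtain ⟨ab, ac, ae, bc, be, ce⟩ := q.distinct h hl h3
  have hc : ({M.t d1, M.t d2, M.t d3, M.t d4} : Finset V).card = 4 := by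
    rw [Finset.card_insert_of_notMem, Finset.card_insert_of_notMem, Finset.card_insert_of_notMem,
      Finset.card_singleton]
    · simp only [Finset.mem_singleton]
      exact ce
    · simp only [Finset.mem_insert, Finset.mem_singleton, not_or]
      exact ⟨bc, be⟩
    · simp only [Finset.mem_insert, Finset.mem_singleton, not_or]
      exact ⟨ab, ac, ae⟩
  rw [← hc]
  apply Finset.card_le_card
  intro v hv
  simp only [Finset.mem_insert, Finset.mem_singleton] at hv
  rcases hv with rfl | rfl | rfl | rfl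
  · exact h.t_mem _ q.m1
  · exact h.t_mem _ q.m2
  · exact h.t_mem _ q.m3
  · exact h.t_mem _ q.m4

theorem CM.Quad.fold_ok (q : M.Quad d1 d2 d3 d4) (h : M.Ok) (hl : M.Lam) (h3 : 3 ≤ M.VS.card)
    (hf : M.Free (M.t d1) (M.t d2) (M.t d3) (M.t d4)) : (M.fold d1 d2 d3 d4).Ok where
  t_mem := by
    intro d hd
    rw [fold_mem] at hd
    have hv : (M.fold d1 d2 d3 d4).VS = M.VS.erase (M.t d3) := rfl
    rw [hv, t_gg, Finset.mem_erase]
    unfold gg
    by_cases h1 : M.t d = M.t d3
    · rw [if_pos h1]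
      exact ⟨(q.distinct h hl h3).2.1, h.t_mem _ q.m1⟩
    · rw [if_neg h1]
      exact ⟨h1, h.t_mem _ hd.1⟩
  al_mem := q.fold_al_mem h hl h3
  al_al := q.fold_al_al h hl h3
  loopless := by
    intro d hd h1
    rw [h_gg q h hl h3 hd, t_gg] at h1
    rw [fold_mem] at hd
    rcases gg_eq h1 with h2 | ⟨h2, h4⟩ | ⟨h2, h4⟩
    · exact h.loopless d hd.1 h2
    · exact ac_free q h hl h3 hf hd.1 (Or.inl h4) (Or.inr h2)
    · exact ac_free q h hl h3 hf hd.1 (Or.inr h4) (Or.inl h2)
  simple := by
    intro d hd e he h1 h2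
    rw [t_gg, t_gg] at h1
    rw [h_gg q h hl h3 hd, h_gg q h hl h3 he] at h2
    have hd' := hd
    have he' := he
    rw [fold_mem] at hd' he'
    rcases gg_eq h1 with h4 | ⟨h4, h5⟩ | ⟨h4, h5⟩
    · rcases gg_eq h2 with h6 | ⟨h6, h7⟩ | ⟨h6, h7⟩
      · exact h.simple d hd'.1 e he'.1 h4 h6
      · exact (heads q h hl h3 hf he hd h7 h6 h4.symm).elim
      · exact (heads q h hl h3 hf hd he h6 h7 h4).elim
    · rcases gg_eq h2 with h6 | ⟨h6, h7⟩ | ⟨h6, h7⟩
      · exact (tails q h hl h3 hf he hd h5 h4 h6.symm).elim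
      · exact (ac_free q h hl h3 hf hd'.1 (Or.inr h4) (Or.inr h6)).elim
      · exact (ac_free q h hl h3 hf hd'.1 (Or.inr h4) (Or.inl h6)).elim
    · rcases gg_eq h2 with h6 | ⟨h6, h7⟩ | ⟨h6, h7⟩
      · exact (tails q h hl h3 hf hd he h4 h5 h6).elim
      · exact (ac_free q h hl h3 hf hd'.1 (Or.inl h4) (Or.inr h6)).elim
      · exact (ac_free q h hl h3 hf hd'.1 (Or.inl h4) (Or.inl h6)).elim
  nx_mem := q.fold_nx_mem h hl h3
  pv_mem := q.fold_pv_mem h hl h3
  pv_nx := q.fold_pv_nx h hl h3
  nx_pv := q.fold_nx_pv h hl h3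
  t_nx := q.fold_t_nx h hl h3
  orb := q.fold_orb h hl h3
  fc_mem := by
    intro d hd
    have hd' := hd
    rw [fold_mem] at hd'
    have hv : (M.fold d1 d2 d3 d4).FS = M.FS.erase (M.fc d1) := rfl
    have hw : (M.fold d1 d2 d3 d4).fc d = M.fc d := rfl
    rw [hv, hw, Finset.mem_erase]
    refine ⟨fun h1 => ?_, h.fc_mem d hd'.1⟩
    have h2 := (q.mem4 h hl h3 hd'.1).1 h1
    simp only [Finset.mem_insert, Finset.mem_singleton] at h2
    rcases h2 with h2 | h2 | h2 | h2
    · exact hd'.2.1 h2
    · exact hd'.2.2.1 h2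
    · exact hd'.2.2.2.1 h2
    · exact hd'.2.2.2.2 h2
  fc_ph := q.fold_fc_ph h hl h3
  fc_surj := by
    intro f hf1
    have hv : (M.fold d1 d2 d3 d4).FS = M.FS.erase (M.fc d1) := rfl
    rw [hv, Finset.mem_erase] at hf1
    obtain ⟨d, hd, rfl⟩ := h.fc_surj f hf1.2
    refine ⟨d, ?_, rfl⟩
    have h2 : d ∉ ({d1, d2, d3, d4} : Finset D) := fun h1 => hf1.1 ((q.mem4 h hl h3 hd).2 h1)
    simp only [Finset.mem_insert, Finset.mem_singleton, not_or] at h2
    rw [fold_mem]
    exact ⟨hd, h2⟩
  euler := by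
    have h1 := q.fold_card h
    have h2 := card_ds q h hl h3
    have hv : (M.fold d1 d2 d3 d4).FS = M.FS.erase (M.fc d1) := rfl
    have h4 := Finset.card_erase_add_one (h.fc_mem _ q.m1)
    rw [← hv] at h4
    have h5 := h.euler
    omega

theorem CM.Quad.fold_len (q : M.Quad d1 d2 d3 d4) (h : M.Ok) (hl : M.Lam) (h3 : 3 ≤ M.VS.card)
    {f : F} (hf : f ≠ M.fc d1) : (M.fold d1 d2 d3 d4).len f = M.len f := by
  unfold CM.len
  congr 1
  ext d
  rw [Finset.mem_filter, Finset.mem_filter, fold_mem]
  have hw : (M.fold d1 d2 d3 d4).fc d = M.fc d := rfl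
  rw [hw]
  constructor
  · rintro ⟨h1, h2⟩
    exact ⟨h1.1, h2⟩
  · rintro ⟨h1, h2⟩
    refine ⟨⟨h1, ?_⟩, h2⟩
    have h4 : d ∉ ({d1, d2, d3, d4} : Finset D) := fun h4 => hf (h2 ▸ (q.mem4 h hl h3 h1).2 h4)
    simp only [Finset.mem_insert, Finset.mem_singleton, not_or] at h4
    exact h4

private theorem spa_in (q : M.Quad d1 d2 d3 d4) (h : M.Ok) (hl : M.Lam) (h3 : 3 ≤ M.VS.card) {X : Finset V}
    (hA : M.t d1 ∈ X) :
    (M.fold d1 d2 d3 d4).dc X + 2 * ((insert (M.t d3) X) ∩ {M.t d2, M.t d4}).card ≤ M.dc (insert (M.t d3) X) := by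
  obtain ⟨ab, ac, ae, bc, be, ce⟩ := q.distinct h hl h3
  have hne : ∀ {x y : D}, M.t x ≠ M.t y → x ≠ y := fun {x y} hxy e => hxy (by rw [e])
  have hsub : ((M.fold d1 d2 d3 d4).DS.filter (fun d => (M.fold d1 d2 d3 d4).t d ∈ X ∧
      (M.fold d1 d2 d3 d4).t ((M.fold d1 d2 d3 d4).al d) ∈ X)) ⊆
      M.DS.filter (fun d => M.t d ∈ insert (M.t d3) X ∧ M.t (M.al d) ∈ insert (M.t d3) X) := by
    intro d hd
    rw [Finset.mem_filter] at hd
    obtain ⟨hd0, hd1, hd2⟩ := hd
    rw [t_gg] at hd1
    rw [h_gg q h hl h3 hd0] at hd2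
    rw [fold_mem] at hd0
    rw [Finset.mem_filter, Finset.mem_insert, Finset.mem_insert]
    have key : ∀ v : V, gg (M.t d1) (M.t d3) v ∈ X → v = M.t d3 ∨ v ∈ X := by
      intro v hv
      unfold gg at hv
      by_cases h1 : v = M.t d3
      · exact Or.inl h1
      · rw [if_neg h1] at hv
        exact Or.inr hv
    exact ⟨hd0.1, key _ hd1, key _ hd2⟩
  -- a set of removed darts inside
  have key : ∀ S : Finset D, S ⊆ {d1, d2, d3, d4} →
      (∀ x ∈ S, M.t x ∈ insert (M.t d3) X ∧ M.t (M.al x) ∈ insert (M.t d3) X) →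
      (M.fold d1 d2 d3 d4).dc X + S.card ≤ M.dc (insert (M.t d3) X) := by
    intro S hS hS2
    unfold CM.dc
    rw [← Finset.card_union_of_disjoint]
    · apply Finset.card_le_card
      apply Finset.union_subset hsub
      intro x hx
      rw [Finset.mem_filter]
      refine ⟨?_, hS2 x hx⟩
      have h1 := hS hx
      simp only [Finset.mem_insert, Finset.mem_singleton] at h1
      rcases h1 with rfl | rfl | rfl | rfl
      · exact q.m1
      · exact q.m2
      · exact q.m3
      · exact q.m4
    · rw [Finset.disjoint_left]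
      intro x hx hxS
      rw [Finset.mem_filter, fold_mem] at hx
      have h1 := hS hxS
      simp only [Finset.mem_insert, Finset.mem_singleton] at h1
      rcases h1 with h1 | h1 | h1 | h1
      · exact hx.1.2.1 h1
      · exact hx.1.2.2.1 h1
      · exact hx.1.2.2.2.1 h1
      · exact hx.1.2.2.2.2 h1
  have hA' : M.t d1 ∈ insert (M.t d3) X := Finset.mem_insert_of_mem hA
  have hC' : M.t d3 ∈ insert (M.t d3) X := Finset.mem_insert_self _ _
  have g1 := q.h1 h
  have g2 := q.h2 h
  have g3 := q.h3 h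
  have g4 := q.h4 h
  by_cases hB : M.t d2 ∈ insert (M.t d3) X
  · by_cases hE : M.t d4 ∈ insert (M.t d3) X
    · have h5 : (insert (M.t d3) X) ∩ {M.t d2, M.t d4} = {M.t d2, M.t d4} := by
        rw [Finset.inter_eq_right]
        intro v hv
        simp only [Finset.mem_insert, Finset.mem_singleton] at hv
        rcases hv with rfl | rfl
        · exact hB
        · exact hE
      rw [h5, Finset.card_pair be]
      have h6 := key {d1, d2, d3, d4} (Finset.Subset.refl _) (by
        intro x hx
        simp only [Finset.mem_insert, Finset.mem_singleton] at hx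
        rcases hx with rfl | rfl | rfl | rfl
        · exact ⟨hA', by rw [g1]; exact hB⟩
        · exact ⟨hB, by rw [g2]; exact hC'⟩
        · exact ⟨hC', by rw [g3]; exact hE⟩
        · exact ⟨hE, by rw [g4]; exact hA'⟩)
      have hc : ({d1, d2, d3, d4} : Finset D).card = 4 := by
        rw [Finset.card_insert_of_notMem, Finset.card_insert_of_notMem, Finset.card_insert_of_notMem,
          Finset.card_singleton]
        · simp only [Finset.mem_singleton]
          exact hne ce
        · simp only [Finset.mem_insert, Finset.mem_singleton, not_or]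
          exact ⟨hne bc, hne be⟩
        · simp only [Finset.mem_insert, Finset.mem_singleton, not_or]
          exact ⟨hne ab, hne ac, hne ae⟩
      rw [hc] at h6
      exact h6
    · have h5 : (insert (M.t d3) X) ∩ {M.t d2, M.t d4} = {M.t d2} := by
        ext v
        rw [Finset.mem_inter]
        simp only [Finset.mem_insert, Finset.mem_singleton]
        constructor
        · rintro ⟨h7, h8 | h8⟩
          · exact h8
          · rw [h8] at h7
            exact absurd (by rw [Finset.mem_insert]; exact h7) hE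
        · intro h7
          rw [Finset.mem_insert] at hB
          rw [h7]
          exact ⟨hB, Or.inl rfl⟩
      rw [h5, Finset.card_singleton]
      have h6 := key {d1, d2} (by
        intro x hx
        simp only [Finset.mem_insert, Finset.mem_singleton] at hx ⊢
        rcases hx with rfl | rfl
        · exact Or.inl rfl
        · exact Or.inr (Or.inl rfl)) (by
        intro x hx
        simp only [Finset.mem_insert, Finset.mem_singleton] at hx
        rcases hx with rfl | rfl
        · exact ⟨hA', by rw [g1]; exact hB⟩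
        · exact ⟨hB, by rw [g2]; exact hC'⟩)
      rw [Finset.card_pair (hne ab)] at h6
      exact h6
  · by_cases hE : M.t d4 ∈ insert (M.t d3) X
    · have h5 : (insert (M.t d3) X) ∩ {M.t d2, M.t d4} = {M.t d4} := by
        ext v
        rw [Finset.mem_inter]
        simp only [Finset.mem_insert, Finset.mem_singleton]
        constructor
        · rintro ⟨h7, h8 | h8⟩
          · rw [h8] at h7
            exact absurd (by rw [Finset.mem_insert]; exact h7) hB
          · exact h8
        · intro h7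
          rw [Finset.mem_insert] at hE
          rw [h7]
          exact ⟨hE, Or.inr rfl⟩
      rw [h5, Finset.card_singleton]
      have h6 := key {d3, d4} (by
        intro x hx
        simp only [Finset.mem_insert, Finset.mem_singleton] at hx ⊢
        rcases hx with rfl | rfl
        · exact Or.inr (Or.inr (Or.inl rfl))
        · exact Or.inr (Or.inr (Or.inr rfl))) (by
        intro x hx
        simp only [Finset.mem_insert, Finset.mem_singleton] at hx
        rcases hx with rfl | rfl
        · exact ⟨hC', by rw [g3]; exact hE⟩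
        · exact ⟨hE, by rw [g4]; exact hA'⟩)
      rw [Finset.card_pair (hne ce)] at h6
      exact h6
    · have h5 : (insert (M.t d3) X) ∩ {M.t d2, M.t d4} = ∅ := by
        rw [Finset.eq_empty_iff_forall_notMem]
        intro v hv
        rw [Finset.mem_inter] at hv
        simp only [Finset.mem_insert, Finset.mem_singleton] at hv
        obtain ⟨h7, h8 | h8⟩ := hv
        · rw [h8] at h7
          exact absurd (by rw [Finset.mem_insert]; exact h7) hB
        · rw [h8] at h7
          exact absurd (by rw [Finset.mem_insert]; exact h7) hE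
      rw [h5, Finset.card_empty]
      have h6 := key ∅ (Finset.empty_subset _) (by intro x hx; exact absurd hx (Finset.notMem_empty _))
      rw [Finset.card_empty] at h6
      exact h6

theorem CM.Quad.fold_lam (q : M.Quad d1 d2 d3 d4) (h : M.Ok) (hl : M.Lam) (h3 : 3 ≤ M.VS.card)
    (hf : M.Free (M.t d1) (M.t d2) (M.t d3) (M.t d4)) : (M.fold d1 d2 d3 d4).Lam where
  two := by
    have h1 := q.fold_card h
    have h2 := q.card_four h hl h3
    omega
  tot := by
    have h1 := q.fold_card h
    have h2 := card_ds q h hl h3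
    have h4 := hl.tot
    omega
  spa := by
    intro X hX hX2
    have hv : (M.fold d1 d2 d3 d4).VS = M.VS.erase (M.t d3) := rfl
    rw [hv] at hX
    have hXV : X ⊆ M.VS := fun v hv => Finset.mem_of_mem_erase (hX hv)
    have hCX : M.t d3 ∉ X := fun h1 => (Finset.mem_erase.1 (hX h1)).1 rfl
    by_cases hA : M.t d1 ∈ X
    · have h1 := spa_in q h hl h3 hA
      have hc : (insert (M.t d3) X).card = X.card + 1 := Finset.card_insert_of_notMem hCX
      have h2 := hf (insert (M.t d3) X) (by
        intro v hv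
        rw [Finset.mem_insert] at hv
        rcases hv with rfl | hv
        · exact h.t_mem _ q.m3
        · exact hXV hv) (Finset.mem_insert_of_mem hA) (Finset.mem_insert_self _ _) (by rw [hc]; omega)
      rw [hc] at h2
      omega
    · have h1 : (M.fold d1 d2 d3 d4).dc X ≤ M.dc X := by
        unfold CM.dc
        apply Finset.card_le_card
        intro d hd
        rw [Finset.mem_filter] at hd
        obtain ⟨hd0, hd1, hd2⟩ := hd
        rw [t_gg] at hd1
        rw [h_gg q h hl h3 hd0] at hd2
        rw [fold_mem] at hd0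
        rw [Finset.mem_filter]
        have key : ∀ v : V, gg (M.t d1) (M.t d3) v ∈ X → v ∈ X := by
          intro v hv
          unfold gg at hv
          by_cases h1 : v = M.t d3
          · rw [if_pos h1] at hv
            exact absurd hv hA
          · rw [if_neg h1] at hv
            exact hv
        exact ⟨hd0.1, key _ hd1, key _ hd2⟩
      have h2 := hl.spa X hXV hX2
      omega

theorem CM.Quad.fold_adm (q : M.Quad d1 d2 d3 d4) {sp : Finset F} (ha : M.Adm sp) (h3 : 3 ≤ M.VS.card)
    (hsp : M.fc d1 ∉ sp) (hf : M.Free (M.t d1) (M.t d2) (M.t d3) (M.t d4)) : (M.fold d1 d2 d3 d4).Adm sp where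
  ok := q.fold_ok ha.ok ha.lam h3 hf
  lam := q.fold_lam ha.ok ha.lam h3 hf
  sp_sub := by
    intro f hfs
    have hv : (M.fold d1 d2 d3 d4).FS = M.FS.erase (M.fc d1) := rfl
    rw [hv, Finset.mem_erase]
    exact ⟨fun h1 => hsp (h1 ▸ hfs), ha.sp_sub hfs⟩
  sp_ne := ha.sp_ne
  sp_card := ha.sp_card
  len4 := by
    intro f hfs hf2
    have hv : (M.fold d1 d2 d3 d4).FS = M.FS.erase (M.fc d1) := rfl
    rw [hv, Finset.mem_erase] at hfs
    rw [q.fold_len ha.ok ha.lam h3 hfs.1]
    exact ha.len4 f hfs.2 hf2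

end Pool.Agent.Helper37.CP
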