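import Pool.Agent.Helper37.CP.QuadF

/-!
# Block CP-FF: the functions of the folded map.

`q : Quad d1 d2 d3 d4`, `hf : Free ...`, `M' = M.fold d1 d2 d3 d4` (see Defs; `A = t d1`, `B = t d2`, `C = t d3`, `E = t d4`; `C` is
identified with `A`, the darts `di` disappear, `al d1 ↔ al d2`, `al d3 ↔ al d4`). All statements are by unfolding `CM.fold` and case
distinction, with the facts of QuadF (`nx1 .. nx4`: `nx d1 = al d4`, `nx d2 = al d1`, `nx d3 = al d2`, `nx d4 = al d3`; the `al di` are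
distinct and not among the `di`; `mem4`, `distinct`).
`h_fold`: the head of `d` in `M'` is the image of its head in `M` (for `d = al d1 : B → A`, `al' d = al d2 : C → B` and `t' (al d2) = A`).
`pv_nx`, `nx_pv`: for `d` with `nx d = d1`: `nx' d = nx d3 = al d2` and `pv' (al d2) = pv d1 = d`, etc.; for the other darts
`nx' d = nx d`, which is none of the `al di` (as `pv (al d2) = d3` etc.).
-/

set_option linter.unusedSectionVars false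

namespace Pool.Agent.Helper37.CP

variable {V D F : Type*} [DecidableEq V] [DecidableEq D] [DecidableEq F] {M : CM V D F} {d1 d2 d3 d4 : D}

private structure Fct92 (M : CM V D F) (d1 d2 d3 d4 : D) : Prop where
  m1 : d1 ∈ M.DS
  m2 : d2 ∈ M.DS
  m3 : d3 ∈ M.DS
  m4 : d4 ∈ M.DS
  a1 : M.al d1 ∈ M.DS
  a2 : M.al d2 ∈ M.DS
  a3 : M.al d3 ∈ M.DS
  a4 : M.al d4 ∈ M.DS
  n1 : M.nx d1 = M.al d4
  n2 : M.nx d2 = M.al d1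
  n3 : M.nx d3 = M.al d2
  n4 : M.nx d4 = M.al d3
  h1 : M.t (M.al d1) = M.t d2
  h2 : M.t (M.al d2) = M.t d3
  h3 : M.t (M.al d3) = M.t d4
  h4 : M.t (M.al d4) = M.t d1
  t12 : M.t d1 ≠ M.t d2
  t13 : M.t d1 ≠ M.t d3
  t14 : M.t d1 ≠ M.t d4
  t23 : M.t d2 ≠ M.t d3
  t24 : M.t d2 ≠ M.t d4
  t34 : M.t d3 ≠ M.t d4
  c12 : M.al d1 ≠ M.al d2
  c13 : M.al d1 ≠ M.al d3
  c14 : M.al d1 ≠ M.al d4
  c23 : M.al d2 ≠ M.al d3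
  c24 : M.al d2 ≠ M.al d4
  c34 : M.al d3 ≠ M.al d4
  e11 : M.al d1 ≠ d1
  e12 : M.al d1 ≠ d2
  e13 : M.al d1 ≠ d3
  e14 : M.al d1 ≠ d4
  e21 : M.al d2 ≠ d1
  e22 : M.al d2 ≠ d2
  e23 : M.al d2 ≠ d3
  e24 : M.al d2 ≠ d4
  e31 : M.al d3 ≠ d1
  e32 : M.al d3 ≠ d2
  e33 : M.al d3 ≠ d3
  e34 : M.al d3 ≠ d4
  e41 : M.al d4 ≠ d1
  e42 : M.al d4 ≠ d2
  e43 : M.al d4 ≠ d3
  e44 : M.al d4 ≠ d4

private theorem fct92 (q : M.Quad d1 d2 d3 d4) (h : M.Ok) (hl : M.Lam) (h3 : 3 ≤ M.VS.card) : Fct92 M d1 d2 d3 d4 := by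
  obtain ⟨t12, t13, t14, t23, t24, t34⟩ := q.distinct h hl h3
  obtain ⟨b1, b2, b3, b4⟩ := q.al_not_mem h hl h3
  simp only [Finset.mem_insert, Finset.mem_singleton, not_or] at b1 b2 b3 b4
  have g1 := q.h1 h
  have g2 := q.h2 h
  have g3 := q.h3 h
  have g4 := q.h4 h
  have c : ∀ {x y : D}, x ∈ M.DS → y ∈ M.DS → M.t x ≠ M.t y → M.al x ≠ M.al y := by
    intro x y hx hy hxy h1
    exact hxy (by rw [h.al_inj hx hy h1])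
  exact { m1 := q.m1, m2 := q.m2, m3 := q.m3, m4 := q.m4,
          a1 := h.al_mem _ q.m1, a2 := h.al_mem _ q.m2, a3 := h.al_mem _ q.m3, a4 := h.al_mem _ q.m4,
          n1 := q.nx1 h, n2 := q.nx2 h, n3 := q.nx3 h, n4 := q.nx4 h,
          h1 := g1, h2 := g2, h3 := g3, h4 := g4,
          t12 := t12, t13 := t13, t14 := t14, t23 := t23, t24 := t24, t34 := t34,
          c12 := c q.m1 q.m2 t12, c13 := c q.m1 q.m3 t13, c14 := c q.m1 q.m4 t14,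
          c23 := c q.m2 q.m3 t23, c24 := c q.m2 q.m4 t24, c34 := c q.m3 q.m4 t34,
          e11 := b1.1, e12 := b1.2.1, e13 := b1.2.2.1, e14 := b1.2.2.2,
          e21 := b2.1, e22 := b2.2.1, e23 := b2.2.2.1, e24 := b2.2.2.2,
          e31 := b3.1, e32 := b3.2.1, e33 := b3.2.2.1, e34 := b3.2.2.2,
          e41 := b4.1, e42 := b4.2.1, e43 := b4.2.2.1, e44 := b4.2.2.2 }

theorem fold_mem {d : D} : d ∈ (M.fold d1 d2 d3 d4).DS ↔ d ∈ M.DS ∧ d ≠ d1 ∧ d ≠ d2 ∧ d ≠ d3 ∧ d ≠ d4 := by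
  unfold CM.fold
  simp only [Finset.mem_sdiff, Finset.mem_insert, Finset.mem_singleton, not_or]

private theorem al92 (f : Fct92 M d1 d2 d3 d4) (d : D) :
    (d = M.al d1 ∧ (M.fold d1 d2 d3 d4).al d = M.al d2) ∨ (d = M.al d2 ∧ (M.fold d1 d2 d3 d4).al d = M.al d1) ∨
    (d = M.al d3 ∧ (M.fold d1 d2 d3 d4).al d = M.al d4) ∨ (d = M.al d4 ∧ (M.fold d1 d2 d3 d4).al d = M.al d3) ∨
    ((d ≠ M.al d1 ∧ d ≠ M.al d2 ∧ d ≠ M.al d3 ∧ d ≠ M.al d4) ∧ (M.fold d1 d2 d3 d4).al d = M.al d) := by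
  unfold CM.fold
  by_cases x1 : d = M.al d1
  · left
    exact ⟨x1, by simp only [x1, if_true]⟩
  by_cases x2 : d = M.al d2
  · right; left
    exact ⟨x2, by simp only [x2, f.c12.symm, if_true, if_false]⟩
  by_cases x3 : d = M.al d3
  · right; right; left
    exact ⟨x3, by simp only [x3, f.c13.symm, f.c23.symm, if_true, if_false]⟩
  by_cases x4 : d = M.al d4
  · right; right; right; left
    exact ⟨x4, by simp only [x4, f.c14.symm, f.c24.symm, f.c34.symm, if_true, if_false]⟩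
  right; right; right; right
  exact ⟨⟨x1, x2, x3, x4⟩, by simp only [x1, x2, x3, x4, if_false]⟩

private theorem pv92 (f : Fct92 M d1 d2 d3 d4) (d : D) :
    (d = M.al d1 ∧ (M.fold d1 d2 d3 d4).pv d = M.pv d2) ∨ (d = M.al d2 ∧ (M.fold d1 d2 d3 d4).pv d = M.pv d1) ∨
    (d = M.al d3 ∧ (M.fold d1 d2 d3 d4).pv d = M.pv d4) ∨ (d = M.al d4 ∧ (M.fold d1 d2 d3 d4).pv d = M.pv d3) ∨
    ((d ≠ M.al d1 ∧ d ≠ M.al d2 ∧ d ≠ M.al d3 ∧ d ≠ M.al d4) ∧ (M.fold d1 d2 d3 d4).pv d = M.pv d) := by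
  unfold CM.fold
  by_cases x1 : d = M.al d1
  · left
    exact ⟨x1, by simp only [x1, f.c12, if_true, if_false]⟩
  by_cases x2 : d = M.al d2
  · right; left
    exact ⟨x2, by simp only [x2, if_true]⟩
  by_cases x3 : d = M.al d3
  · right; right; left
    exact ⟨x3, by simp only [x3, f.c13.symm, f.c23.symm, f.c34, if_true, if_false]⟩
  by_cases x4 : d = M.al d4
  · right; right; right; left
    exact ⟨x4, by simp only [x4, f.c14.symm, f.c24.symm, if_true, if_false]⟩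
  right; right; right; right
  exact ⟨⟨x1, x2, x3, x4⟩, by simp only [x1, x2, x3, x4, if_false]⟩

private theorem di92 (f : Fct92 M d1 d2 d3 d4) : d1 ≠ d2 ∧ d1 ≠ d3 ∧ d1 ≠ d4 ∧ d2 ≠ d3 ∧ d2 ≠ d4 ∧ d3 ≠ d4 :=
  ⟨fun e => f.t12 (by rw [e]), fun e => f.t13 (by rw [e]), fun e => f.t14 (by rw [e]), fun e => f.t23 (by rw [e]),
    fun e => f.t24 (by rw [e]), fun e => f.t34 (by rw [e])⟩

private theorem nx92 (f : Fct92 M d1 d2 d3 d4) (d : D) :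
    (M.nx d = d1 ∧ (M.fold d1 d2 d3 d4).nx d = M.al d2) ∨ (M.nx d = d2 ∧ (M.fold d1 d2 d3 d4).nx d = M.al d1) ∨
    (M.nx d = d3 ∧ (M.fold d1 d2 d3 d4).nx d = M.al d4) ∨ (M.nx d = d4 ∧ (M.fold d1 d2 d3 d4).nx d = M.al d3) ∨
    ((M.nx d ≠ d1 ∧ M.nx d ≠ d2 ∧ M.nx d ≠ d3 ∧ M.nx d ≠ d4) ∧ (M.fold d1 d2 d3 d4).nx d = M.nx d) := by
  obtain ⟨k12, k13, k14, k23, k24, k34⟩ := di92 f
  unfold CM.fold
  by_cases x1 : M.nx d = d1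
  · left
    exact ⟨x1, by simp only [x1, f.n3, if_true]⟩
  by_cases x2 : M.nx d = d2
  · right; left
    exact ⟨x2, by simp only [x2, f.n2, k12.symm, if_true, if_false]⟩
  by_cases x3 : M.nx d = d3
  · right; right; left
    exact ⟨x3, by simp only [x3, f.n1, k13.symm, k23.symm, if_true, if_false]⟩
  by_cases x4 : M.nx d = d4
  · right; right; right; left
    exact ⟨x4, by simp only [x4, f.n4, k14.symm, k24.symm, k34.symm, if_true, if_false]⟩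
  right; right; right; right
  exact ⟨⟨x1, x2, x3, x4⟩, by simp only [x1, x2, x3, x4, if_false]⟩

private theorem t92 (d : D) : (M.fold d1 d2 d3 d4).t d = if M.t d = M.t d3 then M.t d1 else M.t d := rfl

theorem CM.Quad.fold_al_mem (q : M.Quad d1 d2 d3 d4) (h : M.Ok) (hl : M.Lam) (h3 : 3 ≤ M.VS.card) :
    ∀ d ∈ (M.fold d1 d2 d3 d4).DS, (M.fold d1 d2 d3 d4).al d ∈ (M.fold d1 d2 d3 d4).DS := by
  intro d hd
  have f := fct92 q h hl h3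
  rw [fold_mem] at hd ⊢
  obtain ⟨hd0, y1, y2, y3, y4⟩ := hd
  rcases al92 f d with ⟨_, e⟩ | ⟨_, e⟩ | ⟨_, e⟩ | ⟨_, e⟩ | ⟨⟨w1, w2, w3, w4⟩, e⟩
  · rw [e]; exact ⟨f.a2, f.e21, f.e22, f.e23, f.e24⟩
  · rw [e]; exact ⟨f.a1, f.e11, f.e12, f.e13, f.e14⟩
  · rw [e]; exact ⟨f.a4, f.e41, f.e42, f.e43, f.e44⟩
  · rw [e]; exact ⟨f.a3, f.e31, f.e32, f.e33, f.e34⟩
  · rw [e]
    exact ⟨h.al_mem d hd0, fun e1 => w1 ((h.al_eq_iff hd0 f.m1).1 e1), fun e1 => w2 ((h.al_eq_iff hd0 f.m2).1 e1),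
      fun e1 => w3 ((h.al_eq_iff hd0 f.m3).1 e1), fun e1 => w4 ((h.al_eq_iff hd0 f.m4).1 e1)⟩

theorem CM.Quad.fold_al_al (q : M.Quad d1 d2 d3 d4) (h : M.Ok) (hl : M.Lam) (h3 : 3 ≤ M.VS.card) :
    ∀ d ∈ (M.fold d1 d2 d3 d4).DS, (M.fold d1 d2 d3 d4).al ((M.fold d1 d2 d3 d4).al d) = d := by
  intro d hd
  have f := fct92 q h hl h3
  rw [fold_mem] at hd
  obtain ⟨hd0, y1, y2, y3, y4⟩ := hd
  rcases al92 f d with ⟨w, e⟩ | ⟨w, e⟩ | ⟨w, e⟩ | ⟨w, e⟩ | ⟨⟨w1, w2, w3, w4⟩, e⟩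
  · rw [e]
    rcases al92 f (M.al d2) with ⟨v, _⟩ | ⟨_, g⟩ | ⟨v, _⟩ | ⟨v, _⟩ | ⟨⟨_, v, _, _⟩, _⟩
    · exact absurd v.symm f.c12
    · rw [g, w]
    · exact absurd v f.c23
    · exact absurd v f.c24
    · exact absurd rfl v
  · rw [e]
    rcases al92 f (M.al d1) with ⟨_, g⟩ | ⟨v, _⟩ | ⟨v, _⟩ | ⟨v, _⟩ | ⟨⟨v, _, _, _⟩, _⟩
    · rw [g, w]
    · exact absurd v f.c12
    · exact absurd v f.c13
    · exact absurd v f.c14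
    · exact absurd rfl v
  · rw [e]
    rcases al92 f (M.al d4) with ⟨v, _⟩ | ⟨v, _⟩ | ⟨v, _⟩ | ⟨_, g⟩ | ⟨⟨_, _, _, v⟩, _⟩
    · exact absurd v.symm f.c14
    · exact absurd v.symm f.c24
    · exact absurd v.symm f.c34
    · rw [g, w]
    · exact absurd rfl v
  · rw [e]
    rcases al92 f (M.al d3) with ⟨v, _⟩ | ⟨v, _⟩ | ⟨_, g⟩ | ⟨v, _⟩ | ⟨⟨_, _, v, _⟩, _⟩
    · exact absurd v.symm f.c13
    · exact absurd v.symm f.c23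
    · rw [g, w]
    · exact absurd v f.c34
    · exact absurd rfl v
  · rw [e]
    rcases al92 f (M.al d) with ⟨v, _⟩ | ⟨v, _⟩ | ⟨v, _⟩ | ⟨v, _⟩ | ⟨_, g⟩
    · exact absurd (h.al_inj hd0 f.m1 v) y1
    · exact absurd (h.al_inj hd0 f.m2 v) y2
    · exact absurd (h.al_inj hd0 f.m3 v) y3
    · exact absurd (h.al_inj hd0 f.m4 v) y4
    · rw [g, h.al_al d hd0]

theorem CM.Quad.fold_h (q : M.Quad d1 d2 d3 d4) (h : M.Ok) (hl : M.Lam) (h3 : 3 ≤ M.VS.card) :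
    ∀ d ∈ (M.fold d1 d2 d3 d4).DS, (M.fold d1 d2 d3 d4).t ((M.fold d1 d2 d3 d4).al d) =
      if M.t (M.al d) = M.t d3 then M.t d1 else M.t (M.al d) := by
  intro d hd
  have f := fct92 q h hl h3
  rw [t92]
  rcases al92 f d with ⟨w, e⟩ | ⟨w, e⟩ | ⟨w, e⟩ | ⟨w, e⟩ | ⟨_, e⟩
  · rw [e, w, h.al_al _ f.m1, f.h2, if_pos rfl, if_neg f.t13]
  · rw [e, w, h.al_al _ f.m2, f.h1]
  · rw [e, w, h.al_al _ f.m3, f.h4, if_pos rfl, if_neg f.t13]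
  · rw [e, w, h.al_al _ f.m4, f.h3]
  · rw [e]

theorem CM.Quad.fold_nx_mem (q : M.Quad d1 d2 d3 d4) (h : M.Ok) (hl : M.Lam) (h3 : 3 ≤ M.VS.card) :
    ∀ d ∈ (M.fold d1 d2 d3 d4).DS, (M.fold d1 d2 d3 d4).nx d ∈ (M.fold d1 d2 d3 d4).DS := by
  intro d hd
  have f := fct92 q h hl h3
  rw [fold_mem] at hd ⊢
  rcases nx92 f d with ⟨_, e⟩ | ⟨_, e⟩ | ⟨_, e⟩ | ⟨_, e⟩ | ⟨⟨w1, w2, w3, w4⟩, e⟩
  · rw [e]; exact ⟨f.a2, f.e21, f.e22, f.e23, f.e24⟩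
  · rw [e]; exact ⟨f.a1, f.e11, f.e12, f.e13, f.e14⟩
  · rw [e]; exact ⟨f.a4, f.e41, f.e42, f.e43, f.e44⟩
  · rw [e]; exact ⟨f.a3, f.e31, f.e32, f.e33, f.e34⟩
  · rw [e]
    exact ⟨h.nx_mem d hd.1, w1, w2, w3, w4⟩

theorem CM.Quad.fold_pv_mem (q : M.Quad d1 d2 d3 d4) (h : M.Ok) (hl : M.Lam) (h3 : 3 ≤ M.VS.card) :
    ∀ d ∈ (M.fold d1 d2 d3 d4).DS, (M.fold d1 d2 d3 d4).pv d ∈ (M.fold d1 d2 d3 d4).DS := by
  intro d hd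
  have f := fct92 q h hl h3
  rw [fold_mem] at hd ⊢
  have key : ∀ x ∈ M.DS, x ≠ M.al d1 → x ≠ M.al d2 → x ≠ M.al d3 → x ≠ M.al d4 →
      M.pv x ∈ M.DS ∧ M.pv x ≠ d1 ∧ M.pv x ≠ d2 ∧ M.pv x ≠ d3 ∧ M.pv x ≠ d4 := by
    intro x hx x1 x2 x3 x4
    refine ⟨h.pv_mem x hx, ?_, ?_, ?_, ?_⟩
    · intro e; apply x4; rw [← f.n1, ← e, h.nx_pv x hx]
    · intro e; apply x1; rw [← f.n2, ← e, h.nx_pv x hx]
    · intro e; apply x2; rw [← f.n3, ← e, h.nx_pv x hx]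
    · intro e; apply x3; rw [← f.n4, ← e, h.nx_pv x hx]
  rcases pv92 f d with ⟨_, e⟩ | ⟨_, e⟩ | ⟨_, e⟩ | ⟨_, e⟩ | ⟨⟨w1, w2, w3, w4⟩, e⟩
  · rw [e]; exact key d2 f.m2 f.e12.symm f.e22.symm f.e32.symm f.e42.symm
  · rw [e]; exact key d1 f.m1 f.e11.symm f.e21.symm f.e31.symm f.e41.symm
  · rw [e]; exact key d4 f.m4 f.e14.symm f.e24.symm f.e34.symm f.e44.symm
  · rw [e]; exact key d3 f.m3 f.e13.symm f.e23.symm f.e33.symm f.e43.symm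
  · rw [e]; exact key d hd.1 w1 w2 w3 w4

theorem CM.Quad.fold_pv_nx (q : M.Quad d1 d2 d3 d4) (h : M.Ok) (hl : M.Lam) (h3 : 3 ≤ M.VS.card) :
    ∀ d ∈ (M.fold d1 d2 d3 d4).DS, (M.fold d1 d2 d3 d4).pv ((M.fold d1 d2 d3 d4).nx d) = d := by
  intro d hd
  have f := fct92 q h hl h3
  rw [fold_mem] at hd
  obtain ⟨hd0, y1, y2, y3, y4⟩ := hd
  rcases nx92 f d with ⟨w, e⟩ | ⟨w, e⟩ | ⟨w, e⟩ | ⟨w, e⟩ | ⟨_, e⟩
  · rw [e]
    rcases pv92 f (M.al d2) with ⟨v, _⟩ | ⟨_, g⟩ | ⟨v, _⟩ | ⟨v, _⟩ | ⟨⟨_, v, _, _⟩, _⟩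
    · exact absurd v.symm f.c12
    · rw [g, ← w, h.pv_nx d hd0]
    · exact absurd v f.c23
    · exact absurd v f.c24
    · exact absurd rfl v
  · rw [e]
    rcases pv92 f (M.al d1) with ⟨_, g⟩ | ⟨v, _⟩ | ⟨v, _⟩ | ⟨v, _⟩ | ⟨⟨v, _, _, _⟩, _⟩
    · rw [g, ← w, h.pv_nx d hd0]
    · exact absurd v f.c12
    · exact absurd v f.c13
    · exact absurd v f.c14
    · exact absurd rfl v
  · rw [e]
    rcases pv92 f (M.al d4) with ⟨v, _⟩ | ⟨v, _⟩ | ⟨v, _⟩ | ⟨_, g⟩ | ⟨⟨_, _, _, v⟩, _⟩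
    · exact absurd v.symm f.c14
    · exact absurd v.symm f.c24
    · exact absurd v.symm f.c34
    · rw [g, ← w, h.pv_nx d hd0]
    · exact absurd rfl v
  · rw [e]
    rcases pv92 f (M.al d3) with ⟨v, _⟩ | ⟨v, _⟩ | ⟨_, g⟩ | ⟨v, _⟩ | ⟨⟨_, _, v, _⟩, _⟩
    · exact absurd v.symm f.c13
    · exact absurd v.symm f.c23
    · rw [g, ← w, h.pv_nx d hd0]
    · exact absurd v f.c34
    · exact absurd rfl v
  · rw [e]
    rcases pv92 f (M.nx d) with ⟨v, _⟩ | ⟨v, _⟩ | ⟨v, _⟩ | ⟨v, _⟩ | ⟨_, g⟩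
    · exact absurd (h.nx_inj hd0 f.m2 (by rw [v, f.n2])) y2
    · exact absurd (h.nx_inj hd0 f.m3 (by rw [v, f.n3])) y3
    · exact absurd (h.nx_inj hd0 f.m4 (by rw [v, f.n4])) y4
    · exact absurd (h.nx_inj hd0 f.m1 (by rw [v, f.n1])) y1
    · rw [g, h.pv_nx d hd0]

theorem CM.Quad.fold_nx_pv (q : M.Quad d1 d2 d3 d4) (h : M.Ok) (hl : M.Lam) (h3 : 3 ≤ M.VS.card) :
    ∀ d ∈ (M.fold d1 d2 d3 d4).DS, (M.fold d1 d2 d3 d4).nx ((M.fold d1 d2 d3 d4).pv d) = d := by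
  intro d hd
  have f := fct92 q h hl h3
  obtain ⟨k12, k13, k14, k23, k24, k34⟩ := di92 f
  rw [fold_mem] at hd
  obtain ⟨hd0, y1, y2, y3, y4⟩ := hd
  rcases pv92 f d with ⟨w, e⟩ | ⟨w, e⟩ | ⟨w, e⟩ | ⟨w, e⟩ | ⟨_, e⟩
  · rw [e]
    rcases nx92 f (M.pv d2) with ⟨v, _⟩ | ⟨_, g⟩ | ⟨v, _⟩ | ⟨v, _⟩ | ⟨⟨_, v, _, _⟩, _⟩
    · rw [h.nx_pv _ f.m2] at v; exact absurd v.symm k12
    · rw [g, w]
    · rw [h.nx_pv _ f.m2] at v; exact absurd v k23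
    · rw [h.nx_pv _ f.m2] at v; exact absurd v k24
    · rw [h.nx_pv _ f.m2] at v; exact absurd rfl v
  · rw [e]
    rcases nx92 f (M.pv d1) with ⟨_, g⟩ | ⟨v, _⟩ | ⟨v, _⟩ | ⟨v, _⟩ | ⟨⟨v, _, _, _⟩, _⟩
    · rw [g, w]
    · rw [h.nx_pv _ f.m1] at v; exact absurd v k12
    · rw [h.nx_pv _ f.m1] at v; exact absurd v k13
    · rw [h.nx_pv _ f.m1] at v; exact absurd v k14
    · rw [h.nx_pv _ f.m1] at v; exact absurd rfl v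
  · rw [e]
    rcases nx92 f (M.pv d4) with ⟨v, _⟩ | ⟨v, _⟩ | ⟨v, _⟩ | ⟨_, g⟩ | ⟨⟨_, _, _, v⟩, _⟩
    · rw [h.nx_pv _ f.m4] at v; exact absurd v.symm k14
    · rw [h.nx_pv _ f.m4] at v; exact absurd v.symm k24
    · rw [h.nx_pv _ f.m4] at v; exact absurd v.symm k34
    · rw [g, w]
    · rw [h.nx_pv _ f.m4] at v; exact absurd rfl v
  · rw [e]
    rcases nx92 f (M.pv d3) with ⟨v, _⟩ | ⟨v, _⟩ | ⟨_, g⟩ | ⟨v, _⟩ | ⟨⟨_, _, v, _⟩, _⟩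
    · rw [h.nx_pv _ f.m3] at v; exact absurd v.symm k13
    · rw [h.nx_pv _ f.m3] at v; exact absurd v.symm k23
    · rw [g, w]
    · rw [h.nx_pv _ f.m3] at v; exact absurd v k34
    · rw [h.nx_pv _ f.m3] at v; exact absurd rfl v
  · rw [e]
    rcases nx92 f (M.pv d) with ⟨v, _⟩ | ⟨v, _⟩ | ⟨v, _⟩ | ⟨v, _⟩ | ⟨_, g⟩
    · exact absurd (by rw [← v, h.nx_pv d hd0]) y1
    · exact absurd (by rw [← v, h.nx_pv d hd0]) y2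
    · exact absurd (by rw [← v, h.nx_pv d hd0]) y3
    · exact absurd (by rw [← v, h.nx_pv d hd0]) y4
    · rw [g, h.nx_pv d hd0]

theorem CM.Quad.fold_t_nx (q : M.Quad d1 d2 d3 d4) (h : M.Ok) (hl : M.Lam) (h3 : 3 ≤ M.VS.card) :
    ∀ d ∈ (M.fold d1 d2 d3 d4).DS, (M.fold d1 d2 d3 d4).t ((M.fold d1 d2 d3 d4).nx d) = (M.fold d1 d2 d3 d4).t d := by
  intro d hd
  have f := fct92 q h hl h3
  rw [fold_mem] at hd
  obtain ⟨hd0, y1, y2, y3, y4⟩ := hd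
  rw [t92, t92, ← h.t_nx d hd0]
  rcases nx92 f d with ⟨w, e⟩ | ⟨w, e⟩ | ⟨w, e⟩ | ⟨w, e⟩ | ⟨_, e⟩
  · rw [e, w, f.h2, if_pos rfl, if_neg f.t13]
  · rw [e, w, f.h1]
  · rw [e, w, f.h4, if_pos rfl, if_neg f.t13]
  · rw [e, w, f.h3]
  · rw [e]

theorem CM.Quad.fold_fc_ph (q : M.Quad d1 d2 d3 d4) (h : M.Ok) (hl : M.Lam) (h3 : 3 ≤ M.VS.card) :
    ∀ d ∈ (M.fold d1 d2 d3 d4).DS,
      (M.fold d1 d2 d3 d4).fc ((M.fold d1 d2 d3 d4).pv ((M.fold d1 d2 d3 d4).al d)) = (M.fold d1 d2 d3 d4).fc d := by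
  intro d hd
  have f := fct92 q h hl h3
  rw [fold_mem] at hd
  obtain ⟨hd0, y1, y2, y3, y4⟩ := hd
  have key : ∀ x ∈ M.DS, M.fc (M.pv x) = M.fc (M.al x) := by
    intro x hx
    have h1 := h.fc_ph (M.al x) (h.al_mem x hx)
    rwa [h.al_al x hx] at h1
  show M.fc _ = M.fc d
  rcases al92 f d with ⟨w, e⟩ | ⟨w, e⟩ | ⟨w, e⟩ | ⟨w, e⟩ | ⟨_, e⟩
  · rw [e]
    rcases pv92 f (M.al d2) with ⟨v, _⟩ | ⟨_, g⟩ | ⟨v, _⟩ | ⟨v, _⟩ | ⟨⟨_, v, _, _⟩, _⟩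
    · exact absurd v.symm f.c12
    · rw [g, w, key d1 f.m1]
    · exact absurd v f.c23
    · exact absurd v f.c24
    · exact absurd rfl v
  · rw [e]
    rcases pv92 f (M.al d1) with ⟨_, g⟩ | ⟨v, _⟩ | ⟨v, _⟩ | ⟨v, _⟩ | ⟨⟨v, _, _, _⟩, _⟩
    · rw [g, w, key d2 f.m2]
    · exact absurd v f.c12
    · exact absurd v f.c13
    · exact absurd v f.c14
    · exact absurd rfl v
  · rw [e]
    rcases pv92 f (M.al d4) with ⟨v, _⟩ | ⟨v, _⟩ | ⟨v, _⟩ | ⟨_, g⟩ | ⟨⟨_, _, _, v⟩, _⟩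
    · exact absurd v.symm f.c14
    · exact absurd v.symm f.c24
    · exact absurd v.symm f.c34
    · rw [g, w, key d3 f.m3]
    · exact absurd rfl v
  · rw [e]
    rcases pv92 f (M.al d3) with ⟨v, _⟩ | ⟨v, _⟩ | ⟨_, g⟩ | ⟨v, _⟩ | ⟨⟨_, _, v, _⟩, _⟩
    · exact absurd v.symm f.c13
    · exact absurd v.symm f.c23
    · rw [g, w, key d4 f.m4]
    · exact absurd v f.c34
    · exact absurd rfl v
  · rw [e]
    rcases pv92 f (M.al d) with ⟨v, _⟩ | ⟨v, _⟩ | ⟨v, _⟩ | ⟨v, _⟩ | ⟨_, g⟩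
    · exact absurd (h.al_inj hd0 f.m1 v) y1
    · exact absurd (h.al_inj hd0 f.m2 v) y2
    · exact absurd (h.al_inj hd0 f.m3 v) y3
    · exact absurd (h.al_inj hd0 f.m4 v) y4
    · rw [g, h.fc_ph d hd0]

end Pool.Agent.Helper37.CP
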