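import Pool.Agent.Helper37.CP.FoldF

/-!
# Block CP-FO: in the folded map the star of every vertex is a single orbit.

`M' = M.fold d1 d2 d3 d4`, `nx'` its rotation. Write `R d e` for: there is `k` with `nx'^[k] d = e`. `R` is reflexive and transitive, and
`R d (nx' d)`.
At a vertex `u ∉ {A, B, C, E}`: `nx' = nx` on the star, which does not meet the `di` (the tails of `di` are `A, B, C, E`).
At `B`: the star in `M'` is the star in `M` without `d2`, and `nx'` jumps over `d2` (`nx' d = nx d2` if `nx d = d2`). By `star_ind` in `M` from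
`d0 ≠ d2`, with the predicate `P d := (d ≠ d2 → R d0 d) ∧ (d = d2 → R d0 (pv d2))`: every dart `≠ d2` at `B` is reached. Same at `E` (`d4`).
At `A`: in `M'` the darts with tail `A` are the darts of `M` with tail `A` except `d1` and those with tail `C` except `d3`. In `M`,
`nx d1 = al d4` and `nx d3 = al d2`; in `M'` a dart `d` with `nx d = d1` has `nx' d = al d2`, and one with `nx d = d3` has `nx' d = al d4`.
(a) from `al d4` every dart `≠ d1` of the star of `A` is reached (`star_ind` in `M` from `d1` with the predicate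
`P d := (d ≠ d1 → R (al d4) d)`: step from `d1`: `nx d1 = al d4`; step from `d ≠ d1` with `nx d ≠ d1`: `nx' d = nx d`; if `nx d = d1`
nothing is to be shown). (b) from `al d2` every dart `≠ d3` of the star of `C` is reached. (c) `R (pv d1) (al d2)` and `R (pv d3) (al d4)`;
`pv d1 ≠ d1`, `pv d3 ≠ d3` (`pv_ne`). (d) From any dart `e ≠ d1` at `A`, `pv d1` is reached: walk from `e` (`star_ind` from `e` with the
predicate `P d := R e d ∨ R e (pv d1)`: while `nx d ≠ d1` we have `nx' d = nx d`; if `nx d = d1`, then `d = pv d1`, if this dart is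
reached we are done; so for the dart `pv d1` itself `P` gives the claim). Similarly `pv d3` from any dart `≠ d3` at `C`.
So everything at `A` in `M'` is one orbit: `e → pv d1 → al d2 → (all of C, in particular pv d3) → al d4 → (all of A)`.
-/

set_option linter.unusedSectionVars false

namespace Pool.Agent.Helper37.CP

variable {V D F : Type*} [DecidableEq V] [DecidableEq D] [DecidableEq F] {M : CM V D F} {d1 d2 d3 d4 : D}

/-- reachability along the rotation -/
private def RR (N : CM V D F) (d e : D) : Prop := ∃ k : ℕ, N.nx^[k] d = e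

private theorem RR.rfl' {N : CM V D F} {d : D} : RR N d d := ⟨0, rfl⟩

private theorem RR.trans' {N : CM V D F} {d e f : D} (h1 : RR N d e) (h2 : RR N e f) : RR N d f := by
  obtain ⟨k, rfl⟩ := h1
  obtain ⟨l, rfl⟩ := h2
  exact ⟨l + k, Function.iterate_add_apply _ _ _ _⟩

private theorem RR.step {N : CM V D F} {d e f : D} (h1 : RR N d e) (h2 : N.nx e = f) : RR N d f := by
  obtain ⟨k, rfl⟩ := h1
  exact ⟨k + 1, by rw [Function.iterate_succ_apply', h2]⟩

/-- no exception in the star -/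
private theorem RR.plain {N : CM V D F} (h : M.Ok) {d : D} (hd : d ∈ M.DS)
    (hs : ∀ e ∈ M.DS, M.t e = M.t d → N.nx e = M.nx e) : ∀ e ∈ M.DS, M.t e = M.t d → RR N d e :=
  h.star_ind hd (fun e => RR N d e) RR.rfl' (fun e he hte hp => hp.step (hs e he hte))

/-- one dart `x` is jumped over -/
private theorem RR.jump {N : CM V D F} (h : M.Ok) {x : D} (hx : x ∈ M.DS) (hxn : M.nx x ≠ x)
    (hs : ∀ e ∈ M.DS, M.t e = M.t x → M.nx e ≠ x → N.nx e = M.nx e) (hj : N.nx (M.pv x) = M.nx x)
    {d : D} (hd : d ∈ M.DS) (htd : M.t d = M.t x) (hdx : d ≠ x) :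
    ∀ e ∈ M.DS, M.t e = M.t x → e ≠ x → RR N d e := by
  have key : ∀ e ∈ M.DS, M.t e = M.t d → ((e ≠ x → RR N d e) ∧ (e = x → RR N d (M.pv x))) := by
    apply h.star_ind hd
    · exact ⟨fun _ => RR.rfl', fun h1 => absurd h1 hdx⟩
    · intro e he hte hp
      by_cases hex : e = x
      · subst hex
        exact ⟨fun _ => (hp.2 rfl).step hj, fun h1 => absurd h1 hxn⟩
      · refine ⟨fun h1 => (hp.1 hex).step (hs e he (hte.trans htd) h1), fun h1 => ?_⟩
        rw [← h1, h.pv_nx e he]
        exact hp.1 hex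
  intro e he hte hex
  exact (key e he (hte.trans htd.symm)).1 hex

/-- from `nx x` every dart of the star of `x` except `x` is reached -/
private theorem RR.from_nx {N : CM V D F} (h : M.Ok) {x : D} (hx : x ∈ M.DS)
    (hs : ∀ e ∈ M.DS, M.t e = M.t x → M.nx e ≠ x → N.nx e = M.nx e) :
    ∀ e ∈ M.DS, M.t e = M.t x → e ≠ x → RR N (M.nx x) e := by
  have key : ∀ e ∈ M.DS, M.t e = M.t x → (e ≠ x → RR N (M.nx x) e) := by
    apply h.star_ind hx
    · exact fun h1 => absurd rfl h1
    · intro e he hte hp h1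
      by_cases hex : e = x
      · rw [hex]
        exact RR.rfl'
      · exact (hp hex).step (hs e he hte h1)
  exact key

/-- from every dart of the star of `x` the dart `pv x` is reached -/
private theorem RR.to_pv {N : CM V D F} (h : M.Ok) {x : D} (hx : x ∈ M.DS)
    (hs : ∀ e ∈ M.DS, M.t e = M.t x → M.nx e ≠ x → N.nx e = M.nx e)
    {e : D} (he : e ∈ M.DS) (hte : M.t e = M.t x) : RR N e (M.pv x) := by
  have key : ∀ f ∈ M.DS, M.t f = M.t e → (RR N e f ∨ RR N e (M.pv x)) := by
    apply h.star_ind he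
    · exact Or.inl RR.rfl'
    · intro f hf htf hp
      rcases hp with hp | hp
      · by_cases hfx : M.nx f = x
        · right
          rw [← hfx, h.pv_nx f hf]
          exact hp
        · exact Or.inl (hp.step (hs f hf (htf.trans hte) hfx))
      · exact Or.inr hp
  rcases key (M.pv x) (h.pv_mem x hx) ((h.t_pv hx).trans hte.symm) with h1 | h1 <;> exact h1

theorem CM.Quad.fold_orb (q : M.Quad d1 d2 d3 d4) (h : M.Ok) (hl : M.Lam) (h3 : 3 ≤ M.VS.card) :
    ∀ d ∈ (M.fold d1 d2 d3 d4).DS, ∀ e ∈ (M.fold d1 d2 d3 d4).DS,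
      (M.fold d1 d2 d3 d4).t d = (M.fold d1 d2 d3 d4).t e → ∃ k : ℕ, (M.fold d1 d2 d3 d4).nx^[k] d = e := by
  obtain ⟨nAB, nAC, nAE, nBC, nBE, nCE⟩ := q.distinct h hl h3
  have d12 : d1 ≠ d2 := fun e => nAB (by rw [e])
  have d13 : d1 ≠ d3 := fun e => nAC (by rw [e])
  have d14 : d1 ≠ d4 := fun e => nAE (by rw [e])
  have d23 : d2 ≠ d3 := fun e => nBC (by rw [e])
  have d24 : d2 ≠ d4 := fun e => nBE (by rw [e])
  have d34 : d3 ≠ d4 := fun e => nCE (by rw [e])
  have nxd : ∀ e, (M.fold d1 d2 d3 d4).nx e = if M.nx e = d1 then M.nx d3 else if M.nx e = d2 then M.nx d2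
    else if M.nx e = d3 then M.nx d1 else if M.nx e = d4 then M.nx d4 else M.nx e := fun e => rfl
  -- the rotation away from the four darts
  have same : ∀ e, M.nx e ≠ d1 → M.nx e ≠ d2 → M.nx e ≠ d3 → M.nx e ≠ d4 →
      (M.fold d1 d2 d3 d4).nx e = M.nx e := by
    intro e h1 h2 h3' h4
    rw [nxd, if_neg h1, if_neg h2, if_neg h3', if_neg h4]
  have ne_of_t : ∀ e ∈ M.DS, ∀ x, M.t e ≠ M.t x → M.nx e ≠ x := by
    intro e he x hx h1
    apply hx
    rw [← h1, h.t_nx e he]
  have j1 : (M.fold d1 d2 d3 d4).nx (M.pv d1) = M.nx d3 := by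
    rw [nxd, if_pos (h.nx_pv d1 q.m1)]
  have j2 : (M.fold d1 d2 d3 d4).nx (M.pv d2) = M.nx d2 := by
    rw [nxd, h.nx_pv d2 q.m2, if_neg d12.symm, if_pos rfl]
  have j3 : (M.fold d1 d2 d3 d4).nx (M.pv d3) = M.nx d1 := by
    rw [nxd, h.nx_pv d3 q.m3, if_neg d13.symm, if_neg d23.symm, if_pos rfl]
  have j4 : (M.fold d1 d2 d3 d4).nx (M.pv d4) = M.nx d4 := by
    rw [nxd, h.nx_pv d4 q.m4, if_neg d14.symm, if_neg d24.symm, if_neg d34.symm, if_pos rfl]
  have s1 : ∀ e ∈ M.DS, M.t e = M.t d1 → M.nx e ≠ d1 → (M.fold d1 d2 d3 d4).nx e = M.nx e := by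
    intro e he hte hn
    exact same e hn (ne_of_t e he d2 (by rw [hte]; exact nAB)) (ne_of_t e he d3 (by rw [hte]; exact nAC))
      (ne_of_t e he d4 (by rw [hte]; exact nAE))
  have s2 : ∀ e ∈ M.DS, M.t e = M.t d2 → M.nx e ≠ d2 → (M.fold d1 d2 d3 d4).nx e = M.nx e := by
    intro e he hte hn
    exact same e (ne_of_t e he d1 (by rw [hte]; exact nAB.symm)) hn (ne_of_t e he d3 (by rw [hte]; exact nBC))
      (ne_of_t e he d4 (by rw [hte]; exact nBE))
  have s3 : ∀ e ∈ M.DS, M.t e = M.t d3 → M.nx e ≠ d3 → (M.fold d1 d2 d3 d4).nx e = M.nx e := by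
    intro e he hte hn
    exact same e (ne_of_t e he d1 (by rw [hte]; exact nAC.symm)) (ne_of_t e he d2 (by rw [hte]; exact nBC.symm)) hn
      (ne_of_t e he d4 (by rw [hte]; exact nCE))
  have s4 : ∀ e ∈ M.DS, M.t e = M.t d4 → M.nx e ≠ d4 → (M.fold d1 d2 d3 d4).nx e = M.nx e := by
    intro e he hte hn
    exact same e (ne_of_t e he d1 (by rw [hte]; exact nAE.symm)) (ne_of_t e he d2 (by rw [hte]; exact nBE.symm))
      (ne_of_t e he d3 (by rw [hte]; exact nCE.symm)) hn
  have a1 := RR.from_nx (N := M.fold d1 d2 d3 d4) h q.m1 s1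
  have a3 := RR.from_nx (N := M.fold d1 d2 d3 d4) h q.m3 s3
  have p1 := hl.pv_ne h h3 q.m1
  have p3 := hl.pv_ne h h3 q.m3
  have n2 := hl.nx_ne h h3 q.m2
  have n4 := hl.nx_ne h h3 q.m4
  -- from `pv d1` everything at `C`, from `pv d3` everything at `A`
  have c1 : ∀ e ∈ M.DS, M.t e = M.t d3 → e ≠ d3 → RR (M.fold d1 d2 d3 d4) (M.pv d1) e := fun e he hte hne =>
    (RR.rfl'.step j1).trans' (a3 e he hte hne)
  have c3 : ∀ e ∈ M.DS, M.t e = M.t d1 → e ≠ d1 → RR (M.fold d1 d2 d3 d4) (M.pv d3) e := fun e he hte hne =>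
    (RR.rfl'.step j3).trans' (a1 e he hte hne)
  have c13 : RR (M.fold d1 d2 d3 d4) (M.pv d1) (M.pv d3) := c1 _ (h.pv_mem _ q.m3) (h.t_pv q.m3) p3
  have c31 : RR (M.fold d1 d2 d3 d4) (M.pv d3) (M.pv d1) := c3 _ (h.pv_mem _ q.m1) (h.t_pv q.m1) p1
  have tde : ∀ e, (M.fold d1 d2 d3 d4).t e = if M.t e = M.t d3 then M.t d1 else M.t e := fun e => rfl
  intro d hd e he hte
  change RR (M.fold d1 d2 d3 d4) d e
  rw [fold_mem] at hd he
  obtain ⟨hd, hd1, hd2, hd3, hd4⟩ := hd
  obtain ⟨he, he1, he2, he3, he4⟩ := he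
  rw [tde, tde] at hte
  -- everything in the merged star is reached from `pv d1`
  have reach : ∀ f ∈ M.DS, f ≠ d1 → f ≠ d3 → (M.t f = M.t d1 ∨ M.t f = M.t d3) →
      RR (M.fold d1 d2 d3 d4) (M.pv d1) f := by
    intro f hf hf1 hf3 ht
    rcases ht with ht | ht
    · exact c13.trans' (c3 f hf ht hf1)
    · exact c1 f hf ht hf3
  have back : ∀ f ∈ M.DS, (M.t f = M.t d1 ∨ M.t f = M.t d3) → RR (M.fold d1 d2 d3 d4) f (M.pv d1) := by
    intro f hf ht
    rcases ht with ht | ht
    · exact RR.to_pv h q.m1 s1 hf ht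
    · exact (RR.to_pv h q.m3 s3 hf ht).trans' c31
  by_cases hdC : M.t d = M.t d3
  · have : M.t e = M.t d1 ∨ M.t e = M.t d3 := by
      rw [if_pos hdC] at hte
      by_cases heC : M.t e = M.t d3
      · exact Or.inr heC
      · rw [if_neg heC] at hte
        exact Or.inl hte.symm
    exact (back d hd (Or.inr hdC)).trans' (reach e he he1 he3 this)
  · rw [if_neg hdC] at hte
    by_cases hdA : M.t d = M.t d1
    · have : M.t e = M.t d1 ∨ M.t e = M.t d3 := by
        by_cases heC : M.t e = M.t d3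
        · exact Or.inr heC
        · rw [if_neg heC] at hte
          exact Or.inl (hte.symm.trans hdA)
      exact (back d hd (Or.inl hdA)).trans' (reach e he he1 he3 this)
    · have hte' : M.t d = M.t e := by
        by_cases heC : M.t e = M.t d3
        · rw [if_pos heC] at hte
          exact absurd hte hdA
        · rw [if_neg heC] at hte
          exact hte
      by_cases hdB : M.t d = M.t d2
      · exact RR.jump h q.m2 n2 s2 j2 hd hdB hd2 e he (hte'.symm.trans hdB) he2
      · by_cases hdE : M.t d = M.t d4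
        · exact RR.jump h q.m4 n4 s4 j4 hd hdE hd4 e he (hte'.symm.trans hdE) he4
        · refine RR.plain h hd (fun f hf htf => ?_) e he hte'.symm
          exact same f (ne_of_t f hf d1 (by rw [htf]; exact hdA)) (ne_of_t f hf d2 (by rw [htf]; exact hdB))
            (ne_of_t f hf d3 (by rw [htf]; exact hdC)) (ne_of_t f hf d4 (by rw [htf]; exact hdE))

end Pool.Agent.Helper37.CP
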