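import Pool.Agent.Helper37.CP.Basic

/-!
# Block CP-TURN: the angle function `turn` (see Defs).

`turn z w = arg (w / z)` if this is positive, `arg (w / z) + 2 π` otherwise. `(w / z).im = cross z w / ‖z‖^2` and
`(w / z).re = (z.re w.re + z.im w.im) / ‖z‖^2`.
* `turn_pos`, `turn_le`: `-π < arg ≤ π`.
* `turn_lt_pi`: `cross z w > 0` means `(w / z).im > 0`, so `0 < arg < π`.
* `exp_turn`: `exp (arg u * I) = u / ‖u‖` (`u ≠ 0`), `exp (2 π I) = 1`.
* `turn_eq`: `turn z w = 2 π` iff `arg (w / z) = 0` iff `w / z` is a positive real.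
* `turn_continuousAt`: near a point with `arg (w / z) ≠ 0`. If `arg (w / z) ≠ π`, `arg` is continuous at `w / z` (slit plane) and its sign does
  not change nearby. If `arg (w / z) = π` (negative real), use that `turn z w = arg (- w / z) + π` for all `(z, w)` with `turn z w < 2π`
  (for `u` not a positive real: `arg u = arg (-u) + π` if `arg u > 0` and `arg u + 2 π = arg (-u) + π` if `arg u < 0`); in fact
  this formula alone gives the continuity in all cases, since `- w / z` is in the slit plane iff `w / z` is not a nonnegative real.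
* `turn_between`: all three turns are in `(0, π)`, `exp` shows that `turn z v + turn v w - turn z w` is a multiple of `2 π`, and it is in
  `(-π, 2π)`, so it is `0`.
-/

set_option linter.unusedSectionVars false

namespace Pool.Agent.Helper37.CP

private theorem div_im32 (z w : ℂ) : (w / z).im = cross z w / Complex.normSq z := by
  rw [Complex.div_im]
  unfold cross
  ring

private theorem turn_im_pos32 {z w : ℂ} (h : 0 < (w / z).im) : turn z w = (w / z).arg ∧ 0 < (w / z).arg := by
  have h1 : 0 ≤ (w / z).arg := Complex.arg_nonneg_iff.2 h.le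
  have h2 : (w / z).arg ≠ 0 := by
    intro h3
    rw [Complex.arg_eq_zero_iff] at h3
    exact h.ne' h3.2
  have h3 : 0 < (w / z).arg := lt_of_le_of_ne h1 (Ne.symm h2)
  refine ⟨?_, h3⟩
  unfold turn
  rw [if_pos h3]

private theorem turn_formula32 {z w : ℂ} (h : -(w / z) ∈ Complex.slitPlane) :
    turn z w = (-(w / z)).arg + Real.pi := by
  rcases lt_trichotomy (w / z).im 0 with h1 | h1 | h1
  · have h2 : (w / z).arg < 0 := Complex.arg_neg_iff.2 h1
    rw [Complex.arg_neg_eq_arg_add_pi_of_im_neg h1]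
    unfold turn
    rw [if_neg (not_lt.2 h2.le)]
    ring
  · rw [Complex.mem_slitPlane_iff] at h
    have hre : (w / z).re < 0 := by
      rcases h with h | h
      · rw [Complex.neg_re] at h; linarith
      · rw [Complex.neg_im] at h; exact absurd (by rw [h1, neg_zero]) h
    have h2 : (w / z).arg = Real.pi := Complex.arg_eq_pi_iff.2 ⟨hre, h1⟩
    have h3 : (-(w / z)).arg = 0 := by
      rw [Complex.arg_eq_zero_iff]
      refine ⟨?_, ?_⟩
      · rw [Complex.neg_re]; linarith
      · rw [Complex.neg_im, h1, neg_zero]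
    rw [h3]
    unfold turn
    rw [h2, if_pos Real.pi_pos, zero_add]
  · rw [Complex.arg_neg_eq_arg_sub_pi_of_im_pos h1, (turn_im_pos32 h1).1]
    ring

theorem turn_pos (z w : ℂ) : 0 < turn z w := by
  unfold turn
  split_ifs with h
  · exact h
  · have h1 := Complex.neg_pi_lt_arg (w / z)
    have h2 := Real.pi_pos
    linarith

theorem turn_le (z w : ℂ) : turn z w ≤ 2 * Real.pi := by
  unfold turn
  have h2 := Real.pi_pos
  split_ifs with h
  · have h1 := Complex.arg_le_pi (w / z)
    linarith
  · linarith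

private theorem cross_ne32 {z w : ℂ} (h : cross z w ≠ 0) : z ≠ 0 ∧ w ≠ 0 := by
  constructor
  · rintro rfl; apply h; simp [cross]
  · rintro rfl; apply h; simp [cross]

private theorem im_pos32 {z w : ℂ} (h : 0 < cross z w) : 0 < (w / z).im := by
  rw [div_im32]
  exact div_pos h (Complex.normSq_pos.2 (cross_ne32 h.ne').1)

theorem turn_lt_pi {z w : ℂ} (h : 0 < cross z w) : turn z w < Real.pi := by
  have h1 := im_pos32 h
  rw [(turn_im_pos32 h1).1]
  exact Complex.arg_lt_pi_iff.2 (Or.inr h1.ne')

theorem exp_turn {z w : ℂ} (hz : z ≠ 0) (hw : w ≠ 0) :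
    Complex.exp ((turn z w : ℂ) * Complex.I) = (w / (‖w‖ : ℂ)) / (z / (‖z‖ : ℂ)) := by
  have h1 : Complex.exp ((turn z w : ℂ) * Complex.I) = Complex.exp (((w / z).arg : ℂ) * Complex.I) := by
    unfold turn
    split_ifs with h
    · rfl
    · push_cast
      rw [add_mul, Complex.exp_add, Complex.exp_two_pi_mul_I, mul_one]
  have h2 := Complex.norm_mul_exp_arg_mul_I (w / z)
  have hz' : (‖z‖ : ℂ) ≠ 0 := by
    rw [Ne, Complex.ofReal_eq_zero]; exact norm_ne_zero_iff.2 hz
  have hw' : (‖w‖ : ℂ) ≠ 0 := by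
    rw [Ne, Complex.ofReal_eq_zero]; exact norm_ne_zero_iff.2 hw
  rw [norm_div, Complex.ofReal_div] at h2
  rw [h1]
  have h3 : ((‖w‖ : ℂ) / (‖z‖ : ℂ)) ≠ 0 := div_ne_zero hw' hz'
  apply mul_left_cancel₀ h3
  rw [h2]
  field_simp

theorem turn_eq {z w : ℂ} (hz : z ≠ 0) (hw : w ≠ 0) :
    turn z w = 2 * Real.pi ↔ ∃ c : ℝ, 0 < c ∧ w = (c : ℂ) * z := by
  have hpi := Real.pi_pos
  constructor
  · intro h
    unfold turn at h
    split_ifs at h with h0
    · have h1 := Complex.arg_le_pi (w / z)
      linarith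
    · have h1 : (w / z).arg = 0 := by linarith
      rw [Complex.arg_eq_zero_iff] at h1
      have h2 : w / z = ((w / z).re : ℂ) := by
        apply Complex.ext
        · simp
        · rw [h1.2]; simp
      have h3 : (w / z).re ≠ 0 := by
        intro h3
        rw [h3] at h2
        have h4 : w / z = 0 := by rw [h2]; simp
        exact (div_ne_zero hw hz) h4
      refine ⟨(w / z).re, lt_of_le_of_ne h1.1 (Ne.symm h3), ?_⟩
      rw [← h2, div_mul_cancel₀ _ hz]
  · rintro ⟨c, hc, rfl⟩
    have h1 : (c : ℂ) * z / z = (c : ℂ) := mul_div_cancel_right₀ _ hz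
    unfold turn
    rw [h1, Complex.arg_ofReal_of_nonneg hc.le, if_neg (lt_irrefl _), zero_add]

theorem turn_self {z : ℂ} (hz : z ≠ 0) : turn z z = 2 * Real.pi := by
  rw [turn_eq hz hz]
  exact ⟨1, one_pos, by simp⟩

theorem turn_lt_of_cross {z w : ℂ} (h : cross z w ≠ 0) : turn z w < 2 * Real.pi := by
  apply lt_of_le_of_ne (turn_le z w)
  intro h1
  obtain ⟨hz, hw⟩ := cross_ne32 h
  obtain ⟨c, -, rfl⟩ := (turn_eq hz hw).1 h1
  apply h
  simp only [cross, Complex.mul_re, Complex.mul_im, Complex.ofReal_re, Complex.ofReal_im]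
  ring

theorem turn_continuousAt {z w : ℂ} (hz : z ≠ 0) (hw : w ≠ 0) (h : turn z w < 2 * Real.pi) :
    ContinuousAt (fun x : ℂ × ℂ => turn x.1 x.2) (z, w) := by
  have hs : -(w / z) ∈ Complex.slitPlane := by
    rw [Complex.mem_slitPlane_iff, Complex.neg_re, Complex.neg_im]
    by_contra hcon
    push Not at hcon
    have h1 : (w / z).im = 0 := by linarith [hcon.2]
    have h2 : 0 ≤ (w / z).re := by linarith [hcon.1]
    have h3 : (w / z).arg = 0 := Complex.arg_eq_zero_iff.2 ⟨h2, h1⟩
    unfold turn at h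
    rw [h3, if_neg (lt_irrefl _), zero_add] at h
    exact lt_irrefl _ h
  have hc : ContinuousAt (fun x : ℂ × ℂ => -(x.2 / x.1)) (z, w) :=
    (ContinuousAt.div continuousAt_snd continuousAt_fst hz).neg
  have hev : ∀ᶠ x : ℂ × ℂ in nhds (z, w), -(x.2 / x.1) ∈ Complex.slitPlane :=
    hc.eventually_mem (Complex.isOpen_slitPlane.mem_nhds hs)
  have hc2 : ContinuousAt (fun x : ℂ × ℂ => (-(x.2 / x.1)).arg + Real.pi) (z, w) := by
    apply ContinuousAt.add _ continuousAt_const
    exact ContinuousAt.comp (f := fun x : ℂ × ℂ => -(x.2 / x.1)) (g := Complex.arg)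
      (Complex.continuousAt_arg hs) hc
  apply hc2.congr
  filter_upwards [hev] with x hx
  exact (turn_formula32 hx).symm

theorem turn_between {z v w : ℂ} (h1 : 0 < cross z v) (h2 : 0 < cross v w) (h3 : 0 < cross z w) :
    turn z v + turn v w = turn z w := by
  obtain ⟨hz, hv⟩ := cross_ne32 h1.ne'
  obtain ⟨-, hw⟩ := cross_ne32 h2.ne'
  have e1 := exp_turn hz hv
  have e2 := exp_turn hv hw
  have e3 := exp_turn hz hw
  have hz' : (‖z‖ : ℂ) ≠ 0 := by
    rw [Ne, Complex.ofReal_eq_zero]; exact norm_ne_zero_iff.2 hz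
  have hw' : (‖w‖ : ℂ) ≠ 0 := by
    rw [Ne, Complex.ofReal_eq_zero]; exact norm_ne_zero_iff.2 hw
  have hv' : (‖v‖ : ℂ) ≠ 0 := by
    rw [Ne, Complex.ofReal_eq_zero]; exact norm_ne_zero_iff.2 hv
  have e4 : Complex.exp (((turn z v + turn v w - turn z w : ℝ) : ℂ) * Complex.I) = 1 := by
    push_cast
    rw [sub_mul, add_mul, Complex.exp_sub, Complex.exp_add, e1, e2, e3]
    field_simp
  rw [Complex.exp_eq_one_iff] at e4
  obtain ⟨n, hn⟩ := e4
  have e5 : turn z v + turn v w - turn z w = n * (2 * Real.pi) := by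
    have h5 : (((turn z v + turn v w - turn z w : ℝ) : ℂ)) * Complex.I =
        (((n * (2 * Real.pi) : ℝ)) : ℂ) * Complex.I := by
      rw [hn]; push_cast; ring
    have h6 := mul_right_cancel₀ Complex.I_ne_zero h5
    exact Complex.ofReal_injective h6
  have b1 := turn_pos z v
  have b2 := turn_pos v w
  have b3 := turn_pos z w
  have c1 := turn_lt_pi h1
  have c2 := turn_lt_pi h2
  have c3 := turn_lt_pi h3
  have hpi := Real.pi_pos
  have n1 : (-1 : ℝ) < n := by
    by_contra hcon
    push Not at hcon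
    nlinarith
  have n2 : (n : ℝ) < 1 := by
    by_contra hcon
    push Not at hcon
    nlinarith
  have n1' : (-1 : ℤ) < n := by exact_mod_cast n1
  have n2' : n < (1 : ℤ) := by exact_mod_cast n2
  have n0 : n = 0 := by omega
  rw [n0] at e5
  push_cast at e5
  linarith

theorem cross_continuous : Continuous (fun x : ℂ × ℂ => cross x.1 x.2) := by
  unfold cross
  fun_prop

/-- parallel vectors -/
theorem cross_smul_self {z : ℂ} {c : ℝ} : cross z ((c : ℂ) * z) = 0 := by
  simp only [cross, Complex.mul_re, Complex.mul_im, Complex.ofReal_re, Complex.ofReal_im]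
  ring

/-- if the determinant vanishes, the vectors are parallel -/
theorem cross_eq_zero {z w : ℂ} (hz : z ≠ 0) (h : cross z w = 0) : ∃ c : ℝ, w = (c : ℂ) * z := by
  refine ⟨(w / z).re, ?_⟩
  have h1 : (w / z).im = 0 := by rw [div_im32, h, zero_div]
  have h2 : w / z = ((w / z).re : ℂ) := by
    apply Complex.ext
    · simp
    · rw [h1]; simp
  rw [← h2, div_mul_cancel₀ _ hz]

/-- linear independence over the reals -/
theorem cross_indep {z w : ℂ} (h : cross z w ≠ 0) {a b : ℝ} (h1 : (a : ℂ) * z + (b : ℂ) * w = 0) : a = 0 ∧ b = 0 := by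
  have hre := congrArg Complex.re h1
  have him := congrArg Complex.im h1
  simp only [Complex.add_re, Complex.add_im, Complex.mul_re, Complex.mul_im, Complex.ofReal_re, Complex.ofReal_im,
    Complex.zero_re, Complex.zero_im, zero_mul, sub_zero, add_zero] at hre him
  constructor
  · have h2 : a * cross z w = 0 := by
      unfold cross
      linear_combination w.im * hre - w.re * him
    exact (mul_eq_zero.1 h2).resolve_right h
  · have h2 : b * cross z w = 0 := by
      unfold cross
      linear_combination z.re * him - z.im * hre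
    exact (mul_eq_zero.1 h2).resolve_right h

end Pool.Agent.Helper37.CP
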