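import Pool.Agent.Helper37.CP.FoldF
import Pool.Agent.Helper37.CP.Turn

/-!
# Block CP-FSF: stresses and distances at the folded placement.

`M' = M.fold d1 d2 d3 d4`, `unf M d1 d3 p` = the placement `p` of `M'` extended by giving `C = t d3` the position of `A = t d1`.
`fold_dist`: for a dart `d` of `M` other than the `di`, both ends of `d` in `M'` are the images of its ends (`fold_h`), so
`unf p (t d) = p (t' d)`, `unf p (t (al d)) = p (t' (al' d))`. For `d = di` use `al di` (which is a dart of `M'`, `al_not_mem`) and `al (al di) = di`.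
`fold_sf`: let `ω` be a self-stress of `M` at `P = unf p`. Define `ω'` on the darts of `M'`: `ω' (al d1) = ω' (al d2) = ω d1 + ω d2`,
`ω' (al d3) = ω' (al d4) = ω d3 + ω d4`, `ω' d = ω d` otherwise. It is symmetric for `al'`, and balanced in `M'`: at `v ∉ {A, B, C, E}` the
equations coincide; at `B` the darts `al d1 : B → A` and `d2 : B → C` of `M` have the same head position, in `M'` only `al d1` is left, with
the sum of the weights; same at `E` (`al d3 : E → C`, `d4 : E → A`); at `A` in `M'`: the sum of the equations of `M` at `A` and at `C`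
(`d1 : A → B` and `al d2 : C → B` have the same direction, `al d2` remains; `al d4 : A → E` and `d3 : C → E`, `al d4` remains). So
`ω' = 0`: `ω d = 0` for all darts other than `di`, `al di`, and `ω d1 + ω d2 = 0`, `ω d3 + ω d4 = 0`. The equation of `M` at `A` is then
`ω d1 (P A - P B) + ω d4 (P A - P E) = 0`, so both vanish by `cross_indep`.
-/

set_option linter.unusedSectionVars false

namespace Pool.Agent.Helper37.CP

variable {V D F : Type*} [DecidableEq V] [DecidableEq D] [DecidableEq F] {M : CM V D F} {d1 d2 d3 d4 : D}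

/-- unfold a function on the vertices of the folded map -/
def unf {β : Type*} (M : CM V D F) (d1 d3 : D) (p : V → β) : V → β := fun v => if v = M.t d3 then p (M.t d1) else p v

theorem CM.Quad.unf_t {β : Type*} (q : M.Quad d1 d2 d3 d4) (h : M.Ok) (hl : M.Lam) (h3 : 3 ≤ M.VS.card)
    (p : V → β) (d : D) : unf M d1 d3 p (M.t d) = p ((M.fold d1 d2 d3 d4).t d) := by
  have h1 : (M.fold d1 d2 d3 d4).t d = if M.t d = M.t d3 then M.t d1 else M.t d := rfl
  rw [h1]
  unfold unf
  by_cases h2 : M.t d = M.t d3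
  · rw [if_pos h2, if_pos h2]
  · rw [if_neg h2, if_neg h2]

theorem CM.Quad.unf_h {β : Type*} (q : M.Quad d1 d2 d3 d4) (h : M.Ok) (hl : M.Lam) (h3 : 3 ≤ M.VS.card)
    (p : V → β) {d : D} (hd : d ∈ (M.fold d1 d2 d3 d4).DS) :
    unf M d1 d3 p (M.t (M.al d)) = p ((M.fold d1 d2 d3 d4).t ((M.fold d1 d2 d3 d4).al d)) := by
  rw [q.fold_h h hl h3 d hd]
  unfold unf
  by_cases h2 : M.t (M.al d) = M.t d3
  · rw [if_pos h2, if_pos h2]
  · rw [if_neg h2, if_neg h2]

private theorem mem_or (q : M.Quad d1 d2 d3 d4) (h : M.Ok) (hl : M.Lam) (h3 : 3 ≤ M.VS.card) {d : D} (hd : d ∈ M.DS) :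
    d ∈ (M.fold d1 d2 d3 d4).DS ∨ M.al d ∈ (M.fold d1 d2 d3 d4).DS := by
  by_cases h1 : d ∈ (M.fold d1 d2 d3 d4).DS
  · exact Or.inl h1
  right
  obtain ⟨b1, b2, b3, b4⟩ := q.al_not_mem h hl h3
  simp only [Finset.mem_insert, Finset.mem_singleton, not_or] at b1 b2 b3 b4
  rw [fold_mem] at h1 ⊢
  refine ⟨h.al_mem d hd, ?_⟩
  have h2 : d = d1 ∨ d = d2 ∨ d = d3 ∨ d = d4 := by
    by_contra h4
    rw [not_or, not_or, not_or] at h4
    exact h1 ⟨hd, h4⟩
  rcases h2 with rfl | rfl | rfl | rfl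
  · exact b1
  · exact b2
  · exact b3
  · exact b4

theorem CM.Quad.fold_dist (q : M.Quad d1 d2 d3 d4) (h : M.Ok) (hl : M.Lam) (h3 : 3 ≤ M.VS.card) {p : V → ℂ} {r : V → ℝ}
    (hp : ∀ d ∈ (M.fold d1 d2 d3 d4).DS, ‖p ((M.fold d1 d2 d3 d4).t d) -
      p ((M.fold d1 d2 d3 d4).t ((M.fold d1 d2 d3 d4).al d))‖ = r ((M.fold d1 d2 d3 d4).t d) +
      r ((M.fold d1 d2 d3 d4).t ((M.fold d1 d2 d3 d4).al d))) :
    ∀ d ∈ M.DS, ‖unf M d1 d3 p (M.t d) - unf M d1 d3 p (M.t (M.al d))‖ =
      unf M d1 d3 r (M.t d) + unf M d1 d3 r (M.t (M.al d)) := by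
  have key : ∀ d ∈ (M.fold d1 d2 d3 d4).DS, ‖unf M d1 d3 p (M.t d) - unf M d1 d3 p (M.t (M.al d))‖ =
      unf M d1 d3 r (M.t d) + unf M d1 d3 r (M.t (M.al d)) := by
    intro d hd
    rw [q.unf_h h hl h3 p hd, q.unf_h h hl h3 r hd, q.unf_t h hl h3 p d, q.unf_t h hl h3 r d]
    exact hp d hd
  intro d hd
  rcases mem_or q h hl h3 hd with h1 | h1
  · exact key d h1
  · have h2 := key _ h1
    rw [h.al_al d hd] at h2
    rw [norm_sub_rev, h2, add_comm]

theorem CM.Quad.fold_sf (q : M.Quad d1 d2 d3 d4) (h : M.Ok) (hl : M.Lam) (h3 : 3 ≤ M.VS.card) {p : V → ℂ}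
    (hs : (M.fold d1 d2 d3 d4).SF p)
    (hc : cross (p (M.t d1) - p (M.t d2)) (p (M.t d1) - p (M.t d4)) ≠ 0) : M.SF (unf M d1 d3 p) := by
  classical
  intro ω hsym hbal
  obtain ⟨ab, ac, ae, bc, be, ce⟩ := q.distinct h hl h3
  obtain ⟨b1, b2, b3, b4⟩ := q.al_not_mem h hl h3
  simp only [Finset.mem_insert, Finset.mem_singleton, not_or] at b1 b2 b3 b4
  have hne : ∀ {x y : D}, M.t x ≠ M.t y → x ≠ y := fun {x y} hxy e => hxy (by rw [e])
  have g1 := q.h1 h
  have g2 := q.h2 h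
  have g3 := q.h3 h
  have g4 := q.h4 h
  have am1 := h.al_mem _ q.m1
  have am2 := h.al_mem _ q.m2
  have am3 := h.al_mem _ q.m3
  have am4 := h.al_mem _ q.m4
  have t12 : M.al d1 ≠ M.al d2 := hne (by rw [g1, g2]; exact bc)
  have t13 : M.al d1 ≠ M.al d3 := hne (by rw [g1, g3]; exact be)
  have t14 : M.al d1 ≠ M.al d4 := hne (by rw [g1, g4]; exact ab.symm)
  have t23 : M.al d2 ≠ M.al d3 := hne (by rw [g2, g3]; exact ce)
  have t24 : M.al d2 ≠ M.al d4 := hne (by rw [g2, g4]; exact ac.symm)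
  have t34 : M.al d3 ≠ M.al d4 := hne (by rw [g3, g4]; exact ae.symm)
  have s1 : ω (M.al d1) = ω d1 := hsym _ q.m1
  have s2 : ω (M.al d2) = ω d2 := hsym _ q.m2
  have s3 : ω (M.al d3) = ω d3 := hsym _ q.m3
  have s4 : ω (M.al d4) = ω d4 := hsym _ q.m4
  -- the stress of the folded map
  let w : D → ℝ := fun d => if d = M.al d1 ∨ d = M.al d2 then ω d1 + ω d2
    else if d = M.al d3 ∨ d = M.al d4 then ω d3 + ω d4 else ω d
  have hw : ∀ d, w d = if d = M.al d1 ∨ d = M.al d2 then ω d1 + ω d2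
    else if d = M.al d3 ∨ d = M.al d4 then ω d3 + ω d4 else ω d := fun d => rfl
  have w1 : w (M.al d1) = ω d1 + ω d2 := by
    rw [hw, if_pos (Or.inl rfl)]
  have w2 : w (M.al d2) = ω d1 + ω d2 := by
    rw [hw, if_pos (Or.inr rfl)]
  have w3 : w (M.al d3) = ω d3 + ω d4 := by
    rw [hw]
    rw [if_neg (by rw [not_or]; exact ⟨t13.symm, t23.symm⟩), if_pos (Or.inl rfl)]
  have w4 : w (M.al d4) = ω d3 + ω d4 := by
    rw [hw]
    rw [if_neg (by rw [not_or]; exact ⟨t14.symm, t24.symm⟩), if_pos (Or.inr rfl)]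
  have w0 : ∀ d, d ≠ M.al d1 → d ≠ M.al d2 → d ≠ M.al d3 → d ≠ M.al d4 → w d = ω d := by
    intro d e1 e2 e3 e4
    rw [hw]
    rw [if_neg (by rw [not_or]; exact ⟨e1, e2⟩), if_neg (by rw [not_or]; exact ⟨e3, e4⟩)]
  have halv : ∀ d ∈ (M.fold d1 d2 d3 d4).DS, w ((M.fold d1 d2 d3 d4).al d) = w d := by
    intro d hd
    have hd' := hd
    rw [fold_mem] at hd'
    have hal : (M.fold d1 d2 d3 d4).al d = if d = M.al d1 then M.al d2 else if d = M.al d2 then M.al d1
      else if d = M.al d3 then M.al d4 else if d = M.al d4 then M.al d3 else M.al d := rfl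
    rw [hal]
    by_cases e1 : d = M.al d1
    · rw [if_pos e1, e1, w1, w2]
    by_cases e2 : d = M.al d2
    · rw [if_neg e1, if_pos e2, e2, w1, w2]
    by_cases e3 : d = M.al d3
    · rw [if_neg e1, if_neg e2, if_pos e3, e3, w3, w4]
    by_cases e4 : d = M.al d4
    · rw [if_neg e1, if_neg e2, if_neg e3, if_pos e4, e4, w3, w4]
    rw [if_neg e1, if_neg e2, if_neg e3, if_neg e4, w0 d e1 e2 e3 e4]
    have key : ∀ x ∈ M.DS, d ≠ x → M.al d ≠ M.al x := fun x hx hdx e => hdx (h.al_inj hd'.1 hx e)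
    rw [w0 _ (key _ q.m1 hd'.2.1) (key _ q.m2 hd'.2.2.1) (key _ q.m3 hd'.2.2.2.1) (key _ q.m4 hd'.2.2.2.2)]
    exact hsym d hd'.1
  -- membership of the `al di`
  have f1 : M.al d1 ∈ (M.fold d1 d2 d3 d4).DS := by rw [fold_mem]; exact ⟨am1, b1⟩
  have f2 : M.al d2 ∈ (M.fold d1 d2 d3 d4).DS := by rw [fold_mem]; exact ⟨am2, b2⟩
  have f3 : M.al d3 ∈ (M.fold d1 d2 d3 d4).DS := by rw [fold_mem]; exact ⟨am3, b3⟩
  have f4 : M.al d4 ∈ (M.fold d1 d2 d3 d4).DS := by rw [fold_mem]; exact ⟨am4, b4⟩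
  have hPC : unf M d1 d3 p (M.t d3) = p (M.t d1) := by unfold unf; rw [if_pos rfl]
  have hP : ∀ v, v ≠ M.t d3 → unf M d1 d3 p v = p v := by
    intro v hv
    unfold unf
    rw [if_neg hv]
  have hbal' : ∀ v ∈ (M.fold d1 d2 d3 d4).VS, ∑ d ∈ (M.fold d1 d2 d3 d4).star v,
      (w d : ℂ) * (p v - p ((M.fold d1 d2 d3 d4).t ((M.fold d1 d2 d3 d4).al d))) = 0 := by
    intro v hv
    have hv' : v ≠ M.t d3 ∧ v ∈ M.VS := by
      have h1 : (M.fold d1 d2 d3 d4).VS = M.VS.erase (M.t d3) := rfl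
      rw [h1, Finset.mem_erase] at hv
      exact hv
    let T : D → ℂ := fun d => if (if M.t d = M.t d3 then M.t d1 else M.t d) = v then
      (p v - unf M d1 d3 p (M.t (M.al d))) else 0
    have hT : ∀ d, T d = if (if M.t d = M.t d3 then M.t d1 else M.t d) = v then
      (p v - unf M d1 d3 p (M.t (M.al d))) else 0 := fun d => rfl
    -- step 1: the sum over all darts of `M`
    have hsum1 : ∑ d ∈ M.DS, (ω d : ℂ) * T d = 0 := by
      by_cases hvA : v = M.t d1
      · have hA := hbal (M.t d1) (h.t_mem _ q.m1)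
        have hC := hbal (M.t d3) (h.t_mem _ q.m3)
        unfold CM.star at hA hC
        rw [Finset.sum_filter] at hA hC
        have hAC := congrArg₂ (fun x y : ℂ => x + y) hA hC
        rw [← Finset.sum_add_distrib, add_zero] at hAC
        rw [← hAC]
        apply Finset.sum_congr rfl
        intro d _
        rw [hT, hvA]
        by_cases e1 : M.t d = M.t d3
        · rw [if_pos e1, if_pos rfl, if_neg (by rw [e1]; exact ac.symm), if_pos e1, hPC, zero_add]
        · rw [if_neg e1, if_neg e1, add_zero]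
          by_cases e2 : M.t d = M.t d1
          · rw [if_pos e2, if_pos e2, hP _ ac]
          · rw [if_neg e2, if_neg e2, mul_zero]
      · have hB := hbal v hv'.2
        unfold CM.star at hB
        rw [Finset.sum_filter] at hB
        rw [← hB]
        apply Finset.sum_congr rfl
        intro d _
        rw [hT]
        by_cases e1 : M.t d = M.t d3
        · rw [if_pos e1, if_neg (fun e => hvA e.symm), if_neg (by rw [e1]; exact fun e => hv'.1 e.symm), mul_zero]
        · rw [if_neg e1]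
          by_cases e2 : M.t d = v
          · rw [if_pos e2, if_pos e2, hP _ hv'.1]
          · rw [if_neg e2, if_neg e2, mul_zero]
    -- step 2: the goal
    have hgoal : ∑ d ∈ (M.fold d1 d2 d3 d4).star v,
        (w d : ℂ) * (p v - p ((M.fold d1 d2 d3 d4).t ((M.fold d1 d2 d3 d4).al d))) =
        ∑ d ∈ (M.fold d1 d2 d3 d4).DS, (w d : ℂ) * T d := by
      unfold CM.star
      rw [Finset.sum_filter]
      apply Finset.sum_congr rfl
      intro d hd
      have h1 : (M.fold d1 d2 d3 d4).t d = if M.t d = M.t d3 then M.t d1 else M.t d := rfl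
      rw [hT, ← h1, ← q.unf_h h hl h3 p hd]
      by_cases e : (M.fold d1 d2 d3 d4).t d = v
      · rw [if_pos e, if_pos e]
      · rw [if_neg e, if_neg e, mul_zero]
    rw [hgoal]
    -- values of T
    have T1 : T (M.al d1) = T d2 := by
      rw [hT, hT, g1, h.al_al _ q.m1, g2, hPC, hP _ ac]
    have T2 : T (M.al d2) = T d1 := by
      rw [hT, hT, g2, h.al_al _ q.m2, g1, if_pos rfl, if_neg ac]
    have T3 : T (M.al d3) = T d4 := by
      rw [hT, hT, g3, h.al_al _ q.m3, g4, hPC, hP _ ac]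
    have T4 : T (M.al d4) = T d3 := by
      rw [hT, hT, g4, h.al_al _ q.m4, g3, if_pos rfl, if_neg ac]
    -- split both sums
    have hs1 : ({d1, d2, d3, d4} : Finset D) ⊆ M.DS := by
      intro x hx
      simp only [Finset.mem_insert, Finset.mem_singleton] at hx
      rcases hx with rfl | rfl | rfl | rfl
      · exact q.m1
      · exact q.m2
      · exact q.m3
      · exact q.m4
    have hDS : (M.fold d1 d2 d3 d4).DS = M.DS \ {d1, d2, d3, d4} := rfl
    have hsplit : ∑ d ∈ (M.fold d1 d2 d3 d4).DS, (ω d : ℂ) * T d +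
        ∑ d ∈ ({d1, d2, d3, d4} : Finset D), (ω d : ℂ) * T d = 0 := by
      rw [hDS, Finset.sum_sdiff hs1]
      exact hsum1
    have hfour : ∑ d ∈ ({d1, d2, d3, d4} : Finset D), (ω d : ℂ) * T d =
        (ω d1 : ℂ) * T d1 + ((ω d2 : ℂ) * T d2 + ((ω d3 : ℂ) * T d3 + (ω d4 : ℂ) * T d4)) := by
      rw [Finset.sum_insert, Finset.sum_insert, Finset.sum_insert, Finset.sum_singleton]
      · simp only [Finset.mem_singleton]
        exact hne ce
      · simp only [Finset.mem_insert, Finset.mem_singleton, not_or]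
        exact ⟨hne bc, hne be⟩
      · simp only [Finset.mem_insert, Finset.mem_singleton, not_or]
        exact ⟨hne ab, hne ac, hne ae⟩
    have hs2 : ({M.al d1, M.al d2, M.al d3, M.al d4} : Finset D) ⊆ (M.fold d1 d2 d3 d4).DS := by
      intro x hx
      simp only [Finset.mem_insert, Finset.mem_singleton] at hx
      rcases hx with rfl | rfl | rfl | rfl
      · exact f1
      · exact f2
      · exact f3
      · exact f4
    have hdiff : ∑ d ∈ (M.fold d1 d2 d3 d4).DS, ((w d : ℂ) - (ω d : ℂ)) * T d =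
        ∑ d ∈ ({M.al d1, M.al d2, M.al d3, M.al d4} : Finset D), ((w d : ℂ) - (ω d : ℂ)) * T d := by
      symm
      apply Finset.sum_subset hs2
      intro x _ hx
      simp only [Finset.mem_insert, Finset.mem_singleton, not_or] at hx
      rw [w0 x hx.1 hx.2.1 hx.2.2.1 hx.2.2.2, sub_self, zero_mul]
    have hfour' : ∑ d ∈ ({M.al d1, M.al d2, M.al d3, M.al d4} : Finset D), ((w d : ℂ) - (ω d : ℂ)) * T d =
        (ω d2 : ℂ) * T d2 + ((ω d1 : ℂ) * T d1 + ((ω d4 : ℂ) * T d4 + (ω d3 : ℂ) * T d3)) := by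
      rw [Finset.sum_insert, Finset.sum_insert, Finset.sum_insert, Finset.sum_singleton, w1, w2, w3, w4, s1, s2, s3, s4,
        T1, T2, T3, T4]
      · push_cast
        ring
      · simp only [Finset.mem_singleton]
        exact t34
      · simp only [Finset.mem_insert, Finset.mem_singleton, not_or]
        exact ⟨t23, t24⟩
      · simp only [Finset.mem_insert, Finset.mem_singleton, not_or]
        exact ⟨t12, t13, t14⟩
    have hfin : ∑ d ∈ (M.fold d1 d2 d3 d4).DS, (w d : ℂ) * T d =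
        ∑ d ∈ (M.fold d1 d2 d3 d4).DS, (ω d : ℂ) * T d +
        ∑ d ∈ (M.fold d1 d2 d3 d4).DS, ((w d : ℂ) - (ω d : ℂ)) * T d := by
      rw [← Finset.sum_add_distrib]
      apply Finset.sum_congr rfl
      intro d _
      ring
    rw [hfin, hdiff, hfour']
    rw [hfour] at hsplit
    linear_combination hsplit
  have hz := hs w halv hbal'
  have z1 := hz _ f1
  have z3 := hz _ f3
  rw [w1] at z1
  rw [w3] at z3
  have z0 : ∀ d ∈ M.DS, d ≠ d1 → d ≠ d2 → d ≠ d3 → d ≠ d4 → d ≠ M.al d1 → d ≠ M.al d2 → d ≠ M.al d3 → d ≠ M.al d4 →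
      ω d = 0 := by
    intro d hd e1 e2 e3 e4 e5 e6 e7 e8
    rw [← w0 d e5 e6 e7 e8]
    apply hz
    rw [fold_mem]
    exact ⟨hd, e1, e2, e3, e4⟩
  -- the equation at `A`
  have hA := hbal (M.t d1) (h.t_mem _ q.m1)
  have hA2 : ∑ d ∈ M.star (M.t d1), (ω d : ℂ) * (unf M d1 d3 p (M.t d1) - unf M d1 d3 p (M.t (M.al d))) =
      ∑ d ∈ ({d1, M.al d4} : Finset D), (ω d : ℂ) * (unf M d1 d3 p (M.t d1) - unf M d1 d3 p (M.t (M.al d))) := by
    symm
    apply Finset.sum_subset
    · intro x hx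
      simp only [Finset.mem_insert, Finset.mem_singleton] at hx
      rw [mem_star]
      rcases hx with rfl | rfl
      · exact ⟨q.m1, rfl⟩
      · exact ⟨am4, g4⟩
    · intro x hx hx2
      rw [mem_star] at hx
      simp only [Finset.mem_insert, Finset.mem_singleton, not_or] at hx2
      rw [z0 x hx.1 hx2.1 (hne (by rw [hx.2]; exact ab)) (hne (by rw [hx.2]; exact ac)) (hne (by rw [hx.2]; exact ae))
        (hne (by rw [hx.2, g1]; exact ab)) (hne (by rw [hx.2, g2]; exact ac)) (hne (by rw [hx.2, g3]; exact ae)) hx2.2]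
      rw [Complex.ofReal_zero, zero_mul]
  rw [hA2, Finset.sum_pair (fun e => b4.1 e.symm), s4, g1, h.al_al _ q.m4, hP _ ac, hP _ bc, hP _ ce.symm] at hA
  obtain ⟨o1, o4⟩ := cross_indep hc hA
  have o2 : ω d2 = 0 := by linarith
  have o3 : ω d3 = 0 := by linarith
  intro d hd
  by_cases e1 : d = d1
  · rw [e1]; exact o1
  by_cases e2 : d = d2
  · rw [e2]; exact o2
  by_cases e3 : d = d3
  · rw [e3]; exact o3
  by_cases e4 : d = d4
  · rw [e4]; exact o4
  by_cases e5 : d = M.al d1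
  · rw [e5, s1]; exact o1
  by_cases e6 : d = M.al d2
  · rw [e6, s2]; exact o2
  by_cases e7 : d = M.al d3
  · rw [e7, s3]; exact o3
  by_cases e8 : d = M.al d4
  · rw [e8, s4]; exact o4
  exact z0 d hd e1 e2 e3 e4 e5 e6 e7 e8

end Pool.Agent.Helper37.CP
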