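import Pool.Agent.Helper37.CP.FoldSF
import Pool.Agent.Helper37.CP.FoldAdm
import Pool.Agent.Helper37.CP.Ts

/-!
# Block CP-FTS: the angle sums at the folded placement.

`M' = M.fold d1 d2 d3 d4`, `P = unf M d1 d3 p`, all angle sums of `M'` at `p` are `2 π`. For a dart `d` of `M'` write `T d` for the turn of `M` at
`P` from `d` to `nx d`.
(0) For a dart `d` of `M'` (so `d ≠ di`), the turn of `M'` at `p` from `d` to `nx' d` equals the turn from the direction (in `P`) of `d` to the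
  direction of `nx d`: the head of `nx' d` in `M'` and the head of `nx d` in `M` have the same position in `P`, also if `nx d = di`:
  `nx d = d1 : A → B` gives `nx' d = al d2 : C → B`; `nx d = d2 : B → C` gives `nx' d = al d1 : B → A`; `nx d = d3 : C → E` gives
  `nx' d = al d4 : A → E`; `nx d = d4 : E → A` gives `nx' d = al d3 : E → C`. So it is `T d` in all cases.
(1) `v ∉ {A, B, C, E}`: the stars of `v` in `M` and `M'` coincide, so `ts P v = ts' p v`.
(2) `B`: star in `M'` = star in `M` without `d2`; so the sum of `T d` over the darts `≠ d2` of the star of `B` is `2 π`. Same at `E` without `d4`.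
(3) `A`: star of `A` in `M'` = (star of `A` in `M` without `d1`) ∪ (star of `C` in `M` without `d3`); both parts are nonempty (`al d4`, `al d2`)
  and the sums `SA`, `SC` of `T` over them are positive with `SA + SC = 2 π`. Then `ts P A = SA + T d1 < 2 π + 2 π`, so `ts P A = 2 π` by
  `ts_eq`. In the same way `ts P C = 2 π`. (Heads differ from the centre: `hp`.)
-/

set_option linter.unusedSectionVars false

namespace Pool.Agent.Helper37.CP

variable {V D F : Type*} [DecidableEq V] [DecidableEq D] [DecidableEq F] {M : CM V D F} {d1 d2 d3 d4 : D}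

private theorem nx82 (q : M.Quad d1 d2 d3 d4) (h : M.Ok) (hl : M.Lam) (h3 : 3 ≤ M.VS.card) (p : V → ℂ) (d : D) :
    unf M d1 d3 p (M.t (M.al ((M.fold d1 d2 d3 d4).nx d))) = unf M d1 d3 p (M.t (M.al (M.nx d))) := by
  obtain ⟨t12, t13, t14, t23, t24, t34⟩ := q.distinct h hl h3
  have hPC : unf M d1 d3 p (M.t d3) = p (M.t d1) := by unfold unf; rw [if_pos rfl]
  have hPA : unf M d1 d3 p (M.t d1) = p (M.t d1) := by unfold unf; rw [if_neg t13]
  have hnx : (M.fold d1 d2 d3 d4).nx d = if M.nx d = d1 then M.nx d3 else if M.nx d = d2 then M.nx d2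
    else if M.nx d = d3 then M.nx d1 else if M.nx d = d4 then M.nx d4 else M.nx d := rfl
  rw [hnx]
  split_ifs with e1 e2 e3 e4
  · rw [q.nx3 h, h.t_al_al q.m2, e1, q.h1 h]
  · rw [q.nx2 h, h.t_al_al q.m1, e2, q.h2 h, hPC, hPA]
  · rw [q.nx1 h, h.t_al_al q.m4, e3, q.h3 h]
  · rw [q.nx4 h, h.t_al_al q.m3, e4, q.h4 h, hPC, hPA]
  · rfl

private theorem ts82 (q : M.Quad d1 d2 d3 d4) (h : M.Ok) (hl : M.Lam) (h3 : 3 ≤ M.VS.card) (p : V → ℂ) (v : V) :
    (M.fold d1 d2 d3 d4).ts p v = ∑ d ∈ (M.fold d1 d2 d3 d4).star v,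
      turn (unf M d1 d3 p (M.t (M.al d)) - unf M d1 d3 p (M.t d))
        (unf M d1 d3 p (M.t (M.al (M.nx d))) - unf M d1 d3 p (M.t d)) := by
  unfold CM.ts
  refine Finset.sum_congr rfl fun d hd => ?_
  rw [mem_star] at hd
  rw [← nx82 q h hl h3 p, q.unf_h h hl h3 p hd.1, q.unf_h h hl h3 p (q.fold_nx_mem h hl h3 d hd.1),
    q.unf_t h hl h3 p d, hd.2]

private theorem tsM82 (P : V → ℂ) (v : V) : M.ts P v = ∑ d ∈ M.star v,
    turn (P (M.t (M.al d)) - P (M.t d)) (P (M.t (M.al (M.nx d))) - P (M.t d)) := by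
  unfold CM.ts
  refine Finset.sum_congr rfl fun d hd => ?_
  rw [(mem_star.1 hd).2]

private theorem star82 {v : V} {d : D} : d ∈ (M.fold d1 d2 d3 d4).star v ↔
    (d ∈ M.DS ∧ d ≠ d1 ∧ d ≠ d2 ∧ d ≠ d3 ∧ d ≠ d4) ∧ (if M.t d = M.t d3 then M.t d1 else M.t d) = v := by
  rw [mem_star, fold_mem]
  exact Iff.rfl

theorem CM.Quad.fold_ts (q : M.Quad d1 d2 d3 d4) (h : M.Ok) (hl : M.Lam) (h3 : 3 ≤ M.VS.card)
    (hf : M.Free (M.t d1) (M.t d2) (M.t d3) (M.t d4)) {p : V → ℂ}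
    (hp : ∀ d ∈ M.DS, unf M d1 d3 p (M.t d) ≠ unf M d1 d3 p (M.t (M.al d)))
    (hts : ∀ v ∈ (M.fold d1 d2 d3 d4).VS, (M.fold d1 d2 d3 d4).ts p v = 2 * Real.pi) :
    ∀ v ∈ M.VS, v ≠ M.t d2 → v ≠ M.t d4 → M.ts (unf M d1 d3 p) v = 2 * Real.pi := by
  obtain ⟨t12, t13, t14, t23, t24, t34⟩ := q.distinct h hl h3
  intro v hv hvB hvE
  have hpv : ∀ w, ∀ d ∈ M.star w, unf M d1 d3 p (M.t (M.al d)) ≠ unf M d1 d3 p w := by
    intro w d hd
    rw [mem_star] at hd
    rw [← hd.2]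
    exact (hp d hd.1).symm
  have hstA : (M.fold d1 d2 d3 d4).star (M.t d1) = (M.star (M.t d1)).erase d1 ∪ (M.star (M.t d3)).erase d3 := by
    ext d
    rw [star82, Finset.mem_union, Finset.mem_erase, Finset.mem_erase, mem_star, mem_star]
    constructor
    · rintro ⟨⟨hd, k1, k2, k3, k4⟩, e⟩
      split_ifs at e with e1
      · exact Or.inr ⟨k3, hd, e1⟩
      · exact Or.inl ⟨k1, hd, e⟩
    · rintro (⟨k1, hd, e⟩ | ⟨k3, hd, e⟩)
      · refine ⟨⟨hd, k1, fun x => t12 (by rw [← e, x]), fun x => t13 (by rw [← e, x]),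
          fun x => t14 (by rw [← e, x])⟩, ?_⟩
        rw [if_neg (by rw [e]; exact t13), e]
      · refine ⟨⟨hd, fun x => t13 (by rw [← e, x]), fun x => t23 (by rw [← e, x]), k3,
          fun x => t34 (by rw [← e, x])⟩, ?_⟩
        rw [if_pos e]
  have hdis : Disjoint ((M.star (M.t d1)).erase d1) ((M.star (M.t d3)).erase d3) := by
    rw [Finset.disjoint_left]
    intro d k1 k3
    have e1 := (mem_star.1 (Finset.mem_erase.1 k1).2).2
    have e3 := (mem_star.1 (Finset.mem_erase.1 k3).2).2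
    exact t13 (by rw [← e1, e3])
  have hA : M.t d1 ∈ (M.fold d1 d2 d3 d4).VS := Finset.mem_erase.2 ⟨t13, h.t_mem _ q.m1⟩
  have hsum := hts _ hA
  rw [ts82 q h hl h3, hstA, Finset.sum_union hdis] at hsum
  have hal := q.al_not_mem h hl h3
  simp only [Finset.mem_insert, Finset.mem_singleton, not_or] at hal
  have hSA : 0 < ∑ d ∈ (M.star (M.t d1)).erase d1, turn (unf M d1 d3 p (M.t (M.al d)) - unf M d1 d3 p (M.t d))
        (unf M d1 d3 p (M.t (M.al (M.nx d))) - unf M d1 d3 p (M.t d)) := by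
    refine Finset.sum_pos (fun d _ => turn_pos _ _) ⟨M.al d4, ?_⟩
    rw [Finset.mem_erase, mem_star]
    exact ⟨hal.2.2.2.1, h.al_mem _ q.m4, q.h4 h⟩
  have hSC : 0 < ∑ d ∈ (M.star (M.t d3)).erase d3, turn (unf M d1 d3 p (M.t (M.al d)) - unf M d1 d3 p (M.t d))
        (unf M d1 d3 p (M.t (M.al (M.nx d))) - unf M d1 d3 p (M.t d)) := by
    refine Finset.sum_pos (fun d _ => turn_pos _ _) ⟨M.al d2, ?_⟩
    rw [Finset.mem_erase, mem_star]
    exact ⟨hal.2.1.2.2.1, h.al_mem _ q.m2, q.h2 h⟩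
  have hd1 : d1 ∈ M.star (M.t d1) := mem_star.2 ⟨q.m1, rfl⟩
  have hd3 : d3 ∈ M.star (M.t d3) := mem_star.2 ⟨q.m3, rfl⟩
  by_cases hvA : v = M.t d1
  · subst hvA
    refine h.ts_eq (hpv _) ⟨d1, hd1⟩ ?_
    rw [tsM82, ← Finset.add_sum_erase _ _ hd1]
    have := turn_le (unf M d1 d3 p (M.t (M.al d1)) - unf M d1 d3 p (M.t d1))
      (unf M d1 d3 p (M.t (M.al (M.nx d1))) - unf M d1 d3 p (M.t d1))
    linarith
  by_cases hvC : v = M.t d3
  · subst hvC
    refine h.ts_eq (hpv _) ⟨d3, hd3⟩ ?_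
    rw [tsM82, ← Finset.add_sum_erase _ _ hd3]
    have := turn_le (unf M d1 d3 p (M.t (M.al d3)) - unf M d1 d3 p (M.t d3))
      (unf M d1 d3 p (M.t (M.al (M.nx d3))) - unf M d1 d3 p (M.t d3))
    linarith
  have hv' : v ∈ (M.fold d1 d2 d3 d4).VS := Finset.mem_erase.2 ⟨hvC, hv⟩
  have hst : (M.fold d1 d2 d3 d4).star v = M.star v := by
    ext d
    rw [star82, mem_star]
    constructor
    · rintro ⟨⟨hd, -⟩, e⟩
      split_ifs at e with e1
      · exact absurd e.symm hvA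
      · exact ⟨hd, e⟩
    · rintro ⟨hd, e⟩
      refine ⟨⟨hd, fun x => hvA (by rw [← e, x]), fun x => hvB (by rw [← e, x]), fun x => hvC (by rw [← e, x]),
        fun x => hvE (by rw [← e, x])⟩, ?_⟩
      rw [if_neg (by rw [e]; exact hvC), e]
  have := hts v hv'
  rw [ts82 q h hl h3, hst] at this
  rw [tsM82]
  exact this

theorem CM.Quad.fold_tsB (q : M.Quad d1 d2 d3 d4) (h : M.Ok) (hl : M.Lam) (h3 : 3 ≤ M.VS.card)
    (hf : M.Free (M.t d1) (M.t d2) (M.t d3) (M.t d4)) {p : V → ℂ}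
    (hts : (M.fold d1 d2 d3 d4).ts p (M.t d2) = 2 * Real.pi) :
    ∑ d ∈ (M.star (M.t d2)).erase d2, turn (unf M d1 d3 p (M.t (M.al d)) - unf M d1 d3 p (M.t d2))
      (unf M d1 d3 p (M.t (M.al (M.nx d))) - unf M d1 d3 p (M.t d2)) = 2 * Real.pi := by
  obtain ⟨t12, t13, t14, t23, t24, t34⟩ := q.distinct h hl h3
  have hst : (M.fold d1 d2 d3 d4).star (M.t d2) = (M.star (M.t d2)).erase d2 := by
    ext d
    rw [star82, Finset.mem_erase, mem_star]
    constructor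
    · rintro ⟨⟨hd, k1, k2, k3, k4⟩, e⟩
      split_ifs at e with e1
      · exact absurd e t12
      · exact ⟨k2, hd, e⟩
    · rintro ⟨k2, hd, e⟩
      refine ⟨⟨hd, fun x => t12 (by rw [← e, x]), k2, fun x => t23 (by rw [← e, x]),
        fun x => t24 (by rw [← e, x])⟩, ?_⟩
      rw [if_neg (by rw [e]; exact t23), e]
  rw [ts82 q h hl h3, hst] at hts
  rw [← hts]
  refine Finset.sum_congr rfl fun d hd => ?_
  rw [(mem_star.1 (Finset.mem_erase.1 hd).2).2]

theorem CM.Quad.fold_tsE (q : M.Quad d1 d2 d3 d4) (h : M.Ok) (hl : M.Lam) (h3 : 3 ≤ M.VS.card)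
    (hf : M.Free (M.t d1) (M.t d2) (M.t d3) (M.t d4)) {p : V → ℂ}
    (hts : (M.fold d1 d2 d3 d4).ts p (M.t d4) = 2 * Real.pi) :
    ∑ d ∈ (M.star (M.t d4)).erase d4, turn (unf M d1 d3 p (M.t (M.al d)) - unf M d1 d3 p (M.t d4))
      (unf M d1 d3 p (M.t (M.al (M.nx d))) - unf M d1 d3 p (M.t d4)) = 2 * Real.pi := by
  obtain ⟨t12, t13, t14, t23, t24, t34⟩ := q.distinct h hl h3
  have hst : (M.fold d1 d2 d3 d4).star (M.t d4) = (M.star (M.t d4)).erase d4 := by
    ext d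
    rw [star82, Finset.mem_erase, mem_star]
    constructor
    · rintro ⟨⟨hd, k1, k2, k3, k4⟩, e⟩
      split_ifs at e with e1
      · exact absurd e t14
      · exact ⟨k4, hd, e⟩
    · rintro ⟨k4, hd, e⟩
      refine ⟨⟨hd, fun x => t14 (by rw [← e, x]), fun x => t24 (by rw [← e, x]), fun x => t34 (by rw [← e, x]),
        k4⟩, ?_⟩
      rw [if_neg (by rw [e]; exact t34.symm), e]
  rw [ts82 q h hl h3, hst] at hts
  rw [← hts]
  refine Finset.sum_congr rfl fun d hd => ?_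
  rw [(mem_star.1 (Finset.mem_erase.1 hd).2).2]

end Pool.Agent.Helper37.CP
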