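import Mathlib

/-!
# Circle packings of plane graphs: definitions for the statement
-/

namespace CPG

noncomputable section

/-- A rotation system of a graph: for every vertex a permutation of its neighbours with a single cycle
(`next v x` is the neighbour of `v` following `x` in counterclockwise direction). -/
structure Rotation {V : Type*} (G : SimpleGraph V) where
  next : ∀ v : V, Equiv.Perm (G.neighborSet v)
  single : ∀ (v : V) (x y : G.neighborSet v), ∃ k : ℕ, (⇑(next v))^[k] x = y

variable {V : Type*} {G : SimpleGraph V}

/-- The face permutation on the oriented edges: `u → v` is followed by `v → w` where `next v w = u`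
(the walk along the face lying to the left of `u → v`). -/
def Rotation.face (R : Rotation G) : Equiv.Perm G.Dart where
  toFun d := ⟨(d.snd, ((R.next d.snd).symm ⟨d.fst, d.adj.symm⟩ : V)),
    ((R.next d.snd).symm ⟨d.fst, d.adj.symm⟩).2⟩
  invFun d := ⟨(((R.next d.fst) ⟨d.snd, d.adj⟩ : V), d.fst), (((R.next d.fst) ⟨d.snd, d.adj⟩).2).symm⟩
  left_inv d := by
    ext
    · exact congrArg Subtype.val ((R.next d.snd).apply_symm_apply ⟨d.fst, d.adj.symm⟩)
    · rfl
  right_inv d := by
    ext
    · rfl
    · exact congrArg Subtype.val ((R.next d.fst).symm_apply_apply ⟨d.snd, d.adj⟩)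

/-- The faces are the cycles of the face permutation. -/
def Rotation.numFaces (R : Rotation G) : ℕ := Nat.card (Quotient (Equiv.Perm.SameCycle.setoid R.face))

/-- The rotation system describes an embedding in the plane (equivalently the sphere): the graph is connected
and `V - E + F = 2`. -/
def Rotation.IsPlane (R : Rotation G) : Prop :=
  G.Connected ∧ Nat.card V + R.numFaces = Nat.card G.edgeSet + 2

/-- Length of the face to the left of `d`: the number of oriented edges in its boundary walk. -/
def Rotation.faceLength (R : Rotation G) (d : G.Dart) : ℕ := Nat.card {e : G.Dart // R.face.SameCycle d e}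

/-- Every infinitesimal flex of the framework `(G, q)` is an infinitesimal congruence `z ↦ a + i b z`. -/
def InfinitesimallyRigid (G : SimpleGraph V) (q : V → ℂ) : Prop :=
  ∀ u : V → ℂ, (∀ i j, G.Adj i j → ((q i - q j) * (starRingEnd ℂ) (u i - u j)).re = 0) →
    ∃ (a : ℂ) (b : ℝ), ∀ i, u i = a + (b : ℂ) * Complex.I * q i

/-- Generic rigidity in the plane: some (equivalently, every generic) placement is infinitesimally rigid. -/
def GenericallyRigid (G : SimpleGraph V) : Prop := ∃ q : V → ℂ, InfinitesimallyRigid G q

/-- The counterclockwise angle from `z` to `w`, in `(0, 2π]`. -/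
def ccwAngle (z w : ℂ) : ℝ := if 0 < (w / z).arg then (w / z).arg else (w / z).arg + 2 * Real.pi

/-- A packing of the plane graph `(G, R)`: circles with centres `p v` and radii `r v > 0`, externally tangent along the
edges, such that the neighbours of every vertex `v` appear around `p v` in the counterclockwise cyclic order of `R`: the
counterclockwise angles from each neighbour to the next one add up to exactly one full turn. -/
structure IsPacking (R : Rotation G) (p : V → ℂ) (r : V → ℝ) : Prop where
  pos : ∀ v, 0 < r v
  tangent : ∀ i j, G.Adj i j → (r i + r j) ^ 2 = ‖p i - p j‖ ^ 2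
  cyclic : ∀ v, ∑ᶠ x : G.neighborSet v, ccwAngle (p x - p v) (p (R.next v x) - p v) = 2 * Real.pi

end

end CPG
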