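import Pool.Agent.Helper37.CP.Basic

/-!
# Block CP-HALF: a set of representatives of the edges.

`DS` with the fixed point free involution `al` has a subset `E` containing exactly one of `d`, `al d` for every dart `d`, and
`2 |E| = |DS|`. Proof: strong induction on the cardinality of an `al`-invariant finset `T ⊆ DS` (statement: for every such `T` there
is `E ⊆ T` with `2 |E| = |T|` and `d ∈ E ↔ al d ∉ E` for `d ∈ T`): if `T` is empty take `E = ∅`; otherwise pick `d ∈ T`, apply the
induction to `T \ {d, al d}` and add `d`. (Or use `Finset.exists_max_image`, a linear order, or `Zorn`; any proof will do.)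
-/

set_option linter.unusedSectionVars false

namespace Pool.Agent.Helper37.CP

variable {V D F : Type*} [DecidableEq V] [DecidableEq D] [DecidableEq F] {M : CM V D F}

private theorem CM.Ok.exists_half_aux_h30 (h : M.Ok) : ∀ (n : ℕ) (T : Finset D), T.card = n → T ⊆ M.DS →
    (∀ d ∈ T, M.al d ∈ T) → ∃ E ⊆ T, 2 * E.card = T.card ∧ ∀ d ∈ T, (d ∈ E ↔ M.al d ∉ E) := by
  intro n
  induction n using Nat.strong_induction_on with
  | _ n ih =>
    intro T hn hT hal
    rcases T.eq_empty_or_nonempty with rfl | ⟨d, hd⟩
    · exact ⟨∅, by simp, by simp, by simp⟩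
    have hd' : M.al d ∈ T := hal d hd
    have hne : M.al d ≠ d := fun h0 => h.loopless d (hT hd) (by rw [h0])
    have haa : M.al (M.al d) = d := h.al_al d (hT hd)
    obtain ⟨T', hT'⟩ : ∃ T', T' = (T.erase d).erase (M.al d) := ⟨_, rfl⟩
    have hmem : ∀ x, x ∈ T' ↔ x ≠ M.al d ∧ x ≠ d ∧ x ∈ T := by
      intro x
      rw [hT', Finset.mem_erase, Finset.mem_erase]
    have hcard : T'.card + 2 = T.card := by
      have h1 : (T.erase d).card + 1 = T.card := Finset.card_erase_add_one hd
      have h2 : T'.card + 1 = (T.erase d).card := by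
        rw [hT']
        exact Finset.card_erase_add_one (Finset.mem_erase.mpr ⟨hne, hd'⟩)
      omega
    obtain ⟨E, hE, hEc, hEa⟩ := ih T'.card (by omega) T' rfl
      (fun x hx => hT ((hmem x).mp hx).2.2) (by
        intro x hx
        obtain ⟨h1, h2, h3⟩ := (hmem x).mp hx
        refine (hmem _).mpr ⟨fun h4 => h2 ?_, fun h4 => h1 ?_, hal x h3⟩
        · rw [← h.al_al x (hT h3), h4, haa]
        · rw [← h4, h.al_al x (hT h3)])
    have hdE : d ∉ E := fun h1 => ((hmem d).mp (hE h1)).2.1 rfl
    have hdE' : M.al d ∉ E := fun h1 => ((hmem _).mp (hE h1)).1 rfl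
    refine ⟨insert d E, ?_, ?_, ?_⟩
    · intro x hx
      rcases Finset.mem_insert.mp hx with rfl | hx
      · exact hd
      · exact ((hmem x).mp (hE hx)).2.2
    · rw [Finset.card_insert_of_notMem hdE]
      omega
    · intro x hx
      by_cases h1 : x = d
      · subst h1
        simp only [Finset.mem_insert, true_or, true_iff, not_or]
        exact ⟨hne, hdE'⟩
      by_cases h2 : x = M.al d
      · subst h2
        rw [haa]
        simp only [Finset.mem_insert, true_or, not_true, iff_false, not_or]
        exact ⟨hne, hdE'⟩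
      have h3 := hEa x ((hmem x).mpr ⟨h2, h1, hx⟩)
      have h4 : M.al x ≠ d := by
        intro h5
        apply h2
        rw [← h5, h.al_al x (hT hx)]
      simp only [Finset.mem_insert, h1, h4, false_or]
      exact h3

theorem CM.Ok.exists_half (h : M.Ok) :
    ∃ E ⊆ M.DS, 2 * E.card = M.DS.card ∧ ∀ d ∈ M.DS, (d ∈ E ↔ M.al d ∉ E) :=
  h.exists_half_aux_h30 M.DS.card M.DS rfl (fun _ hx => hx) h.al_mem

end Pool.Agent.Helper37.CP
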