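import Pool.Agent.Helper37.CP.Lam1
import Pool.Agent.Helper37.CP.Half

/-!
# Block CP-HOM: on a plane map every even set of edges is a sum of face boundaries (mod 2).

`K = ZMod 2`. Work with the finite types `↥M.VS`, `↥M.DS`, `↥M.FS` (or with functions and subtypes, as you like).
Linear maps: `δ : (↥FS → K) → (↥DS → K)`, `(δ c) d = c (fc d) + c (fc (al d))`; `∂ : (↥DS → K) → (↥VS → K)`,
`(∂ g) v = ∑ over the darts d with t d = v of g d`; `S` = the subspace of `al`-invariant functions `↥DS → K`.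
(1) `ker δ` consists of constant functions: if `c (fc d) = c (fc (al d))` for all darts, then, as `fc (pv d) = fc (al d)` (this is `fc_ph`
for the dart `al d`), `c (fc (pv d)) = c (fc d)`; so `c (fc ·)` is constant on every star (`star_ind`, direction `nx`: apply it with
`nx d`), it is the same for the stars of adjacent vertices, hence on all darts by `conn` (Lam1), and every face has a dart
(`fc_surj`). So `finrank (range δ) ≥ |FS| - 1`.
(2) `range δ ≤ S ⊓ ker ∂`: symmetric since `al (al d) = d`; the sum over a star of `c (fc (al d)) = c (fc (pv d))` equals the sum of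
`c (fc d)` (`sum_nx`), so the total is `2 * _ = 0`.
(3) `finrank S ≤ |DS| / 2`: the restriction of `S` to the half `E` of `exists_half` is injective.
(4) the image `∂ S` together with one unit vector `e_{v0}` spans everything: for adjacent `u, w` the function `1` at `d`, `al d` has
`∂ = e_u + e_w`; by `conn` every `e_w` lies in `∂ S + K e_{v0}`. So `finrank (∂ S) ≥ |VS| - 1` and
`finrank (S ⊓ ker ∂) ≤ |DS| / 2 - (|VS| - 1) = |FS| - 1` by `euler`.
(5) So `range δ = S ⊓ ker ∂` (`Submodule.eq_of_le_of_finrank_le`), which is the statement. (Counting cardinalities of the finite sets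
of functions instead of dimensions is also fine.)
-/

set_option linter.unusedSectionVars false

namespace Pool.Agent.Helper37.CP

variable {V D F : Type*} [DecidableEq V] [DecidableEq D] [DecidableEq F] {M : CM V D F}

private theorem fc_al_26 (h : M.Ok) {d : D} (hd : d ∈ M.DS) : M.fc (M.al d) = M.fc (M.pv d) := by
  have h1 := h.fc_ph (M.al d) (h.al_mem d hd)
  rw [h.al_al d hd] at h1
  exact h1.symm

/-- the coboundary of a function on the faces -/
private noncomputable def dl_26 (h : M.Ok) : (↥M.FS → ZMod 2) →ₗ[ZMod 2] (↥M.DS → ZMod 2) :=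
  LinearMap.funLeft (ZMod 2) (ZMod 2) (fun d : ↥M.DS => (⟨M.fc d, h.fc_mem d d.2⟩ : ↥M.FS)) +
    LinearMap.funLeft (ZMod 2) (ZMod 2) (fun d : ↥M.DS => (⟨M.fc (M.al d), h.fc_mem _ (h.al_mem d d.2)⟩ : ↥M.FS))

private theorem dl_apply_26 (h : M.Ok) (c : ↥M.FS → ZMod 2) (d : ↥M.DS) :
    dl_26 h c d = c ⟨M.fc d, h.fc_mem d d.2⟩ + c ⟨M.fc (M.al d), h.fc_mem _ (h.al_mem d d.2)⟩ := rfl

/-- the boundary of a function on the darts -/
private noncomputable def bd_26 (M : CM V D F) : (↥M.DS → ZMod 2) →ₗ[ZMod 2] (↥M.VS → ZMod 2) where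
  toFun g v := ∑ d : ↥M.DS, if M.t d = v then g d else 0
  map_add' g g' := by
    funext v
    rw [Pi.add_apply, ← Finset.sum_add_distrib]
    refine Finset.sum_congr rfl fun d _ => ?_
    split_ifs <;> simp
  map_smul' k g := by
    funext v
    simp only [RingHom.id_apply, Pi.smul_apply, smul_eq_mul, Finset.mul_sum]
    refine Finset.sum_congr rfl fun d _ => ?_
    split_ifs <;> simp

private theorem bd_apply_26 (g : ↥M.DS → ZMod 2) (v : ↥M.VS) :
    bd_26 M g v = ∑ d : ↥M.DS, if M.t d = v then g d else 0 := rfl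

private theorem bd_star_26 (g : D → ZMod 2) (v : ↥M.VS) :
    bd_26 M (fun d => g d) v = ∑ d ∈ M.star v, g d := by
  rw [bd_apply_26]
  unfold CM.star
  rw [Finset.sum_filter]
  exact Finset.sum_coe_sort M.DS (fun d => if M.t d = v then g d else 0)

/-- the symmetric functions on the darts -/
private def sy_26 (h : M.Ok) : Submodule (ZMod 2) (↥M.DS → ZMod 2) where
  carrier := {g | ∀ d : ↥M.DS, g ⟨M.al d, h.al_mem d d.2⟩ = g d}
  add_mem' := by
    intro a b ha hb d
    rw [Pi.add_apply, Pi.add_apply, ha d, hb d]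
  zero_mem' := by
    intro d
    rfl
  smul_mem' := by
    intro k a ha d
    rw [Pi.smul_apply, Pi.smul_apply, ha d]

private theorem mem_sy_26 (h : M.Ok) {g : ↥M.DS → ZMod 2} :
    g ∈ sy_26 h ↔ ∀ d : ↥M.DS, g ⟨M.al d, h.al_mem d d.2⟩ = g d := Iff.rfl

private theorem z2_26 (a : ZMod 2) : a + a = 0 := by
  revert a
  decide

private theorem z2eq_26 {a b : ZMod 2} (hab : a + b = 0) : b = a := by
  revert a b
  decide

private theorem range_le_26 (h : M.Ok) : LinearMap.range (dl_26 h) ≤ sy_26 h ⊓ LinearMap.ker (bd_26 M) := by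
  rintro _ ⟨c, rfl⟩
  refine ⟨?_, ?_⟩
  · intro d
    rw [dl_apply_26, dl_apply_26]
    have h1 : (⟨M.fc (M.al (M.al d)), h.fc_mem _ (h.al_mem _ (h.al_mem d d.2))⟩ : ↥M.FS) =
        ⟨M.fc d, h.fc_mem d d.2⟩ := by
      apply Subtype.ext
      show M.fc (M.al (M.al d)) = M.fc d
      rw [h.al_al d d.2]
    rw [add_comm]
    exact congrArg₂ (· + ·) (congrArg c h1) rfl
  · rw [SetLike.mem_coe, LinearMap.mem_ker]
    funext v
    classical
    obtain ⟨c', hc'⟩ : ∃ c' : F → ZMod 2, ∀ f : ↥M.FS, c' f = c f :=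
      ⟨fun f => if hf : f ∈ M.FS then c ⟨f, hf⟩ else 0, fun f => by simp⟩
    have h1 : dl_26 h c = fun d : ↥M.DS => (fun d : D => c' (M.fc d) + c' (M.fc (M.al d))) d := by
      funext d
      rw [dl_apply_26, ← hc', ← hc']
    rw [h1, bd_star_26 (fun d : D => c' (M.fc d) + c' (M.fc (M.al d))) v, Finset.sum_add_distrib]
    have h2 : ∑ d ∈ M.star v, c' (M.fc (M.al d)) = ∑ d ∈ M.star v, c' (M.fc d) := by
      have h3 := h.sum_nx v (fun d => c' (M.fc (M.pv d)))
      rw [← Finset.sum_congr rfl (fun d hd => congrArg c' (fc_al_26 h (mem_star.1 hd).1))] at h3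
      rw [← h3]
      refine Finset.sum_congr rfl fun d hd => ?_
      rw [h.pv_nx d (mem_star.1 hd).1]
    rw [h2]
    exact z2_26 _

private theorem ker_26 (hl : M.Lam) (h : M.Ok) :
    Module.finrank (ZMod 2) (LinearMap.ker (dl_26 h)) ≤ 1 := by
  classical
  have hle : LinearMap.ker (dl_26 h) ≤ Submodule.span (ZMod 2) {fun _ => 1} := by
    intro c hc
    obtain ⟨c', hc'⟩ : ∃ c' : F → ZMod 2, ∀ f : ↥M.FS, c' f = c f :=
      ⟨fun f => if hf : f ∈ M.FS then c ⟨f, hf⟩ else 0, fun f => by simp⟩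
    have hk : ∀ d ∈ M.DS, c' (M.fc (M.al d)) = c' (M.fc d) := by
      intro d hd
      have h1 := congrFun (LinearMap.mem_ker.1 hc) ⟨d, hd⟩
      rw [dl_apply_26, ← hc', ← hc'] at h1
      exact z2eq_26 h1
    have hne : M.VS.Nonempty := Finset.card_pos.1 (by have := hl.two; omega)
    obtain ⟨v0, hv0⟩ := hne
    obtain ⟨d0, hd0⟩ := hl.star_ne h hv0
    rw [mem_star] at hd0
    have hst : ∀ e ∈ M.DS, c' (M.fc e) = c' (M.fc d0) →
        ∀ e' ∈ M.DS, M.t e' = M.t e → c' (M.fc e') = c' (M.fc d0) := by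
      intro e he hee
      apply h.star_ind he (fun e' => c' (M.fc e') = c' (M.fc d0)) hee
      intro d hd _ hd2
      show c' (M.fc (M.nx d)) = c' (M.fc d0)
      rw [← hk _ (h.nx_mem d hd), fc_al_26 h (h.nx_mem d hd), h.pv_nx d hd]
      exact hd2
    have hall : M.VS.filter (fun v => ∀ d ∈ M.DS, M.t d = v → c' (M.fc d) = c' (M.fc d0)) = M.VS := by
      by_contra hcon
      obtain ⟨d, hd, hd1, hd2⟩ := hl.conn h _ (Finset.filter_subset _ _)
        ⟨v0, Finset.mem_filter.2 ⟨hv0, fun d hd hdv => hst d0 hd0.1 rfl d hd (by rw [hdv, hd0.2])⟩⟩ hcon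
      rw [Finset.mem_sdiff, Finset.mem_filter] at hd2
      apply hd2.2
      refine ⟨hd2.1, ?_⟩
      have h1 := (Finset.mem_filter.1 hd1).2 d hd rfl
      exact hst (M.al d) (h.al_mem d hd) (by rw [hk d hd, h1])
    rw [Submodule.mem_span_singleton]
    refine ⟨c' (M.fc d0), ?_⟩
    funext f
    obtain ⟨d, hd, hdf⟩ := h.fc_surj f f.2
    have h1 : M.t d ∈ M.VS.filter (fun v => ∀ d ∈ M.DS, M.t d = v → c' (M.fc d) = c' (M.fc d0)) := by
      rw [hall]
      exact h.t_mem d hd
    have h2 := (Finset.mem_filter.1 h1).2 d hd rfl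
    rw [Pi.smul_apply, smul_eq_mul, mul_one, ← h2, hdf, hc']
  refine (Submodule.finrank_mono hle).trans ?_
  refine (finrank_span_le_card _).trans ?_
  simp

private theorem sy_finrank_26 (h : M.Ok) : 2 * Module.finrank (ZMod 2) (sy_26 h) ≤ M.DS.card := by
  obtain ⟨E, hE, hEc, hEa⟩ := h.exists_half
  have hinj : Function.Injective ((LinearMap.funLeft (ZMod 2) (ZMod 2)
      (fun e : ↥E => (⟨e, hE e.2⟩ : ↥M.DS))).comp (sy_26 h).subtype) := by
    intro a b hab
    apply Subtype.ext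
    funext d
    by_cases hd : (d : D) ∈ E
    · exact congrFun hab ⟨d, hd⟩
    · have hd' : M.al d ∈ E := by
        by_contra h1
        exact hd ((hEa d d.2).2 h1)
      have h1 := congrFun hab ⟨M.al d, hd'⟩
      have h2 : (a : ↥M.DS → ZMod 2) ⟨M.al d, h.al_mem d d.2⟩ = (b : ↥M.DS → ZMod 2) ⟨M.al d, h.al_mem d d.2⟩ := h1
      rw [(mem_sy_26 h).1 a.2 d, (mem_sy_26 h).1 b.2 d] at h2
      exact h2
  have h1 := LinearMap.finrank_le_finrank_of_injective hinj
  rw [Module.finrank_fintype_fun_eq_card, Fintype.card_coe] at h1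
  omega

private theorem bd_finrank_26 (hl : M.Lam) (h : M.Ok) :
    M.VS.card ≤ Module.finrank (ZMod 2) (LinearMap.range ((bd_26 M).domRestrict (sy_26 h))) + 1 := by
  classical
  have hne : M.VS.Nonempty := Finset.card_pos.1 (by have := hl.two; omega)
  obtain ⟨v0, hv0⟩ := hne
  obtain ⟨R, hR⟩ : ∃ R, R = LinearMap.range ((bd_26 M).domRestrict (sy_26 h)) ⊔
      Submodule.span (ZMod 2) {Pi.single (⟨v0, hv0⟩ : ↥M.VS) (1 : ZMod 2)} := ⟨_, rfl⟩
  have hedge : ∀ d (hd : d ∈ M.DS), (Pi.single (⟨M.t d, h.t_mem d hd⟩ : ↥M.VS) (1 : ZMod 2) +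
      Pi.single (⟨M.t (M.al d), h.h_mem hd⟩ : ↥M.VS) (1 : ZMod 2)) ∈ R := by
    intro d hd
    rw [hR]
    apply Submodule.mem_sup_left
    have hmem : (fun e : ↥M.DS => if (e : D) = d ∨ (e : D) = M.al d then (1 : ZMod 2) else 0) ∈ sy_26 h := by
      intro e
      show (if M.al e = d ∨ M.al e = M.al d then (1 : ZMod 2) else 0) = _
      congr 1
      rw [eq_iff_iff, h.al_eq_iff e.2 hd, h.al_eq_iff e.2 (h.al_mem d hd), h.al_al d hd]
      exact or_comm
    refine ⟨⟨_, hmem⟩, ?_⟩
    rw [LinearMap.domRestrict_apply]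
    funext v
    rw [bd_star_26 (fun e : D => if e = d ∨ e = M.al d then (1 : ZMod 2) else 0) v]
    have hne2 : M.al d ≠ d := h.al_ne hd
    have h1 : ∀ e : D, (if e = d ∨ e = M.al d then (1 : ZMod 2) else 0) =
        (if e = d then 1 else 0) + (if e = M.al d then 1 else 0) := by
      intro e
      by_cases h2 : e = d
      · subst h2
        simp [hne2.symm]
      · simp [h2]
    rw [Finset.sum_congr rfl (fun e _ => h1 e), Finset.sum_add_distrib, Finset.sum_ite_eq', Finset.sum_ite_eq',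
      Pi.add_apply, Pi.single_apply, Pi.single_apply]
    congr 1
    · simp only [mem_star, hd, true_and, Subtype.ext_iff]
      congr 1
      exact propext eq_comm
    · simp only [mem_star, h.al_mem d hd, true_and, Subtype.ext_iff]
      congr 1
      exact propext eq_comm
  have hall : M.VS.filter (fun v => ∃ hv : v ∈ M.VS, Pi.single (⟨v, hv⟩ : ↥M.VS) (1 : ZMod 2) ∈ R) = M.VS := by
    by_contra hcon
    obtain ⟨d, hd, hd1, hd2⟩ := hl.conn h _ (Finset.filter_subset _ _)
      ⟨v0, Finset.mem_filter.2 ⟨hv0, hv0, by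
        rw [hR]
        exact Submodule.mem_sup_right (Submodule.mem_span_singleton_self _)⟩⟩ hcon
    rw [Finset.mem_sdiff, Finset.mem_filter] at hd2
    apply hd2.2
    refine ⟨hd2.1, hd2.1, ?_⟩
    obtain ⟨_, hv, h1⟩ := Finset.mem_filter.1 hd1
    have h2 := Submodule.sub_mem _ (hedge d hd) h1
    rw [add_sub_cancel_left] at h2
    exact h2
  have htop : R = ⊤ := by
    rw [eq_top_iff, ← (Pi.basisFun (ZMod 2) ↥M.VS).span_eq, Submodule.span_le]
    rintro _ ⟨v, rfl⟩
    rw [Pi.basisFun_apply]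
    have h1 : (v : V) ∈ M.VS.filter (fun v => ∃ hv : v ∈ M.VS, Pi.single (⟨v, hv⟩ : ↥M.VS) (1 : ZMod 2) ∈ R) := by
      rw [hall]
      exact v.2
    obtain ⟨_, hv, h2⟩ := Finset.mem_filter.1 h1
    exact h2
  have h1 : Module.finrank (ZMod 2) R = M.VS.card := by
    rw [htop, finrank_top, Module.finrank_fintype_fun_eq_card, Fintype.card_coe]
  have h2 := Submodule.finrank_add_le_finrank_add_finrank (LinearMap.range ((bd_26 M).domRestrict (sy_26 h)))
    (Submodule.span (ZMod 2) {Pi.single (⟨v0, hv0⟩ : ↥M.VS) (1 : ZMod 2)})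
  rw [← hR, h1] at h2
  have h3 : Module.finrank (ZMod 2) (Submodule.span (ZMod 2)
      {(Pi.single (⟨v0, hv0⟩ : ↥M.VS) (1 : ZMod 2) : ↥M.VS → ZMod 2)}) ≤ 1 := by
    refine (finrank_span_le_card _).trans ?_
    simp
  omega

private theorem cyc_finrank_26 (h : M.Ok) :
    Module.finrank (ZMod 2) (sy_26 h ⊓ LinearMap.ker (bd_26 M) : Submodule (ZMod 2) (↥M.DS → ZMod 2)) +
      Module.finrank (ZMod 2) (LinearMap.range ((bd_26 M).domRestrict (sy_26 h))) =
      Module.finrank (ZMod 2) (sy_26 h) := by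
  have h1 := LinearMap.finrank_range_add_finrank_ker ((bd_26 M).domRestrict (sy_26 h))
  have h2 : Module.finrank (ZMod 2) (LinearMap.ker ((bd_26 M).domRestrict (sy_26 h))) =
      Module.finrank (ZMod 2) (sy_26 h ⊓ LinearMap.ker (bd_26 M) : Submodule (ZMod 2) (↥M.DS → ZMod 2)) := by
    have h3 : (LinearMap.ker ((bd_26 M).domRestrict (sy_26 h))).map (sy_26 h).subtype =
        sy_26 h ⊓ LinearMap.ker (bd_26 M) := by
      ext g
      constructor
      · rintro ⟨a, ha, rfl⟩
        exact ⟨a.2, ha⟩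
      · rintro ⟨h4, h5⟩
        exact ⟨⟨g, h4⟩, h5, rfl⟩
    rw [← h3]
    exact (LinearEquiv.finrank_eq (Submodule.equivMapOfInjective (sy_26 h).subtype
      (sy_26 h).injective_subtype _))
  omega

theorem CM.Lam.homology (hl : M.Lam) (h : M.Ok) (g : D → ZMod 2) (hg : ∀ d ∈ M.DS, g (M.al d) = g d)
    (hb : ∀ v ∈ M.VS, ∑ d ∈ M.star v, g d = 0) :
    ∃ c : F → ZMod 2, ∀ d ∈ M.DS, c (M.fc d) + c (M.fc (M.al d)) = g d := by
  have h1 : LinearMap.range (dl_26 h) = sy_26 h ⊓ LinearMap.ker (bd_26 M) := by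
    apply Submodule.eq_of_le_of_finrank_le (range_le_26 h)
    have e1 := LinearMap.finrank_range_add_finrank_ker (dl_26 h)
    rw [Module.finrank_fintype_fun_eq_card, Fintype.card_coe] at e1
    have e2 := ker_26 hl h
    have e3 := sy_finrank_26 h
    have e4 := bd_finrank_26 hl h
    have e5 := cyc_finrank_26 h
    have e6 := h.euler
    omega
  have h2 : (fun d : ↥M.DS => g d) ∈ LinearMap.range (dl_26 h) := by
    rw [h1]
    refine ⟨fun d => hg d d.2, ?_⟩
    rw [SetLike.mem_coe, LinearMap.mem_ker]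
    funext v
    rw [bd_star_26]
    exact hb v v.2
  obtain ⟨c, hc⟩ := h2
  classical
  refine ⟨fun f => if hf : f ∈ M.FS then c ⟨f, hf⟩ else 0, fun d hd => ?_⟩
  have h3 := congrFun hc ⟨d, hd⟩
  rw [dl_apply_26] at h3
  simp only [h.fc_mem d hd, h.fc_mem _ (h.al_mem d hd), dif_pos]
  exact h3

end Pool.Agent.Helper37.CP
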