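import Pool.Agent.Helper37.CP.Lam1

/-!
# Block CP-LEN: faces of length 3 and 4.

Write `ph d = pv (al d)`; `ph` maps `DS` to `DS`, is injective on `DS`, preserves `fc`, and `t (ph d) = t (al d)`.
(1) `ph d ≠ d`: the tails differ (`loopless`). (2) `ph (ph d) ≠ d`: otherwise `ph d` has tail `t (al d)` and head
`t (al (ph d)) = t (ph (ph d)) = t d`, as `al d` has, so `ph d = al d` by `simple`, i.e. `pv (al d) = al d`, against `pv_ne`.
So `d, ph d, ph (ph d)` are three distinct darts of the face: `len ≥ 3`. (3) If `len = 3`: `ph (ph (ph d))` is one of the three; it is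
not `ph d` nor `ph (ph d)` (injectivity and (1), (2)), so it is `d`. (4) If `len = 4`: if `ph (ph (ph d)) = d`, the fourth dart `e`
of the face has `ph e` in the face and not in `{d, ph d, ph (ph d)}` (injectivity), so `ph e = e`, against (1). So
`d, ph d, ph² d, ph³ d` are distinct (again by injectivity), they are all the darts of the face, and `ph⁴ d` must be `d`.
-/

set_option linter.unusedSectionVars false

namespace Pool.Agent.Helper37.CP

variable {V D F : Type*} [DecidableEq V] [DecidableEq D] [DecidableEq F] {M : CM V D F}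

theorem CM.Ok.ph_ne (h : M.Ok) {d : D} (hd : d ∈ M.DS) : M.pv (M.al d) ≠ d := by
  intro h1
  apply h.loopless d hd
  rw [← h.t_ph hd, h1]

theorem CM.Ok.ph_inj (h : M.Ok) {d e : D} (hd : d ∈ M.DS) (he : e ∈ M.DS)
    (h1 : M.pv (M.al d) = M.pv (M.al e)) : d = e :=
  h.al_inj hd he (h.pv_inj (h.al_mem d hd) (h.al_mem e he) h1)

theorem CM.Lam.ph2_ne (hl : M.Lam) (h : M.Ok) (h3 : 3 ≤ M.VS.card) {d : D} (hd : d ∈ M.DS) :
    M.pv (M.al (M.pv (M.al d))) ≠ d := by
  intro h1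
  have h2 : M.t (M.al (M.pv (M.al d))) = M.t d := by
    rw [← h.t_ph (h.ph_mem hd), h1]
  have h4 : M.pv (M.al d) = M.al d := by
    apply h.simple _ (h.ph_mem hd) _ (h.al_mem d hd) (h.t_ph hd)
    rw [h2, h.al_al d hd]
  exact hl.pv_ne h h3 (h.al_mem d hd) h4

private theorem face_ph_h12 (h : M.Ok) {f : F} {e : D} (he : e ∈ M.DS.filter (fun x => M.fc x = f)) :
    M.pv (M.al e) ∈ M.DS.filter (fun x => M.fc x = f) := by
  rw [Finset.mem_filter] at he ⊢
  exact ⟨h.ph_mem he.1, by rw [h.fc_ph e he.1]; exact he.2⟩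

private theorem card3_h12 (hl : M.Lam) (h : M.Ok) (h3 : 3 ≤ M.VS.card) {d : D} (hd : d ∈ M.DS) :
    ({d, M.pv (M.al d), M.pv (M.al (M.pv (M.al d)))} : Finset D).card = 3 := by
  rw [Finset.card_eq_three]
  exact ⟨_, _, _, (h.ph_ne hd).symm, (hl.ph2_ne h h3 hd).symm, (h.ph_ne (h.ph_mem hd)).symm, rfl⟩

private theorem sub3_h12 (h : M.Ok) {d : D} (hd : d ∈ M.DS) :
    ({d, M.pv (M.al d), M.pv (M.al (M.pv (M.al d)))} : Finset D) ⊆ M.DS.filter (fun x => M.fc x = M.fc d) := by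
  have h0 : d ∈ M.DS.filter (fun x => M.fc x = M.fc d) := by
    rw [Finset.mem_filter]
    exact ⟨hd, rfl⟩
  have h1 := face_ph_h12 h h0
  have h2 := face_ph_h12 h h1
  intro x hx
  simp only [Finset.mem_insert, Finset.mem_singleton] at hx
  rcases hx with rfl | rfl | rfl
  · exact h0
  · exact h1
  · exact h2

theorem CM.Lam.len_ge (hl : M.Lam) (h : M.Ok) (h3 : 3 ≤ M.VS.card) {f : F} (hf : f ∈ M.FS) : 3 ≤ M.len f := by
  obtain ⟨d, hd, rfl⟩ := h.fc_surj f hf
  rw [← card3_h12 hl h h3 hd]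
  exact Finset.card_le_card (sub3_h12 h hd)

private theorem eq3_h12 (hl : M.Lam) (h : M.Ok) (h3 : 3 ≤ M.VS.card) {d : D} (hd : d ∈ M.DS)
    (h1 : M.len (M.fc d) = 3) :
    ({d, M.pv (M.al d), M.pv (M.al (M.pv (M.al d)))} : Finset D) = M.DS.filter (fun x => M.fc x = M.fc d) := by
  apply Finset.eq_of_subset_of_card_le (sub3_h12 h hd)
  rw [card3_h12 hl h h3 hd]
  exact le_of_eq h1

/-- the darts of a triangular face -/
theorem CM.Lam.mem3 (hl : M.Lam) (h : M.Ok) (h3 : 3 ≤ M.VS.card) {d : D} (hd : d ∈ M.DS)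
    (h1 : M.len (M.fc d) = 3) {e : D} (he : e ∈ M.DS) (hf : M.fc e = M.fc d) :
    e = d ∨ e = M.pv (M.al d) ∨ e = M.pv (M.al (M.pv (M.al d))) := by
  have h2 : e ∈ M.DS.filter (fun x => M.fc x = M.fc d) := by
    rw [Finset.mem_filter]
    exact ⟨he, hf⟩
  rw [← eq3_h12 hl h h3 hd h1] at h2
  simpa only [Finset.mem_insert, Finset.mem_singleton] using h2

theorem CM.Lam.ph3 (hl : M.Lam) (h : M.Ok) (h3 : 3 ≤ M.VS.card) {d : D} (hd : d ∈ M.DS)
    (h1 : M.len (M.fc d) = 3) : M.pv (M.al (M.pv (M.al (M.pv (M.al d))))) = d := by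
  have m1 := h.ph_mem hd
  have m2 := h.ph_mem m1
  have m3 := h.ph_mem m2
  have hf : M.fc (M.pv (M.al (M.pv (M.al (M.pv (M.al d)))))) = M.fc d := by
    rw [h.fc_ph _ m2, h.fc_ph _ m1, h.fc_ph _ hd]
  rcases hl.mem3 h h3 hd h1 m3 hf with h4 | h4 | h4
  · exact h4
  · exact absurd (h.ph_inj m2 hd h4) (hl.ph2_ne h h3 hd)
  · exact absurd h4 (h.ph_ne m2)

theorem CM.Lam.quad (hl : M.Lam) (h : M.Ok) (h3 : 3 ≤ M.VS.card) {d : D} (hd : d ∈ M.DS)
    (h1 : M.len (M.fc d) = 4) : M.Quad d (M.pv (M.al d)) (M.pv (M.al (M.pv (M.al d))))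
      (M.pv (M.al (M.pv (M.al (M.pv (M.al d)))))) := by
  have m1 := h.ph_mem hd
  have m2 := h.ph_mem m1
  have m3 := h.ph_mem m2
  have m4 := h.ph_mem m3
  have hsub := sub3_h12 h hd
  have hcard := card3_h12 hl h h3 hd
  have hS : (M.DS.filter (fun x => M.fc x = M.fc d)).card = 4 := h1
  have n3 : M.pv (M.al (M.pv (M.al (M.pv (M.al d))))) ≠ d := by
    intro h4
    obtain ⟨e, he, hne⟩ : ∃ e ∈ M.DS.filter (fun x => M.fc x = M.fc d),
        e ∉ ({d, M.pv (M.al d), M.pv (M.al (M.pv (M.al d)))} : Finset D) := by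
      apply Finset.exists_mem_notMem_of_card_lt_card
      rw [hcard, hS]
      norm_num
    have hed : e ∈ M.DS := (Finset.mem_filter.1 he).1
    have hpe := face_ph_h12 h he
    have hne2 : M.pv (M.al e) ∉ insert e ({d, M.pv (M.al d), M.pv (M.al (M.pv (M.al d)))} : Finset D) := by
      simp only [Finset.mem_insert, Finset.mem_singleton, not_or] at hne ⊢
      refine ⟨h.ph_ne hed, ?_, ?_, ?_⟩
      · intro h5
        exact hne.2.2 (h.ph_inj hed m2 (h5.trans h4.symm))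
      · intro h5
        exact hne.1 (h.ph_inj hed hd h5)
      · intro h5
        exact hne.2.1 (h.ph_inj hed m1 h5)
    have h6 : insert (M.pv (M.al e)) (insert e ({d, M.pv (M.al d), M.pv (M.al (M.pv (M.al d)))} : Finset D)) ⊆
        M.DS.filter (fun x => M.fc x = M.fc d) :=
      Finset.insert_subset hpe (Finset.insert_subset he hsub)
    have h7 := Finset.card_le_card h6
    rw [Finset.card_insert_of_notMem hne2, Finset.card_insert_of_notMem hne, hcard, hS] at h7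
    omega
  have hf3 : M.fc (M.pv (M.al (M.pv (M.al (M.pv (M.al d)))))) = M.fc d := by
    rw [h.fc_ph _ m2, h.fc_ph _ m1, h.fc_ph _ hd]
  have hf4 : M.fc (M.pv (M.al (M.pv (M.al (M.pv (M.al (M.pv (M.al d)))))))) = M.fc d := by
    rw [h.fc_ph _ m3, hf3]
  have hn : M.pv (M.al (M.pv (M.al (M.pv (M.al d))))) ∉
      ({d, M.pv (M.al d), M.pv (M.al (M.pv (M.al d)))} : Finset D) := by
    simp only [Finset.mem_insert, Finset.mem_singleton, not_or]
    refine ⟨n3, ?_, h.ph_ne m2⟩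
    intro h5
    exact hl.ph2_ne h h3 hd (h.ph_inj m2 hd h5)
  have hS4 : insert (M.pv (M.al (M.pv (M.al (M.pv (M.al d))))))
      ({d, M.pv (M.al d), M.pv (M.al (M.pv (M.al d)))} : Finset D) = M.DS.filter (fun x => M.fc x = M.fc d) := by
    apply Finset.eq_of_subset_of_card_le
    · exact Finset.insert_subset (Finset.mem_filter.2 ⟨m3, hf3⟩) hsub
    · rw [Finset.card_insert_of_notMem hn, hcard, hS]
  have e4 : M.pv (M.al (M.pv (M.al (M.pv (M.al (M.pv (M.al d))))))) = d := by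
    have h8 : M.pv (M.al (M.pv (M.al (M.pv (M.al (M.pv (M.al d))))))) ∈ M.DS.filter (fun x => M.fc x = M.fc d) :=
      Finset.mem_filter.2 ⟨m4, hf4⟩
    rw [← hS4] at h8
    simp only [Finset.mem_insert, Finset.mem_singleton] at h8
    rcases h8 with h8 | h8 | h8 | h8
    · exact absurd h8 (h.ph_ne m3)
    · exact h8
    · exact absurd (h.ph_inj m3 hd h8) n3
    · exact absurd (h.ph_inj m2 hd (h.ph_inj m3 m1 h8)) (hl.ph2_ne h h3 hd)
  exact ⟨hd, m1, m2, m3, rfl, rfl, rfl, e4, h1⟩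

end Pool.Agent.Helper37.CP
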