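import Pool.Agent.Helper37.CP.Len

/-!
# Block CP-QF: elementary facts on a quadrilateral face.

`q : M.Quad d1 d2 d3 d4` with `d1 : A → B`, `d2 : B → C`, `d3 : C → E`, `d4 : E → A` (`A = t d1` etc.).
* `heads`: `t (al d1) = t d2` etc. (from `e1` and `t_ph`).
* `fcs`: all four darts have the face `fc d1` (`fc_ph`).
* `distinct`: `A, B, C, E` are distinct: consecutive ones by `loopless`; if `A = C`, then `d2` has tail `B` and head `C = A`, as `al d1`
  has, so `d2 = al d1` by `simple` and `pv (al d1) = d2 = al d1`, against `pv_ne`; in the same way `B ≠ E` (`d3 = al d2`).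
* `mem4`: the face consists of the four darts: they are distinct (tails) and `len = 4`.
* `al_ne`: no `al di` is one of the four darts (compare tails and heads: `al d1` has tail `B` and head `A`, so it could only be `d2`,
  whose head is `C ≠ A`; etc.).
* `rot`: `Quad` is invariant under cyclic rotation.
* nx relations: `nx d2 = al d1`, `nx d3 = al d2`, `nx d4 = al d3`, `nx d1 = al d4` (from `e1 .. e4` and `nx_pv`).
-/

set_option linter.unusedSectionVars false

namespace Pool.Agent.Helper37.CP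

variable {V D F : Type*} [DecidableEq V] [DecidableEq D] [DecidableEq F] {M : CM V D F} {d1 d2 d3 d4 : D}

theorem CM.Quad.nx2 (q : M.Quad d1 d2 d3 d4) (h : M.Ok) : M.nx d2 = M.al d1 := by
  rw [← q.e1]
  exact h.nx_pv _ (h.al_mem _ q.m1)

theorem CM.Quad.nx3 (q : M.Quad d1 d2 d3 d4) (h : M.Ok) : M.nx d3 = M.al d2 := by
  rw [← q.e2]
  exact h.nx_pv _ (h.al_mem _ q.m2)

theorem CM.Quad.nx4 (q : M.Quad d1 d2 d3 d4) (h : M.Ok) : M.nx d4 = M.al d3 := by
  rw [← q.e3]
  exact h.nx_pv _ (h.al_mem _ q.m3)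

theorem CM.Quad.nx1 (q : M.Quad d1 d2 d3 d4) (h : M.Ok) : M.nx d1 = M.al d4 := by
  have := h.nx_pv _ (h.al_mem _ q.m4)
  rwa [q.e4] at this

theorem CM.Quad.h1 (q : M.Quad d1 d2 d3 d4) (h : M.Ok) : M.t (M.al d1) = M.t d2 := by
  have := h.t_ph q.m1
  rw [q.e1] at this
  exact this.symm

theorem CM.Quad.h2 (q : M.Quad d1 d2 d3 d4) (h : M.Ok) : M.t (M.al d2) = M.t d3 := by
  have := h.t_ph q.m2
  rw [q.e2] at this
  exact this.symm

theorem CM.Quad.h3 (q : M.Quad d1 d2 d3 d4) (h : M.Ok) : M.t (M.al d3) = M.t d4 := by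
  have := h.t_ph q.m3
  rw [q.e3] at this
  exact this.symm

theorem CM.Quad.h4 (q : M.Quad d1 d2 d3 d4) (h : M.Ok) : M.t (M.al d4) = M.t d1 := by
  have := h.t_ph q.m4
  rw [q.e4] at this
  exact this.symm

theorem CM.Quad.f2 (q : M.Quad d1 d2 d3 d4) (h : M.Ok) : M.fc d2 = M.fc d1 := by
  have := h.fc_ph d1 q.m1
  rwa [q.e1] at this

theorem CM.Quad.f3 (q : M.Quad d1 d2 d3 d4) (h : M.Ok) : M.fc d3 = M.fc d1 := by
  have := h.fc_ph d2 q.m2
  rw [q.e2] at this
  rw [this, q.f2 h]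

theorem CM.Quad.f4 (q : M.Quad d1 d2 d3 d4) (h : M.Ok) : M.fc d4 = M.fc d1 := by
  have := h.fc_ph d3 q.m3
  rw [q.e3] at this
  rw [this, q.f3 h]

/-- cyclic rotation -/
theorem CM.Quad.rot (q : M.Quad d1 d2 d3 d4) (h : M.Ok) : M.Quad d2 d3 d4 d1 := by
  exact ⟨q.m2, q.m3, q.m4, q.m1, q.e2, q.e3, q.e4, q.e1, by rw [q.f2 h]; exact q.len⟩

private theorem CM.Quad.aux_ab (q : M.Quad d1 d2 d3 d4) (h : M.Ok) : M.t d1 ≠ M.t d2 := by
  rw [← q.h1 h]
  exact (h.loopless d1 q.m1).symm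

private theorem CM.Quad.aux_ac (q : M.Quad d1 d2 d3 d4) (h : M.Ok) (hl : M.Lam) (h3 : 3 ≤ M.VS.card) :
    M.t d1 ≠ M.t d3 := by
  intro hac
  have e : d2 = M.al d1 := by
    apply h.simple _ q.m2 _ (h.al_mem _ q.m1) (q.h1 h).symm
    rw [q.h2 h, h.t_al_al q.m1, hac]
  apply hl.pv_ne h h3 (h.al_mem _ q.m1)
  rw [q.e1, e]

/-- the four vertices are distinct -/
theorem CM.Quad.distinct (q : M.Quad d1 d2 d3 d4) (h : M.Ok) (hl : M.Lam) (h3 : 3 ≤ M.VS.card) :
    M.t d1 ≠ M.t d2 ∧ M.t d1 ≠ M.t d3 ∧ M.t d1 ≠ M.t d4 ∧ M.t d2 ≠ M.t d3 ∧ M.t d2 ≠ M.t d4 ∧ M.t d3 ≠ M.t d4 := by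
  have q2 := q.rot h
  have q3 := q2.rot h
  have q4 := q3.rot h
  exact ⟨q.aux_ab h, q.aux_ac h hl h3, (q4.aux_ab h).symm, q2.aux_ab h, q2.aux_ac h hl h3, q3.aux_ab h⟩

/-- the darts of the face -/
theorem CM.Quad.mem4 (q : M.Quad d1 d2 d3 d4) (h : M.Ok) (hl : M.Lam) (h3 : 3 ≤ M.VS.card) {d : D} (hd : d ∈ M.DS) :
    M.fc d = M.fc d1 ↔ d ∈ ({d1, d2, d3, d4} : Finset D) := by
  obtain ⟨ab, ac, ae, bc, be, ce⟩ := q.distinct h hl h3
  have hne : ∀ {x y : D}, M.t x ≠ M.t y → x ≠ y := fun {x y} hxy e => hxy (by rw [e])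
  have hsub : ({d1, d2, d3, d4} : Finset D) ⊆ M.DS.filter (fun d => M.fc d = M.fc d1) := by
    intro x hx
    simp only [Finset.mem_insert, Finset.mem_singleton] at hx
    rw [Finset.mem_filter]
    rcases hx with rfl | rfl | rfl | rfl
    · exact ⟨q.m1, rfl⟩
    · exact ⟨q.m2, q.f2 h⟩
    · exact ⟨q.m3, q.f3 h⟩
    · exact ⟨q.m4, q.f4 h⟩
  have hcard : ({d1, d2, d3, d4} : Finset D).card = 4 := by
    rw [Finset.card_insert_of_notMem, Finset.card_insert_of_notMem, Finset.card_insert_of_notMem,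
      Finset.card_singleton]
    · simp only [Finset.mem_singleton]
      exact hne ce
    · simp only [Finset.mem_insert, Finset.mem_singleton, not_or]
      exact ⟨hne bc, hne be⟩
    · simp only [Finset.mem_insert, Finset.mem_singleton, not_or]
      exact ⟨hne ab, hne ac, hne ae⟩
  have heq := Finset.eq_of_subset_of_card_le hsub (by
    rw [hcard]
    have := q.len
    unfold CM.len at this
    omega)
  rw [heq, Finset.mem_filter]
  exact ⟨fun h1 => ⟨hd, h1⟩, fun h1 => h1.2⟩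

private theorem CM.Quad.aux_al (q : M.Quad d1 d2 d3 d4) (h : M.Ok) (hl : M.Lam) (h3 : 3 ≤ M.VS.card) :
    M.al d1 ≠ d1 ∧ M.al d1 ≠ d2 ∧ M.al d1 ≠ d3 ∧ M.al d1 ≠ d4 := by
  obtain ⟨ab, ac, ae, bc, be, ce⟩ := q.distinct h hl h3
  refine ⟨h.al_ne q.m1, fun e => ?_, fun e => ?_, fun e => ?_⟩
  · have e1 := h.t_al_al q.m1
    rw [e, q.h2 h] at e1
    exact ac e1.symm
  · have e1 := q.h1 h
    rw [e] at e1
    exact bc e1.symm
  · have e1 := q.h1 h
    rw [e] at e1
    exact be e1.symm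

/-- the opposite darts are not in the face -/
theorem CM.Quad.al_not_mem (q : M.Quad d1 d2 d3 d4) (h : M.Ok) (hl : M.Lam) (h3 : 3 ≤ M.VS.card) :
    M.al d1 ∉ ({d1, d2, d3, d4} : Finset D) ∧ M.al d2 ∉ ({d1, d2, d3, d4} : Finset D) ∧
    M.al d3 ∉ ({d1, d2, d3, d4} : Finset D) ∧ M.al d4 ∉ ({d1, d2, d3, d4} : Finset D) := by
  have q2 := q.rot h
  have q3 := q2.rot h
  have q4 := q3.rot h
  obtain ⟨a1, a2, a3, a4⟩ := q.aux_al h hl h3
  obtain ⟨b1, b2, b3, b4⟩ := q2.aux_al h hl h3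
  obtain ⟨c1, c2, c3, c4⟩ := q3.aux_al h hl h3
  obtain ⟨g1, g2, g3, g4⟩ := q4.aux_al h hl h3
  simp only [Finset.mem_insert, Finset.mem_singleton, not_or]
  exact ⟨⟨a1, a2, a3, a4⟩, ⟨b4, b1, b2, b3⟩, ⟨c3, c4, c1, c2⟩, ⟨g2, g3, g4, g1⟩⟩

/-- consequences of `Free` for the pair `A = t d1`, `C = t d3`: they are not adjacent and every common neighbour is `B` or `E` -/
theorem CM.Free.not_adj (hf : M.Free (M.t d1) (M.t d2) (M.t d3) (M.t d4)) (q : M.Quad d1 d2 d3 d4) (h : M.Ok)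
    (hl : M.Lam) (h3 : 3 ≤ M.VS.card) : ∀ d ∈ M.DS, M.t d = M.t d1 → M.t (M.al d) ≠ M.t d3 := by
  intro d hd hA hC
  obtain ⟨ab, ac, ae, bc, be, ce⟩ := q.distinct h hl h3
  have hne : ∀ {x y : D}, M.t x ≠ M.t y → x ≠ y := fun {x y} hxy e => hxy (by rw [e])
  have hX : ({M.t d1, M.t d2, M.t d3} : Finset V) ⊆ M.VS := by
    intro v hv
    simp only [Finset.mem_insert, Finset.mem_singleton] at hv
    rcases hv with rfl | rfl | rfl
    · exact h.t_mem _ q.m1
    · exact h.t_mem _ q.m2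
    · exact h.t_mem _ q.m3
  have hcX : ({M.t d1, M.t d2, M.t d3} : Finset V).card = 3 := by
    rw [Finset.card_insert_of_notMem, Finset.card_insert_of_notMem, Finset.card_singleton]
    · simp only [Finset.mem_singleton]
      exact bc
    · simp only [Finset.mem_insert, Finset.mem_singleton, not_or]
      exact ⟨ab, ac⟩
  have hI : (({M.t d1, M.t d2, M.t d3} : Finset V) ∩ {M.t d2, M.t d4}).card ≤ 1 := by
    have : (({M.t d1, M.t d2, M.t d3} : Finset V) ∩ {M.t d2, M.t d4}) ⊆ {M.t d2} := by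
      intro v hv
      rw [Finset.mem_inter] at hv
      simp only [Finset.mem_insert, Finset.mem_singleton] at hv ⊢
      rcases hv with ⟨h1 | h1 | h1, h2 | h2⟩
      · exact h2
      · exact absurd (h1.symm.trans h2) ae
      · exact h1
      · exact h1
      · exact h2
      · exact absurd (h1.symm.trans h2) ce
    have h1 := Finset.card_le_card this
    rwa [Finset.card_singleton] at h1
  have hf1 := hf _ hX (by simp) (by simp) (by rw [hcX])
  rw [hcX] at hf1
  obtain ⟨a1, a2, -, -⟩ := q.aux_al h hl h3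
  obtain ⟨b1, -, -, b4⟩ := (q.rot h).aux_al h hl h3
  have hS : ({d, d1, M.al d1, d2, M.al d2} : Finset D) ⊆ M.DS.filter (fun x =>
      M.t x ∈ ({M.t d1, M.t d2, M.t d3} : Finset V) ∧ M.t (M.al x) ∈ ({M.t d1, M.t d2, M.t d3} : Finset V)) := by
    intro x hx
    simp only [Finset.mem_insert, Finset.mem_singleton] at hx
    rw [Finset.mem_filter]
    simp only [Finset.mem_insert, Finset.mem_singleton]
    rcases hx with rfl | rfl | rfl | rfl | rfl
    · exact ⟨hd, Or.inl hA, Or.inr (Or.inr hC)⟩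
    · exact ⟨q.m1, Or.inl rfl, Or.inr (Or.inl (q.h1 h))⟩
    · exact ⟨h.al_mem _ q.m1, Or.inr (Or.inl (q.h1 h)), Or.inl (h.t_al_al q.m1)⟩
    · exact ⟨q.m2, Or.inr (Or.inl rfl), Or.inr (Or.inr (q.h2 h))⟩
    · exact ⟨h.al_mem _ q.m2, Or.inr (Or.inr (q.h2 h)), Or.inr (Or.inl (h.t_al_al q.m2))⟩
  have hcS : ({d, d1, M.al d1, d2, M.al d2} : Finset D).card = 5 := by
    rw [Finset.card_insert_of_notMem, Finset.card_insert_of_notMem, Finset.card_insert_of_notMem,
      Finset.card_insert_of_notMem, Finset.card_singleton]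
    · simp only [Finset.mem_singleton]
      exact b1.symm
    · simp only [Finset.mem_insert, Finset.mem_singleton, not_or]
      refine ⟨a2, hne ?_⟩
      rw [q.h1 h, q.h2 h]
      exact bc
    · simp only [Finset.mem_insert, Finset.mem_singleton, not_or]
      exact ⟨a1.symm, hne ab, b4.symm⟩
    · simp only [Finset.mem_insert, Finset.mem_singleton, not_or]
      refine ⟨fun e => ?_, hne ?_, hne ?_, hne ?_⟩
      · rw [e, q.h1 h] at hC
        exact bc hC
      · rw [hA, q.h1 h]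
        exact ab
      · rw [hA]
        exact ab
      · rw [hA, q.h2 h]
        exact ac
  have hc := Finset.card_le_card hS
  rw [hcS] at hc
  unfold CM.dc at hf1
  omega

/-- `X = {A, C, u}` has at least four darts, so `4 + 10 ≤ 12 + 2 |X ∩ {B, E}|` -/
theorem CM.Free.common (hf : M.Free (M.t d1) (M.t d2) (M.t d3) (M.t d4)) (q : M.Quad d1 d2 d3 d4) (h : M.Ok)
    (hl : M.Lam) (h3 : 3 ≤ M.VS.card) : ∀ d ∈ M.DS, ∀ e ∈ M.DS, M.t d = M.t d1 → M.t e = M.t d3 →
      M.t (M.al d) = M.t (M.al e) → M.t (M.al d) = M.t d2 ∨ M.t (M.al d) = M.t d4 := by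
  intro d hd e he hA hC hu
  by_contra hcon
  rw [not_or] at hcon
  obtain ⟨uB, uE⟩ := hcon
  obtain ⟨ab, ac, ae, bc, be, ce⟩ := q.distinct h hl h3
  have hne : ∀ {x y : D}, M.t x ≠ M.t y → x ≠ y := fun {x y} hxy e => hxy (by rw [e])
  have uA : M.t (M.al d) ≠ M.t d1 := by
    rw [← hA]
    exact h.loopless d hd
  have uC : M.t (M.al d) ≠ M.t d3 := by
    rw [← hC, hu]
    exact h.loopless e he
  have hX : ({M.t d1, M.t d3, M.t (M.al d)} : Finset V) ⊆ M.VS := by
    intro v hv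
    simp only [Finset.mem_insert, Finset.mem_singleton] at hv
    rcases hv with rfl | rfl | rfl
    · exact h.t_mem _ q.m1
    · exact h.t_mem _ q.m3
    · exact h.h_mem hd
  have hcX : ({M.t d1, M.t d3, M.t (M.al d)} : Finset V).card = 3 := by
    rw [Finset.card_insert_of_notMem, Finset.card_insert_of_notMem, Finset.card_singleton]
    · simp only [Finset.mem_singleton]
      exact uC.symm
    · simp only [Finset.mem_insert, Finset.mem_singleton, not_or]
      exact ⟨ac, uA.symm⟩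
  have hI : (({M.t d1, M.t d3, M.t (M.al d)} : Finset V) ∩ {M.t d2, M.t d4}) = ∅ := by
    rw [Finset.eq_empty_iff_forall_notMem]
    intro v hv
    rw [Finset.mem_inter] at hv
    simp only [Finset.mem_insert, Finset.mem_singleton] at hv
    rcases hv with ⟨h1 | h1 | h1, h2 | h2⟩
    · exact ab (h1.symm.trans h2)
    · exact ae (h1.symm.trans h2)
    · exact bc.symm (h1.symm.trans h2)
    · exact ce (h1.symm.trans h2)
    · exact uB (h1.symm.trans h2)
    · exact uE (h1.symm.trans h2)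
  have hf1 := hf _ hX (by simp) (by simp) (by rw [hcX])
  rw [hcX, hI, Finset.card_empty] at hf1
  have hS : ({d, M.al d, e} : Finset D) ⊆ M.DS.filter (fun x =>
      M.t x ∈ ({M.t d1, M.t d3, M.t (M.al d)} : Finset V) ∧
        M.t (M.al x) ∈ ({M.t d1, M.t d3, M.t (M.al d)} : Finset V)) := by
    intro x hx
    simp only [Finset.mem_insert, Finset.mem_singleton] at hx
    rw [Finset.mem_filter]
    simp only [Finset.mem_insert, Finset.mem_singleton]
    rcases hx with rfl | rfl | rfl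
    · exact ⟨hd, Or.inl hA, Or.inr (Or.inr rfl)⟩
    · exact ⟨h.al_mem _ hd, Or.inr (Or.inr rfl), Or.inl (by rw [h.t_al_al hd, hA])⟩
    · exact ⟨he, Or.inr (Or.inl hC), Or.inr (Or.inr hu.symm)⟩
  have hcS : ({d, M.al d, e} : Finset D).card = 3 := by
    rw [Finset.card_insert_of_notMem, Finset.card_insert_of_notMem, Finset.card_singleton]
    · simp only [Finset.mem_singleton]
      apply hne
      rw [hC]
      exact uC
    · simp only [Finset.mem_insert, Finset.mem_singleton, not_or]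
      refine ⟨(h.al_ne hd).symm, hne ?_⟩
      rw [hA, hC]
      exact ac
  have hc := Finset.card_le_card hS
  rw [hcS] at hc
  unfold CM.dc at hf1
  omega

end Pool.Agent.Helper37.CP
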