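import Pool.Agent.Helper37.CP.Hom
import Pool.Agent.Helper37.CP.QuadF

/-!
# Block CP-MEET: two connected sets which cross a quadrilateral face meet.

`q : Quad d1 d2 d3 d4`, `A = t d1`, `B = t d2`, `C = t d3`, `E = t d4`. `P` is connected, contains `A, C` and not `B, E`; `Q` is connected,
contains `B, E` and not `A, C`. Suppose `P` and `Q` are disjoint.

Step 1 (`exists_chain`). For `x ∈ P` there is `τ : D → ZMod 2` with `τ (al d) = τ d` for darts, `τ d ≠ 0 → t d ∈ P ∧ t (al d) ∈ P`, and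
`∑ d ∈ star v, τ d = [v = A] + [v = x]` for all `v` (Iverson brackets in `ZMod 2`): the set `S` of all `x ∈ P` with this property
contains `A` (`τ = 0`) and if `d ∈ DS`, `t d ∈ S`, `t (al d) ∈ P`, then adding `1` on `d` and `al d` shows `t (al d) ∈ S`
(`t d ≠ t (al d)`); as `P` is connected, `S = P`. Apply it with `x = C`.

Step 2. Let `γ = τ + 1` on the four darts `d1, al d1, d2, al d2` and `γ = τ` otherwise. Its boundary is `0` at every vertex
(`[A] + [C]` plus `[A] + [B] + [B] + [C]`). Let `c` be the function of `homology` and `col d = c (fc d)`. As `fc (pv d) = fc (al d)`,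
`col (pv d) = col d + γ d` for every dart `d`.

Step 3. `col d1 = col d2 = col d3 = col d4 =: c0`. At `B`: `γ` is nonzero exactly at `al d1` and `d2` (`τ = 0` at `B ∉ P`).
`pv (al d1) = d2`, so `col (al d1) = c0 + 1`, and going on with `nx` from `al d1` until `d2` is reached, `col e = c0 + 1` for
every dart `e ≠ d2` at `B` (`star_ind` from `al d1` with the predicate `e = d2 ∨ col e = c0 + 1`; `nx d2 = al d1`).
At a vertex `y ∈ Q`, `y ≠ B`, all `γ` are `0`, so `col` is constant on the star of `y`.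

Step 4. Let `S` be the set of all `y ∈ Q` with `y = B` or `col e = c0 + 1` for all darts `e` at `y`. If `S ≠ Q`, connectivity gives
a dart `e` from `S` to `Q \ S`; `e ≠ d2` (its head `C` is not in `Q`), so `col e = c0 + 1`; `γ e = 0` (`e ≠ al d1` as `A ∉ Q`), so
`col (al e) = col e = c0 + 1` (from `homology`), and `col` is constant at `t (al e) ≠ B`: contradiction. So `E ∈ S` and
`col d4 = c0 + 1`, a contradiction.
-/

set_option linter.unusedSectionVars false

namespace Pool.Agent.Helper37.CP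

variable {V D F : Type*} [DecidableEq V] [DecidableEq D] [DecidableEq F] {M : CM V D F} {d1 d2 d3 d4 : D}

private theorem sum_ind38 {v : V} {d : D} (hd : d ∈ M.DS) :
    ∑ e ∈ M.star v, (if e = d then (1 : ZMod 2) else 0) = if v = M.t d then 1 else 0 := by
  rw [Finset.sum_ite_eq']
  by_cases hv : v = M.t d
  · rw [if_pos (mem_star.2 ⟨hd, hv.symm⟩), if_pos hv]
  · rw [if_neg (fun h1 => hv (mem_star.1 h1).2.symm), if_neg hv]

private theorem two38 (x : ZMod 2) : x + x = 0 := CharTwo.add_self_eq_zero x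

theorem CM.exists_chain (h : M.Ok) {P : Finset V} (hP : M.Conn P) (hPV : P ⊆ M.VS) {a x : V} (ha : a ∈ P) (hx : x ∈ P) :
    ∃ τ : D → ZMod 2, (∀ d ∈ M.DS, τ (M.al d) = τ d) ∧
      (∀ d ∈ M.DS, τ d ≠ 0 → M.t d ∈ P ∧ M.t (M.al d) ∈ P) ∧
      ∀ v ∈ M.VS, ∑ d ∈ M.star v, τ d = (if v = a then 1 else 0) + (if v = x then 1 else 0) := by
  classical
  set S : Finset V := P.filter (fun x => ∃ τ : D → ZMod 2, (∀ d ∈ M.DS, τ (M.al d) = τ d) ∧
      (∀ d ∈ M.DS, τ d ≠ 0 → M.t d ∈ P ∧ M.t (M.al d) ∈ P) ∧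
      ∀ v ∈ M.VS, ∑ d ∈ M.star v, τ d = (if v = a then 1 else 0) + (if v = x then 1 else 0)) with hS
  have hSP : S ⊆ P := Finset.filter_subset _ _
  have haS : a ∈ S := by
    rw [hS, Finset.mem_filter]
    refine ⟨ha, fun _ => 0, fun _ _ => rfl, fun _ _ h1 => absurd rfl h1, fun v _ => ?_⟩
    rw [two38]
    simp
  have hSe : S = P := by
    by_contra hne
    obtain ⟨d, hd, h1, h2⟩ := hP S hSP ⟨a, haS⟩ hne
    rw [Finset.mem_sdiff] at h2
    apply h2.2
    rw [hS, Finset.mem_filter] at h1 ⊢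
    obtain ⟨h3, τ, t1, t2, t3⟩ := h1
    have had := h.al_mem d hd
    refine ⟨h2.1, fun e => τ e + ((if e = d then 1 else 0) + (if e = M.al d then 1 else 0)), ?_, ?_, ?_⟩
    · intro e he
      have e1 : (M.al e = d) ↔ (e = M.al d) := h.al_eq_iff he hd
      have e2 : (M.al e = M.al d) ↔ (e = d) := ⟨fun h4 => h.al_inj he hd h4, fun h4 => by rw [h4]⟩
      simp only [e1, e2, t1 e he]
      ring
    · intro e he hne
      by_cases h4 : e = d
      · rw [h4]; exact ⟨h3, h2.1⟩
      · by_cases h5 : e = M.al d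
        · rw [h5, h.al_al d hd]; exact ⟨h2.1, h3⟩
        · apply t2 e he
          intro h6
          apply hne
          simp only [if_neg h4, if_neg h5, h6, add_zero]
    · intro v hv
      rw [Finset.sum_add_distrib, Finset.sum_add_distrib, t3 v hv, sum_ind38 hd, sum_ind38 had]
      have := two38 (if v = M.t d then 1 else 0)
      linear_combination this
  rw [← hSe, hS, Finset.mem_filter] at hx
  exact hx.2

theorem CM.Quad.meet (q : M.Quad d1 d2 d3 d4) (h : M.Ok) (hl : M.Lam) (h3 : 3 ≤ M.VS.card) {P Q : Finset V}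
    (hPV : P ⊆ M.VS) (hQV : Q ⊆ M.VS) (hP : M.Conn P) (hQ : M.Conn Q)
    (hA : M.t d1 ∈ P) (hC : M.t d3 ∈ P) (hB : M.t d2 ∉ P) (hE : M.t d4 ∉ P)
    (hB' : M.t d2 ∈ Q) (hE' : M.t d4 ∈ Q) (hA' : M.t d1 ∉ Q) (hC' : M.t d3 ∉ Q) : (P ∩ Q).Nonempty := by
  classical
  by_contra hemp
  have hdis : ∀ y, y ∈ P → y ∉ Q := by
    intro y hy hy2
    exact hemp ⟨y, Finset.mem_inter.2 ⟨hy, hy2⟩⟩
  have hdis' : ∀ y, y ∈ Q → y ∉ P := fun y hy hy2 => hdis y hy2 hy
  obtain ⟨nAB, nAC, nAE, nBC, nBE, nCE⟩ := q.distinct h hl h3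
  obtain ⟨n1, n2, n3, n4⟩ := q.al_not_mem h hl h3
  simp only [Finset.mem_insert, Finset.mem_singleton, not_or] at n1 n2 n3 n4
  have m1' := h.al_mem d1 q.m1
  have m2' := h.al_mem d2 q.m2
  have hd12 : d1 ≠ d2 := fun h1 => nAB (by rw [h1])
  obtain ⟨τ, t1, t2, t3⟩ := CM.exists_chain h hP hPV hA hC
  have hτ : ∀ e ∈ M.DS, M.t e ∉ P → τ e = 0 := by
    intro e he hn
    by_contra h1
    exact hn (t2 e he h1).1
  set γ : D → ZMod 2 := fun e => τ e + (((if e = d1 then 1 else 0) + (if e = M.al d1 then 1 else 0)) +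
    ((if e = d2 then 1 else 0) + (if e = M.al d2 then 1 else 0))) with hγ
  have hγs : ∀ e ∈ M.DS, γ (M.al e) = γ e := by
    intro e he
    have e1 : (M.al e = d1) ↔ (e = M.al d1) := h.al_eq_iff he q.m1
    have e2 : (M.al e = M.al d1) ↔ (e = d1) := ⟨fun h4 => h.al_inj he q.m1 h4, fun h4 => by rw [h4]⟩
    have e3 : (M.al e = d2) ↔ (e = M.al d2) := h.al_eq_iff he q.m2
    have e4 : (M.al e = M.al d2) ↔ (e = d2) := ⟨fun h4 => h.al_inj he q.m2 h4, fun h4 => by rw [h4]⟩
    simp only [hγ, e1, e2, e3, e4, t1 e he]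
    ring
  have hγb : ∀ v ∈ M.VS, ∑ e ∈ M.star v, γ e = 0 := by
    intro v hv
    simp only [hγ]
    rw [Finset.sum_add_distrib, Finset.sum_add_distrib, Finset.sum_add_distrib, Finset.sum_add_distrib,
      t3 v hv, sum_ind38 q.m1, sum_ind38 m1', sum_ind38 q.m2, sum_ind38 m2', q.h1 h, q.h2 h]
    have g1 := two38 (if v = M.t d1 then 1 else 0)
    have g2 := two38 (if v = M.t d2 then 1 else 0)
    have g3 := two38 (if v = M.t d3 then 1 else 0)
    linear_combination g1 + g2 + g3
  obtain ⟨c, hc⟩ := hl.homology h γ hγs hγb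
  have hnx : ∀ e ∈ M.DS, c (M.fc (M.nx e)) = c (M.fc e) + γ (M.nx e) := by
    intro e he
    have hn := h.nx_mem e he
    have h1 := hc (M.nx e) hn
    have h2 := h.fc_ph (M.al (M.nx e)) (h.al_mem _ hn)
    rw [h.al_al _ hn, h.pv_nx e he] at h2
    rw [← h2] at h1
    have h4 := two38 (c (M.fc e))
    linear_combination h1 - h4
  have hc2 := q.f2 h
  have hc4 := q.f4 h
  have γB1 : γ (M.al d1) = 1 := by
    have h1 : M.al d1 ≠ M.al d2 := fun h4 => hd12 (h.al_inj q.m1 q.m2 h4)
    have h2 : τ (M.al d1) = 0 := hτ _ m1' (by rw [q.h1 h]; exact hB)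
    simp [hγ, h2, n1, h1]
  have γ0 : ∀ e ∈ M.DS, e ≠ d1 → e ≠ M.al d1 → e ≠ d2 → e ≠ M.al d2 → M.t e ∉ P → γ e = 0 := by
    intro e he g1 g2 g3 g4 g5
    simp [hγ, hτ e he g5, g1, g2, g3, g4]
  have stB : ∀ e ∈ M.DS, M.t e = M.t d2 → e = d2 ∨ c (M.fc e) = c (M.fc d1) + 1 := by
    intro e he hte
    refine h.star_ind m1' (fun e => e = d2 ∨ c (M.fc e) = c (M.fc d1) + 1) ?_ ?_ e he (by rw [hte, q.h1 h])
    · right
      have h1 := hnx d2 q.m2
      rw [q.nx2 h, γB1, hc2] at h1
      exact h1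
    · intro e he hte h1
      by_cases g1 : M.nx e = d2
      · left; exact g1
      · right
        by_cases g2 : M.nx e = M.al d1
        · have h4 := hnx d2 q.m2
          rw [q.nx2 h, γB1, hc2] at h4
          rw [g2]
          exact h4
        · have g3 : e ≠ d2 := by
            intro h5
            apply g2
            rw [h5, q.nx2 h]
          have g4 := h1.resolve_left g3
          have htn : M.t (M.nx e) = M.t d2 := by
            rw [h.t_nx e he, hte, q.h1 h]
          have g5 : γ (M.nx e) = 0 := by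
            apply γ0 _ (h.nx_mem e he) _ g2 g1
            · intro h5
              apply nBC
              rw [← htn, h5, q.h2 h]
            · rw [htn]; exact hB
            · intro h5
              apply nAB
              rw [← htn, h5]
          rw [hnx e he, g5, g4, add_zero]
  have γQ : ∀ e ∈ M.DS, M.t e ∈ Q → M.t e ≠ M.t d2 → γ e = 0 := by
    intro e he hq hn
    apply γ0 e he
    · intro h5; apply hA'; rw [← h5]; exact hq
    · intro h5; apply hn; rw [h5, q.h1 h]
    · intro h5; apply hn; rw [h5]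
    · intro h5; apply hC'; rw [← q.h2 h, ← h5]; exact hq
    · exact hdis' _ hq
  have stQ : ∀ d0 ∈ M.DS, M.t d0 ∈ Q → M.t d0 ≠ M.t d2 → ∀ e ∈ M.DS, M.t e = M.t d0 →
      c (M.fc e) = c (M.fc d0) := by
    intro d0 hd0 hq hn
    refine h.star_ind hd0 (fun e => c (M.fc e) = c (M.fc d0)) rfl ?_
    intro e he hte h1
    have htn : M.t (M.nx e) = M.t d0 := by rw [h.t_nx e he, hte]
    rw [hnx e he, γQ _ (h.nx_mem e he) (by rw [htn]; exact hq) (by rw [htn]; exact hn), h1, add_zero]
  set S : Finset V := Q.filter (fun y => y = M.t d2 ∨ ∀ e ∈ M.DS, M.t e = y → c (M.fc e) = c (M.fc d1) + 1)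
    with hS
  have hBS : M.t d2 ∈ S := by
    rw [hS, Finset.mem_filter]
    exact ⟨hB', Or.inl rfl⟩
  have hSQ : S = Q := by
    by_contra hne
    obtain ⟨e, he, g1, g2⟩ := hQ S (Finset.filter_subset _ _) ⟨_, hBS⟩ hne
    rw [Finset.mem_sdiff] at g2
    obtain ⟨g2, g3⟩ := g2
    have g4 : M.t (M.al e) ≠ M.t d2 := by
      intro h5
      apply g3
      rw [h5]
      exact hBS
    have g5 : γ (M.al e) = 0 := γQ _ (h.al_mem e he) g2 g4
    rw [hγs e he] at g5
    have g6 : c (M.fc e) = c (M.fc d1) + 1 := by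
      rw [hS, Finset.mem_filter] at g1
      rcases g1.2 with h6 | h6
      · rcases stB e he h6 with h7 | h7
        · exfalso
          apply hC'
          rw [← q.h2 h, ← h7]
          exact g2
        · exact h7
      · exact h6 e he rfl
    have g7 := hc e he
    rw [g5] at g7
    have g8 : c (M.fc (M.al e)) = c (M.fc d1) + 1 := by
      have h4 := two38 (c (M.fc e))
      rw [← g6]
      linear_combination g7 - h4
    apply g3
    rw [hS, Finset.mem_filter]
    refine ⟨g2, Or.inr ?_⟩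
    intro e' he' hte'
    rw [stQ _ (h.al_mem e he) g2 g4 e' he' hte', g8]
  rw [← hSQ, hS, Finset.mem_filter] at hE'
  rcases hE'.2 with h6 | h6
  · exact nBE h6.symm
  · have h7 := h6 d4 q.m4 rfl
    rw [hc4] at h7
    have h8 : (1 : ZMod 2) = 0 := by linear_combination -h7
    exact one_ne_zero h8

end Pool.Agent.Helper37.CP
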