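import Pool.Agent.Helper37.CP.Half

/-!
# Block CP-OPEN: near a stress-free placement all nearby edge lengths are realised.

Let `E` be the half of `exists_half`. Consider `Ψ : (↥M.VS → ℂ) → (↥E → ℝ)`, `(Ψ q) d = ‖q (t d) - q (head d)‖^2` (a polynomial map, so
strictly differentiable; e.g. `normSq`), with derivative at `p` `x ↦ (d ↦ 2 ⟪p (t d) - p (head d), x (t d) - x (head d)⟫)`.
The derivative is surjective: otherwise there is a nonzero functional `c : ↥E → ℝ` with
`∑_{d ∈ E} c d ⟪p (t d) - p (head d), x (t d) - x (head d)⟫ = 0` for all `x`; with `ω d = c d` (`d ∈ E`), `ω d = c (al d)` (`al d ∈ E`) the sum is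
`∑_{v} ⟪∑_{d ∈ star v} ω d (p v - p (head d)), x v⟫`, so `ω` is a self-stress, hence `0`.
By `HasStrictFDerivAt.map_nhds_eq_of_surj` (the spaces are complete) `Ψ` maps neighbourhoods of `p` to neighbourhoods of `Ψ p`. Given `ε`,
there is `η'` such that all `s` with `|s d - ‖p (t d) - p (head d)‖^2| < η'` are `Ψ p'` with `‖p' u - p u‖ < ε`; apply it to
`s d = (l d)^2`: for small `η`, `l d > 0` (as `p (t d) ≠ p (head d)`) and `l d ^ 2` is close. Extend `p'` by `p` outside `VS`. For darts not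
in `E` use `al`.
-/

set_option linter.unusedSectionVars false

namespace Pool.Agent.Helper37.CP

variable {V D F : Type*} [DecidableEq V] [DecidableEq D] [DecidableEq F] {M : CM V D F}

/-- the sum over all darts as a sum over the half -/
private theorem CM.Ok.sum_half88 (h : M.Ok) {E : Finset D} (hE : E ⊆ M.DS)
    (hEa : ∀ d ∈ M.DS, (d ∈ E ↔ M.al d ∉ E)) (g : D → ℝ) :
    ∑ d ∈ M.DS, g d = ∑ d ∈ E, (g d + g (M.al d)) := by
  rw [Finset.sum_add_distrib, ← Finset.sum_sdiff hE, add_comm]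
  congr 1
  apply Finset.sum_nbij' M.al M.al
  · intro d hd
    rw [Finset.mem_sdiff] at hd
    by_contra hcon
    exact hd.2 ((hEa d hd.1).2 hcon)
  · intro d hd
    rw [Finset.mem_sdiff]
    exact ⟨h.al_mem _ (hE hd), (hEa d (hE hd)).1 hd⟩
  · intro d hd
    rw [Finset.mem_sdiff] at hd
    exact h.al_al _ hd.1
  · intro d hd
    exact h.al_al _ (hE hd)
  · intro d hd
    rw [Finset.mem_sdiff] at hd
    rw [h.al_al _ hd.1]

/-- a functional on the half which annihilates all infinitesimal length changes vanishes -/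
private theorem CM.Ok.functional88 (h : M.Ok) {p : V → ℂ} (hs : M.SF p) {E : Finset D} (hE : E ⊆ M.DS)
    (hEa : ∀ d ∈ M.DS, (d ∈ E ↔ M.al d ∉ E)) (c : D → ℝ)
    (hc : ∀ x : V → ℂ, ∑ d ∈ E, c d * inner ℝ (p (M.t d) - p (M.t (M.al d))) (x (M.t d) - x (M.t (M.al d))) = 0) :
    ∀ d ∈ E, c d = 0 := by
  classical
  let ω : D → ℝ := fun d => if d ∈ E then c d else c (M.al d)
  have hω1 : ∀ d ∈ E, ω d = c d := fun d hd => if_pos hd
  have hω2 : ∀ d ∈ E, ω (M.al d) = c d := by
    intro d hd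
    have h1 : M.al d ∉ E := (hEa d (hE hd)).1 hd
    show (if M.al d ∈ E then c (M.al d) else c (M.al (M.al d))) = c d
    rw [if_neg h1, h.al_al _ (hE hd)]
  have hsym : ∀ d ∈ M.DS, ω (M.al d) = ω d := by
    intro d hd
    by_cases hdE : d ∈ E
    · rw [hω2 d hdE, hω1 d hdE]
    · have h1 : M.al d ∈ E := by
        by_contra hcon
        exact hdE ((hEa d hd).2 hcon)
      have h2 := hω2 (M.al d) h1
      rw [h.al_al _ hd] at h2
      rw [h2, hω1 _ h1]
  have hsum : ∀ x : V → ℂ, ∑ d ∈ M.DS, ω d * inner ℝ (p (M.t d) - p (M.t (M.al d))) (x (M.t d)) = 0 := by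
    intro x
    rw [h.sum_half88 hE hEa, ← hc x]
    apply Finset.sum_congr rfl
    intro d hd
    rw [hω1 d hd, hω2 d hd, h.al_al _ (hE hd), inner_sub_right]
    have : inner ℝ (p (M.t (M.al d)) - p (M.t d)) (x (M.t (M.al d))) =
        - inner ℝ (p (M.t d) - p (M.t (M.al d))) (x (M.t (M.al d))) := by
      rw [← inner_neg_left, neg_sub]
    rw [this]
    ring
  have hstress : ∀ v ∈ M.VS, ∑ d ∈ M.star v, (ω d : ℂ) * (p v - p (M.t (M.al d))) = 0 := by
    intro v hv
    set Z : ℂ := ∑ d ∈ M.star v, (ω d : ℂ) * (p v - p (M.t (M.al d))) with hZ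
    have h1 := hsum (fun u => if u = v then Z else 0)
    have h2 : ∑ d ∈ M.DS, ω d * inner ℝ (p (M.t d) - p (M.t (M.al d))) ((fun u => if u = v then Z else 0) (M.t d)) =
        inner ℝ Z Z := by
      have h3 : (inner ℝ Z Z : ℝ) = ∑ d ∈ M.star v, ω d * inner ℝ (p v - p (M.t (M.al d))) Z := by
        conv_lhs => rw [hZ]
        rw [sum_inner]
        apply Finset.sum_congr rfl
        intro d _
        have : (ω d : ℂ) * (p v - p (M.t (M.al d))) = (ω d : ℝ) • (p v - p (M.t (M.al d))) := by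
          rw [Complex.real_smul]
        rw [this, real_inner_smul_left, ← hZ]
      rw [h3]
      unfold CM.star
      rw [Finset.sum_filter]
      apply Finset.sum_congr rfl
      intro d _
      by_cases hdv : M.t d = v
      · rw [if_pos hdv]
        simp only [hdv, if_true]
      · rw [if_neg hdv]
        simp only [hdv, if_false, inner_zero_right, mul_zero]
    rw [h2] at h1
    exact inner_self_eq_zero.1 h1
  have hfin := hs ω hsym hstress
  intro d hd
  rw [← hω1 d hd]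
  exact hfin d (hE hd)

theorem CM.Ok.open_map (h : M.Ok) {p : V → ℂ} (hs : M.SF p) (hne : ∀ d ∈ M.DS, p (M.t d) ≠ p (M.t (M.al d))) :
    ∀ ε > 0, ∃ η > 0, ∀ l : D → ℝ, (∀ d ∈ M.DS, l (M.al d) = l d) →
      (∀ d ∈ M.DS, |l d - ‖p (M.t d) - p (M.t (M.al d))‖| < η) →
      ∃ p' : V → ℂ, (∀ u ∈ M.VS, ‖p' u - p u‖ < ε) ∧
        ∀ d ∈ M.DS, ‖p' (M.t d) - p' (M.t (M.al d))‖ = l d := by
  classical
  obtain ⟨E, hE, -, hEa⟩ := h.exists_half
  let a : ↥E → ↥M.VS := fun d => ⟨M.t d, h.t_mem _ (hE d.2)⟩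
  let b : ↥E → ↥M.VS := fun d => ⟨M.t (M.al d), h.h_mem (hE d.2)⟩
  let L : ↥E → (↥M.VS → ℂ) →L[ℝ] ℂ := fun d =>
    ContinuousLinearMap.proj (R := ℝ) (φ := fun _ : ↥M.VS => ℂ) (a d) - ContinuousLinearMap.proj (b d)
  have hL : ∀ d q, L d q = q (a d) - q (b d) := fun d q => rfl
  let Ψ : (↥M.VS → ℂ) → (↥E → ℝ) := fun q d => ‖L d q‖ ^ 2
  let p0 : ↥M.VS → ℂ := fun u => p u
  have hder : HasStrictFDerivAt Ψ (ContinuousLinearMap.pi (fun d => (2 • (innerSL ℝ (L d p0))).comp (L d))) p0 := by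
    rw [hasStrictFDerivAt_pi]
    intro d
    exact (hasStrictFDerivAt_norm_sq (L d p0)).comp p0 (L d).hasStrictFDerivAt
  have hsurj : (ContinuousLinearMap.pi (fun d => (2 • (innerSL ℝ (L d p0))).comp (L d))).range = ⊤ := by
    by_contra hcon
    obtain ⟨f, hf0, hf⟩ := Submodule.exists_le_ker_of_lt_top _ (lt_top_iff_ne_top.2 hcon)
    have hfs : ∀ y : ↥E → ℝ, f y = ∑ d : ↥E, y d * f (Pi.single d 1) := by
      intro y
      rw [LinearMap.pi_apply_eq_sum_univ f y]
      apply Finset.sum_congr rfl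
      intro d _
      rw [smul_eq_mul]
      congr 2
      ext j
      simp [Pi.single_apply, eq_comm]
    let c : D → ℝ := fun d => if hd : d ∈ E then f (Pi.single ⟨d, hd⟩ 1) else 0
    have hcE : ∀ d : ↥E, c d = f (Pi.single d 1) := fun d => dif_pos d.2
    have hzero := h.functional88 hs hE hEa c (by
      intro x
      have h1 : f (ContinuousLinearMap.pi (fun d => (2 • (innerSL ℝ (L d p0))).comp (L d)) (fun u : ↥M.VS => x u)) = 0 := by
        have := hf (LinearMap.mem_range_self (ContinuousLinearMap.pi (fun d => (2 • (innerSL ℝ (L d p0))).comp (L d))).toLinearMap (fun u : ↥M.VS => x u))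
        exact this
      rw [hfs] at h1
      have h2 : ∑ d ∈ E, c d * inner ℝ (p (M.t d) - p (M.t (M.al d))) (x (M.t d) - x (M.t (M.al d))) =
          ∑ d : ↥E, c d * inner ℝ (p (M.t d) - p (M.t (M.al d))) (x (M.t d) - x (M.t (M.al d))) :=
        (Finset.sum_coe_sort E (fun d => c d * inner ℝ (p (M.t d) - p (M.t (M.al d))) (x (M.t d) - x (M.t (M.al d))))).symm
      have h3 : (∑ d : ↥E, (ContinuousLinearMap.pi (fun d => (2 • (innerSL ℝ (L d p0))).comp (L d)) (fun u : ↥M.VS => x u)) d * f (Pi.single d 1)) =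
          2 * ∑ d : ↥E, c d * inner ℝ (p (M.t d) - p (M.t (M.al d))) (x (M.t d) - x (M.t (M.al d))) := by
        rw [Finset.mul_sum]
        apply Finset.sum_congr rfl
        intro d _
        rw [hcE d]
        have : (ContinuousLinearMap.pi (fun d => (2 • (innerSL ℝ (L d p0))).comp (L d)) (fun u : ↥M.VS => x u)) d =
            2 * inner ℝ (p (M.t d) - p (M.t (M.al d))) (x (M.t d) - x (M.t (M.al d))) := by
          simp only [ContinuousLinearMap.pi_apply, ContinuousLinearMap.comp_apply, smul_apply,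
            innerSL_apply_apply, hL, p0, a, b, nsmul_eq_mul, Nat.cast_ofNat]
        rw [this]
        ring
      rw [h3] at h1
      rw [h2]
      linarith)
    apply hf0
    apply LinearMap.ext
    intro y
    rw [hfs y, LinearMap.zero_apply]
    apply Finset.sum_eq_zero
    intro d _
    rw [← hcE d, hzero d d.2, mul_zero]
  have hmap := hder.map_nhds_eq_of_surj hsurj
  intro ε hε
  have hball : Metric.ball p0 ε ∈ nhds p0 := Metric.ball_mem_nhds _ hε
  have himg : Ψ '' Metric.ball p0 ε ∈ nhds (Ψ p0) := by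
    rw [← hmap]
    exact Filter.image_mem_map hball
  obtain ⟨η', hη', hsub⟩ := Metric.mem_nhds_iff.1 himg
  have hpos : ∀ d ∈ M.DS, 0 < ‖p (M.t d) - p (M.t (M.al d))‖ := fun d hd =>
    norm_pos_iff.2 (sub_ne_zero.2 (hne d hd))
  have hev : ∀ᶠ η in nhdsWithin (0 : ℝ) (Set.Ioi 0), ∀ d ∈ M.DS, η < ‖p (M.t d) - p (M.t (M.al d))‖ ∧
      η * (2 * ‖p (M.t d) - p (M.t (M.al d))‖ + η) < η' := by
    rw [Filter.eventually_all_finset]
    intro d hd
    apply Filter.Eventually.filter_mono nhdsWithin_le_nhds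
    have h1 : Filter.Tendsto (fun η : ℝ => η * (2 * ‖p (M.t d) - p (M.t (M.al d))‖ + η)) (nhds 0)
        (nhds (0 * (2 * ‖p (M.t d) - p (M.t (M.al d))‖ + 0))) :=
      (Continuous.tendsto (by fun_prop) 0)
    rw [zero_mul] at h1
    exact (eventually_lt_nhds (hpos d hd)).and (h1.eventually_lt_const hη')
  obtain ⟨η, hη, hη0⟩ := (hev.and self_mem_nhdsWithin).exists
  refine ⟨η, hη0, ?_⟩
  intro l hl hlη
  have hη0' : 0 < η := hη0
  have hlpos : ∀ d ∈ M.DS, 0 < l d := by
    intro d hd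
    have h1 := abs_lt.1 (hlη d hd)
    have h2 := (hη d hd).1
    linarith
  have hmem : (fun d : ↥E => (l d) ^ 2) ∈ Metric.ball (Ψ p0) η' := by
    rw [Metric.mem_ball, dist_pi_lt_iff hη']
    intro d
    have hd := hE d.2
    have h1 := hlη d hd
    obtain ⟨h2, h3⟩ := hη d hd
    have h4 : Ψ p0 d = ‖p (M.t d) - p (M.t (M.al d))‖ ^ 2 := rfl
    rw [h4, Real.dist_eq]
    set N := ‖p (M.t d) - p (M.t (M.al d))‖ with hN
    have h5 : l d ^ 2 - N ^ 2 = (l d - N) * (l d + N) := by ring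
    rw [h5, abs_mul]
    have h6 : |l d + N| ≤ 2 * N + η := by
      have h7 := abs_lt.1 h1
      have h8 := hpos d hd
      rw [abs_le]
      constructor <;> linarith
    have h9 : |l d - N| * |l d + N| ≤ η * (2 * N + η) :=
      mul_le_mul (le_of_lt h1) h6 (abs_nonneg _) (le_of_lt hη0')
    linarith
  obtain ⟨q, hq, hqΨ⟩ := hsub hmem
  refine ⟨fun u => if hu : u ∈ M.VS then q ⟨u, hu⟩ else p u, ?_, ?_⟩
  · intro u hu
    simp only [dif_pos hu]
    rw [Metric.mem_ball, dist_eq_norm] at hq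
    exact lt_of_le_of_lt (norm_le_pi_norm (q - p0) ⟨u, hu⟩) hq
  · have hEd : ∀ d ∈ E, ‖(if hu : M.t d ∈ M.VS then q ⟨M.t d, hu⟩ else p (M.t d)) -
        (if hu : M.t (M.al d) ∈ M.VS then q ⟨M.t (M.al d), hu⟩ else p (M.t (M.al d)))‖ = l d := by
      intro d hd
      rw [dif_pos (h.t_mem _ (hE hd)), dif_pos (h.h_mem (hE hd))]
      have h1 := congrFun hqΨ ⟨d, hd⟩
      have h2 : Ψ q ⟨d, hd⟩ = ‖q ⟨M.t d, h.t_mem _ (hE hd)⟩ - q ⟨M.t (M.al d), h.h_mem (hE hd)⟩‖ ^ 2 := rfl
      rw [h2] at h1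
      exact (pow_left_inj₀ (norm_nonneg _) (le_of_lt (hlpos d (hE hd))) two_ne_zero).1 h1
    intro d hd
    by_cases hdE : d ∈ E
    · exact hEd d hdE
    · have h1 : M.al d ∈ E := by
        by_contra hcon
        exact hdE ((hEa d hd).2 hcon)
      have h2 := hEd (M.al d) h1
      rw [h.al_al _ hd, hl d hd, norm_sub_rev] at h2
      exact h2

end Pool.Agent.Helper37.CP
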