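import Pool.Agent.Helper37.CP.Half

/-!
# Block CP-SFO: being stress-free is an open condition.

Let `E` be the half of `exists_half`. For `p : V → ℂ` let `T p : (↥E → ℝ) →ₗ[ℝ] (↥M.VS → ℂ)` send `c` to
`v ↦ ∑ d ∈ star v, (ω_c d) (p v - p (head d))`, where `ω_c d = c d` for `d ∈ E` and `ω_c d = c (al d)` for `al d ∈ E`. `SF p` iff `T p` is
injective (a symmetric `ω` on the darts is `ω_c` for its restriction `c` to `E`). `T p` is injective between finite dimensional
spaces, so there is `K > 0` with `‖c‖ ≤ K ‖T p c‖` (`LinearMap.exists_antilipschitzWith`, or compactness of the unit sphere); and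
`‖T p' c - T p c‖ ≤ 2 ε |DS| ‖c‖` if `‖p' u - p u‖ < ε` on `VS`. So `T p'` is injective for small `ε`.
-/

set_option linter.unusedSectionVars false

namespace Pool.Agent.Helper37.CP

variable {V D F : Type*} [DecidableEq V] [DecidableEq D] [DecidableEq F] {M : CM V D F}

private noncomputable def ext99 (M : CM V D F) (c : {d // d ∈ M.DS} → ℝ) (d : D) : ℝ :=
  if h : d ∈ M.DS then c ⟨d, h⟩ else 0

private theorem ext_mem99 (c : {d // d ∈ M.DS} → ℝ) {d : D} (h : d ∈ M.DS) :
    ext99 M c d = c ⟨d, h⟩ := by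
  unfold ext99
  rw [dif_pos h]

private theorem ext_cont99 (d : D) : Continuous (fun c : {d // d ∈ M.DS} → ℝ => ext99 M c d) := by
  unfold ext99
  by_cases h : d ∈ M.DS
  · simp only [dif_pos h]
    exact continuous_apply _
  · simp only [dif_neg h]
    exact continuous_const

private noncomputable def g99 (M : CM V D F) (p : V → ℂ) (c : {d // d ∈ M.DS} → ℝ) : ℝ :=
  ∑ v ∈ M.VS, ‖∑ d ∈ M.star v, (ext99 M c d : ℂ) * (p v - p (M.t (M.al d)))‖

private theorem g_cont99 (p : V → ℂ) : Continuous (g99 M p) := by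
  unfold g99
  refine continuous_finsetSum _ fun v _ => ?_
  refine continuous_norm.comp (continuous_finsetSum _ fun d _ => ?_)
  exact (Complex.continuous_ofReal.comp (ext_cont99 d)).mul continuous_const

private theorem g_sub99 (h : M.Ok) {p p' : V → ℂ} {ε : ℝ} (hp : ∀ u ∈ M.VS, ‖p' u - p u‖ < ε)
    {c : {d // d ∈ M.DS} → ℝ} (hc : ‖c‖ ≤ 1) :
    g99 M p c ≤ g99 M p' c + M.DS.card * (2 * ε) := by
  have h1 : ∀ v ∈ M.VS, ‖∑ d ∈ M.star v, (ext99 M c d : ℂ) * (p v - p (M.t (M.al d)))‖ ≤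
      ‖∑ d ∈ M.star v, (ext99 M c d : ℂ) * (p' v - p' (M.t (M.al d)))‖ +
        ∑ d ∈ M.star v, (2 * ε) := by
    intro v hv
    have e1 : ∑ d ∈ M.star v, (ext99 M c d : ℂ) * (p v - p (M.t (M.al d))) =
        ∑ d ∈ M.star v, (ext99 M c d : ℂ) * (p' v - p' (M.t (M.al d))) +
        ∑ d ∈ M.star v, (ext99 M c d : ℂ) *
          ((p' (M.t (M.al d)) - p (M.t (M.al d))) - (p' v - p v)) := by
      rw [← Finset.sum_add_distrib]
      refine Finset.sum_congr rfl fun d _ => ?_
      ring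
    rw [e1]
    refine (norm_add_le _ _).trans (add_le_add le_rfl ?_)
    refine (norm_sum_le _ _).trans (Finset.sum_le_sum fun d hd => ?_)
    rw [mem_star] at hd
    rw [norm_mul, Complex.norm_real]
    have h2 : ‖ext99 M c d‖ ≤ 1 := by
      rw [ext_mem99 c hd.1]
      exact (norm_le_pi_norm c _).trans hc
    have h3 : ‖(p' (M.t (M.al d)) - p (M.t (M.al d))) - (p' v - p v)‖ ≤ 2 * ε := by
      refine (norm_sub_le _ _).trans ?_
      have := hp _ (h.h_mem hd.1)
      have := hp _ hv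
      linarith
    calc ‖ext99 M c d‖ * ‖(p' (M.t (M.al d)) - p (M.t (M.al d))) - (p' v - p v)‖
        ≤ 1 * (2 * ε) := mul_le_mul h2 h3 (norm_nonneg _) zero_le_one
      _ = 2 * ε := one_mul _
  unfold g99
  refine (Finset.sum_le_sum h1).trans ?_
  rw [Finset.sum_add_distrib, h.sum_star (fun _ => 2 * ε), Finset.sum_const, nsmul_eq_mul]

theorem CM.Ok.sf_open (h : M.Ok) {p : V → ℂ} (hs : M.SF p) :
    ∃ ε > 0, ∀ p' : V → ℂ, (∀ u ∈ M.VS, ‖p' u - p u‖ < ε) → M.SF p' := by
  set S : Set ({d // d ∈ M.DS} → ℝ) := Metric.sphere 0 1 ∩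
    {c | ∀ d ∈ M.DS, ext99 M c (M.al d) = ext99 M c d} with hS
  have hcl : IsClosed {c : {d // d ∈ M.DS} → ℝ | ∀ d ∈ M.DS,
      ext99 M c (M.al d) = ext99 M c d} := by
    simp only [Set.ofPred_forall]
    exact isClosed_iInter fun d => isClosed_iInter fun _ =>
      isClosed_eq (ext_cont99 _) (ext_cont99 _)
  have hcomp : IsCompact S := (isCompact_sphere _ _).inter_right hcl
  have hpos : ∀ c ∈ S, 0 < g99 M p c := by
    intro c hc
    have hnn : 0 ≤ g99 M p c := Finset.sum_nonneg fun v _ => norm_nonneg _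
    rcases hnn.lt_or_eq with h1 | h1
    · exact h1
    · exfalso
      have h2 : ∀ v ∈ M.VS, ∑ d ∈ M.star v, (ext99 M c d : ℂ) * (p v - p (M.t (M.al d))) = 0 := by
        intro v hv
        have := (Finset.sum_eq_zero_iff_of_nonneg (fun v _ => norm_nonneg _)).1 h1.symm v hv
        exact norm_eq_zero.1 this
      have h3 := hs (ext99 M c) hc.2 h2
      have h4 : c = 0 := by
        funext d
        have := h3 d.1 d.2
        rw [ext_mem99 c d.2] at this
        exact this
      have h5 := hc.1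
      rw [h4] at h5
      simp at h5
  have key : ∃ m > 0, ∀ c ∈ S, m ≤ g99 M p c := by
    rcases S.eq_empty_or_nonempty with h1 | h1
    · refine ⟨1, one_pos, fun c hc => ?_⟩
      rw [h1] at hc
      exact hc.elim
    · obtain ⟨c0, hc0, h2⟩ := hcomp.exists_isMinOn h1 (g_cont99 p).continuousOn
      exact ⟨g99 M p c0, hpos c0 hc0, fun c hc => h2 hc⟩
  obtain ⟨m, hm, hmin⟩ := key
  refine ⟨m / (2 * M.DS.card + 1), by positivity, ?_⟩
  intro p' hp' ω hω1 hω2
  by_contra hne
  push Not at hne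
  obtain ⟨d0, hd0, hne⟩ := hne
  set c : {d // d ∈ M.DS} → ℝ := fun d => ω d.1 with hc
  have hc0 : c ≠ 0 := by
    intro h1
    apply hne
    exact congrFun h1 ⟨d0, hd0⟩
  have hcn : 0 < ‖c‖ := norm_pos_iff.2 hc0
  have hext : ∀ d ∈ M.DS, ext99 M (‖c‖⁻¹ • c) d = ‖c‖⁻¹ * ω d := by
    intro d hd
    rw [ext_mem99 _ hd]
    rfl
  have hcS : ‖c‖⁻¹ • c ∈ S := by
    refine ⟨?_, ?_⟩
    · rw [mem_sphere_zero_iff_norm, norm_smul, norm_inv, norm_norm, inv_mul_cancel₀ hcn.ne']
    · intro d hd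
      rw [hext _ (h.al_mem d hd), hext _ hd, hω1 d hd]
  have hz : g99 M p' (‖c‖⁻¹ • c) = 0 := by
    unfold g99
    refine Finset.sum_eq_zero fun v hv => ?_
    have : ∑ d ∈ M.star v, (ext99 M (‖c‖⁻¹ • c) d : ℂ) * (p' v - p' (M.t (M.al d))) =
        (‖c‖⁻¹ : ℂ) * ∑ d ∈ M.star v, (ω d : ℂ) * (p' v - p' (M.t (M.al d))) := by
      rw [Finset.mul_sum]
      refine Finset.sum_congr rfl fun d hd => ?_
      rw [mem_star] at hd
      rw [hext d hd.1]
      push_cast
      ring
    rw [this, hω2 v hv, mul_zero, norm_zero]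
  have h1 := hmin _ hcS
  have h2 := g_sub99 h hp' (c := ‖c‖⁻¹ • c) (by
    have := hcS.1
    rw [mem_sphere_zero_iff_norm] at this
    exact this.le)
  rw [hz, zero_add] at h2
  have h3 : (M.DS.card : ℝ) * (2 * (m / (2 * M.DS.card + 1))) < m := by
    have : (0 : ℝ) < 2 * M.DS.card + 1 := by positivity
    rw [← mul_assoc, ← mul_div_assoc, div_lt_iff₀ this]
    nlinarith
  linarith

end Pool.Agent.Helper37.CP
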