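import Pool.Agent.Helper37.CP.Ts
import Pool.Agent.Helper37.CP.SFOpen
import Pool.Agent.Helper37.CP.OpenMap
import Pool.Agent.Helper37.CP.Lam1

/-!
# Block CP-PER: all conditions except tangency persist under small perturbations; nearby radii are realised.

* `heads_ne`: tangency with positive radii: `p (t d) ≠ p (head d)`.
* `persist`: `ts_open` for the finitely many vertices, `sf_open`, and `cross` is continuous (finitely many strict inequalities); take
  the minimum of the `ε`.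
* `near_radii`: let `ε` be as in `persist`, `η'` from `open_map`; for `|r' v - r v| < η := min (η' / 2) (min of the r v)` put
  `l d = r' (t d) + r' (head d)`; the placement `p'` with these lengths is the required packing.
-/

set_option linter.unusedSectionVars false

namespace Pool.Agent.Helper37.CP

variable {V D F : Type*} [DecidableEq V] [DecidableEq D] [DecidableEq F] {M : CM V D F}

/-- a common `ε` for finitely many conditions -/
private theorem unif67 {V ι : Type*} {U : Finset V} {p : V → ℂ} (S : Finset ι) (Q : ι → (V → ℂ) → Prop)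
    (h : ∀ i ∈ S, ∃ ε > (0 : ℝ), ∀ p' : V → ℂ, (∀ u ∈ U, ‖p' u - p u‖ < ε) → Q i p') :
    ∃ ε > (0 : ℝ), ∀ p' : V → ℂ, (∀ u ∈ U, ‖p' u - p u‖ < ε) → ∀ i ∈ S, Q i p' := by
  classical
  induction S using Finset.induction_on with
  | empty => exact ⟨1, one_pos, fun p' _ i hi => absurd hi (Finset.notMem_empty i)⟩
  | insert a S ha ih =>
    obtain ⟨ε1, h1, h1'⟩ := ih fun i hi => h i (Finset.mem_insert_of_mem hi)
    obtain ⟨ε2, h2, h2'⟩ := h a (Finset.mem_insert_self a S)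
    refine ⟨min ε1 ε2, lt_min h1 h2, fun p' hp' i hi => ?_⟩
    rcases Finset.mem_insert.1 hi with rfl | hi
    · exact h2' p' fun u hu => (hp' u hu).trans_le (min_le_right _ _)
    · exact h1' p' (fun u hu => (hp' u hu).trans_le (min_le_left _ _)) i hi

/-- a positive function on a finite set has a positive lower bound -/
private theorem lower67 {V : Type*} (S : Finset V) (r : V → ℝ) (h : ∀ v ∈ S, 0 < r v) :
    ∃ ρ > (0 : ℝ), ∀ v ∈ S, ρ ≤ r v := by
  classical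
  induction S using Finset.induction_on with
  | empty => exact ⟨1, one_pos, fun v hv => absurd hv (Finset.notMem_empty v)⟩
  | insert a S ha ih =>
    obtain ⟨ρ, h1, h1'⟩ := ih fun i hi => h i (Finset.mem_insert_of_mem hi)
    refine ⟨min ρ (r a), lt_min h1 (h a (Finset.mem_insert_self a S)), fun v hv => ?_⟩
    rcases Finset.mem_insert.1 hv with rfl | hv
    · exact min_le_right _ _
    · exact (min_le_left _ _).trans (h1' v hv)

/-- positivity of `cross` is an open condition -/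
private theorem cross_open67 {a b c : ℂ} (h : 0 < cross (a - b) (c - b)) :
    ∃ ε > (0 : ℝ), ∀ a' b' c' : ℂ, ‖a' - a‖ < ε → ‖b' - b‖ < ε → ‖c' - c‖ < ε →
      0 < cross (a' - b') (c' - b') := by
  have hcont : Continuous (fun q : ℂ × ℂ × ℂ => cross (q.1 - q.2.1) (q.2.2 - q.2.1)) := by
    unfold cross
    fun_prop
  have hopen : IsOpen {q : ℂ × ℂ × ℂ | 0 < cross (q.1 - q.2.1) (q.2.2 - q.2.1)} :=
    isOpen_lt continuous_const hcont
  obtain ⟨ε, hε, hball⟩ := Metric.isOpen_iff.1 hopen (a, b, c) h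
  refine ⟨ε, hε, fun a' b' c' ha hb hc => ?_⟩
  have hmem : ((a', b', c') : ℂ × ℂ × ℂ) ∈ Metric.ball (a, b, c) ε := by
    rw [Metric.mem_ball, Prod.dist_eq, Prod.dist_eq, dist_eq_norm, dist_eq_norm, dist_eq_norm]
    exact max_lt ha (max_lt hb hc)
  exact hball hmem

theorem CM.Pk.heads_ne {p : V → ℂ} {r : V → ℝ} (hp : M.Pk p r) (h : M.Ok) {d : D} (hd : d ∈ M.DS) :
    p (M.t d) ≠ p (M.t (M.al d)) := by
  intro heq
  have h1 := hp.tan d hd
  have h2 := hp.pos _ (h.t_mem d hd)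
  have h3 := hp.pos _ (h.t_mem _ (h.al_mem d hd))
  rw [heq, sub_self, norm_zero] at h1
  linarith

theorem CM.persist (h : M.Ok) {sp : Finset F} {p : V → ℂ} (hp : ∀ d ∈ M.DS, p (M.t d) ≠ p (M.t (M.al d)))
    (hc : ∀ v ∈ M.VS, M.ts p v = 2 * Real.pi) (hs : M.SF p) (ho : M.Ori sp p) :
    ∃ ε > 0, ∀ p' : V → ℂ, (∀ u ∈ M.VS, ‖p' u - p u‖ < ε) →
      (∀ v ∈ M.VS, M.ts p' v = 2 * Real.pi) ∧ M.SF p' ∧ M.Ori sp p' := by
  have hA : ∀ v ∈ M.VS, ∃ ε > 0, ∀ p' : V → ℂ, (∀ u ∈ M.VS, ‖p' u - p u‖ < ε) →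
      M.ts p' v = 2 * Real.pi := by
    intro v hv
    refine h.ts_open hv ?_ (hc v hv)
    intro d hd
    have hd' := Finset.mem_filter.1 hd
    have h1 := hp d hd'.1
    rw [hd'.2] at h1
    exact fun h2 => h1 h2.symm
  have hB : ∀ d ∈ M.DS, ∃ ε > 0, ∀ p' : V → ℂ, (∀ u ∈ M.VS, ‖p' u - p u‖ < ε) →
      (M.fc d ∉ sp → M.len (M.fc d) = 3 →
        0 < cross (p' (M.t (M.al d)) - p' (M.t d)) (p' (M.t (M.al (M.pv (M.al d)))) - p' (M.t d))) := by
    intro d hd
    by_cases hcase : M.fc d ∉ sp ∧ M.len (M.fc d) = 3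
    · obtain ⟨ε, hε, h1⟩ := cross_open67 (ho d hd hcase.1 hcase.2)
      refine ⟨ε, hε, fun p' hp' _ _ => h1 _ _ _ (hp' _ (h.t_mem _ (h.al_mem d hd)))
        (hp' _ (h.t_mem d hd)) (hp' _ (h.t_mem _ (h.al_mem _ (h.pv_mem _ (h.al_mem d hd)))))⟩
    · exact ⟨1, one_pos, fun p' _ h1 h2 => absurd ⟨h1, h2⟩ hcase⟩
  obtain ⟨ε1, h1, h1'⟩ := unif67 (U := M.VS) (p := p) M.VS (fun v p' => M.ts p' v = 2 * Real.pi) hA
  obtain ⟨ε2, h2, h2'⟩ := unif67 (U := M.VS) (p := p) M.DS (fun d p' => M.fc d ∉ sp →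
    M.len (M.fc d) = 3 →
      0 < cross (p' (M.t (M.al d)) - p' (M.t d)) (p' (M.t (M.al (M.pv (M.al d)))) - p' (M.t d))) hB
  obtain ⟨ε3, h3, h3'⟩ := h.sf_open hs
  refine ⟨min ε1 (min ε2 ε3), lt_min h1 (lt_min h2 h3), fun p' hp' => ⟨?_, ?_, ?_⟩⟩
  · exact h1' p' fun u hu => (hp' u hu).trans_le (min_le_left _ _)
  · exact h3' p' fun u hu =>
      (hp' u hu).trans_le ((min_le_right _ _).trans (min_le_right _ _))
  · exact h2' p' fun u hu =>
      (hp' u hu).trans_le ((min_le_right _ _).trans (min_le_left _ _))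

theorem CM.near_radii (h : M.Ok) {sp : Finset F} {p : V → ℂ} {r : V → ℝ} (hp : M.Pk p r) (hs : M.SF p)
    (ho : M.Ori sp p) : ∃ η > 0, ∀ r' : V → ℝ, (∀ v ∈ M.VS, |r' v - r v| < η) →
      ∃ p' : V → ℂ, M.Pk p' r' ∧ M.SF p' ∧ M.Ori sp p' := by
  have hne : ∀ d ∈ M.DS, p (M.t d) ≠ p (M.t (M.al d)) := fun d hd => hp.heads_ne h hd
  obtain ⟨ε, hε, hper⟩ := CM.persist h (sp := sp) hne hp.cyc hs ho
  obtain ⟨η', hη', hopen⟩ := h.open_map hs hne ε hε
  obtain ⟨ρ, hρ, hρ'⟩ := lower67 M.VS r hp.pos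
  refine ⟨min (η' / 2) ρ, lt_min (half_pos hη') hρ, fun r' hr' => ?_⟩
  have hr1 : ∀ v ∈ M.VS, |r' v - r v| < η' / 2 := fun v hv => (hr' v hv).trans_le (min_le_left _ _)
  have hr2 : ∀ v ∈ M.VS, |r' v - r v| < ρ := fun v hv => (hr' v hv).trans_le (min_le_right _ _)
  obtain ⟨p', hp1, hp2⟩ := hopen (fun d => r' (M.t d) + r' (M.t (M.al d)))
    (by
      intro d hd
      show r' (M.t (M.al d)) + r' (M.t (M.al (M.al d))) = r' (M.t d) + r' (M.t (M.al d))
      rw [h.al_al d hd, add_comm])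
    (by
      intro d hd
      show |r' (M.t d) + r' (M.t (M.al d)) - ‖p (M.t d) - p (M.t (M.al d))‖| < η'
      rw [hp.tan d hd]
      have e1 := abs_lt.1 (hr1 _ (h.t_mem d hd))
      have e2 := abs_lt.1 (hr1 _ (h.t_mem _ (h.al_mem d hd)))
      rw [abs_lt]
      constructor <;> linarith [e1.1, e1.2, e2.1, e2.2])
  obtain ⟨q1, q2, q3⟩ := hper p' hp1
  refine ⟨p', ⟨?_, hp2, q1⟩, q2, q3⟩
  intro v hv
  have e1 := abs_lt.1 (hr2 v hv)
  have e2 := hρ' v hv
  linarith [e1.1]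

end Pool.Agent.Helper37.CP
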