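import Pool.Agent.Helper37.CP.Len

/-!
# Block CP-TRI: removing a vertex of degree three which has two triangular faces.

`e : M.Tri x y ea eb ec`: `v = t ea = t eb = t ec` has exactly the darts `ea : v → a`, `eb : v → b`, `ec : v → c` (`nx ea = eb`, `nx eb = ec`,
`nx ec = ea` from `x2`, `y2`, `g1`), `x : a → b`, `y : b → c`; `fc x = fc (al eb) = fc ea` is the face `{x, al eb, ea}` and
`fc y = fc (al ec) = fc eb` the face `{y, al ec, eb}` (`mem3`). `nx x = al ea` (x3), `nx (al eb) = al x` (x1), `nx y = al eb` (y3),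
`nx (al ec) = al y` (y1). The vertices `v, a, b, c` are distinct (`loopless`, and `simple` for the darts at `v`).
`M' = M.tri x y ea eb ec`: the darts `ea, eb, ec, al eb` (distinct) disappear, `al' (al ea) = al ec`, `al' (al ec) = al ea`, `nx'` jumps over
`al eb` at `b`, `fc' y = fc' (al ec) = fc x`, `VS' = VS \ {v}`, `FS' = FS \ {fc y}`.
* `not_adj`: no dart of `M` runs from `a` to `c` or back: otherwise `X = {a, b, c, v}` has `dc X ≥ 12 > 4 * 4 - 6`.
* `Ok`: `simple`, `loopless`: the only new pair is `a, c`. `al'`, `nx'`, `pv'` as in the other reductions (`nx y = al eb`, so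
  `nx' y = nx (al eb) = al x`, `pv' (al x) = pv (al eb) = y`; note `al eb ≠ nx (al eb)`). `orb`: at `b` the dart `al eb` is jumped over,
  at the other vertices nothing changes (`t' = t`). `fc_ph`: new face `x, y, al ec` (`pv' (al x) = y`, `pv' (al y) = al ec`,
  `pv' (al' (al ec)) = pv (al ea) = x`), for `d = al ea`: `pv' (al' d) = pv (al ec)`, whose face is `fc ec` (fc_ph for `ec`), and
  `fc ec = fc (pv ea) = fc (al ea)` (fc_ph for `al ea`), all other darts as before. `fc_surj`: `fc x` has `x`; `fc (al ea)` has `al ea`; others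
  keep all their darts. `euler`: `-1, -1, -4`.
* `Lam`: `dc' X = dc X` (+ 2 if `a, c ∈ X`) for `X ⊆ VS \ {v}`. If `a, c ∈ X` and `dc X + 2 + 6 > 4 |X|`, then `dc X ≥ 4 |X| - 6` by parity; if
  `b ∈ X`, then `dc (X ∪ {v}) ≥ dc X + 6 ≥ 4 |X ∪ {v}| - 4`, if `b ∉ X`, then `dc (X ∪ {v, b}) ≥ dc X + 10 = 4 |X ∪ {v, b}| - 4`,
  contradiction to `spa`. Total: `|DS'| = |DS| - 4`.
* lengths: `len' (fc x) = 3`; `len' (fc ec) + 1 = len (fc ec)`; others unchanged; `len (fc ec) ≠ 3`: otherwise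
  `ph (ec) = pv (al ec)` would be a dart from `c` to `a` (the face is `{al ea, ec, ph ec}`, `mem3`/`ph3`), against `not_adj`.
* `exists_tri`: `star` of `v = t ea` has three elements, `len (fc ea) = len (fc (nx ea)) = 3`; put `eb = nx ea`, `ec = nx eb`,
  `x = pv (al ea)`, `y = pv (al eb)`; `nx ec = ea` since the star has 3 elements; the other relations are `ph3` for `ea` and `eb`.
-/

set_option linter.unusedSectionVars false

namespace Pool.Agent.Helper37.CP

variable {V D F : Type*} [DecidableEq V] [DecidableEq D] [DecidableEq F] {M : CM V D F} {x y ea eb ec : D}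

/-- basic relations -/
theorem CM.Tri.rel (e : M.Tri x y ea eb ec) (h : M.Ok) :
    M.nx ea = eb ∧ M.nx eb = ec ∧ M.nx ec = ea ∧ M.t eb = M.t ea ∧ M.t ec = M.t ea ∧ M.nx x = M.al ea ∧
    M.nx (M.al eb) = M.al x ∧ M.nx y = M.al eb ∧ M.nx (M.al ec) = M.al y ∧ M.t (M.al ea) = M.t x ∧
    M.t (M.al x) = M.t y ∧ M.t (M.al eb) = M.t y ∧ M.t (M.al y) = M.t (M.al ec) ∧
    M.fc (M.al eb) = M.fc x ∧ M.fc ea = M.fc x ∧ M.fc (M.al ec) = M.fc y ∧ M.fc eb = M.fc y ∧
    M.fc ec = M.fc (M.al ea) := by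
  have r1 : M.nx ea = eb := by rw [← e.x2]; exact h.nx_pv _ e.mb
  have r2 : M.nx eb = ec := by rw [← e.y2]; exact h.nx_pv _ e.mc
  have r3 : M.nx ec = ea := by rw [← e.g1]; exact h.nx_pv _ e.ma
  have r4 : M.t eb = M.t ea := by rw [← r1]; exact h.t_nx _ e.ma
  have r5 : M.t ec = M.t ea := by rw [← r4, ← r2]; exact h.t_nx _ e.mb
  have r6 : M.nx x = M.al ea := by rw [← e.x3]; exact h.nx_pv _ (h.al_mem _ e.ma)
  have r7 : M.nx (M.al eb) = M.al x := by rw [← e.x1]; exact h.nx_pv _ (h.al_mem _ e.mx)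
  have r8 : M.nx y = M.al eb := by
    have := h.nx_pv _ (h.al_mem _ e.mb)
    rw [e.y3] at this
    exact this
  have r9 : M.nx (M.al ec) = M.al y := by rw [← e.y1]; exact h.nx_pv _ (h.al_mem _ e.my)
  have r10 : M.t (M.al ea) = M.t x := by rw [← r6]; exact h.t_nx _ e.mx
  have r12 : M.t (M.al eb) = M.t y := by rw [← r8]; exact h.t_nx _ e.my
  have r11 : M.t (M.al x) = M.t y := by rw [← r12, ← r7]; exact h.t_nx _ (h.al_mem _ e.mb)
  have r13 : M.t (M.al y) = M.t (M.al ec) := by rw [← r9]; exact h.t_nx _ (h.al_mem _ e.mc)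
  have f1 : M.fc (M.al eb) = M.fc x := by
    have := h.fc_ph _ e.mx
    rw [e.x1] at this
    exact this
  have f2 : M.fc ea = M.fc x := by
    have := h.fc_ph _ (h.al_mem _ e.mb)
    rw [h.al_al _ e.mb, e.x2, f1] at this
    exact this
  have f3 : M.fc (M.al ec) = M.fc y := by
    have := h.fc_ph _ e.my
    rw [e.y1] at this
    exact this
  have f4 : M.fc eb = M.fc y := by
    have := h.fc_ph _ (h.al_mem _ e.mc)
    rw [h.al_al _ e.mc, e.y2, f3] at this
    exact this
  have f5 : M.fc ec = M.fc (M.al ea) := by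
    have := h.fc_ph _ (h.al_mem _ e.ma)
    rw [h.al_al _ e.ma, e.g1] at this
    exact this
  exact ⟨r1, r2, r3, r4, r5, r6, r7, r8, r9, r10, r11, r12, r13, f1, f2, f3, f4, f5⟩

theorem CM.Tri.star (e : M.Tri x y ea eb ec) (h : M.Ok) {d : D} (hd : d ∈ M.DS) (ht : M.t d = M.t ea) :
    d = ea ∨ d = eb ∨ d = ec := by
  obtain ⟨r1, r2, r3, -⟩ := e.rel h
  refine h.star_ind e.ma (fun d => d = ea ∨ d = eb ∨ d = ec) (Or.inl rfl) ?_ d hd ht
  intro d _ _ hP
  rcases hP with rfl | rfl | rfl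
  · exact Or.inr (Or.inl r1)
  · exact Or.inr (Or.inr r2)
  · exact Or.inl r3

/-- the four vertices are distinct -/
theorem CM.Tri.distinct (e : M.Tri x y ea eb ec) (h : M.Ok) (hl : M.Lam) (h3 : 3 ≤ M.VS.card) :
    M.t x ≠ M.t y ∧ M.t x ≠ M.t (M.al ec) ∧ M.t y ≠ M.t (M.al ec) ∧ M.t ea ≠ M.t x ∧ M.t ea ≠ M.t y ∧
      M.t ea ≠ M.t (M.al ec) := by
  obtain ⟨r1, r2, r3, r4, r5, r6, r7, r8, r9, r10, r11, r12, r13, -⟩ := e.rel h
  refine ⟨?_, ?_, ?_, ?_, ?_, ?_⟩
  · intro h1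
    apply h.loopless x e.mx
    rw [r11, h1]
  · intro h1
    have h2 : ea = ec := by
      apply h.simple _ e.ma _ e.mc r5.symm
      rw [r10, h1]
    apply hl.nx_ne h h3 e.mc
    rw [r3, h2]
  · intro h1
    apply h.loopless y e.my
    rw [r13, h1]
  · intro h1
    apply h.loopless ea e.ma
    rw [r10, h1]
  · intro h1
    apply h.loopless eb e.mb
    rw [r12, r4, h1]
  · intro h1
    apply h.loopless ec e.mc
    rw [r5, h1]

theorem CM.Tri.not_adj (e : M.Tri x y ea eb ec) (h : M.Ok) (hl : M.Lam) (h3 : 3 ≤ M.VS.card) :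
    ∀ d ∈ M.DS, M.t d = M.t x → M.t (M.al d) ≠ M.t (M.al ec) := by
  obtain ⟨r1, r2, r3, r4, r5, r6, r7, r8, r9, r10, r11, r12, r13, -⟩ := e.rel h
  obtain ⟨d1, d2, d3, d4, d5, d6⟩ := e.distinct h hl h3
  intro d hd h1 h2
  set X : Finset V := {M.t x, M.t y, M.t (M.al ec), M.t ea} with hX
  have hcard : X.card = 4 := by
    rw [hX, Finset.card_insert_of_notMem, Finset.card_insert_of_notMem, Finset.card_insert_of_notMem,
      Finset.card_singleton]
    · simp only [Finset.mem_singleton]; exact d6.symm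
    · simp only [Finset.mem_insert, Finset.mem_singleton, not_or]; exact ⟨d3, d5.symm⟩
    · simp only [Finset.mem_insert, Finset.mem_singleton, not_or]; exact ⟨d1, d2, d4.symm⟩
  have hsub : X ⊆ M.VS := by
    intro v hv
    simp only [hX, Finset.mem_insert, Finset.mem_singleton] at hv
    rcases hv with rfl | rfl | rfl | rfl
    · exact h.t_mem _ e.mx
    · exact h.t_mem _ e.my
    · exact h.h_mem e.mc
    · exact h.t_mem _ e.ma
  have hspa := hl.spa X hsub (by omega)
  have h12 : X.offDiag.card ≤ M.dc X := by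
    unfold CM.dc
    refine le_trans (Finset.card_le_card ?_) (Finset.card_image_le (f := fun d => (M.t d, M.t (M.al d))))
    intro pq hpq
    rw [Finset.mem_offDiag] at hpq
    obtain ⟨hp, hq, hne⟩ := hpq
    have key : ∀ d0 ∈ M.DS, M.t d0 = pq.1 → M.t (M.al d0) = pq.2 →
        pq ∈ (M.DS.filter (fun d => M.t d ∈ X ∧ M.t (M.al d) ∈ X)).image (fun d => (M.t d, M.t (M.al d))) := by
      intro d0 hd0 e1 e2
      rw [Finset.mem_image]
      refine ⟨d0, Finset.mem_filter.2 ⟨hd0, by rw [e1]; exact hp, by rw [e2]; exact hq⟩, ?_⟩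
      rw [e1, e2]
    have key' : ∀ d0 ∈ M.DS, M.t d0 = pq.2 → M.t (M.al d0) = pq.1 →
        pq ∈ (M.DS.filter (fun d => M.t d ∈ X ∧ M.t (M.al d) ∈ X)).image (fun d => (M.t d, M.t (M.al d))) := by
      intro d0 hd0 e1 e2
      exact key (M.al d0) (h.al_mem _ hd0) e2 (by rw [h.al_al _ hd0, e1])
    simp only [hX, Finset.mem_insert, Finset.mem_singleton] at hp hq
    rcases hp with hp | hp | hp | hp <;> rcases hq with hq | hq | hq | hq
    · exact absurd (hp.trans hq.symm) hne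
    · exact key x e.mx hp.symm (r11.trans hq.symm)
    · exact key d hd (h1.trans hp.symm) (h2.trans hq.symm)
    · exact key' ea e.ma hq.symm (r10.trans hp.symm)
    · exact key' x e.mx hq.symm (r11.trans hp.symm)
    · exact absurd (hp.trans hq.symm) hne
    · exact key y e.my hp.symm (r13.trans hq.symm)
    · exact key' eb e.mb (r4.trans hq.symm) (r12.trans hp.symm)
    · exact key' d hd (h1.trans hq.symm) (h2.trans hp.symm)
    · exact key' y e.my hq.symm (r13.trans hp.symm)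
    · exact absurd (hp.trans hq.symm) hne
    · exact key' ec e.mc (r5.trans hq.symm) hp.symm
    · exact key ea e.ma hp.symm (r10.trans hq.symm)
    · exact key eb e.mb (r4.trans hp.symm) (r12.trans hq.symm)
    · exact key ec e.mc (r5.trans hp.symm) hq.symm
    · exact absurd (hp.trans hq.symm) hne
  rw [Finset.offDiag_card, hcard] at h12
  omega

/-- many distinctness facts at once -/
private theorem CM.Tri.dist88 (e : M.Tri x y ea eb ec) (h : M.Ok) (hl : M.Lam) (h3 : 3 ≤ M.VS.card) :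
    (ea ≠ eb ∧ ea ≠ ec ∧ eb ≠ ec) ∧ (∀ d : D, M.t d ≠ M.t ea → d ≠ ea ∧ d ≠ eb ∧ d ≠ ec) ∧
    (M.al ea ≠ M.al eb ∧ M.al ea ≠ M.al ec ∧ M.al eb ≠ M.al ec) ∧
    (x ≠ y ∧ x ≠ M.al ea ∧ x ≠ M.al eb ∧ x ≠ M.al ec) ∧ (y ≠ M.al ea ∧ y ≠ M.al eb ∧ y ≠ M.al ec) := by
  obtain ⟨r1, r2, r3, r4, r5, r6, r7, r8, r9, r10, r11, r12, r13, -⟩ := e.rel h
  obtain ⟨d1, d2, d3, d4, d5, d6⟩ := e.distinct h hl h3
  have a1 : M.al ea ≠ M.al eb := by
    intro hh
    apply d1
    rw [← r10, ← r12, hh]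
  have a2 : M.al ea ≠ M.al ec := by
    intro hh
    apply d2
    rw [← r10, hh]
  have a3 : M.al eb ≠ M.al ec := by
    intro hh
    apply d3
    rw [← r12, hh]
  refine ⟨⟨?_, ?_, ?_⟩, ?_, ⟨a1, a2, a3⟩, ⟨?_, ?_, ?_, ?_⟩, ⟨?_, ?_, ?_⟩⟩
  · intro hh; exact a1 (by rw [hh])
  · intro hh; exact a2 (by rw [hh])
  · intro hh; exact a3 (by rw [hh])
  · intro d hd
    refine ⟨?_, ?_, ?_⟩
    · intro hh; exact hd (by rw [hh])
    · intro hh; exact hd (by rw [hh, r4])
    · intro hh; exact hd (by rw [hh, r5])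
  · intro hh; exact d1 (by rw [hh])
  · intro hh
    have : M.t (M.al x) = M.t ea := by rw [hh, h.al_al _ e.ma]
    rw [r11] at this
    exact d5 this.symm
  · intro hh
    exact d1 (by rw [← r12, ← hh])
  · intro hh; exact d2 (by rw [← hh])
  · intro hh
    exact d1 (by rw [← r10, ← hh])
  · intro hh
    have : M.t (M.al y) = M.t ea := by rw [hh, h.al_al _ e.mb, r4]
    rw [r13] at this
    exact d6 this.symm
  · intro hh; exact d3 (by rw [← hh])

private theorem CM.Tri.mem88 {d : D} : d ∈ (M.tri x y ea eb ec).DS ↔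
    d ∈ M.DS ∧ d ≠ ea ∧ d ≠ eb ∧ d ≠ ec ∧ d ≠ M.al eb := by
  unfold CM.tri
  simp only [Finset.mem_sdiff, Finset.mem_insert, Finset.mem_singleton, not_or]

private theorem CM.Tri.al88 {d : D} (h1 : d ≠ M.al ea) (h2 : d ≠ M.al ec) :
    (M.tri x y ea eb ec).al d = M.al d := by
  unfold CM.tri
  simp only [if_neg h1, if_neg h2]

private theorem CM.Tri.al_a88 : (M.tri x y ea eb ec).al (M.al ea) = M.al ec := by
  unfold CM.tri
  simp only [if_true]

private theorem CM.Tri.al_c88 (h : M.al ea ≠ M.al ec) : (M.tri x y ea eb ec).al (M.al ec) = M.al ea := by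
  unfold CM.tri
  simp only [if_neg h.symm, if_true]

private theorem CM.Tri.fc88 {d : D} (h1 : d ≠ y) (h2 : d ≠ M.al ec) :
    (M.tri x y ea eb ec).fc d = M.fc d := by
  unfold CM.tri
  simp only [if_neg h1, if_neg h2]

private theorem CM.Tri.fc_y88 : (M.tri x y ea eb ec).fc y = M.fc x := by
  unfold CM.tri
  simp only [if_true]

private theorem CM.Tri.fc_c88 : (M.tri x y ea eb ec).fc (M.al ec) = M.fc x := by
  unfold CM.tri
  simp only [if_true, ite_self]

private theorem CM.Tri.nx88 {d : D} (h1 : M.nx d ≠ M.al eb) : (M.tri x y ea eb ec).nx d = M.nx d := by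
  unfold CM.tri
  simp only [if_neg h1]

private theorem CM.Tri.nx'88 {d : D} (h1 : M.nx d = M.al eb) : (M.tri x y ea eb ec).nx d = M.nx (M.al eb) := by
  unfold CM.tri
  simp only [if_pos h1]

private theorem CM.Tri.pv88 {d : D} (h1 : d ≠ M.nx (M.al eb)) : (M.tri x y ea eb ec).pv d = M.pv d := by
  unfold CM.tri
  simp only [if_neg h1]

private theorem CM.Tri.pv'88 {d : D} (h1 : d = M.nx (M.al eb)) : (M.tri x y ea eb ec).pv d = M.pv (M.al eb) := by
  unfold CM.tri
  simp only [if_pos h1]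

private theorem CM.Tri.t88 {d : D} : (M.tri x y ea eb ec).t d = M.t d := rfl

/-- membership from the tail -/
private theorem CM.Tri.mem_of88 (e : M.Tri x y ea eb ec) (h : M.Ok) (hl : M.Lam) (h3 : 3 ≤ M.VS.card) {d : D}
    (hd : d ∈ M.DS) (ht : M.t d ≠ M.t ea) (hb : d ≠ M.al eb) : d ∈ (M.tri x y ea eb ec).DS := by
  obtain ⟨-, k, -⟩ := e.dist88 h hl h3
  obtain ⟨k1, k2, k3⟩ := k d ht
  exact CM.Tri.mem88.2 ⟨hd, k1, k2, k3, hb⟩

private theorem CM.Tri.tail88 (e : M.Tri x y ea eb ec) (h : M.Ok) {d : D}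
    (hd : d ∈ (M.tri x y ea eb ec).DS) : M.t d ≠ M.t ea := by
  intro ht
  obtain ⟨k0, k1, k2, k3, k4⟩ := CM.Tri.mem88.1 hd
  rcases e.star h k0 ht with hh | hh | hh
  · exact k1 hh
  · exact k2 hh
  · exact k3 hh

/-- the faces of x and of y -/
private theorem CM.Tri.face_x88 (e : M.Tri x y ea eb ec) (h : M.Ok) (hl : M.Lam) (h3 : 3 ≤ M.VS.card) {d : D}
    (hd : d ∈ M.DS) (hf : M.fc d = M.fc x) : d = x ∨ d = M.al eb ∨ d = ea := by
  have := hl.mem3 h h3 e.mx e.lenx hd hf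
  rw [e.x1, h.al_al _ e.mb, e.x2] at this
  exact this

private theorem CM.Tri.face_y88 (e : M.Tri x y ea eb ec) (h : M.Ok) (hl : M.Lam) (h3 : 3 ≤ M.VS.card) {d : D}
    (hd : d ∈ M.DS) (hf : M.fc d = M.fc y) : d = y ∨ d = M.al ec ∨ d = eb := by
  have := hl.mem3 h h3 e.my e.leny hd hf
  rw [e.y1, h.al_al _ e.mc, e.y2] at this
  exact this

private theorem CM.Tri.face_ne88 (e : M.Tri x y ea eb ec) (h : M.Ok) (hl : M.Lam) (h3 : 3 ≤ M.VS.card) :
    M.fc x ≠ M.fc y := by
  intro hf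
  obtain ⟨-, k, -, ⟨q1, q2, q3, q4⟩, -⟩ := e.dist88 h hl h3
  obtain ⟨d1, d2, d3, d4, d5, d6⟩ := e.distinct h hl h3
  rcases e.face_y88 h hl h3 e.mx hf with hh | hh | hh
  · exact q1 hh
  · exact q4 hh
  · exact (k x d4.symm).2.1 hh

private theorem CM.Tri.face_g88 (e : M.Tri x y ea eb ec) (h : M.Ok) (hl : M.Lam) (h3 : 3 ≤ M.VS.card) :
    M.fc ec ≠ M.fc x ∧ M.fc ec ≠ M.fc y := by
  obtain ⟨⟨p1, p2, p3⟩, k, -, -⟩ := e.dist88 h hl h3
  obtain ⟨d1, d2, d3, d4, d5, d6⟩ := e.distinct h hl h3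
  obtain ⟨r1, r2, r3, r4, r5, r6, r7, r8, r9, r10, r11, r12, r13, -⟩ := e.rel h
  constructor
  · intro hf
    rcases e.face_x88 h hl h3 e.mc hf with hh | hh | hh
    · exact (k x d4.symm).2.2 hh.symm
    · exact (k (M.al eb) (by rw [r12]; exact d5.symm)).2.2 hh.symm
    · exact p2 hh.symm
  · intro hf
    rcases e.face_y88 h hl h3 e.mc hf with hh | hh | hh
    · exact (k y d5.symm).2.2 hh.symm
    · exact (k (M.al ec) d6.symm).2.2 hh.symm
    · exact p3 hh.symm

private theorem CM.Tri.cardDS88 (e : M.Tri x y ea eb ec) (h : M.Ok) (hl : M.Lam) (h3 : 3 ≤ M.VS.card) :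
    (M.tri x y ea eb ec).DS.card + 4 = M.DS.card := by
  obtain ⟨⟨p1, p2, p3⟩, k, -, -⟩ := e.dist88 h hl h3
  obtain ⟨d1, d2, d3, d4, d5, d6⟩ := e.distinct h hl h3
  obtain ⟨r1, r2, r3, r4, r5, r6, r7, r8, r9, r10, r11, r12, r13, -⟩ := e.rel h
  obtain ⟨k1, k2, k3⟩ := k (M.al eb) (by rw [r12]; exact d5.symm)
  have hc : ({ea, eb, ec, M.al eb} : Finset D).card = 4 := by
    rw [Finset.card_insert_of_notMem, Finset.card_insert_of_notMem, Finset.card_insert_of_notMem,
      Finset.card_singleton]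
    · simp only [Finset.mem_singleton]; exact k3.symm
    · simp only [Finset.mem_insert, Finset.mem_singleton, not_or]; exact ⟨p3, k2.symm⟩
    · simp only [Finset.mem_insert, Finset.mem_singleton, not_or]; exact ⟨p1, p2, k1.symm⟩
  have hs : ({ea, eb, ec, M.al eb} : Finset D) ⊆ M.DS := by
    intro d hd
    simp only [Finset.mem_insert, Finset.mem_singleton] at hd
    rcases hd with rfl | rfl | rfl | rfl
    · exact e.ma
    · exact e.mb
    · exact e.mc
    · exact h.al_mem _ e.mb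
  have : (M.tri x y ea eb ec).DS = M.DS \ {ea, eb, ec, M.al eb} := rfl
  rw [this, ← hc]
  exact Finset.card_sdiff_add_card_eq_card hs

private theorem CM.Tri.card0_88 (e : M.Tri x y ea eb ec) (h : M.Ok) : (M.tri x y ea eb ec).VS.card + 1 = M.VS.card := by
  have : (M.tri x y ea eb ec).VS = M.VS.erase (M.t ea) := rfl
  rw [this]
  exact Finset.card_erase_add_one (h.t_mem _ e.ma)

theorem CM.Tri.ok (e : M.Tri x y ea eb ec) (h : M.Ok) (hl : M.Lam) (h3 : 3 ≤ M.VS.card) : (M.tri x y ea eb ec).Ok := by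
  obtain ⟨r1, r2, r3, r4, r5, r6, r7, r8, r9, r10, r11, r12, r13, f1, f2, f3, f4, f5⟩ := e.rel h
  obtain ⟨d1, d2, d3, d4, d5, d6⟩ := e.distinct h hl h3
  obtain ⟨⟨p1, p2, p3⟩, k, ⟨a1, a2, a3⟩, ⟨q1, q2, q3, q4⟩, ⟨s1, s2, s3⟩⟩ := e.dist88 h hl h3
  have mAa := h.al_mem _ e.ma
  have mAb := h.al_mem _ e.mb
  have mAc := h.al_mem _ e.mc
  have mAx := h.al_mem _ e.mx
  have mAy := h.al_mem _ e.my
  have tAa : M.t (M.al ea) ≠ M.t ea := by rw [r10]; exact d4.symm
  have tAb : M.t (M.al eb) ≠ M.t ea := by rw [r12]; exact d5.symm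
  have tAc : M.t (M.al ec) ≠ M.t ea := d6.symm
  have tAx : M.t (M.al x) ≠ M.t ea := by rw [r11]; exact d5.symm
  have tAy : M.t (M.al y) ≠ M.t ea := by rw [r13]; exact d6.symm
  have nAa : M.al ea ∈ (M.tri x y ea eb ec).DS := e.mem_of88 h hl h3 mAa tAa a1
  have nAc : M.al ec ∈ (M.tri x y ea eb ec).DS := e.mem_of88 h hl h3 mAc tAc a3.symm
  have nx' : x ∈ (M.tri x y ea eb ec).DS := e.mem_of88 h hl h3 e.mx d4.symm q3
  have ny' : y ∈ (M.tri x y ea eb ec).DS := e.mem_of88 h hl h3 e.my d5.symm s2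
  have xAb : M.al x ≠ M.al eb := by
    intro hh
    exact (k x d4.symm).2.1 (h.al_inj e.mx e.mb hh)
  have nAx : M.al x ∈ (M.tri x y ea eb ec).DS := e.mem_of88 h hl h3 mAx tAx xAb
  have sub : ∀ d, d ∈ (M.tri x y ea eb ec).DS → d ∈ M.DS := fun d hd => (CM.Tri.mem88.1 hd).1
  have nAb : ∀ d, d ∈ (M.tri x y ea eb ec).DS → d ≠ M.al eb := fun d hd => (CM.Tri.mem88.1 hd).2.2.2.2
  have alm : ∀ d, d ∈ (M.tri x y ea eb ec).DS → d ≠ M.al ea → d ≠ M.al ec → M.al d ∈ (M.tri x y ea eb ec).DS := by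
    intro d hd hda hdc
    obtain ⟨k0, k1, k2, k3, k4⟩ := CM.Tri.mem88.1 hd
    refine CM.Tri.mem88.2 ⟨h.al_mem _ k0, ?_, ?_, ?_, ?_⟩
    · intro hh; exact hda (by rw [← hh, h.al_al _ k0])
    · intro hh; exact k4 (by rw [← hh, h.al_al _ k0])
    · intro hh; exact hdc (by rw [← hh, h.al_al _ k0])
    · intro hh; exact k2 (h.al_inj k0 e.mb hh)
  have al_ne' : ∀ d, d ∈ (M.tri x y ea eb ec).DS → M.al d ≠ M.al ea ∧ M.al d ≠ M.al ec := by
    intro d hd
    obtain ⟨k0, k1, k2, k3, k4⟩ := CM.Tri.mem88.1 hd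
    exact ⟨fun hh => k1 (h.al_inj k0 e.ma hh), fun hh => k3 (h.al_inj k0 e.mc hh)⟩
  have nadj := e.not_adj h hl h3
  constructor
  · -- t_mem
    intro d hd
    have : (M.tri x y ea eb ec).VS = M.VS.erase (M.t ea) := rfl
    rw [this, Finset.mem_erase]
    exact ⟨e.tail88 h hd, h.t_mem _ (sub d hd)⟩
  · -- al_mem
    intro d hd
    by_cases hda : d = M.al ea
    · rw [hda, CM.Tri.al_a88]; exact nAc
    by_cases hdc : d = M.al ec
    · rw [hdc, CM.Tri.al_c88 a2]; exact nAa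
    rw [CM.Tri.al88 hda hdc]
    exact alm d hd hda hdc
  · -- al_al
    intro d hd
    by_cases hda : d = M.al ea
    · rw [hda, CM.Tri.al_a88, CM.Tri.al_c88 a2]
    by_cases hdc : d = M.al ec
    · rw [hdc, CM.Tri.al_c88 a2, CM.Tri.al_a88]
    rw [CM.Tri.al88 hda hdc, CM.Tri.al88 (al_ne' d hd).1 (al_ne' d hd).2, h.al_al _ (sub d hd)]
  · -- loopless
    intro d hd
    rw [CM.Tri.t88, CM.Tri.t88]
    by_cases hda : d = M.al ea
    · rw [hda, CM.Tri.al_a88, r10]; exact d2.symm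
    by_cases hdc : d = M.al ec
    · rw [hdc, CM.Tri.al_c88 a2, r10]; exact d2
    rw [CM.Tri.al88 hda hdc]
    exact h.loopless _ (sub d hd)
  · -- simple
    intro d hd d' hd' h1 h2
    rw [CM.Tri.t88, CM.Tri.t88] at h1 h2
    have hac : ∀ w, w ∈ (M.tri x y ea eb ec).DS → M.t w = M.t x → M.t (M.al w) ≠ M.t (M.al ec) :=
      fun w hw ht => nadj w (sub w hw) ht
    have hca : ∀ w, w ∈ (M.tri x y ea eb ec).DS → M.t w = M.t (M.al ec) → M.t (M.al w) ≠ M.t x := by
      intro w hw ht hh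
      apply nadj (M.al w) (h.al_mem _ (sub w hw)) hh
      rw [h.al_al _ (sub w hw), ht]
    by_cases hda : d = M.al ea
    · rw [hda, CM.Tri.al_a88] at h2
      rw [hda, r10] at h1
      by_cases hda' : d' = M.al ea
      · rw [hda, hda']
      by_cases hdc' : d' = M.al ec
      · rw [hdc'] at h1; exact absurd h1 d2
      rw [CM.Tri.al88 hda' hdc'] at h2
      exact absurd h2.symm (hac d' hd' h1.symm)
    by_cases hdc : d = M.al ec
    · rw [hdc, CM.Tri.al_c88 a2, r10] at h2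
      rw [hdc] at h1
      by_cases hda' : d' = M.al ea
      · rw [hda', r10] at h1; exact absurd h1.symm d2
      by_cases hdc' : d' = M.al ec
      · rw [hdc, hdc']
      rw [CM.Tri.al88 hda' hdc'] at h2
      exact absurd h2.symm (hca d' hd' h1.symm)
    rw [CM.Tri.al88 hda hdc] at h2
    by_cases hda' : d' = M.al ea
    · rw [hda', CM.Tri.al_a88] at h2
      rw [hda', r10] at h1
      exact absurd h2 (hac d hd h1)
    by_cases hdc' : d' = M.al ec
    · rw [hdc', CM.Tri.al_c88 a2, r10] at h2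
      rw [hdc'] at h1
      exact absurd h2 (hca d hd h1)
    rw [CM.Tri.al88 hda' hdc'] at h2
    exact h.simple _ (sub d hd) _ (sub d' hd') h1 h2
  · -- nx_mem
    intro d hd
    by_cases hb : M.nx d = M.al eb
    · rw [CM.Tri.nx'88 hb, r7]; exact nAx
    · rw [CM.Tri.nx88 hb]
      apply e.mem_of88 h hl h3 (h.nx_mem _ (sub d hd)) _ hb
      rw [h.t_nx _ (sub d hd)]
      exact e.tail88 h hd
  · -- pv_mem
    intro d hd
    by_cases hb : d = M.nx (M.al eb)
    · rw [CM.Tri.pv'88 hb, e.y3]; exact ny'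
    · rw [CM.Tri.pv88 hb]
      apply e.mem_of88 h hl h3 (h.pv_mem _ (sub d hd))
      · rw [h.t_pv (sub d hd)]
        exact e.tail88 h hd
      · intro hh
        exact hb (by rw [← hh, h.nx_pv _ (sub d hd)])
  · -- pv_nx
    intro d hd
    by_cases hb : M.nx d = M.al eb
    · rw [CM.Tri.nx'88 hb, CM.Tri.pv'88 rfl, ← hb, h.pv_nx _ (sub d hd)]
    · rw [CM.Tri.nx88 hb, CM.Tri.pv88, h.pv_nx _ (sub d hd)]
      intro hh
      exact nAb d hd (h.nx_inj (sub d hd) mAb hh)
  · -- nx_pv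
    intro d hd
    by_cases hb : d = M.nx (M.al eb)
    · rw [CM.Tri.pv'88 hb, CM.Tri.nx'88 (h.nx_pv _ mAb), ← hb]
    · rw [CM.Tri.pv88 hb, CM.Tri.nx88, h.nx_pv _ (sub d hd)]
      rw [h.nx_pv _ (sub d hd)]
      exact nAb d hd
  · -- t_nx
    intro d hd
    rw [CM.Tri.t88, CM.Tri.t88]
    by_cases hb : M.nx d = M.al eb
    · rw [CM.Tri.nx'88 hb, h.t_nx _ mAb, ← hb, h.t_nx _ (sub d hd)]
    · rw [CM.Tri.nx88 hb, h.t_nx _ (sub d hd)]
  · -- orb
    intro d hd d' hd' h1
    rw [CM.Tri.t88, CM.Tri.t88] at h1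
    have key := h.star_ind (sub d hd) (fun w => (w ≠ M.al eb → ∃ j : ℕ, (M.tri x y ea eb ec).nx^[j] d = w) ∧
      (w = M.al eb → ∃ j : ℕ, (M.tri x y ea eb ec).nx^[j] d = y)) ?_ ?_ d' (sub d' hd') h1.symm
    · exact key.1 (nAb d' hd')
    · exact ⟨fun _ => ⟨0, rfl⟩, fun hh => absurd hh (nAb d hd)⟩
    · intro w hw _ hP
      constructor
      · intro hne
        by_cases hwb : w = M.al eb
        · obtain ⟨j, hj⟩ := hP.2 hwb
          refine ⟨j + 1, ?_⟩
          rw [Function.iterate_succ_apply', hj, CM.Tri.nx'88 r8, hwb]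
        · obtain ⟨j, hj⟩ := hP.1 hwb
          refine ⟨j + 1, ?_⟩
          rw [Function.iterate_succ_apply', hj, CM.Tri.nx88 hne]
      · intro hb
        have hwy : w = y := by
          rw [← h.pv_nx _ hw, hb, e.y3]
        obtain ⟨j, hj⟩ := hP.1 (by rw [hwy]; exact s2)
        exact ⟨j, by rw [hj, hwy]⟩
  · -- fc_mem
    intro d hd
    have : (M.tri x y ea eb ec).FS = M.FS.erase (M.fc y) := rfl
    rw [this, Finset.mem_erase]
    by_cases hy : d = y
    · rw [hy, CM.Tri.fc_y88]; exact ⟨e.face_ne88 h hl h3, h.fc_mem _ e.mx⟩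
    by_cases hc : d = M.al ec
    · rw [hc, CM.Tri.fc_c88]; exact ⟨e.face_ne88 h hl h3, h.fc_mem _ e.mx⟩
    rw [CM.Tri.fc88 hy hc]
    refine ⟨?_, h.fc_mem _ (sub d hd)⟩
    intro hf
    rcases e.face_y88 h hl h3 (sub d hd) hf with hh | hh | hh
    · exact hy hh
    · exact hc hh
    · exact (CM.Tri.mem88.1 hd).2.2.1 hh
  · -- fc_ph
    intro d hd
    have nAxx : ∀ w, w ∈ M.DS → w ≠ x → M.al w ≠ M.nx (M.al eb) := by
      intro w hw hne hh
      rw [r7] at hh
      exact hne (h.al_inj hw e.mx hh)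
    by_cases hda : d = M.al ea
    · rw [hda, CM.Tri.al_a88, CM.Tri.pv88 (nAxx ec e.mc (fun hh => (k x d4.symm).2.2 hh.symm))]
      rw [CM.Tri.fc88 s1.symm a2, CM.Tri.fc88]
      · rw [h.fc_ph _ e.mc, f5]
      · intro hh
        apply d3
        rw [← hh, h.t_pv mAc]
      · exact hl.pv_ne h h3 mAc
    by_cases hdc : d = M.al ec
    · rw [hdc, CM.Tri.al_c88 a2, CM.Tri.pv88 (nAxx ea e.ma (fun hh => (k x d4.symm).1 hh.symm)), e.x3,
        CM.Tri.fc_c88, CM.Tri.fc88 q1 q4]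
    rw [CM.Tri.al88 hda hdc]
    by_cases hy : d = y
    · rw [hy, CM.Tri.fc_y88, CM.Tri.pv88 (nAxx y e.my q1.symm), e.y1, CM.Tri.fc_c88]
    by_cases hx : d = x
    · rw [hx, CM.Tri.pv'88 r7.symm, e.y3, CM.Tri.fc_y88, CM.Tri.fc88 q1 q4]
    rw [CM.Tri.pv88 (nAxx d (sub d hd) hx), CM.Tri.fc88 hy hdc, CM.Tri.fc88, h.fc_ph _ (sub d hd)]
    · intro hh
      rw [← e.y3] at hh
      exact (CM.Tri.mem88.1 hd).2.2.1 (h.ph_inj (sub d hd) e.mb hh)
    · intro hh
      rw [← e.y1] at hh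
      exact hy (h.ph_inj (sub d hd) e.my hh)
  · -- fc_surj
    intro f hf
    have : (M.tri x y ea eb ec).FS = M.FS.erase (M.fc y) := rfl
    rw [this, Finset.mem_erase] at hf
    obtain ⟨d, hd, hfd⟩ := h.fc_surj f hf.2
    by_cases hfx : f = M.fc x
    · exact ⟨x, nx', by rw [CM.Tri.fc88 q1 q4, hfx]⟩
    by_cases hfg : f = M.fc ec
    · exact ⟨M.al ea, nAa, by rw [CM.Tri.fc88 s1.symm a2, hfg, f5]⟩
    refine ⟨d, CM.Tri.mem88.2 ⟨hd, ?_, ?_, ?_, ?_⟩, ?_⟩
    · intro hh; exact hfx (by rw [← hfd, hh, f2])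
    · intro hh; exact hf.1 (by rw [← hfd, hh, f4])
    · intro hh; exact hfg (by rw [← hfd, hh])
    · intro hh; exact hfx (by rw [← hfd, hh, f1])
    · rw [CM.Tri.fc88, hfd]
      · intro hh; exact hf.1 (by rw [← hfd, hh])
      · intro hh; exact hf.1 (by rw [← hfd, hh, f3])
  · -- euler
    have c1 := e.cardDS88 h hl h3
    have c2 := e.card0_88 h
    have c3 : (M.tri x y ea eb ec).FS.card + 1 = M.FS.card := by
      have : (M.tri x y ea eb ec).FS = M.FS.erase (M.fc y) := rfl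
      rw [this]
      exact Finset.card_erase_add_one (h.fc_mem _ e.my)
    have := h.euler
    omega

/-- adding a vertex with many neighbours -/
private theorem dc_insert88 (h : M.Ok) {v : V} {X : Finset V} (hv : v ∉ X) (S : Finset D)
    (hS : ∀ d ∈ S, d ∈ M.DS ∧ M.t d = v ∧ M.t (M.al d) ∈ X) :
    M.dc X + 2 * S.card ≤ M.dc (insert v X) := by
  set A := M.DS.filter (fun d => M.t d ∈ X ∧ M.t (M.al d) ∈ X) with hA
  have hB : (S.image M.al).card = S.card := by
    apply Finset.card_image_of_injOn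
    intro a ha b hb hab
    exact h.al_inj (hS a ha).1 (hS b hb).1 hab
  have hAS : Disjoint A S := by
    rw [Finset.disjoint_left]
    intro d hd hd'
    rw [hA, Finset.mem_filter] at hd
    rw [(hS d hd').2.1] at hd
    exact hv hd.2.1
  have hASB : Disjoint (A ∪ S) (S.image M.al) := by
    rw [Finset.disjoint_left]
    intro d hd hd'
    rw [Finset.mem_image] at hd'
    obtain ⟨s, hs, rfl⟩ := hd'
    obtain ⟨s1, s2, s3⟩ := hS s hs
    rw [Finset.mem_union] at hd
    rcases hd with hd | hd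
    · rw [hA, Finset.mem_filter, h.al_al _ s1, s2] at hd
      exact hv hd.2.2
    · have := (hS _ hd).2.1
      rw [this] at s3
      exact hv s3
  have hsub : (A ∪ S) ∪ S.image M.al ⊆ M.DS.filter (fun d => M.t d ∈ insert v X ∧ M.t (M.al d) ∈ insert v X) := by
    intro d hd
    rw [Finset.mem_union, Finset.mem_union] at hd
    rw [Finset.mem_filter]
    rcases hd with (hd | hd) | hd
    · rw [hA, Finset.mem_filter] at hd
      exact ⟨hd.1, Finset.mem_insert_of_mem hd.2.1, Finset.mem_insert_of_mem hd.2.2⟩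
    · obtain ⟨s1, s2, s3⟩ := hS d hd
      exact ⟨s1, by rw [s2]; exact Finset.mem_insert_self _ _, Finset.mem_insert_of_mem s3⟩
    · rw [Finset.mem_image] at hd
      obtain ⟨s, hs, rfl⟩ := hd
      obtain ⟨s1, s2, s3⟩ := hS s hs
      exact ⟨h.al_mem _ s1, Finset.mem_insert_of_mem s3, by rw [h.al_al _ s1, s2]; exact Finset.mem_insert_self _ _⟩
  have hc := Finset.card_le_card hsub
  rw [Finset.card_union_of_disjoint hASB, Finset.card_union_of_disjoint hAS, hB] at hc
  have e1 : M.dc X = A.card := rfl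
  have e2 : M.dc (insert v X) =
    (M.DS.filter (fun d => M.t d ∈ insert v X ∧ M.t (M.al d) ∈ insert v X)).card := rfl
  rw [e1, e2]
  omega

theorem CM.Tri.lam (e : M.Tri x y ea eb ec) (h : M.Ok) (hl : M.Lam) (h3 : 3 ≤ M.VS.card) : (M.tri x y ea eb ec).Lam := by
  obtain ⟨r1, r2, r3, r4, r5, r6, r7, r8, r9, r10, r11, r12, r13, f1, f2, f3, f4, f5⟩ := e.rel h
  obtain ⟨d1, d2, d3, d4, d5, d6⟩ := e.distinct h hl h3
  obtain ⟨⟨p1, p2, p3⟩, k, ⟨a1, a2, a3⟩, ⟨q1, q2, q3, q4⟩, ⟨s1, s2, s3⟩⟩ := e.dist88 h hl h3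
  have c1 := e.cardDS88 h hl h3
  have c2 := e.card0_88 h
  have ht := hl.tot
  refine ⟨?_, ?_, ?_⟩
  · omega
  · omega
  · intro X hX hX2
    have hVS : (M.tri x y ea eb ec).VS = M.VS.erase (M.t ea) := rfl
    rw [hVS] at hX
    have hXV : X ⊆ M.VS := fun v hv => Finset.mem_of_mem_erase (hX hv)
    have hvX : M.t ea ∉ X := fun hv => Finset.notMem_erase _ _ (hX hv)
    have hspa := hl.spa X hXV hX2
    by_cases hac : M.t x ∈ X ∧ M.t (M.al ec) ∈ X
    · -- both ends
      have hle : (M.tri x y ea eb ec).dc X ≤ M.dc X + 2 := by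
        unfold CM.dc
        have hs : ((M.tri x y ea eb ec).DS.filter (fun d => (M.tri x y ea eb ec).t d ∈ X ∧
            (M.tri x y ea eb ec).t ((M.tri x y ea eb ec).al d) ∈ X)) ⊆
            (M.DS.filter (fun d => M.t d ∈ X ∧ M.t (M.al d) ∈ X)) ∪ {M.al ea, M.al ec} := by
          intro d hd
          rw [Finset.mem_filter, CM.Tri.t88, CM.Tri.t88] at hd
          rw [Finset.mem_union, Finset.mem_filter]
          by_cases hda : d = M.al ea
          · right; rw [hda]; exact Finset.mem_insert_self _ _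
          by_cases hdc : d = M.al ec
          · right; rw [hdc]; exact Finset.mem_insert_of_mem (Finset.mem_singleton_self _)
          left
          rw [CM.Tri.al88 hda hdc] at hd
          exact ⟨(CM.Tri.mem88.1 hd.1).1, hd.2⟩
        refine le_trans (Finset.card_le_card hs) (le_trans (Finset.card_union_le _ _) ?_)
        have := Finset.card_le_two (a := M.al ea) (b := M.al ec)
        omega
      have hev := h.dc_even X
      by_contra hcon
      have hS3 : ({ea, eb, ec} : Finset D).card = 3 := by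
        rw [Finset.card_insert_of_notMem, Finset.card_insert_of_notMem, Finset.card_singleton]
        · simp only [Finset.mem_singleton]; exact p3
        · simp only [Finset.mem_insert, Finset.mem_singleton, not_or]; exact ⟨p1, p2⟩
      obtain ⟨u, hu⟩ := hev
      by_cases hb : M.t y ∈ X
      · have hin := dc_insert88 h hvX {ea, eb, ec} (by
          intro d hd
          simp only [Finset.mem_insert, Finset.mem_singleton] at hd
          rcases hd with rfl | rfl | rfl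
          · exact ⟨e.ma, rfl, by rw [r10]; exact hac.1⟩
          · exact ⟨e.mb, r4, by rw [r12]; exact hb⟩
          · exact ⟨e.mc, r5, hac.2⟩)
        have hY : insert (M.t ea) X ⊆ M.VS := by
          intro v hv
          rw [Finset.mem_insert] at hv
          rcases hv with rfl | hv
          · exact h.t_mem _ e.ma
          · exact hXV hv
        have hcY : (insert (M.t ea) X).card = X.card + 1 := Finset.card_insert_of_notMem hvX
        have := hl.spa _ hY (by omega)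
        omega
      · have hin1 := dc_insert88 h hb {M.al x, y} (by
          intro d hd
          simp only [Finset.mem_insert, Finset.mem_singleton] at hd
          rcases hd with rfl | rfl
          · exact ⟨h.al_mem _ e.mx, r11, by rw [h.al_al _ e.mx]; exact hac.1⟩
          · exact ⟨e.my, rfl, by rw [r13]; exact hac.2⟩)
        have hS2 : ({M.al x, y} : Finset D).card = 2 := by
          rw [Finset.card_insert_of_notMem, Finset.card_singleton]
          simp only [Finset.mem_singleton]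
          intro hh
          apply d2
          rw [← h.al_al _ e.mx, hh, r13]
        have hvX' : M.t ea ∉ insert (M.t y) X := by
          rw [Finset.mem_insert, not_or]
          exact ⟨d5, hvX⟩
        have hin := dc_insert88 h hvX' {ea, eb, ec} (by
          intro d hd
          simp only [Finset.mem_insert, Finset.mem_singleton] at hd
          rcases hd with rfl | rfl | rfl
          · exact ⟨e.ma, rfl, by rw [r10]; exact Finset.mem_insert_of_mem hac.1⟩
          · exact ⟨e.mb, r4, by rw [r12]; exact Finset.mem_insert_self _ _⟩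
          · exact ⟨e.mc, r5, Finset.mem_insert_of_mem hac.2⟩)
        have hY : insert (M.t ea) (insert (M.t y) X) ⊆ M.VS := by
          intro v hv
          rw [Finset.mem_insert, Finset.mem_insert] at hv
          rcases hv with rfl | rfl | hv
          · exact h.t_mem _ e.ma
          · exact h.t_mem _ e.my
          · exact hXV hv
        have hcY : (insert (M.t ea) (insert (M.t y) X)).card = X.card + 2 := by
          rw [Finset.card_insert_of_notMem hvX', Finset.card_insert_of_notMem hb]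
        have := hl.spa _ hY (by omega)
        omega
    · have hle : (M.tri x y ea eb ec).dc X ≤ M.dc X := by
        unfold CM.dc
        apply Finset.card_le_card
        intro d hd
        rw [Finset.mem_filter, CM.Tri.t88, CM.Tri.t88] at hd
        rw [Finset.mem_filter]
        by_cases hda : d = M.al ea
        · exfalso
          rw [hda, CM.Tri.al_a88, r10] at hd
          exact hac hd.2
        by_cases hdc : d = M.al ec
        · exfalso
          rw [hdc, CM.Tri.al_c88 a2, r10] at hd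
          exact hac ⟨hd.2.2, hd.2.1⟩
        rw [CM.Tri.al88 hda hdc] at hd
        exact ⟨(CM.Tri.mem88.1 hd.1).1, hd.2⟩
      omega

theorem CM.Tri.len_x (e : M.Tri x y ea eb ec) (h : M.Ok) (hl : M.Lam) (h3 : 3 ≤ M.VS.card) :
    (M.tri x y ea eb ec).len (M.fc x) = 3 := by
  obtain ⟨r1, r2, r3, r4, r5, r6, r7, r8, r9, r10, r11, r12, r13, f1, f2, f3, f4, f5⟩ := e.rel h
  obtain ⟨d1, d2, d3, d4, d5, d6⟩ := e.distinct h hl h3
  obtain ⟨⟨p1, p2, p3⟩, k, ⟨a1, a2, a3⟩, ⟨q1, q2, q3, q4⟩, ⟨s1, s2, s3⟩⟩ := e.dist88 h hl h3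
  have hset : (M.tri x y ea eb ec).DS.filter (fun d => (M.tri x y ea eb ec).fc d = M.fc x) = {x, y, M.al ec} := by
    ext d
    rw [Finset.mem_filter, Finset.mem_insert, Finset.mem_insert, Finset.mem_singleton]
    constructor
    · rintro ⟨hd, hf⟩
      by_cases hy : d = y
      · exact Or.inr (Or.inl hy)
      by_cases hc : d = M.al ec
      · exact Or.inr (Or.inr hc)
      rw [CM.Tri.fc88 hy hc] at hf
      obtain ⟨k0, k1, k2, k3, k4⟩ := CM.Tri.mem88.1 hd
      rcases e.face_x88 h hl h3 k0 hf with hh | hh | hh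
      · exact Or.inl hh
      · exact absurd hh k4
      · exact absurd hh k1
    · rintro (rfl | rfl | rfl)
      · exact ⟨e.mem_of88 h hl h3 e.mx d4.symm q3, CM.Tri.fc88 q1 q4⟩
      · exact ⟨e.mem_of88 h hl h3 e.my d5.symm s2, CM.Tri.fc_y88⟩
      · exact ⟨e.mem_of88 h hl h3 (h.al_mem _ e.mc) d6.symm a3.symm, CM.Tri.fc_c88⟩
  unfold CM.len
  rw [hset, Finset.card_insert_of_notMem, Finset.card_insert_of_notMem, Finset.card_singleton]
  · simp only [Finset.mem_singleton]; exact s3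
  · simp only [Finset.mem_insert, Finset.mem_singleton, not_or]; exact ⟨q1, q4⟩

theorem CM.Tri.len_g (e : M.Tri x y ea eb ec) (h : M.Ok) (hl : M.Lam) (h3 : 3 ≤ M.VS.card) :
    (M.tri x y ea eb ec).len (M.fc ec) + 1 = M.len (M.fc ec) := by
  obtain ⟨r1, r2, r3, r4, r5, r6, r7, r8, r9, r10, r11, r12, r13, f1, f2, f3, f4, f5⟩ := e.rel h
  obtain ⟨g1, g2⟩ := e.face_g88 h hl h3
  have hset : (M.tri x y ea eb ec).DS.filter (fun d => (M.tri x y ea eb ec).fc d = M.fc ec) =
      (M.DS.filter (fun d => M.fc d = M.fc ec)).erase ec := by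
    ext d
    rw [Finset.mem_filter, Finset.mem_erase, Finset.mem_filter]
    constructor
    · rintro ⟨hd, hf⟩
      obtain ⟨k0, k1, k2, k3, k4⟩ := CM.Tri.mem88.1 hd
      by_cases hy : d = y
      · rw [hy, CM.Tri.fc_y88] at hf; exact absurd hf.symm g1
      by_cases hc : d = M.al ec
      · rw [hc, CM.Tri.fc_c88] at hf; exact absurd hf.symm g1
      rw [CM.Tri.fc88 hy hc] at hf
      exact ⟨k3, k0, hf⟩
    · rintro ⟨hd, hd0, hf⟩
      have hy : d ≠ y := by
        intro hh; exact g2 (by rw [← hf, hh])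
      have hc : d ≠ M.al ec := by
        intro hh; exact g2 (by rw [← hf, hh, f3])
      refine ⟨CM.Tri.mem88.2 ⟨hd0, ?_, ?_, hd, ?_⟩, by rw [CM.Tri.fc88 hy hc, hf]⟩
      · intro hh; exact g1 (by rw [← hf, hh, f2])
      · intro hh; exact g2 (by rw [← hf, hh, f4])
      · intro hh; exact g1 (by rw [← hf, hh, f1])
  unfold CM.len
  rw [hset]
  exact Finset.card_erase_add_one (Finset.mem_filter.2 ⟨e.mc, rfl⟩)

theorem CM.Tri.len_o (e : M.Tri x y ea eb ec) (h : M.Ok) (hl : M.Lam) (h3 : 3 ≤ M.VS.card) {f : F} (hx : f ≠ M.fc x)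
    (hy : f ≠ M.fc y) (hg : f ≠ M.fc ec) : (M.tri x y ea eb ec).len f = M.len f := by
  obtain ⟨r1, r2, r3, r4, r5, r6, r7, r8, r9, r10, r11, r12, r13, f1, f2, f3, f4, f5⟩ := e.rel h
  unfold CM.len
  congr 1
  ext d
  rw [Finset.mem_filter, Finset.mem_filter]
  constructor
  · rintro ⟨hd, hf⟩
    obtain ⟨k0, k1, k2, k3, k4⟩ := CM.Tri.mem88.1 hd
    by_cases hy' : d = y
    · rw [hy', CM.Tri.fc_y88] at hf; exact absurd hf.symm hx
    by_cases hc : d = M.al ec
    · rw [hc, CM.Tri.fc_c88] at hf; exact absurd hf.symm hx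
    rw [CM.Tri.fc88 hy' hc] at hf
    exact ⟨k0, hf⟩
  · rintro ⟨hd0, hf⟩
    have hy' : d ≠ y := by
      intro hh; exact hy (by rw [← hf, hh])
    have hc : d ≠ M.al ec := by
      intro hh; exact hy (by rw [← hf, hh, f3])
    refine ⟨CM.Tri.mem88.2 ⟨hd0, ?_, ?_, ?_, ?_⟩, by rw [CM.Tri.fc88 hy' hc, hf]⟩
    · intro hh; exact hx (by rw [← hf, hh, f2])
    · intro hh; exact hy (by rw [← hf, hh, f4])
    · intro hh; exact hg (by rw [← hf, hh])
    · intro hh; exact hx (by rw [← hf, hh, f1])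

theorem CM.Tri.len_ne (e : M.Tri x y ea eb ec) (h : M.Ok) (hl : M.Lam) (h3 : 3 ≤ M.VS.card) :
    M.len (M.fc ec) ≠ 3 := by
  obtain ⟨r1, r2, r3, r4, r5, r6, r7, r8, r9, r10, r11, r12, r13, f1, f2, f3, f4, f5⟩ := e.rel h
  obtain ⟨d1, d2, d3, d4, d5, d6⟩ := e.distinct h hl h3
  obtain ⟨⟨p1, p2, p3⟩, k, ⟨a1, a2, a3⟩, ⟨q1, q2, q3, q4⟩, ⟨s1, s2, s3⟩⟩ := e.dist88 h hl h3
  intro hlen
  have mph : M.pv (M.al ec) ∈ M.DS := h.ph_mem e.mc
  rcases hl.mem3 h h3 e.mc hlen (h.al_mem _ e.ma) f5.symm with hh | hh | hh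
  · apply d4
    rw [← r10, hh, r5]
  · apply d2
    rw [← r10, hh, h.t_ph e.mc]
  · apply e.not_adj h hl h3 (M.al (M.pv (M.al ec))) (h.al_mem _ mph)
    · rw [← h.t_pv (h.al_mem _ mph), ← hh, r10]
    · rw [h.al_al _ mph, h.t_pv (h.al_mem _ e.mc)]

theorem CM.Tri.card (e : M.Tri x y ea eb ec) (h : M.Ok) : (M.tri x y ea eb ec).VS.card + 1 = M.VS.card :=
  e.card0_88 h

theorem CM.Tri.adm (e : M.Tri x y ea eb ec) {sp : Finset F} (ha : M.Adm sp) (h3 : 3 ≤ M.VS.card)
    (hx : M.fc x ∉ sp) (hy : M.fc y ∉ sp) : (M.tri x y ea eb ec).Adm sp := by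
  have h := ha.ok
  have hl := ha.lam
  refine ⟨e.ok h hl h3, e.lam h hl h3, ?_, ha.sp_ne, ha.sp_card, ?_⟩
  · intro f hf
    have : (M.tri x y ea eb ec).FS = M.FS.erase (M.fc y) := rfl
    rw [this, Finset.mem_erase]
    exact ⟨fun hh => hy (by rw [← hh]; exact hf), ha.sp_sub hf⟩
  · intro f hf hfs
    have hFS : (M.tri x y ea eb ec).FS = M.FS.erase (M.fc y) := rfl
    rw [hFS, Finset.mem_erase] at hf
    by_cases hfx : f = M.fc x
    · rw [hfx, e.len_x h hl h3]
      omega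
    by_cases hfg : f = M.fc ec
    · have h1 := e.len_g h hl h3
      have h2 := ha.len4 f hf.2 hfs
      rw [hfg] at h2 ⊢
      omega
    · rw [e.len_o h hl h3 hfx hf.1 hfg]
      exact ha.len4 f hf.2 hfs

theorem CM.exists_tri (h : M.Ok) (hl : M.Lam) (h3 : 3 ≤ M.VS.card) (hz : ea ∈ M.DS)
    (h2 : (M.star (M.t ea)).card = 3) (hf : M.len (M.fc ea) = 3) (hg : M.len (M.fc (M.nx ea)) = 3) :
    M.Tri (M.pv (M.al ea)) (M.pv (M.al (M.nx ea))) ea (M.nx ea) (M.nx (M.nx ea)) := by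
  have mb := h.nx_mem _ hz
  have mc := h.nx_mem _ mb
  have tb : M.t (M.nx ea) = M.t ea := h.t_nx _ hz
  have tc : M.t (M.nx (M.nx ea)) = M.t ea := by rw [h.t_nx _ mb, tb]
  have n1 : M.nx ea ≠ ea := hl.nx_ne h h3 hz
  have n2 : M.nx (M.nx ea) ≠ M.nx ea := hl.nx_ne h h3 mb
  have n3 : M.nx (M.nx (M.nx ea)) ≠ M.nx (M.nx ea) := hl.nx_ne h h3 mc
  have n4 : M.nx (M.nx ea) ≠ ea := by
    intro hh
    have hsub : M.star (M.t ea) ⊆ {ea, M.nx ea} := by
      intro d hd
      rw [mem_star] at hd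
      have := h.star_ind hz (fun d => d = ea ∨ d = M.nx ea) (Or.inl rfl) (by
        intro w _ _ hP
        rcases hP with rfl | rfl
        · exact Or.inr rfl
        · exact Or.inl hh) d hd.1 hd.2
      rw [Finset.mem_insert, Finset.mem_singleton]
      exact this
    have := Finset.card_le_card hsub
    have h22 := Finset.card_le_two (a := ea) (b := M.nx ea)
    omega
  have hstar : M.star (M.t ea) = {ea, M.nx ea, M.nx (M.nx ea)} := by
    symm
    apply Finset.eq_of_subset_of_card_le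
    · intro d hd
      simp only [Finset.mem_insert, Finset.mem_singleton] at hd
      rw [mem_star]
      rcases hd with rfl | rfl | rfl
      · exact ⟨hz, rfl⟩
      · exact ⟨mb, tb⟩
      · exact ⟨mc, tc⟩
    · rw [h2, Finset.card_insert_of_notMem, Finset.card_insert_of_notMem, Finset.card_singleton]
      · simp only [Finset.mem_singleton]; exact n2.symm
      · simp only [Finset.mem_insert, Finset.mem_singleton, not_or]; exact ⟨n1.symm, n4.symm⟩
  have n5 : M.nx (M.nx (M.nx ea)) = ea := by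
    have hm : M.nx (M.nx (M.nx ea)) ∈ M.star (M.t ea) := by
      rw [mem_star]
      exact ⟨h.nx_mem _ mc, by rw [h.t_nx _ mc, tc]⟩
    rw [hstar, Finset.mem_insert, Finset.mem_insert, Finset.mem_singleton] at hm
    rcases hm with hm | hm | hm
    · exact hm
    · exact absurd (h.nx_inj mc hz hm) n4
    · exact absurd hm n3
  have face : ∀ w ∈ M.DS, M.len (M.fc w) = 3 → M.pv (M.al (M.pv (M.al w))) = M.al (M.nx w) := by
    intro w hw hlw
    have h33 := hl.ph3 h h3 hw hlw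
    have m1 := h.ph_mem hw
    have m2 := h.ph_mem m1
    have h4 : M.al (M.pv (M.al (M.pv (M.al w)))) = M.nx w := by
      rw [← h.nx_pv _ (h.al_mem _ m2), h33]
    rw [← h4, h.al_al _ m2]
  refine ⟨h.ph_mem hz, h.ph_mem mb, hz, mb, mc, ?_, ?_, rfl, ?_, ?_, rfl, ?_, ?_, ?_⟩
  · exact face ea hz hf
  · exact h.pv_nx _ hz
  · exact face (M.nx ea) mb hg
  · exact h.pv_nx _ mb
  · have := h.pv_nx _ mc
    rw [n5] at this
    exact this
  · rw [h.fc_ph _ hz]; exact hf
  · rw [h.fc_ph _ mb]; exact hg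

end Pool.Agent.Helper37.CP
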