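import Pool.Agent.Helper37.CP.Meet

/-!
# Block CP-UNC: one of the two foldings of a quadrilateral face is free.

`A = t d1`, `B = t d2`, `C = t d3`, `E = t d4`. Suppose neither is free: there are `X ∋ A, C` and `Y ∋ B, E`, at least 3 elements each,
with `dc X + 10 > 4 |X| + 2 b`, `b = |X ∩ {B, E}|`, and `dc Y + 10 > 4 |Y| + 2 b'`, `b' = |Y ∩ {C, A}|`. As `dc` is even (`dc_even`):
`dc X ≥ 4 |X| + 2 b - 8`, and `dc X ≤ 4 |X| - 6` (`spa`), so `b ≤ 1`; likewise for `Y`.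

`conn0`: if `|X| ≥ 3` and `dc X + 8 ≥ 4 |X|`, then `X` is connected (a cut `S, X \ S` without darts gives `dc X = dc S + dc (X \ S)`, which
is at most `4 |X| - 10`).
`conn1`: if `dc X + 6 ≥ 4 |X|`, `|X| ≥ 3` and `b ∈ X`, then `X \ {b}` is connected (a cut `S, T` of `X \ {b}` without darts gives
`dc X ≤ dc (S ∪ {b}) + dc (T ∪ {b}) ≤ 4 (|X| + 1) - 12`).

Use `dc_super X Y` and count the darts between `X \ Y` and `Y \ X` (`di` and `al di` are distinct darts, see QuadF):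
(i) `b = b' = 0`: all 8 darts of the 4-cycle; `meet` gives `|X ∩ Y| ≥ 1`; `dc (X ∩ Y) ≤ 4 |X ∩ Y| - 4` (it is `0` if `|X ∩ Y| = 1`, else
`≤ 4 |X ∩ Y| - 6`), so `dc (X ∪ Y) ≥ 4 |X| - 8 + 4 |Y| - 8 + 8 - dc (X ∩ Y) ≥ 4 |X ∪ Y| - 4`, contradiction to `spa`.
(ii) `b = 1`, `b' = 0`, say `B ∈ X`, `E ∉ X`: the 4 darts of the edges `C E`, `E A` run between `X \ Y` and `Y \ X`; `meet` with
`P = X \ {B}` (conn1) and `Q = Y` (conn0) gives an element of `X ∩ Y` other than `B ∈ X ∩ Y`, so `|X ∩ Y| ≥ 2` and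
`dc (X ∪ Y) ≥ 4 |X| - 6 + 4 |Y| - 8 + 4 - (4 |X ∩ Y| - 6) = 4 |X ∪ Y| - 4`, contradiction. Same for `E ∈ X`, `B ∉ X`.
(iii) `b = 0`, `b' = 1`: symmetric (rotate the face).
(iv) `b = b' = 1`: `|X ∩ Y| ≥ 2` directly, and the edge between the missing vertex of `X` (one of `B, E`, in `Y`) and the missing
vertex of `Y` (one of `A, C`, in `X`) gives 2 darts: `dc (X ∪ Y) ≥ 4 |X| - 6 + 4 |Y| - 6 + 2 - (4 |X ∩ Y| - 6)`, contradiction.
-/

set_option linter.unusedSectionVars false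

namespace Pool.Agent.Helper37.CP

variable {V D F : Type*} [DecidableEq V] [DecidableEq D] [DecidableEq F] {M : CM V D F} {d1 d2 d3 d4 : D}

/-- an empty or one point set contains no darts -/
private theorem dc_one38 (h : M.Ok) {X : Finset V} (hX : X.card ≤ 1) : M.dc X = 0 := by
  unfold CM.dc
  rw [Finset.card_eq_zero, Finset.filter_eq_empty_iff]
  intro d hd hc
  exact h.loopless d hd (Finset.card_le_one.1 hX _ hc.2 _ hc.1)

private theorem dc_le38 (hl : M.Lam) (h : M.Ok) {X : Finset V} (hX : X ⊆ M.VS) (hne : X.Nonempty) :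
    M.dc X + 4 ≤ 4 * X.card := by
  have h1 : 0 < X.card := Finset.card_pos.2 hne
  by_cases h2 : 2 ≤ X.card
  · have := hl.spa X hX h2
    omega
  · have := dc_one38 h (X := X) (by omega)
    omega

private theorem dc_split38 {X A B : Finset V}
    (hs : ∀ d ∈ M.DS, M.t d ∈ X → M.t (M.al d) ∈ X → (M.t d ∈ A ∧ M.t (M.al d) ∈ A) ∨ (M.t d ∈ B ∧ M.t (M.al d) ∈ B)) :
    M.dc X ≤ M.dc A + M.dc B := by
  unfold CM.dc
  refine le_trans (Finset.card_le_card ?_) (Finset.card_union_le _ _)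
  intro d hd
  rw [Finset.mem_filter] at hd
  rw [Finset.mem_union, Finset.mem_filter, Finset.mem_filter]
  rcases hs d hd.1 hd.2.1 hd.2.2 with h1 | h1
  · exact Or.inl ⟨hd.1, h1⟩
  · exact Or.inr ⟨hd.1, h1⟩

theorem CM.Lam.conn0 (hl : M.Lam) (h : M.Ok) {X : Finset V} (hX : X ⊆ M.VS) (h3 : 3 ≤ X.card)
    (hd : 4 * X.card ≤ M.dc X + 8) : M.Conn X := by
  intro S hS hne hSX
  by_contra hno
  push Not at hno
  have hT : (X \ S).Nonempty := by
    rw [Finset.sdiff_nonempty]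
    intro h1
    exact hSX (Finset.Subset.antisymm hS h1)
  have key : M.dc X ≤ M.dc S + M.dc (X \ S) := by
    apply dc_split38
    intro d hd h1 h2
    by_cases h4 : M.t d ∈ S
    · left
      refine ⟨h4, ?_⟩
      by_contra h5
      exact hno d hd h4 (Finset.mem_sdiff.2 ⟨h2, h5⟩)
    · right
      refine ⟨Finset.mem_sdiff.2 ⟨h1, h4⟩, Finset.mem_sdiff.2 ⟨h2, ?_⟩⟩
      intro h5
      apply hno (M.al d) (h.al_mem d hd) h5
      rw [h.al_al d hd]
      exact Finset.mem_sdiff.2 ⟨h1, h4⟩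
  have c1 := Finset.card_sdiff_add_card_eq_card hS
  have c2 := dc_le38 hl h (hS.trans hX) hne
  have c3 := dc_le38 hl h (Finset.sdiff_subset.trans hX) hT
  by_cases c4 : 2 ≤ S.card
  · have := hl.spa S (hS.trans hX) c4
    omega
  · have := hl.spa (X \ S) (Finset.sdiff_subset.trans hX) (by omega)
    omega

theorem CM.Lam.conn1 (hl : M.Lam) (h : M.Ok) {X : Finset V} (hX : X ⊆ M.VS) (h3 : 3 ≤ X.card)
    (hd : 4 * X.card ≤ M.dc X + 6) {b : V} (hb : b ∈ X) : M.Conn (X.erase b) := by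
  intro S hS hne hSX
  by_contra hno
  push Not at hno
  have hT : (X.erase b \ S).Nonempty := by
    rw [Finset.sdiff_nonempty]
    intro h1
    exact hSX (Finset.Subset.antisymm hS h1)
  have hSV : S ⊆ X := hS.trans (Finset.erase_subset _ _)
  have hTV : X.erase b \ S ⊆ X := Finset.sdiff_subset.trans (Finset.erase_subset _ _)
  have hbS : b ∉ S := fun h1 => Finset.notMem_erase b X (hS h1)
  have hbT : b ∉ X.erase b \ S := fun h1 => Finset.notMem_erase b X (Finset.mem_sdiff.1 h1).1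
  have key : M.dc X ≤ M.dc (insert b S) + M.dc (insert b (X.erase b \ S)) := by
    apply dc_split38
    intro d hd h1 h2
    have g1 : ∀ y ∈ X, y ∉ S → y ∈ insert b (X.erase b \ S) := by
      intro y hy hyS
      by_cases h5 : y = b
      · rw [h5]
        exact Finset.mem_insert_self _ _
      · exact Finset.mem_insert_of_mem (Finset.mem_sdiff.2 ⟨Finset.mem_erase.2 ⟨h5, hy⟩, hyS⟩)
    by_cases h4 : M.t d ∈ S
    · left
      refine ⟨Finset.mem_insert_of_mem h4, ?_⟩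
      rw [Finset.mem_insert]
      by_contra h5
      rw [not_or] at h5
      exact hno d hd h4 (Finset.mem_sdiff.2 ⟨Finset.mem_erase.2 ⟨h5.1, h2⟩, h5.2⟩)
    · by_cases h6 : M.t (M.al d) ∈ S
      · left
        refine ⟨?_, Finset.mem_insert_of_mem h6⟩
        rw [Finset.mem_insert]
        by_contra h5
        rw [not_or] at h5
        apply hno (M.al d) (h.al_mem d hd) h6
        rw [h.al_al d hd]
        exact Finset.mem_sdiff.2 ⟨Finset.mem_erase.2 ⟨h5.1, h1⟩, h5.2⟩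
      · right
        exact ⟨g1 _ h1 h4, g1 _ h2 h6⟩
  have c1 := Finset.card_sdiff_add_card_eq_card hS
  have c2 := Finset.card_erase_of_mem hb
  have c3 : 0 < S.card := Finset.card_pos.2 hne
  have c4 : 0 < (X.erase b \ S).card := Finset.card_pos.2 hT
  have c5 := Finset.card_insert_of_notMem hbS
  have c6 := Finset.card_insert_of_notMem hbT
  have c7 := hl.spa (insert b S) (Finset.insert_subset (hX hb) (hSV.trans hX)) (by omega)
  have c8 := hl.spa (insert b (X.erase b \ S)) (Finset.insert_subset (hX hb) (hTV.trans hX)) (by omega)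
  omega

/-- the darts crossing between `X \ Y` and `Y \ X` -/
private def cr38 (M : CM V D F) (X Y : Finset V) : Finset D :=
  M.DS.filter (fun d => (M.t d ∈ X \ Y ∧ M.t (M.al d) ∈ Y \ X) ∨ (M.t d ∈ Y \ X ∧ M.t (M.al d) ∈ X \ Y))

private theorem cr_mem38 (h : M.Ok) {X Y : Finset V} {d : D} (hd : d ∈ M.DS) (h1 : M.t d ∈ X \ Y)
    (h2 : M.t (M.al d) ∈ Y \ X) : d ∈ cr38 M X Y ∧ M.al d ∈ cr38 M X Y := by
  unfold cr38
  rw [Finset.mem_filter, Finset.mem_filter, h.al_al d hd]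
  exact ⟨⟨hd, Or.inl ⟨h1, h2⟩⟩, h.al_mem d hd, Or.inr ⟨h2, h1⟩⟩

private theorem cr_mem38' (h : M.Ok) {X Y : Finset V} {d : D} (hd : d ∈ M.DS) (h1 : M.t d ∈ Y \ X)
    (h2 : M.t (M.al d) ∈ X \ Y) : d ∈ cr38 M X Y ∧ M.al d ∈ cr38 M X Y := by
  unfold cr38
  rw [Finset.mem_filter, Finset.mem_filter, h.al_al d hd]
  exact ⟨⟨hd, Or.inr ⟨h1, h2⟩⟩, h.al_mem d hd, Or.inl ⟨h2, h1⟩⟩

/-- the numerical contradiction when the intersection has at least two elements -/
private theorem two_pt38 (hl : M.Lam) {X Y : Finset V} (hX : X ⊆ M.VS) (hY : Y ⊆ M.VS) (h2 : 2 ≤ (X ∩ Y).card)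
    (hh : 4 * X.card + 4 * Y.card ≤ M.dc X + M.dc Y + (cr38 M X Y).card + 10) : False := by
  have c1 := M.dc_super X Y
  have c2 := Finset.card_union_add_card_inter X Y
  have c3 := hl.spa (X ∩ Y) (Finset.inter_subset_left.trans hX) h2
  have c4 : (X ∩ Y).card ≤ (X ∪ Y).card :=
    Finset.card_le_card (Finset.inter_subset_left.trans Finset.subset_union_left)
  have c5 := hl.spa (X ∪ Y) (Finset.union_subset hX hY) (by omega)
  unfold cr38 at hh
  omega

/-- both sets contain a further vertex -/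
private theorem case4_38 (hl : M.Lam) (h : M.Ok) {X Y : Finset V} (hX : X ⊆ M.VS) (hY : Y ⊆ M.VS)
    (hdX : 4 * X.card ≤ M.dc X + 6) (hdY : 4 * Y.card ≤ M.dc Y + 6) {d : D} (hd : d ∈ M.DS)
    (hc : d ∈ cr38 M X Y ∧ M.al d ∈ cr38 M X Y) {u v : V} (hu : u ∈ X) (hu' : u ∈ Y) (hv : v ∈ X) (hv' : v ∈ Y)
    (huv : u ≠ v) : False := by
  have h2 : 2 ≤ (X ∩ Y).card := by
    rw [← Finset.card_pair huv]
    apply Finset.card_le_card
    intro y hy
    rw [Finset.mem_insert, Finset.mem_singleton] at hy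
    rcases hy with rfl | rfl
    · exact Finset.mem_inter.2 ⟨hu, hu'⟩
    · exact Finset.mem_inter.2 ⟨hv, hv'⟩
  apply two_pt38 hl hX hY h2
  have h5 : 2 ≤ (cr38 M X Y).card := by
    rw [← Finset.card_pair (h.al_ne hd)]
    apply Finset.card_le_card
    intro y hy
    rw [Finset.mem_insert, Finset.mem_singleton] at hy
    rcases hy with rfl | rfl
    · exact hc.2
    · exact hc.1
  omega

/-- `X` contains `B` but not `E`, `Y` contains neither `A` nor `C` -/
private theorem case2_38 (q : M.Quad d1 d2 d3 d4) (h : M.Ok) (hl : M.Lam) (h3 : 3 ≤ M.VS.card) {X Y : Finset V}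
    (hX : X ⊆ M.VS) (hY : Y ⊆ M.VS) (hX3 : 3 ≤ X.card) (hY3 : 3 ≤ Y.card)
    (hdX : 4 * X.card ≤ M.dc X + 6) (hdY : 4 * Y.card ≤ M.dc Y + 8)
    (hA : M.t d1 ∈ X) (hC : M.t d3 ∈ X) (hB : M.t d2 ∈ X) (hE : M.t d4 ∉ X)
    (hA' : M.t d1 ∉ Y) (hC' : M.t d3 ∉ Y) (hB' : M.t d2 ∈ Y) (hE' : M.t d4 ∈ Y) : False := by
  obtain ⟨nAB, nAC, nAE, nBC, nBE, nCE⟩ := q.distinct h hl h3
  have hP : M.Conn (X.erase (M.t d2)) := hl.conn1 h hX hX3 hdX hB
  have hQ : M.Conn Y := hl.conn0 h hY hY3 hdY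
  obtain ⟨z, hz⟩ := q.meet h hl h3 ((Finset.erase_subset _ _).trans hX) hY hP hQ
    (Finset.mem_erase.2 ⟨nAB, hA⟩) (Finset.mem_erase.2 ⟨nBC.symm, hC⟩) (Finset.notMem_erase _ _)
    (fun h1 => hE (Finset.mem_of_mem_erase h1)) hB' hE' hA' hC'
  rw [Finset.mem_inter, Finset.mem_erase] at hz
  have h2 : 2 ≤ (X ∩ Y).card := by
    rw [← Finset.card_pair hz.1.1]
    apply Finset.card_le_card
    intro y hy
    rw [Finset.mem_insert, Finset.mem_singleton] at hy
    rcases hy with rfl | rfl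
    · exact Finset.mem_inter.2 ⟨hz.1.2, hz.2⟩
    · exact Finset.mem_inter.2 ⟨hB, hB'⟩
  apply two_pt38 hl hX hY h2
  have m3 := cr_mem38 h (X := X) (Y := Y) q.m3 (Finset.mem_sdiff.2 ⟨hC, hC'⟩)
    (by rw [q.h3 h]; exact Finset.mem_sdiff.2 ⟨hE', hE⟩)
  have m4 := cr_mem38' h (X := X) (Y := Y) q.m4 (Finset.mem_sdiff.2 ⟨hE', hE⟩)
    (by rw [q.h4 h]; exact Finset.mem_sdiff.2 ⟨hA, hA'⟩)
  have h5 : 4 ≤ (cr38 M X Y).card := by
    have h6 : ({d3, M.al d3, d4, M.al d4} : Finset D) ⊆ cr38 M X Y := by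
      intro y hy
      simp only [Finset.mem_insert, Finset.mem_singleton] at hy
      rcases hy with rfl | rfl | rfl | rfl
      · exact m3.1
      · exact m3.2
      · exact m4.1
      · exact m4.2
    refine le_trans ?_ (Finset.card_le_card h6)
    refine le_trans ?_ (Finset.card_image_le (f := fun y => (M.t y, M.t (M.al y))))
    rw [Finset.image_insert, Finset.image_insert, Finset.image_insert, Finset.image_singleton, q.h3 h, q.h4 h,
      h.t_al_al q.m3, h.t_al_al q.m4]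
    rw [Finset.card_insert_of_notMem, Finset.card_insert_of_notMem, Finset.card_insert_of_notMem,
      Finset.card_singleton] <;>
      simp [nAB, nAC, nAE, nBC, nBE, nCE, nAB.symm, nAC.symm, nAE.symm, nBC.symm, nBE.symm, nCE.symm]
  omega

/-- `X` contains neither `B` nor `E`, `Y` contains neither `A` nor `C` -/
private theorem case1_38 (q : M.Quad d1 d2 d3 d4) (h : M.Ok) (hl : M.Lam) (h3 : 3 ≤ M.VS.card) {X Y : Finset V}
    (hX : X ⊆ M.VS) (hY : Y ⊆ M.VS) (hX3 : 3 ≤ X.card) (hY3 : 3 ≤ Y.card)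
    (hdX : 4 * X.card ≤ M.dc X + 8) (hdY : 4 * Y.card ≤ M.dc Y + 8)
    (hA : M.t d1 ∈ X) (hC : M.t d3 ∈ X) (hB : M.t d2 ∉ X) (hE : M.t d4 ∉ X)
    (hA' : M.t d1 ∉ Y) (hC' : M.t d3 ∉ Y) (hB' : M.t d2 ∈ Y) (hE' : M.t d4 ∈ Y) : False := by
  obtain ⟨nAB, nAC, nAE, nBC, nBE, nCE⟩ := q.distinct h hl h3
  have hP : M.Conn X := hl.conn0 h hX hX3 hdX
  have hQ : M.Conn Y := hl.conn0 h hY hY3 hdY
  have hz := q.meet h hl h3 hX hY hP hQ hA hC hB hE hB' hE' hA' hC'
  have m1 := cr_mem38 h (X := X) (Y := Y) q.m1 (Finset.mem_sdiff.2 ⟨hA, hA'⟩)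
    (by rw [q.h1 h]; exact Finset.mem_sdiff.2 ⟨hB', hB⟩)
  have m2 := cr_mem38' h (X := X) (Y := Y) q.m2 (Finset.mem_sdiff.2 ⟨hB', hB⟩)
    (by rw [q.h2 h]; exact Finset.mem_sdiff.2 ⟨hC, hC'⟩)
  have m3 := cr_mem38 h (X := X) (Y := Y) q.m3 (Finset.mem_sdiff.2 ⟨hC, hC'⟩)
    (by rw [q.h3 h]; exact Finset.mem_sdiff.2 ⟨hE', hE⟩)
  have m4 := cr_mem38' h (X := X) (Y := Y) q.m4 (Finset.mem_sdiff.2 ⟨hE', hE⟩)
    (by rw [q.h4 h]; exact Finset.mem_sdiff.2 ⟨hA, hA'⟩)
  have h5 : 8 ≤ (cr38 M X Y).card := by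
    have h6 : ({d1, M.al d1, d2, M.al d2, d3, M.al d3, d4, M.al d4} : Finset D) ⊆ cr38 M X Y := by
      intro y hy
      simp only [Finset.mem_insert, Finset.mem_singleton] at hy
      rcases hy with rfl | rfl | rfl | rfl | rfl | rfl | rfl | rfl
      · exact m1.1
      · exact m1.2
      · exact m2.1
      · exact m2.2
      · exact m3.1
      · exact m3.2
      · exact m4.1
      · exact m4.2
    refine le_trans ?_ (Finset.card_le_card h6)
    refine le_trans ?_ (Finset.card_image_le (f := fun y => (M.t y, M.t (M.al y))))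
    rw [Finset.image_insert, Finset.image_insert, Finset.image_insert, Finset.image_insert, Finset.image_insert,
      Finset.image_insert, Finset.image_insert, Finset.image_singleton, q.h1 h, q.h2 h, q.h3 h, q.h4 h,
      h.t_al_al q.m1, h.t_al_al q.m2, h.t_al_al q.m3, h.t_al_al q.m4]
    rw [Finset.card_insert_of_notMem, Finset.card_insert_of_notMem, Finset.card_insert_of_notMem,
      Finset.card_insert_of_notMem, Finset.card_insert_of_notMem, Finset.card_insert_of_notMem,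
      Finset.card_insert_of_notMem, Finset.card_singleton] <;>
      simp [nAB, nAC, nAE, nBC, nBE, nCE, nAB.symm, nAC.symm, nAE.symm, nBC.symm, nBE.symm, nCE.symm]
  have c1 := M.dc_super X Y
  have c2 := Finset.card_union_add_card_inter X Y
  have c3 := dc_le38 hl h (Finset.inter_subset_left.trans hX) hz
  have c4 : X.card ≤ (X ∪ Y).card := Finset.card_le_card Finset.subset_union_left
  have c5 := hl.spa (X ∪ Y) (Finset.union_subset hX hY) (by omega)
  unfold cr38 at h5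
  omega

theorem CM.Quad.free (q : M.Quad d1 d2 d3 d4) (h : M.Ok) (hl : M.Lam) (h3 : 3 ≤ M.VS.card) :
    M.Free (M.t d1) (M.t d2) (M.t d3) (M.t d4) ∨ M.Free (M.t d2) (M.t d3) (M.t d4) (M.t d1) := by
  by_contra hcon
  rw [not_or] at hcon
  obtain ⟨hX0, hY0⟩ := hcon
  unfold CM.Free at hX0 hY0
  push Not at hX0 hY0
  obtain ⟨X, hX, hA, hC, hX3, hdX⟩ := hX0
  obtain ⟨Y, hY, hB', hE', hY3, hdY⟩ := hY0
  obtain ⟨nAB, nAC, nAE, nBC, nBE, nCE⟩ := q.distinct h hl h3
  have eX := (h.dc_even X).two_dvd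
  have eY := (h.dc_even Y).two_dvd
  have sX := hl.spa X hX (by omega)
  have sY := hl.spa Y hY (by omega)
  have q2 := q.rot h
  have q3 := q2.rot h
  have q4 := q3.rot h
  have k0 : ∀ {Z : Finset V} {u v : V}, u ∉ Z → v ∉ Z → (Z ∩ {u, v}).card = 0 := by
    intro Z u v hu hv
    rw [Finset.card_eq_zero]
    ext y
    simp only [Finset.mem_inter, Finset.mem_insert, Finset.mem_singleton, Finset.notMem_empty, iff_false, not_and, not_or]
    intro hy
    exact ⟨fun h1 => hu (h1 ▸ hy), fun h1 => hv (h1 ▸ hy)⟩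
  have k1 : ∀ {Z : Finset V} {u v : V}, (u ∈ Z ∨ v ∈ Z) → 1 ≤ (Z ∩ {u, v}).card := by
    intro Z u v hu
    apply Finset.card_pos.2
    rcases hu with hu | hu
    · exact ⟨u, by simp [hu]⟩
    · exact ⟨v, by simp [hu]⟩
  have k2 : ∀ {Z : Finset V} {u v : V}, u ≠ v → u ∈ Z → v ∈ Z → (Z ∩ {u, v}).card = 2 := by
    intro Z u v huv hu hv
    rw [Finset.inter_eq_right.2, Finset.card_pair huv]
    intro y hy
    rw [Finset.mem_insert, Finset.mem_singleton] at hy
    rcases hy with rfl | rfl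
    · exact hu
    · exact hv
  by_cases hB : M.t d2 ∈ X
  · have b1 := k1 (Z := X) (u := M.t d2) (v := M.t d4) (Or.inl hB)
    by_cases hE : M.t d4 ∈ X
    · have := k2 nBE hB hE
      omega
    · by_cases hC' : M.t d3 ∈ Y
      · have b2 := k1 (Z := Y) (u := M.t d3) (v := M.t d1) (Or.inl hC')
        by_cases hA' : M.t d1 ∈ Y
        · have := k2 nAC.symm hC' hA'
          omega
        · -- `X` misses `E`, `Y` misses `A`
          refine case4_38 hl h hX hY (by omega) (by omega) q.m4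
            (cr_mem38' h q.m4 (Finset.mem_sdiff.2 ⟨hE', hE⟩) ?_) hB hB' hC hC' nBC
          rw [q.h4 h]
          exact Finset.mem_sdiff.2 ⟨hA, hA'⟩
      · by_cases hA' : M.t d1 ∈ Y
        · have b2 := k1 (Z := Y) (u := M.t d3) (v := M.t d1) (Or.inr hA')
          -- `X` misses `E`, `Y` misses `C`
          refine case4_38 hl h hX hY (by omega) (by omega) q.m3
            (cr_mem38 h q.m3 (Finset.mem_sdiff.2 ⟨hC, hC'⟩) ?_) hB hB' hA hA' nAB.symm
          rw [q.h3 h]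
          exact Finset.mem_sdiff.2 ⟨hE', hE⟩
        · exact case2_38 q h hl h3 hX hY hX3 hY3 (by omega) (by omega) hA hC hB hE hA' hC' hB' hE'
  · by_cases hE : M.t d4 ∈ X
    · have b1 := k1 (Z := X) (u := M.t d2) (v := M.t d4) (Or.inr hE)
      by_cases hC' : M.t d3 ∈ Y
      · have b2 := k1 (Z := Y) (u := M.t d3) (v := M.t d1) (Or.inl hC')
        by_cases hA' : M.t d1 ∈ Y
        · have := k2 nAC.symm hC' hA'
          omega
        · -- `X` misses `B`, `Y` misses `A`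
          refine case4_38 hl h hX hY (by omega) (by omega) q.m1
            (cr_mem38 h q.m1 (Finset.mem_sdiff.2 ⟨hA, hA'⟩) ?_) hE hE' hC hC' nCE.symm
          rw [q.h1 h]
          exact Finset.mem_sdiff.2 ⟨hB', hB⟩
      · by_cases hA' : M.t d1 ∈ Y
        · have b2 := k1 (Z := Y) (u := M.t d3) (v := M.t d1) (Or.inr hA')
          -- `X` misses `B`, `Y` misses `C`
          refine case4_38 hl h hX hY (by omega) (by omega) q.m2
            (cr_mem38' h q.m2 (Finset.mem_sdiff.2 ⟨hB', hB⟩) ?_) hE hE' hA hA' nAE.symm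
          rw [q.h2 h]
          exact Finset.mem_sdiff.2 ⟨hC, hC'⟩
        · exact case2_38 q3 h hl h3 hX hY hX3 hY3 (by omega) (by omega) hC hA hE hB hC' hA' hE' hB'
    · by_cases hC' : M.t d3 ∈ Y
      · have b2 := k1 (Z := Y) (u := M.t d3) (v := M.t d1) (Or.inl hC')
        by_cases hA' : M.t d1 ∈ Y
        · have := k2 nAC.symm hC' hA'
          omega
        · exact case2_38 q2 h hl h3 hY hX hY3 hX3 (by omega) (by omega) hB' hE' hC' hA' hB hE hC hA
      · by_cases hA' : M.t d1 ∈ Y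
        · have b2 := k1 (Z := Y) (u := M.t d3) (v := M.t d1) (Or.inr hA')
          exact case2_38 q4 h hl h3 hY hX hY3 hX3 (by omega) (by omega) hE' hB' hA' hC' hE hB hA hC
        · exact case1_38 q h hl h3 hX hY hX3 hY3 (by omega) (by omega) hA hC hB hE hA' hC' hB' hE'

end Pool.Agent.Helper37.CP
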